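import Pool.Agent.Lib.MP_c57125_an.StrictFinal

set_option autoImplicit false

open MeasureTheory ProbabilityTheory Set Filter Topology
open scoped ENNReal ContDiff BoundedContinuousFunction

namespace Pool.Agent.Lib.MP_c57125_an

/-- Auxiliary version of `AdmissiblePair` used in the proofs: the slices have uniformly bounded
mass (for pairs of finite energy this is no restriction, see `AdmissiblePair.exists_pair`). -/
structure Pair (T : ℝ) where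
  /-- the slices `μ_t` -/
  slice : Kernel ℝ ℝ
  finite_slice : IsFiniteKernel slice
  /-- the density `dm/dμ` at `(t, x)` -/
  v : ℝ × ℝ → ℝ
  measurable_v : Measurable v
  atomic : ∀ᵐ t ∂(volume.restrict (Ioo 0 T)), ∃ S : Set ℝ, S.Countable ∧ slice t Sᶜ = 0
  continuity : ∀ ζ : ℝ × ℝ → ℝ, ContDiff ℝ ∞ ζ → HasCompactSupport ζ →
    tsupport ζ ⊆ Ioo 0 T ×ˢ univ →
    ∫ p, (dt ζ p + v p * dx ζ p) ∂((volume.restrict (Ioo 0 T)) ⊗ₘ slice) = 0
  initial : ∀ f : ℝ →ᵇ ℝ, Tendsto (fun t => ∫ x, f x ∂(slice t)) (𝓝[>] 0 ⊓ ae volume) (𝓝 (f 0))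
  final : ∀ f : ℝ →ᵇ ℝ, Tendsto (fun t => ∫ x, f x ∂(slice t)) (𝓝[<] T ⊓ ae volume)
    (𝓝 (∫ x in Icc (-1 / 2) (1 / 2), f x))

/-- the measure `μ` on `(0,T) × ℝ` -/
noncomputable def Pair.meas {T : ℝ} (Q : Pair T) : Measure (ℝ × ℝ) :=
  (volume.restrict (Ioo 0 T)) ⊗ₘ Q.slice

/-- the energy `∫_0^T # supp μ_t dt + ∫ (dm/dμ)² dμ` -/
noncomputable def Pair.energy {T : ℝ} (Q : Pair T) : ℝ≥0∞ :=
  (∫⁻ t in Ioo 0 T, numSupp (Q.slice t)) + (∫⁻ p, ENNReal.ofReal (Q.v p ^ 2) ∂Q.meas)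

/-- `E(T)`, the infimum of the energy over all admissible pairs -/
noncomputable def minE (T : ℝ) : ℝ≥0∞ := ⨅ Q : Pair T, Q.energy

/-- a minimiser of `E(T)` -/
def Pair.IsMinimizer {T : ℝ} (Q : Pair T) : Prop := ∀ R : Pair T, Q.energy ≤ R.energy

/-- branching at time zero: there is no `δ` such that `μ_t` is a single Dirac mass for almost every
`t` in `(0, δ)` -/
def Pair.BranchesAtZero {T : ℝ} (Q : Pair T) : Prop :=
  ¬ ∃ δ, 0 < δ ∧ δ ≤ T ∧ ∀ᵐ t ∂(volume.restrict (Ioo 0 δ)),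
    ∃ (c : ℝ≥0∞) (x : ℝ), Q.slice t = c • Measure.dirac x

end Pool.Agent.Lib.MP_c57125_an
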