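import Mathlib

section
set_option autoImplicit false

open MeasureTheory ProbabilityTheory Set Filter Topology
open scoped ENNReal ContDiff BoundedContinuousFunction

/-!
# The one-dimensional branched transport problem

Points of the strip `(0,T) × ℝ` are written `(t, x)`, time first.
-/

namespace Pool.Agent.Lib.MP_c57125_an

/-- partial derivative in time of a function of `(t, x)` -/
noncomputable def dt (ζ : ℝ × ℝ → ℝ) (p : ℝ × ℝ) : ℝ := deriv (fun s => ζ (s, p.2)) p.1

/-- partial derivative in space of a function of `(t, x)` -/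
noncomputable def dx (ζ : ℝ × ℝ → ℝ) (p : ℝ × ℝ) : ℝ := deriv (fun y => ζ (p.1, y)) p.2

/-- number of points in the support of a measure on the line -/
noncomputable def numSupp (ν : Measure ℝ) : ℝ≥0∞ := (ν.support.encard : ℝ≥0∞)

/-- An admissible pair `(μ, m)` of measures on the strip `(0,T) × ℝ`:
* `μ = μ_t ⊗ dt` with slices `μ_t = slice t` (`μ` is finite on compact subsets of the open strip);
* `m = v μ`, so `v = dm/dμ` (`m` is finite on compact subsets of the open strip);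
* for a.e. `t` the slice `μ_t` is atomic;
* `∂_t μ + ∂_x m = 0` in the sense of distributions;
* `μ_t → δ_0` as `t → 0` and `μ_t → 1_{[-1/2,1/2]} dx` as `t → T`, weakly (the slices are defined
  for a.e. `t` only, so both limits are taken along a.e. `t`). -/
structure AdmissiblePair (T : ℝ) where
  /-- the slices `μ_t` -/
  slice : Kernel ℝ ℝ
  sfinite_slice : IsSFiniteKernel slice
  finite_on_compacts : ∀ K : Set (ℝ × ℝ), IsCompact K → K ⊆ Ioo 0 T ×ˢ univ →
    ((volume.restrict (Ioo 0 T)) ⊗ₘ slice) K < ⊤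
  /-- the density `dm/dμ` at `(t, x)` -/
  v : ℝ × ℝ → ℝ
  measurable_v : Measurable v
  integrable_v : ∀ K : Set (ℝ × ℝ), IsCompact K → K ⊆ Ioo 0 T ×ˢ univ →
    IntegrableOn v K ((volume.restrict (Ioo 0 T)) ⊗ₘ slice)
  atomic : ∀ᵐ t ∂(volume.restrict (Ioo 0 T)), ∃ S : Set ℝ, S.Countable ∧ slice t Sᶜ = 0
  continuity : ∀ ζ : ℝ × ℝ → ℝ, ContDiff ℝ ∞ ζ → HasCompactSupport ζ →
    tsupport ζ ⊆ Ioo 0 T ×ˢ univ →
    ∫ p, (dt ζ p + v p * dx ζ p) ∂((volume.restrict (Ioo 0 T)) ⊗ₘ slice) = 0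
  initial : ∀ f : ℝ →ᵇ ℝ, Tendsto (fun t => ∫ x, f x ∂(slice t)) (𝓝[>] 0 ⊓ ae volume) (𝓝 (f 0))
  final : ∀ f : ℝ →ᵇ ℝ, Tendsto (fun t => ∫ x, f x ∂(slice t)) (𝓝[<] T ⊓ ae volume)
    (𝓝 (∫ x in Icc (-1 / 2) (1 / 2), f x))

namespace AdmissiblePair

variable {T : ℝ}

/-- the measure `μ` on the strip -/
noncomputable def meas (A : AdmissiblePair T) : Measure (ℝ × ℝ) :=
  (volume.restrict (Ioo 0 T)) ⊗ₘ A.slice

/-- the energy `∫_0^T # supp μ_t dt + ∫ (dm/dμ)² dμ` -/
noncomputable def energy (A : AdmissiblePair T) : ℝ≥0∞ :=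
  (∫⁻ t in Ioo 0 T, numSupp (A.slice t)) + (∫⁻ p, ENNReal.ofReal (A.v p ^ 2) ∂A.meas)

/-- a minimiser of `E(T)` -/
def IsMinimizer (A : AdmissiblePair T) : Prop := ∀ B : AdmissiblePair T, A.energy ≤ B.energy

/-- branching at time zero: there is no `δ` such that `μ_t` is a single Dirac mass for almost every
`t` in `(0, δ)` -/
def BranchesAtZero (A : AdmissiblePair T) : Prop :=
  ¬ ∃ δ, 0 < δ ∧ δ ≤ T ∧ ∀ᵐ t ∂(volume.restrict (Ioo 0 δ)),
    ∃ (c : ℝ≥0∞) (x : ℝ), A.slice t = c • Measure.dirac x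

end AdmissiblePair

/-- `E(T)`, the infimum of the energy over all admissible pairs -/
noncomputable def minEnergy (T : ℝ) : ℝ≥0∞ := ⨅ A : AdmissiblePair T, A.energy

end Pool.Agent.Lib.MP_c57125_an
end

section
set_option autoImplicit false

open Set Filter Topology

namespace Pool.Agent.Lib.MP_c57125_an

/-- `Reach T c`: the cost `c` is realised, for unit mass and total time `T`, by a finite tree whose
last branches are replaced by a standard infinite tail. -/
inductive Reach : ℝ → ℝ → Prop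
  | tail (T : ℝ) (hT : 0 < T) : Reach T (5 * T + 3 / (8 * T))
  | wait (T c ε : ℝ) (hε : 0 ≤ ε) (h : Reach T c) : Reach (T + ε) (c + ε)
  | split (T p q c d : ℝ) (hT : 0 < T) (hp : 0 < p) (hq : 0 < q) (hpq : p + q = 1)
      (hc : Reach (T / (p * √p)) c) (hd : Reach (T / (q * √q)) d) :
      Reach T (p * √p * c + q * √q * d + p * q / (4 * T))

theorem Reach.pos {T c : ℝ} (h : Reach T c) : 0 < T := by
  induction h with
  | tail T hT => exact hT
  | wait T c ε hε h ih => linarith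
  | split T p q c d hT hp hq hpq hc hd ihc ihd => exact hT

theorem m32_pos {p : ℝ} (hp : 0 < p) : 0 < p * √p := mul_pos hp (Real.sqrt_pos.2 hp)

theorem m32_sq {p : ℝ} (hp : 0 ≤ p) : (p * √p) ^ 2 = p ^ 3 := by
  rw [mul_pow, Real.sq_sqrt hp]; ring

theorem Reach.lower {T c : ℝ} (h : Reach T c) : T + 1 / (12 * T) ≤ c := by
  induction h with
  | tail T hT =>
    have h1 : 1 / (12 * T) ≤ 3 / (8 * T) := by
      rw [div_le_div_iff₀ (by positivity) (by positivity)]; nlinarith
    nlinarith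
  | wait T c ε hε h ih =>
    have hT := h.pos
    have h1 : 1 / (12 * (T + ε)) ≤ 1 / (12 * T) := by
      apply one_div_le_one_div_of_le (by positivity); linarith
    linarith
  | split T p q c d hT hp hq hpq hc hd ihc ihd =>
    have hp' := m32_pos hp
    have hq' := m32_pos hq
    have h1 : T + p ^ 3 / (12 * T) ≤ p * √p * c := by
      have := mul_le_mul_of_nonneg_left ihc hp'.le
      refine le_trans (le_of_eq ?_) this
      rw [mul_add, mul_div_cancel₀ _ hp'.ne']
      congr 1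
      rw [← m32_sq hp.le]
      field_simp
    have h2 : T + q ^ 3 / (12 * T) ≤ q * √q * d := by
      have := mul_le_mul_of_nonneg_left ihd hq'.le
      refine le_trans (le_of_eq ?_) this
      rw [mul_add, mul_div_cancel₀ _ hq'.ne']
      congr 1
      rw [← m32_sq hq.le]
      field_simp
    have h3 : p ^ 3 / (12 * T) + q ^ 3 / (12 * T) + p * q / (4 * T) = 1 / (12 * T) := by
      have hq1 : q = 1 - p := by linarith
      subst hq1
      field_simp
      ring
    linarith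

theorem Reach.lower' {T c : ℝ} (h : Reach T c) : T ≤ c := by
  have h1 := h.lower
  have h2 := h.pos
  have : 0 < 1 / (12 * T) := by positivity
  linarith

/-- compressing time -/
theorem Reach.scale {T c : ℝ} (h : Reach T c) {s : ℝ} (hs : 0 < s) (hs1 : s ≤ 1) :
    ∃ c', c' ≤ c / s ∧ Reach (s * T) c' := by
  induction h with
  | tail T hT =>
    refine ⟨_, ?_, Reach.tail (s * T) (by positivity)⟩
    have h1 : 5 * (s * T) ≤ 5 * T / s := by
      rw [le_div_iff₀ hs]; nlinarith [mul_pos hs hT]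
    have h2 : 3 / (8 * (s * T)) = 3 / (8 * T) / s := by field_simp
    rw [h2, add_div]; linarith
  | wait T c ε hε h ih =>
    obtain ⟨c', hc', hr⟩ := ih
    refine ⟨c' + s * ε, ?_, ?_⟩
    · have : s * ε ≤ ε / s := by
        rw [le_div_iff₀ hs]; nlinarith [mul_nonneg hs.le hε]
      rw [add_div]; linarith
    · rw [mul_add]
      exact Reach.wait _ _ _ (by positivity) hr
  | split T p q c d hT hp hq hpq hc hd ihc ihd =>
    obtain ⟨c', hc', hrc⟩ := ihc
    obtain ⟨d', hd', hrd⟩ := ihd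
    have hp' := m32_pos hp
    have hq' := m32_pos hq
    refine ⟨_, ?_, Reach.split (s * T) p q c' d' (by positivity) hp hq hpq ?_ ?_⟩
    · have h1 : p * √p * c' ≤ p * √p * c / s := by
        rw [mul_div_assoc]; exact mul_le_mul_of_nonneg_left hc' hp'.le
      have h2 : q * √q * d' ≤ q * √q * d / s := by
        rw [mul_div_assoc]; exact mul_le_mul_of_nonneg_left hd' hq'.le
      have h3 : p * q / (4 * (s * T)) = p * q / (4 * T) / s := by field_simp
      rw [h3, add_div, add_div]; linarith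
    · rw [mul_div_assoc]; exact hrc
    · rw [mul_div_assoc]; exact hrd

/-- the value function of the tree model -/
noncomputable def e (T : ℝ) : ℝ := sInf {c | Reach T c}

theorem bddBelow_reach (T : ℝ) : BddBelow {c | Reach T c} :=
  ⟨T, fun _ hc => hc.lower'⟩

theorem nonempty_reach {T : ℝ} (hT : 0 < T) : {c | Reach T c}.Nonempty := ⟨_, Reach.tail T hT⟩

theorem e_le {T c : ℝ} (h : Reach T c) : e T ≤ c := csInf_le (bddBelow_reach T) h

theorem le_e {T a : ℝ} (hT : 0 < T) (h : ∀ c, Reach T c → a ≤ c) : a ≤ e T :=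
  le_csInf (nonempty_reach hT) h

theorem exists_reach_lt {T a : ℝ} (hT : 0 < T) (h : e T < a) : ∃ c, Reach T c ∧ c < a := by
  obtain ⟨c, hc, hlt⟩ := exists_lt_of_csInf_lt (nonempty_reach hT) h
  exact ⟨c, hc, hlt⟩

theorem e_lower {T : ℝ} (hT : 0 < T) : T + 1 / (12 * T) ≤ e T := le_e hT fun _ h => h.lower

theorem e_lower' {T : ℝ} (hT : 0 < T) : T < e T := by
  have := e_lower hT
  have h2 : 0 < 1 / (12 * T) := by positivity
  linarith

theorem e_upper {T : ℝ} (hT : 0 < T) : e T ≤ 5 * T + 3 / (8 * T) := e_le (Reach.tail T hT)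

theorem e_pos {T : ℝ} (hT : 0 < T) : 0 < e T := by linarith [e_lower' hT]

/-- (A1) -/
theorem e_add_le {T ε : ℝ} (hT : 0 < T) (hε : 0 ≤ ε) : e (T + ε) ≤ e T + ε := by
  have : e (T + ε) - ε ≤ e T := le_e hT fun c hc => by
    have := e_le (Reach.wait T c ε hε hc); linarith
  linarith

theorem e_mono_sub {T T' : ℝ} (hT : 0 < T) (h : T ≤ T') : e T' ≤ e T + (T' - T) := by
  have := e_add_le hT (sub_nonneg.2 h)
  rwa [add_sub_cancel] at this

/-- (A2) -/
theorem e_scale {T s : ℝ} (hT : 0 < T) (hs : 0 < s) (hs1 : s ≤ 1) : e (s * T) ≤ e T / s := by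
  rw [le_div_iff₀ hs]
  apply le_e hT
  intro c hc
  obtain ⟨c', hc', hr⟩ := hc.scale hs hs1
  have := e_le hr
  rw [← le_div_iff₀ hs]
  linarith

theorem e_scale' {T T' : ℝ} (hT : 0 < T) (h : T ≤ T') : e T ≤ e T' * T' / T := by
  have hT' : 0 < T' := lt_of_lt_of_le hT h
  have h1 := e_scale (T := T') (s := T / T') hT' (by positivity) (by rwa [div_le_one hT'])
  rw [div_mul_cancel₀ _ hT'.ne'] at h1
  refine h1.trans (le_of_eq ?_)
  field_simp

theorem e_continuousAt {T : ℝ} (hT : 0 < T) : ContinuousAt e T := by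
  have h1 : Tendsto (fun T' : ℝ => min (e T * T / T') (e T - |T' - T|)) (𝓝 T) (𝓝 (e T)) := by
    have ha : Tendsto (fun T' : ℝ => e T * T / T') (𝓝 T) (𝓝 (e T * T / T)) :=
      (continuousAt_const.div continuousAt_id hT.ne').tendsto
    have hb : Tendsto (fun T' : ℝ => e T - |T' - T|) (𝓝 T) (𝓝 (e T - |T - T|)) :=
      Continuous.tendsto (by fun_prop) T
    simpa [mul_div_assoc, div_self hT.ne'] using ha.min hb
  have h2 : Tendsto (fun T' : ℝ => max (e T * T / T') (e T + |T' - T|)) (𝓝 T) (𝓝 (e T)) := by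
    have ha : Tendsto (fun T' : ℝ => e T * T / T') (𝓝 T) (𝓝 (e T * T / T)) :=
      (continuousAt_const.div continuousAt_id hT.ne').tendsto
    have hb : Tendsto (fun T' : ℝ => e T + |T' - T|) (𝓝 T) (𝓝 (e T + |T - T|)) :=
      Continuous.tendsto (by fun_prop) T
    simpa [mul_div_assoc, div_self hT.ne'] using ha.max hb
  refine tendsto_of_tendsto_of_tendsto_of_le_of_le' h1 h2 ?_ ?_
  · filter_upwards [lt_mem_nhds hT] with T' hT'
    rcases le_total T T' with h | h
    · apply min_le_of_left_le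
      have := e_scale' hT h
      rw [div_le_iff₀ hT']
      rw [le_div_iff₀ hT] at this
      exact this
    · apply min_le_of_right_le
      have := e_mono_sub hT' h
      rw [abs_of_nonpos (by linarith)]; linarith
  · filter_upwards [lt_mem_nhds hT] with T' hT'
    rcases le_total T T' with h | h
    · apply le_max_of_le_right
      have := e_mono_sub hT h
      rw [abs_of_nonneg (by linarith)]; linarith
    · apply le_max_of_le_left
      exact e_scale' hT' h

/-- mass dependent value -/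
noncomputable def Eh (T m : ℝ) : ℝ := m * √m * e (T / (m * √m))

theorem Eh_one (T : ℝ) : Eh T 1 = e T := by simp [Eh]

theorem Eh_lower {T m : ℝ} (hT : 0 < T) (hm : 0 < m) : T < Eh T m := by
  have hm' := m32_pos hm
  have := e_lower' (T := T / (m * √m)) (by positivity)
  rw [div_lt_iff₀ hm'] at this
  unfold Eh; linarith

theorem Eh_mono_sub {T T' m : ℝ} (hT : 0 < T) (hm : 0 < m) (h : T ≤ T') :
    Eh T' m ≤ Eh T m + (T' - T) := by
  have hm' := m32_pos hm
  have h1 := e_mono_sub (T := T / (m * √m)) (T' := T' / (m * √m)) (by positivity) (by gcongr)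
  have h2 := mul_le_mul_of_nonneg_left h1 hm'.le
  unfold Eh
  refine h2.trans (le_of_eq ?_)
  field_simp

theorem e_split {T p q : ℝ} (hT : 0 < T) (hp : 0 < p) (hq : 0 < q) (hpq : p + q = 1) :
    e T ≤ Eh T p + Eh T q + p * q / (4 * T) := by
  have hp' := m32_pos hp
  have hq' := m32_pos hq
  by_contra hcon
  push Not at hcon
  set δ := e T - (Eh T p + Eh T q + p * q / (4 * T)) with hδ
  have hδ0 : 0 < δ := by rw [hδ]; linarith
  obtain ⟨c, hc, hc'⟩ := exists_reach_lt (T := T / (p * √p)) (a := e (T / (p * √p)) + δ / (4 * (p * √p)))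
    (by positivity) (by have : 0 < δ / (4 * (p * √p)) := by positivity
                        linarith)
  obtain ⟨d, hd, hd'⟩ := exists_reach_lt (T := T / (q * √q)) (a := e (T / (q * √q)) + δ / (4 * (q * √q)))
    (by positivity) (by have : 0 < δ / (4 * (q * √q)) := by positivity
                        linarith)
  have h1 := e_le (Reach.split T p q c d hT hp hq hpq hc hd)
  have h2 : p * √p * c < Eh T p + δ / 4 := by
    have := mul_lt_mul_of_pos_left hc' hp'
    refine this.trans_le (le_of_eq ?_)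
    unfold Eh; field_simp
  have h3 : q * √q * d < Eh T q + δ / 4 := by
    have := mul_lt_mul_of_pos_left hd' hq'
    refine this.trans_le (le_of_eq ?_)
    unfold Eh; field_simp
  linarith

/-- homogeneity of `Eh` -/
theorem Eh_homog {T m k : ℝ} (hm : 0 < m) (hk : 0 < k) :
    Eh (k * √k * T) (k * m) = k * √k * Eh T m := by
  have hk' := m32_pos hk
  have hm' := m32_pos hm
  have h1 : k * m * √(k * m) = (k * √k) * (m * √m) := by
    rw [Real.sqrt_mul hk.le]; ring
  unfold Eh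
  rw [h1, mul_div_mul_left _ _ hk'.ne']
  ring

theorem Eh_split {T p q : ℝ} (hT : 0 < T) (hp : 0 < p) (hq : 0 < q) :
    Eh T (p + q) ≤ Eh T p + Eh T q + p * q * (p + q) / (4 * T) := by
  set m := p + q with hm
  have hm0 : 0 < m := by positivity
  have hm' := m32_pos hm0
  have h1 := e_split (T := T / (m * √m)) (p := p / m) (q := q / m) (by positivity) (by positivity)
    (by positivity) (by rw [← add_div, ← hm, div_self hm0.ne'])
  have h2 := mul_le_mul_of_nonneg_left h1 hm'.le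
  have h3 : m * √m * Eh (T / (m * √m)) (p / m) = Eh T p := by
    rw [← Eh_homog (by positivity) hm0]
    congr 1 <;> field_simp
  have h4 : m * √m * Eh (T / (m * √m)) (q / m) = Eh T q := by
    rw [← Eh_homog (by positivity) hm0]
    congr 1 <;> field_simp
  have h5 : m * √m * (p / m * (q / m) / (4 * (T / (m * √m)))) = p * q * m / (4 * T) := by
    have : (m * √m) * (m * √m) = m ^ 3 := by rw [← m32_sq hm0.le]; ring
    rw [show m * √m * (p / m * (q / m) / (4 * (T / (m * √m)))) =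
      ((m * √m) * (m * √m)) * (p * q / (m * m) / (4 * T)) by field_simp, this]
    field_simp
  rw [mul_add, mul_add, h3, h4, h5] at h2
  exact h2

theorem Eh_continuousAt {T m : ℝ} (hT : 0 < T) (hm : 0 < m) :
    ContinuousAt (fun x : ℝ × ℝ => Eh x.1 x.2) (T, m) := by
  have hm' := m32_pos hm
  have h0 : ContinuousAt (fun x : ℝ × ℝ => x.2 * √x.2) (T, m) := by fun_prop
  have h1 : ContinuousAt (fun x : ℝ × ℝ => x.1 / (x.2 * √x.2)) (T, m) :=
    continuousAt_fst.div h0 hm'.ne'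
  have h2 : ContinuousAt e ((fun x : ℝ × ℝ => x.1 / (x.2 * √x.2)) (T, m)) :=
    e_continuousAt (T := T / (m * √m)) (by positivity)
  exact h0.mul (ContinuousAt.comp (g := e) (f := fun x : ℝ × ℝ => x.1 / (x.2 * √x.2)) h2 h1)

/-- the slicing property (S2) -/
theorem Reach.slice {T c : ℝ} (h : Reach T c) : ∀ t, 0 < t → t < T →
    (e (T - t) + t ≤ c) ∨
    ∃ t' p q, 0 ≤ t' ∧ t' < t ∧ 0 < p ∧ 0 < q ∧ p + q = 1 ∧
      Eh (T - t') p + Eh (T - t') q + p * q / (4 * (T - t')) + t' ≤ c := by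
  induction h with
  | tail T hT =>
    intro t ht htT
    right
    refine ⟨0, 1 / 2, 1 / 2, le_rfl, ht, by norm_num, by norm_num, by norm_num, ?_⟩
    have hs : (0 : ℝ) < √(1 / 2) := by positivity
    have hs2 : √(1 / 2 : ℝ) ^ 2 = 1 / 2 := Real.sq_sqrt (by norm_num)
    have hs1 : √(1 / 2 : ℝ) ≤ 0.70711 := by
      rw [Real.sqrt_le_left (by norm_num)]; norm_num
    -- e (T / (1/2 * √(1/2))) ≤ e T + (T / (1/2*√(1/2)) - T)
    have hk : (0 : ℝ) < 1 / 2 * √(1 / 2) := by positivity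
    have h1 : T ≤ T / (1 / 2 * √(1 / 2)) := by
      rw [le_div_iff₀ hk]; nlinarith
    have h2 := e_mono_sub hT h1
    have h3 := e_upper hT
    have h4 : Eh T (1 / 2) ≤ (1 / 2 * √(1 / 2)) * (5 * T + 3 / (8 * T) - T) + T := by
      unfold Eh
      have := mul_le_mul_of_nonneg_left (h2.trans (add_le_add_left h3 _)) hk.le
      refine this.trans (le_of_eq ?_)
      field_simp
      ring
    simp only [sub_zero, add_zero]
    have h5 : 0 < 1 / T := by positivity
    have h6 : (3 : ℝ) / (8 * T) = 3 / 8 * (1 / T) := by field_simp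
    have h7 : (1 / 2 * (1 / 2) : ℝ) / (4 * T) = 1 / 16 * (1 / T) := by field_simp; norm_num
    rw [h6] at h4
    rw [h6, h7]
    nlinarith [mul_pos hs hT, mul_pos hs h5]
  | wait T c ε hε h ih =>
    intro t ht htT
    have hT := h.pos
    rcases le_or_gt t ε with hte | hte
    · left
      have := e_le (Reach.wait T c (ε - t) (by linarith) h)
      rw [show T + (ε - t) = T + ε - t by ring] at this
      linarith
    · rcases ih (t - ε) (by linarith) (by linarith) with h1 | ⟨t', p, q, h1, h2, h3, h4, h5, h6⟩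
      · left
        rw [show T - (t - ε) = T + ε - t by ring] at h1
        linarith
      · right
        refine ⟨t' + ε, p, q, by linarith, by linarith, h3, h4, h5, ?_⟩
        rw [show T + ε - (t' + ε) = T - t' by ring]
        linarith
  | split T p q c d hT hp hq hpq hc hd ihc ihd =>
    intro t ht htT
    right
    refine ⟨0, p, q, le_rfl, ht, hp, hq, hpq, ?_⟩
    simp only [sub_zero, add_zero]
    have h1 : Eh T p ≤ p * √p * c := mul_le_mul_of_nonneg_left (e_le hc) (m32_pos hp).le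
    have h2 : Eh T q ≤ q * √q * d := mul_le_mul_of_nonneg_left (e_le hd) (m32_pos hq).le
    linarith

end Pool.Agent.Lib.MP_c57125_an
end

section
set_option autoImplicit false

open Set Filter Topology MeasureTheory

namespace Pool.Agent.Lib.MP_c57125_an

/-- subadditive version of the mass dependent value -/
noncomputable def Et (S p : ℝ) : ℝ := Eh S p - p ^ 3 / (12 * S)

theorem Et_zero (S : ℝ) : Et S 0 = 0 := by simp [Et, Eh]

theorem Et_add {S p q : ℝ} (hS : 0 < S) (hp : 0 ≤ p) (hq : 0 ≤ q) :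
    Et S (p + q) ≤ Et S p + Et S q := by
  rcases hp.eq_or_lt with h | h
  · rw [← h, Et_zero]; simp
  rcases hq.eq_or_lt with h' | h'
  · rw [← h', Et_zero]; simp
  have h1 := Eh_split hS h h'
  unfold Et
  have h2 : p * q * (p + q) / (4 * S) - (p + q) ^ 3 / (12 * S) =
      - (p ^ 3 / (12 * S)) - q ^ 3 / (12 * S) := by field_simp; ring
  linarith

theorem Et_sum {ι : Type*} {S : ℝ} (hS : 0 < S) (s : Finset ι) (p : ι → ℝ) (hp : ∀ i ∈ s, 0 ≤ p i) :
    Et S (∑ i ∈ s, p i) ≤ ∑ i ∈ s, Et S (p i) := by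
  classical
  induction s using Finset.induction_on with
  | empty => simp [Et_zero]
  | insert a s ha ih =>
    rw [Finset.sum_insert ha, Finset.sum_insert ha]
    have h1 := ih (fun i hi => hp i (Finset.mem_insert_of_mem hi))
    have h2 := Et_add hS (hp a (Finset.mem_insert_self _ _))
      (Finset.sum_nonneg fun i hi => hp i (Finset.mem_insert_of_mem hi) : 0 ≤ ∑ i ∈ s, p i)
    linarith

section

variable {Ω : Type*} [MeasurableSpace Ω] (P : Measure Ω) [IsProbabilityMeasure P] (Z : Ω → ℝ)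

/-- the target map spreads every set at least as much as an interval -/
def Spread : Prop := ∀ A : Set Ω, MeasurableSet A → ∀ c : ℝ,
  P.real A ^ 3 / 12 ≤ ∫ ω in A, (Z ω - c) ^ 2 ∂P

/-- value of a configuration -/
noncomputable def W (S : ℝ) (X : SimpleFunc Ω ℝ) : ℝ :=
  ∑ a ∈ X.range, Et S (P.real (X ⁻¹' {a})) + (1 / S) * ∫ ω, (X ω - Z ω) ^ 2 ∂P

variable {P Z}

/-- one segment, one piece -/
theorem step_piece (hZm : Measurable Z) {M : ℝ} (hZb : ∀ ω, |Z ω| ≤ M) (hsp : Spread P Z)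
    {A : Set Ω} (hA : MeasurableSet A) {S Δ : ℝ} (hΔ : 0 < Δ) (hΔS : Δ < S) (x x' : ℝ) :
    Et S (P.real A) + (1 / S) * ∫ ω in A, (x - Z ω) ^ 2 ∂P ≤
      Δ + (1 / Δ) * (P.real A * (x' - x) ^ 2) + (Et (S - Δ) (P.real A) +
        (1 / (S - Δ)) * ∫ ω in A, (x' - Z ω) ^ 2 ∂P) := by
  set p := P.real A with hp
  have hp0 : 0 ≤ p := measureReal_nonneg
  have hS : 0 < S := by linarith
  have hSΔ : 0 < S - Δ := by linarith
  rcases hp0.eq_or_lt with h0 | h0
  · -- null set
    have hA0 : P A = 0 := by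
      rw [hp, Measure.real, eq_comm, ENNReal.toReal_eq_zero_iff] at h0
      exact h0.resolve_right (measure_ne_top _ _)
    rw [Measure.restrict_eq_zero.2 hA0, ← h0, Et_zero, Et_zero]
    simp
    positivity
  -- integrals
  have hZi : Integrable Z (P.restrict A) := by
    apply Integrable.of_bound hZm.aestronglyMeasurable M
    exact Eventually.of_forall fun ω => by rw [Real.norm_eq_abs]; exact hZb ω
  have hZ2i : Integrable (fun ω => Z ω ^ 2) (P.restrict A) := by
    apply Integrable.of_bound (hZm.pow_const 2).aestronglyMeasurable (M ^ 2)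
    exact Eventually.of_forall fun ω => by
      rw [Real.norm_eq_abs, abs_pow]
      exact pow_le_pow_left₀ (abs_nonneg _) (hZb ω) 2
  set m1 := ∫ ω in A, Z ω ∂P with hm1
  set m2 := ∫ ω in A, Z ω ^ 2 ∂P with hm2
  have hexp : ∀ y : ℝ, ∫ ω in A, (y - Z ω) ^ 2 ∂P = p * y ^ 2 - 2 * y * m1 + m2 := by
    intro y
    have h1 : ∀ ω, (y - Z ω) ^ 2 = y ^ 2 - 2 * y * Z ω + Z ω ^ 2 := fun ω => by ring
    simp_rw [h1]
    rw [integral_add, integral_sub, integral_const_mul]
    · simp [hp, hm1, hm2]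
    · exact integrable_const _
    · exact hZi.const_mul _
    · exact (integrable_const _).sub (hZi.const_mul _)
    · exact hZ2i
  have hvar : p ^ 3 / 12 ≤ m2 - m1 ^ 2 / p := by
    have h1 := hsp A hA (m1 / p)
    have h2 : ∫ ω in A, (Z ω - m1 / p) ^ 2 ∂P = ∫ ω in A, (m1 / p - Z ω) ^ 2 ∂P := by
      congr 1; ext ω; ring
    rw [h2, hexp] at h1
    rw [← hp] at h1
    refine h1.trans (le_of_eq ?_)
    field_simp
    ring
  rw [hexp, hexp]
  have hE := Eh_mono_sub (T := S - Δ) (T' := S) (m := p) hSΔ h0 (by linarith)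
  rw [show S - (S - Δ) = Δ by ring] at hE
  unfold Et
  -- variance part
  set V := m2 - m1 ^ 2 / p with hV
  set c := m1 / p with hc
  have h3 : ∀ y : ℝ, p * y ^ 2 - 2 * y * m1 + m2 = p * (y - c) ^ 2 + V := by
    intro y
    rw [hc, hV]; field_simp; ring
  rw [h3, h3]
  have h4 : (1 / S) * (V - p ^ 3 / 12) ≤ (1 / (S - Δ)) * (V - p ^ 3 / 12) := by
    apply mul_le_mul_of_nonneg_right _ (by linarith)
    exact one_div_le_one_div_of_le hSΔ (by linarith)
  have h5 : (1 / S) * (x - c) ^ 2 ≤ (1 / Δ) * (x' - x) ^ 2 + (1 / (S - Δ)) * (x' - c) ^ 2 := by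
    have h6 : (1 / Δ) * (x' - x) ^ 2 + (1 / (S - Δ)) * (x' - c) ^ 2 - (1 / S) * (x - c) ^ 2 =
        (S - Δ) * Δ / S * ((x' - x) / Δ + (x' - c) / (S - Δ)) ^ 2 := by
      field_simp
      ring
    have h7 : 0 ≤ (S - Δ) * Δ / S * ((x' - x) / Δ + (x' - c) / (S - Δ)) ^ 2 := by positivity
    linarith
  have h8 := mul_le_mul_of_nonneg_left h5 h0.le
  have e1 : (1 / S) * (p * (x - c) ^ 2 + V) = p * ((1 / S) * (x - c) ^ 2) + (1 / S) * V := by ring
  have e2 : (1 / (S - Δ)) * (p * (x' - c) ^ 2 + V) =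
    p * ((1 / (S - Δ)) * (x' - c) ^ 2) + (1 / (S - Δ)) * V := by ring
  have e3 : p ^ 3 / (12 * S) = (1 / S) * (p ^ 3 / 12) := by field_simp
  have e4 : p ^ 3 / (12 * (S - Δ)) = (1 / (S - Δ)) * (p ^ 3 / 12) := by field_simp
  rw [e1, e2, e3, e4]
  have e5 : (1 / S) * (V - p ^ 3 / 12) = (1 / S) * V - (1 / S) * (p ^ 3 / 12) := by ring
  have e6 : (1 / (S - Δ)) * (V - p ^ 3 / 12) =
    (1 / (S - Δ)) * V - (1 / (S - Δ)) * (p ^ 3 / 12) := by ring
  rw [e5, e6] at h4
  have e7 : p * ((1 / Δ) * (x' - x) ^ 2 + (1 / (S - Δ)) * (x' - c) ^ 2) =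
    (1 / Δ) * (p * (x' - x) ^ 2) + p * ((1 / (S - Δ)) * (x' - c) ^ 2) := by ring
  rw [e7] at h8
  linarith

theorem integral_fiber (X : SimpleFunc Ω ℝ) (f : Ω → ℝ) (hf : Integrable f P) :
    ∫ ω, f ω ∂P = ∑ a ∈ X.range, ∫ ω in X ⁻¹' {a}, f ω ∂P := by
  rw [← integral_biUnion_finset]
  · have : (⋃ a ∈ X.range, X ⁻¹' {a}) = univ := by
      ext ω; simp
    rw [this, setIntegral_univ]
  · intro a _; exact X.measurableSet_fiber a
  · intro a _ b _ hab
    exact Disjoint.preimage _ (by simpa using hab)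
  · intro a _; exact hf.integrableOn

theorem integrable_of_bdd {f : Ω → ℝ} (hf : Measurable f) {M : ℝ} (hM : ∀ ω, |f ω| ≤ M) :
    Integrable f P :=
  Integrable.of_bound hf.aestronglyMeasurable M (Eventually.of_forall fun ω => by
    rw [Real.norm_eq_abs]; exact hM ω)

theorem simple_bdd (X : SimpleFunc Ω ℝ) : ∃ C, ∀ ω, |X ω| ≤ C := by
  obtain ⟨C, hC⟩ := X.exists_forall_norm_le
  exact ⟨C, hC⟩

/-- one step of the discrete dynamics -/
theorem step_W (hZm : Measurable Z) {M : ℝ} (hZb : ∀ ω, |Z ω| ≤ M) (hsp : Spread P Z)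
    (Y : SimpleFunc Ω ℝ) (ρ : ℝ → ℝ) {S Δ : ℝ} (hΔ : 0 < Δ) (hΔS : Δ < S) :
    W P Z S (Y.map ρ) ≤ Δ * Y.range.card + (1 / Δ) * ∫ ω, (Y ω - Y.map ρ ω) ^ 2 ∂P +
      W P Z (S - Δ) Y := by
  classical
  have hS : 0 < S := by linarith
  obtain ⟨C, hC⟩ := simple_bdd Y
  obtain ⟨C', hC'⟩ := simple_bdd (Y.map ρ)
  have hi1 : Integrable (fun ω => (Y.map ρ ω - Z ω) ^ 2) P := by
    apply integrable_of_bdd (((Y.map ρ).measurable.sub hZm).pow_const 2) (M := (C' + M) ^ 2)
    intro ω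
    rw [abs_pow]
    apply pow_le_pow_left₀ (abs_nonneg _)
    exact (abs_sub _ _).trans (add_le_add (hC' ω) (hZb ω))
  have hi2 : Integrable (fun ω => (Y ω - Z ω) ^ 2) P := by
    apply integrable_of_bdd ((Y.measurable.sub hZm).pow_const 2) (M := (C + M) ^ 2)
    intro ω
    rw [abs_pow]
    apply pow_le_pow_left₀ (abs_nonneg _)
    exact (abs_sub _ _).trans (add_le_add (hC ω) (hZb ω))
  have hi3 : Integrable (fun ω => (Y ω - Y.map ρ ω) ^ 2) P := by
    apply integrable_of_bdd ((Y.measurable.sub (Y.map ρ).measurable).pow_const 2) (M := (C + C') ^ 2)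
    intro ω
    rw [abs_pow]
    apply pow_le_pow_left₀ (abs_nonneg _)
    exact (abs_sub _ _).trans (add_le_add (hC ω) (hC' ω))
  -- the sum part
  have hsum : ∑ b ∈ (Y.map ρ).range, Et S (P.real ((Y.map ρ) ⁻¹' {b})) ≤
      ∑ a ∈ Y.range, Et S (P.real (Y ⁻¹' {a})) := by
    rw [SimpleFunc.range_map]
    have h1 : ∀ b ∈ Y.range.image ρ, Et S (P.real ((Y.map ρ) ⁻¹' {b})) ≤
        ∑ a ∈ Y.range with ρ a = b, Et S (P.real (Y ⁻¹' {a})) := by
      intro b _
      have h2 : P.real ((Y.map ρ) ⁻¹' {b}) = ∑ a ∈ Y.range with ρ a = b, P.real (Y ⁻¹' {a}) := by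
        rw [← measureReal_biUnion_finset]
        · congr 1
          ext ω
          simp only [SimpleFunc.coe_map, mem_preimage, Function.comp, mem_singleton_iff,
            Finset.mem_filter, mem_iUnion, exists_prop, SimpleFunc.mem_range]
          constructor
          · intro h; exact ⟨Y ω, ⟨⟨ω, rfl⟩, h⟩, rfl⟩
          · rintro ⟨a, ⟨_, h2⟩, h3⟩; rw [h3, h2]
        · intro a _ a' _ haa
          exact Disjoint.preimage _ (by simpa using haa)
        · intro a _; exact Y.measurableSet_fiber a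
      rw [h2]
      exact Et_sum hS _ _ fun _ _ => measureReal_nonneg
    refine (Finset.sum_le_sum h1).trans (le_of_eq ?_)
    exact Finset.sum_fiberwise_of_maps_to (fun a ha => Finset.mem_image_of_mem ρ ha) _
  unfold W
  rw [integral_fiber Y _ hi1, integral_fiber Y _ hi2, integral_fiber Y _ hi3]
  have hpiece : ∀ a ∈ Y.range,
      Et S (P.real (Y ⁻¹' {a})) + (1 / S) * ∫ ω in Y ⁻¹' {a}, (Y.map ρ ω - Z ω) ^ 2 ∂P ≤
      Δ + (1 / Δ) * (∫ ω in Y ⁻¹' {a}, (Y ω - Y.map ρ ω) ^ 2 ∂P) +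
        (Et (S - Δ) (P.real (Y ⁻¹' {a})) +
        (1 / (S - Δ)) * ∫ ω in Y ⁻¹' {a}, (Y ω - Z ω) ^ 2 ∂P) := by
    intro a _
    have h1 := step_piece hZm hZb hsp (Y.measurableSet_fiber a) hΔ hΔS (ρ a) a
    have e1 : ∫ ω in Y ⁻¹' {a}, (Y.map ρ ω - Z ω) ^ 2 ∂P = ∫ ω in Y ⁻¹' {a}, (ρ a - Z ω) ^ 2 ∂P := by
      apply setIntegral_congr_fun (Y.measurableSet_fiber a)
      intro ω hω
      have hω' : Y ω = a := hω
      simp [hω']
    have e2 : ∫ ω in Y ⁻¹' {a}, (Y ω - Y.map ρ ω) ^ 2 ∂P = P.real (Y ⁻¹' {a}) * (a - ρ a) ^ 2 := by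
      rw [setIntegral_congr_fun (g := fun _ => (a - ρ a) ^ 2) (Y.measurableSet_fiber a)]
      · simp
      · intro ω hω
        have hω' : Y ω = a := hω
        simp [hω']
    have e3 : ∫ ω in Y ⁻¹' {a}, (Y ω - Z ω) ^ 2 ∂P = ∫ ω in Y ⁻¹' {a}, (a - Z ω) ^ 2 ∂P := by
      apply setIntegral_congr_fun (Y.measurableSet_fiber a)
      intro ω hω
      have hω' : Y ω = a := hω
      simp [hω']
    rw [e1, e2, e3]
    exact h1
  have htot := Finset.sum_le_sum hpiece
  simp only [Finset.sum_add_distrib, ← Finset.mul_sum, Finset.sum_const, nsmul_eq_mul] at htot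
  linarith

end

end Pool.Agent.Lib.MP_c57125_an
end

section
set_option autoImplicit false

open Set Filter Topology MeasureTheory

namespace Pool.Agent.Lib.MP_c57125_an

variable {Ω : Type*} [MeasurableSpace Ω] {P : Measure Ω} [IsProbabilityMeasure P] {Z : Ω → ℝ}

theorem integrable_sq_diff (X Y : SimpleFunc Ω ℝ) : Integrable (fun ω => (X ω - Y ω) ^ 2) P := by
  obtain ⟨C, hC⟩ := simple_bdd X
  obtain ⟨C', hC'⟩ := simple_bdd Y
  apply integrable_of_bdd ((X.measurable.sub Y.measurable).pow_const 2) (M := (C + C') ^ 2)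
  intro ω
  rw [abs_pow]
  apply pow_le_pow_left₀ (abs_nonneg _)
  exact (abs_sub _ _).trans (add_le_add (hC ω) (hC' ω))

/-- **Discrete lower bound** (removal of loops). -/
theorem discrete_main (hZm : Measurable Z) {M : ℝ} (hZb : ∀ ω, |Z ω| ≤ M) (hsp : Spread P Z)
    (s : ℕ → ℝ) (x0 : ℝ) (K : ℕ) : ∀ (X : ℕ → SimpleFunc Ω ℝ), (∀ k < K, s (k + 1) < s k) → 0 < s K →
    X 0 = SimpleFunc.const Ω x0 →
    W P Z (s 0) (X 0) ≤ ∑ k ∈ Finset.range K, ((s k - s (k + 1)) * (X (k + 1)).range.card +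
      (1 / (s k - s (k + 1))) * ∫ ω, (X (k + 1) ω - X k ω) ^ 2 ∂P) + W P Z (s K) (X K) := by
  classical
  induction K with
  | zero => intro X _ _ _; simp
  | succ K ih =>
    intro X hs hsK hX0
    set Y := X (K + 1) with hY
    -- the path cost
    set c : Ω → ℝ := fun ω => ∑ k ∈ Finset.range (K + 1),
      (1 / (s k - s (k + 1))) * (X (k + 1) ω - X k ω) ^ 2 with hc
    have hci : Integrable c P := by
      apply integrable_finset_sum
      intro k _
      exact (integrable_sq_diff _ _).const_mul _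
    -- representatives
    have hrep : ∀ a ∈ Y.range, ∃ ω, Y ω = a ∧
        P.real (Y ⁻¹' {a}) * c ω ≤ ∫ ω in Y ⁻¹' {a}, c ω ∂P := by
      intro a ha
      by_cases h0 : P (Y ⁻¹' {a}) = 0
      · obtain ⟨ω, hω⟩ := SimpleFunc.mem_range.1 ha
        refine ⟨ω, hω, ?_⟩
        rw [Measure.restrict_eq_zero.2 h0, Measure.real, h0]; simp
      · obtain ⟨ω, hω, hle⟩ := exists_le_setAverage h0 (measure_ne_top _ _)
          (hci.integrableOn (s := Y ⁻¹' {a}))
        refine ⟨ω, hω, ?_⟩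
        have hpos : 0 < P.real (Y ⁻¹' {a}) :=
          ENNReal.toReal_pos h0 (measure_ne_top _ _)
        rw [setAverage_eq, smul_eq_mul] at hle
        have := mul_le_mul_of_nonneg_left hle hpos.le
        rwa [← mul_assoc, mul_inv_cancel₀ hpos.ne', one_mul] at this
    have hne : Nonempty Ω := by
      by_contra hcon
      rw [not_nonempty_iff] at hcon
      have h1 := IsProbabilityMeasure.measure_univ (μ := P)
      rw [univ_eq_empty_iff.2 hcon, measure_empty] at h1
      exact zero_ne_one h1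
    set r : ℝ → Ω := fun a => if ha : a ∈ Y.range then (hrep a ha).choose else Classical.arbitrary Ω
      with hr
    have hr1 : ∀ a ∈ Y.range, Y (r a) = a := by
      intro a ha; rw [hr]; simp only [dif_pos ha]; exact (hrep a ha).choose_spec.1
    have hr2 : ∀ a ∈ Y.range, P.real (Y ⁻¹' {a}) * c (r a) ≤ ∫ ω in Y ⁻¹' {a}, c ω ∂P := by
      intro a ha; rw [hr]; simp only [dif_pos ha]; exact (hrep a ha).choose_spec.2
    -- new data
    set X' : ℕ → SimpleFunc Ω ℝ := fun k => Y.map (fun a => X k (r a)) with hX'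
    have hX'0 : X' 0 = SimpleFunc.const Ω x0 := by
      ext ω; simp [hX', hX0]
    have hX'K1 : ∀ ω, X' (K + 1) ω = Y ω := by
      intro ω
      simp only [hX', SimpleFunc.map_apply]
      rw [← hY]; exact hr1 _ (SimpleFunc.mem_range_self _ _)
    have hih := ih X' (fun k hk => hs k (by omega)) (hsK.trans (hs K (by omega))) hX'0
    have hstep := step_W (P := P) hZm hZb hsp Y (fun a => X K (r a)) (S := s K)
      (Δ := s K - s (K + 1)) (sub_pos.2 (hs K (by omega))) (by linarith)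
    rw [show s K - (s K - s (K + 1)) = s (K + 1) by ring] at hstep
    have hX00 : X 0 = X' 0 := by rw [hX0, hX'0]
    rw [hX00]
    -- compare
    have hcard : ∀ k, (X' k).range.card ≤ (X k).range.card := by
      intro k
      apply Finset.card_le_card
      intro b hb
      rw [SimpleFunc.mem_range] at hb
      obtain ⟨ω, rfl⟩ := hb
      simp only [hX', SimpleFunc.map_apply]
      exact SimpleFunc.mem_range_self _ _
    have hkin : ∑ k ∈ Finset.range (K + 1), (1 / (s k - s (k + 1))) *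
        ∫ ω, (X' (k + 1) ω - X' k ω) ^ 2 ∂P ≤
        ∑ k ∈ Finset.range (K + 1), (1 / (s k - s (k + 1))) *
        ∫ ω, (X (k + 1) ω - X k ω) ^ 2 ∂P := by
      have e1 : ∑ k ∈ Finset.range (K + 1), (1 / (s k - s (k + 1))) *
          ∫ ω, (X' (k + 1) ω - X' k ω) ^ 2 ∂P = ∫ ω, c (r (Y ω)) ∂P := by
        simp_rw [← integral_const_mul]
        rw [← integral_finset_sum]
        · congr 1
        · intro k _; exact (integrable_sq_diff _ _).const_mul _
      have e2 : ∑ k ∈ Finset.range (K + 1), (1 / (s k - s (k + 1))) *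
          ∫ ω, (X (k + 1) ω - X k ω) ^ 2 ∂P = ∫ ω, c ω ∂P := by
        simp_rw [← integral_const_mul]
        rw [← integral_finset_sum]
        intro k _; exact (integrable_sq_diff _ _).const_mul _
      rw [e1, e2]
      have hi : Integrable (fun ω => c (r (Y ω))) P := by
        have : (fun ω => c (r (Y ω))) = (Y.map fun a => c (r a)) := by ext ω; simp
        rw [this]
        obtain ⟨C, hC⟩ := simple_bdd (Y.map fun a => c (r a))
        exact integrable_of_bdd (Y.map fun a => c (r a)).measurable hC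
      rw [integral_fiber Y _ hi, integral_fiber Y _ hci]
      apply Finset.sum_le_sum
      intro a ha
      refine le_trans (le_of_eq ?_) (hr2 a ha)
      rw [setIntegral_congr_fun (g := fun _ => c (r a)) (Y.measurableSet_fiber a)]
      · simp
      · intro ω hω
        have hω' : Y ω = a := hω
        simp [hω']
    rw [Finset.sum_range_succ] at hkin ⊢
    rw [Finset.sum_range_succ] at hkin
    have e3 : ∫ ω, (X' (K + 1) ω - X' K ω) ^ 2 ∂P =
        ∫ ω, (Y ω - (Y.map fun a => X K (r a)) ω) ^ 2 ∂P := by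
      congr 1; ext ω; rw [hX'K1]
    rw [e3] at hkin
    simp only [Finset.sum_add_distrib] at hih ⊢
    have hcardsum : ∑ k ∈ Finset.range K, (s k - s (k + 1)) * ((X' (k + 1)).range.card : ℝ) ≤
        ∑ k ∈ Finset.range K, (s k - s (k + 1)) * ((X (k + 1)).range.card : ℝ) := by
      apply Finset.sum_le_sum
      intro k hk
      rw [Finset.mem_range] at hk
      apply mul_le_mul_of_nonneg_left _ (sub_pos.2 (hs k (by omega))).le
      exact_mod_cast hcard (k + 1)
    linarith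

end Pool.Agent.Lib.MP_c57125_an
end

section
set_option autoImplicit false

open Set Filter Topology

namespace Pool.Agent.Lib.MP_c57125_an

/-- moving straight for a short time is optimal -/
def LeftFlat (T m : ℝ) : Prop := ∃ t0, 0 < t0 ∧ t0 < T ∧ ∀ t, 0 < t → t < t0 → Eh T m = Eh (T - t) m + t

/-- immediate branching is optimal -/
def Branch (T m : ℝ) : Prop :=
  ∃ p q, 0 < p ∧ 0 < q ∧ p + q = m ∧ Eh T m = Eh T p + Eh T q + p * q * m / (4 * T)

/-- the cost of splitting off mass `p` -/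
noncomputable def Gs (T m p : ℝ) : ℝ := Eh T p + Eh T (m - p) + p * (m - p) * m / (4 * T)

theorem Gs_symm (T m p : ℝ) : Gs T m (m - p) = Gs T m p := by
  unfold Gs; rw [sub_sub_cancel]; ring

theorem Eh_le_Gs {T m p : ℝ} (hT : 0 < T) (hp : 0 < p) (hpm : p < m) : Eh T m ≤ Gs T m p := by
  have := Eh_split hT hp (sub_pos.2 hpm)
  rwa [add_sub_cancel] at this

theorem branch_iff {T m : ℝ} : Branch T m ↔ ∃ p, 0 < p ∧ p < m ∧ Gs T m p = Eh T m := by
  constructor
  · rintro ⟨p, q, hp, hq, hpq, h⟩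
    refine ⟨p, hp, by linarith, ?_⟩
    unfold Gs
    rw [show m - p = q by linarith, h]
  · rintro ⟨p, hp, hpm, h⟩
    exact ⟨p, m - p, hp, sub_pos.2 hpm, by ring, by rw [← h]; rfl⟩

theorem Gs_continuousAt {T m p : ℝ} (hT : 0 < T) (hp : 0 < p) (hpm : p < m) :
    ContinuousAt (fun x : ℝ × ℝ => Gs x.1 m x.2) (T, p) := by
  unfold Gs
  have h1 : ContinuousAt (fun x : ℝ × ℝ => Eh x.1 x.2) (T, p) := Eh_continuousAt hT hp
  have h2 : ContinuousAt (fun x : ℝ × ℝ => Eh x.1 (m - x.2)) (T, p) := by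
    have := Eh_continuousAt hT (sub_pos.2 hpm)
    exact ContinuousAt.comp (g := fun x : ℝ × ℝ => Eh x.1 x.2)
      (f := fun x : ℝ × ℝ => (x.1, m - x.2)) this (by fun_prop)
  have h3 : ContinuousAt (fun x : ℝ × ℝ => x.2 * (m - x.2) * m / (4 * x.1)) (T, p) := by
    apply ContinuousAt.div (by fun_prop) (by fun_prop)
    simp [hT.ne']
  exact (h1.add h2).add h3

/-- main compactness lemma: limits of near optimal immediate splittings -/
theorem exists_branch_of_seq {T m : ℝ} (hT : 0 < T) (hm : 0 < m) (Tn pn : ℕ → ℝ)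
    (hTn : Tendsto Tn atTop (𝓝 T)) (hpn : ∀ n, 0 < pn n) (hpn' : ∀ n, pn n ≤ m / 2)
    (hle : ∀ δ > 0, ∀ᶠ n in atTop, Gs (Tn n) m (pn n) ≤ Eh T m + δ) :
    ∃ φ : ℕ → ℕ, StrictMono φ ∧ ∃ p, 0 < p ∧ p ≤ m / 2 ∧ Tendsto (pn ∘ φ) atTop (𝓝 p) ∧
      Gs T m p = Eh T m := by
  have hcomp : IsCompact (Icc 0 (m / 2)) := isCompact_Icc
  obtain ⟨p, hp, φ, hφ, hlim⟩ := hcomp.tendsto_subseq (x := pn) (fun n => ⟨(hpn n).le, hpn' n⟩)
  have hTφ : Tendsto (Tn ∘ φ) atTop (𝓝 T) := hTn.comp hφ.tendsto_atTop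
  rcases hp.1.eq_or_lt with h0 | h0
  · -- p = 0
    exfalso
    subst h0
    have hE : ContinuousAt (fun x : ℝ × ℝ => Eh x.1 x.2) (T, m) := Eh_continuousAt hT hm
    have hlim2 : Tendsto (fun n => ((Tn ∘ φ) n, m - (pn ∘ φ) n)) atTop (𝓝 (T, m)) := by
      have : Tendsto (fun n => m - (pn ∘ φ) n) atTop (𝓝 (m - 0)) := tendsto_const_nhds.sub hlim
      rw [sub_zero] at this
      exact hTφ.prodMk_nhds this
    have h3 := (hE.tendsto.comp hlim2)
    have h4 : Tendsto (fun n => (Tn ∘ φ) n + Eh ((Tn ∘ φ) n) (m - (pn ∘ φ) n)) atTop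
        (𝓝 (T + Eh T m)) := hTφ.add h3
    have h5 : ∀ᶠ n in atTop, T / 2 + Eh T m < (Tn ∘ φ) n + Eh ((Tn ∘ φ) n) (m - (pn ∘ φ) n) :=
      h4.eventually (lt_mem_nhds (by linarith))
    have h6 : ∀ᶠ n in atTop, Gs (Tn (φ n)) m (pn (φ n)) ≤ Eh T m + T / 4 :=
      hφ.tendsto_atTop.eventually (hle (T / 4) (by linarith))
    have h7 : ∀ᶠ n in atTop, 0 < (Tn ∘ φ) n := hTφ.eventually (lt_mem_nhds hT)
    obtain ⟨n, h5, h6, h7⟩ := (h5.and (h6.and h7)).exists
    simp only [Function.comp] at h5 h6 h7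
    have h8 := Eh_lower h7 (hpn (φ n))
    unfold Gs at h6
    have h9 : 0 ≤ pn (φ n) * (m - pn (φ n)) * m / (4 * Tn (φ n)) := by
      have := hpn (φ n)
      have := hpn' (φ n)
      have : 0 ≤ m - pn (φ n) := by linarith
      positivity
    linarith
  · refine ⟨φ, hφ, p, h0, hp.2, hlim, ?_⟩
    have hpm : p < m := lt_of_le_of_lt hp.2 (by linarith)
    apply le_antisymm _ (Eh_le_Gs hT h0 hpm)
    have hG := Gs_continuousAt hT h0 hpm
    have h3 : Tendsto (fun n => Gs (Tn (φ n)) m (pn (φ n))) atTop (𝓝 (Gs T m p)) :=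
      hG.tendsto.comp (hTφ.prodMk_nhds hlim)
    by_contra hcon
    push Not at hcon
    have h4 := h3.eventually (lt_mem_nhds (show (Eh T m + Gs T m p) / 2 < Gs T m p by linarith))
    have h5 : ∀ᶠ n in atTop, Gs (Tn (φ n)) m (pn (φ n)) ≤ Eh T m + (Gs T m p - Eh T m) / 4 :=
      hφ.tendsto_atTop.eventually (hle _ (by linarith))
    obtain ⟨n, h4, h5⟩ := (h4.and h5).exists
    linarith

theorem leftFlat_one_of_not_branch {T : ℝ} (hT : 0 < T) (h : ¬ Branch T 1) : LeftFlat T 1 := by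
  by_contra hcon
  apply h
  unfold LeftFlat at hcon
  push Not at hcon
  -- for each n a time t_n
  have hex : ∀ n : ℕ, ∃ t' p, 0 ≤ t' ∧ t' < (T / 2) / (n + 1) ∧ 0 < p ∧ p ≤ 1 / 2 ∧
      Gs (T - t') 1 p ≤ Eh T 1 + (T / 2) / (n + 1) := by
    intro n
    have hn : (0 : ℝ) < n + 1 := by positivity
    have hlt : (T / 2) / (n + 1) < T := by
      rw [div_lt_iff₀ hn]; nlinarith [Nat.cast_nonneg (α := ℝ) n]
    obtain ⟨t, ht0, ht1, hne⟩ := hcon ((T / 2) / (n + 1)) (by positivity) hlt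
    have htT : t < T := by linarith
    rw [Eh_one, Eh_one] at hne
    have hlt2 : e T < e (T - t) + t := by
      have := e_mono_sub (T := T - t) (T' := T) (by linarith) (by linarith)
      rw [show T - (T - t) = t by ring] at this
      exact lt_of_le_of_ne this hne
    obtain ⟨c, hc, hc'⟩ := exists_reach_lt hT (lt_min hlt2 (show e T < e T + t by linarith))
    rcases hc.slice t ht0 htT with h1 | ⟨t', p, q, h1, h2, h3, h4, h5, h6⟩
    · exact absurd (lt_min_iff.1 hc').1 (not_lt.2 h1)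
    · have hc2 := (lt_min_iff.1 hc').2
      have hqp : q = 1 - p := by linarith
      subst hqp
      have hG : Gs (T - t') 1 p ≤ Eh T 1 + (T / 2) / (n + 1) := by
        rw [Eh_one]; unfold Gs; rw [mul_one]; linarith
      rcases le_total p (1 / 2) with hp | hp
      · exact ⟨t', p, h1, by linarith, h3, hp, hG⟩
      · exact ⟨t', 1 - p, h1, by linarith, h4, by linarith, by rw [Gs_symm]; exact hG⟩
  choose t' p h1 h2 h3 h4 h5 using hex
  have hz : Tendsto (fun n : ℕ => (T / 2) / ((n : ℝ) + 1)) atTop (𝓝 0) :=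
    tendsto_const_div_atTop_nhds_zero_nat (T / 2) |>.comp (tendsto_add_atTop_nat 1) |>.congr
      (fun n => by simp)
  have ht' : Tendsto t' atTop (𝓝 0) :=
    squeeze_zero h1 (fun n => (h2 n).le) hz
  have hTn : Tendsto (fun n => T - t' n) atTop (𝓝 T) := by
    simpa using (tendsto_const_nhds (x := T)).sub ht'
  obtain ⟨φ, hφ, q, hq0, hq1, hlim, heq⟩ := exists_branch_of_seq hT one_pos (fun n => T - t' n) p hTn
    h3 h4 (fun δ hδ => by
      filter_upwards [hz.eventually (gt_mem_nhds hδ)] with n hn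
      exact (h5 n).trans (by linarith))
  exact branch_iff.2 ⟨q, hq0, by linarith, heq⟩

theorem branch_scale {T m : ℝ} (hT : 0 < T) (hm : 0 < m) (h : Branch (T / (m * √m)) 1) : Branch T m := by
  obtain ⟨p, q, hp, hq, hpq, h⟩ := h
  have hm' := m32_pos hm
  refine ⟨m * p, m * q, by positivity, by positivity, by rw [← mul_add, hpq, mul_one], ?_⟩
  have h1 : Eh T m = m * √m * Eh (T / (m * √m)) 1 := by
    rw [← Eh_homog one_pos hm]; congr 1 <;> field_simp
  have h2 : ∀ r, 0 < r → Eh T (m * r) = m * √m * Eh (T / (m * √m)) r := by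
    intro r hr
    rw [← Eh_homog hr hm]; congr 1; field_simp
  rw [h1, h, h2 p hp, h2 q hq, mul_add, mul_add]
  congr 1
  have : (m * √m) * (m * √m) = m ^ 3 := by rw [← m32_sq hm.le]; ring
  rw [show m * √m * (p * q * 1 / (4 * (T / (m * √m)))) =
      ((m * √m) * (m * √m)) * (p * q / (4 * T)) by field_simp, this]
  ring

theorem leftFlat_of_not_branch {T m : ℝ} (hT : 0 < T) (hm : 0 < m) (h : ¬ Branch T m) :
    LeftFlat T m := by
  have hm' := m32_pos hm
  have hτ : 0 < T / (m * √m) := by positivity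
  obtain ⟨t0, h0, h1, h2⟩ := leftFlat_one_of_not_branch hτ (fun hb => h (branch_scale hT hm hb))
  refine ⟨m * √m * t0, by positivity, ?_, ?_⟩
  · rw [lt_div_iff₀ hm'] at h1; linarith
  · intro t ht htt
    have h3 := h2 (t / (m * √m)) (by positivity) (by rw [div_lt_iff₀ hm']; linarith)
    have h4 : ∀ s, Eh s m = m * √m * Eh (s / (m * √m)) 1 := by
      intro s
      rw [← Eh_homog one_pos hm]; congr 1 <;> field_simp
    rw [h4 T, h3, h4 (T - t), sub_div, mul_add, mul_div_cancel₀ _ hm'.ne']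

/-- two left-flat pieces -/
theorem pair_lower {T p q : ℝ} (hT : 0 < T) (hp : 0 < p) (hq : 0 < q)
    (heq : Eh T (p + q) = Eh T p + Eh T q + p * q * (p + q) / (4 * T))
    (h1 : LeftFlat T p) (h2 : LeftFlat T q) : 4 * T ^ 2 ≤ p * q * (p + q) := by
  obtain ⟨t1, h10, h11, h12⟩ := h1
  obtain ⟨t2, h20, h21, h22⟩ := h2
  have key : ∀ t, 0 < t → t < min t1 t2 → 4 * T * (T - t) ≤ p * q * (p + q) := by
    intro t ht htt
    have ht1 := (lt_min_iff.1 htt).1
    have ht2 := (lt_min_iff.1 htt).2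
    have hTt : 0 < T - t := by linarith
    have e1 := h12 t ht ht1
    have e2 := h22 t ht ht2
    have e3 := Eh_mono_sub (T := T - t) (T' := T) hTt (add_pos hp hq) (by linarith)
    have e4 := Eh_split hTt hp hq
    have e5 : t ≤ p * q * (p + q) / (4 * (T - t)) - p * q * (p + q) / (4 * T) := by linarith
    have e6 : p * q * (p + q) / (4 * (T - t)) - p * q * (p + q) / (4 * T) =
        p * q * (p + q) * t / (4 * T * (T - t)) := by
      field_simp; ring
    rw [e6, le_div_iff₀ (by positivity)] at e5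
    nlinarith
  -- limit
  have hmin : 0 < min t1 t2 := lt_min h10 h20
  have hlim : Tendsto (fun t : ℝ => 4 * T * (T - t)) (𝓝[>] 0) (𝓝 (4 * T * (T - 0))) := by
    apply Tendsto.mono_left _ nhdsWithin_le_nhds
    exact Continuous.tendsto (by fun_prop) 0
  have := le_of_tendsto hlim (b := p * q * (p + q)) (by
    filter_upwards [Ioo_mem_nhdsGT hmin] with t ht
    exact key t ht.1 ht.2)
  nlinarith

/-- right-flat total -/
theorem pair_upper {T p q : ℝ} (hT : 0 < T) (hp : 0 < p) (hq : 0 < q)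
    (heq : Eh T (p + q) = Eh T p + Eh T q + p * q * (p + q) / (4 * T))
    (h1 : ∃ t0, 0 < t0 ∧ ∀ t, 0 < t → t < t0 → Eh (T + t) (p + q) = Eh T (p + q) + t) :
    p * q * (p + q) ≤ 4 * T ^ 2 := by
  obtain ⟨t1, h10, h12⟩ := h1
  have key : ∀ t, 0 < t → t < t1 → p * q * (p + q) ≤ 4 * T * (T + t) := by
    intro t ht htt
    have hTt : 0 < T + t := by linarith
    have e1 := h12 t ht htt
    have e2 := Eh_mono_sub (T := T) (T' := T + t) hT hp (by linarith)
    have e3 := Eh_mono_sub (T := T) (T' := T + t) hT hq (by linarith)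
    have e4 := Eh_split hTt hp hq
    have e5 : p * q * (p + q) / (4 * T) - p * q * (p + q) / (4 * (T + t)) ≤ t := by linarith
    have e6 : p * q * (p + q) / (4 * T) - p * q * (p + q) / (4 * (T + t)) =
        p * q * (p + q) * t / (4 * T * (T + t)) := by
      field_simp; ring
    rw [e6, div_le_iff₀ (by positivity)] at e5
    nlinarith
  have hlim : Tendsto (fun t : ℝ => 4 * T * (T + t)) (𝓝[>] 0) (𝓝 (4 * T * (T + 0))) := by
    apply Tendsto.mono_left _ nhdsWithin_le_nhds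
    exact Continuous.tendsto (by fun_prop) 0
  have := ge_of_tendsto hlim (b := p * q * (p + q)) (by
    filter_upwards [Ioo_mem_nhdsGT h10] with t ht
    exact key t ht.1 ht.2)
  nlinarith

/-- regrouping identity: if `m` splits optimally into `a, b` and `a` splits optimally into `p, q`,
then `m` splits optimally into `p` and `q + b`, and `q + b` splits optimally into `q, b`. -/
theorem regroup {T a b p q : ℝ} (hT : 0 < T) (hb : 0 < b) (hp : 0 < p) (hq : 0 < q)
    (hpq : p + q = a)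
    (h1 : Eh T (a + b) = Eh T a + Eh T b + a * b * (a + b) / (4 * T))
    (h2 : Eh T a = Eh T p + Eh T q + p * q * a / (4 * T)) :
    Eh T (p + (q + b)) = Eh T p + Eh T (q + b) + p * (q + b) * (p + (q + b)) / (4 * T) ∧
    Eh T (q + b) = Eh T q + Eh T b + q * b * (q + b) / (4 * T) := by
  subst hpq
  have h3 := Eh_split hT hq hb
  have h4 := Eh_split hT hp (add_pos hq hb)
  rw [add_assoc] at h1
  have h5 : (p + q) * b * (p + (q + b)) / (4 * T) + p * q * (p + q) / (4 * T) =
      p * (q + b) * (p + (q + b)) / (4 * T) + q * b * (q + b) / (4 * T) := by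
    field_simp; ring
  constructor <;> linarith

/-- existence of a minimal split-off mass; it does not branch itself -/
theorem exists_min_split {T m : ℝ} (hT : 0 < T) (hm : 0 < m) (hbr : Branch T m) :
    ∃ a b, 0 < a ∧ a ≤ b ∧ a + b = m ∧ Eh T m = Eh T a + Eh T b + a * b * m / (4 * T) ∧
      ¬ Branch T a ∧
      ∀ p q, 0 < p → 0 < q → p + q = m → Eh T m = Eh T p + Eh T q + p * q * m / (4 * T) →
        a ≤ p := by
  set S : Set ℝ := {p | 0 < p ∧ p ≤ m / 2 ∧ Gs T m p = Eh T m} with hS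
  have hne : S.Nonempty := by
    obtain ⟨p, hp, hpm, h⟩ := branch_iff.1 hbr
    rcases le_total p (m / 2) with h1 | h1
    · exact ⟨p, hp, h1, h⟩
    · exact ⟨m - p, by linarith, by linarith, by rw [Gs_symm]; exact h⟩
  have hbdd : BddBelow S := ⟨0, fun p hp => hp.1.le⟩
  obtain ⟨u, hu1, hu2, hu3⟩ := exists_seq_tendsto_sInf hne hbdd
  obtain ⟨φ, hφ, a, ha0, ha1, hlim, heq⟩ := exists_branch_of_seq hT hm (fun _ => T) u tendsto_const_nhds
    (fun n => (hu3 n).1) (fun n => (hu3 n).2.1)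
    (fun δ hδ => Eventually.of_forall fun n => by rw [(hu3 n).2.2]; linarith)
  have ha : a = sInf S := tendsto_nhds_unique hlim (hu2.comp hφ.tendsto_atTop)
  have hmin : ∀ p q, 0 < p → 0 < q → p + q = m →
      Eh T m = Eh T p + Eh T q + p * q * m / (4 * T) → a ≤ p := by
    intro p q hp hq hpq h
    have hq' : q = m - p := by linarith
    subst hq'
    rcases le_total p (m / 2) with h1 | h1
    · rw [ha]; exact csInf_le hbdd ⟨hp, h1, h.symm⟩
    · exact ha1.trans h1
  refine ⟨a, m - a, ha0, by linarith, by ring, heq.symm, ?_, hmin⟩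
  rintro ⟨p, q, hp, hq, hpq, h⟩
  have hb : 0 < m - a := by linarith
  have h1 : Eh T (a + (m - a)) = Eh T a + Eh T (m - a) + a * (m - a) * (a + (m - a)) / (4 * T) := by
    rw [add_sub_cancel]; exact heq.symm
  have h2 := (regroup hT hb hp hq hpq h1 h).1
  have h3 : p + (q + (m - a)) = m := by linarith
  rw [h3] at h2
  have := hmin p (q + (m - a)) hp (by linarith) h3 h2
  linarith

/-- structure at the left end of a flat stretch -/
theorem left_end {T : ℝ} (hT : 0 < T)
    (hr : ∃ t0, 0 < t0 ∧ ∀ t, 0 < t → t < t0 → e (T + t) = e T + t)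
    (hl : ∀ T', 0 < T' → T' < T → e T < e T' + (T - T')) :
    ∃ a b, 0 < a ∧ a ≤ b ∧ a + b = 1 ∧ e T = Eh T a + Eh T b + a * b / (4 * T) ∧
      a * b = 4 * T ^ 2 ∧ LeftFlat T a ∧ LeftFlat T b := by
  have hbr : Branch T 1 := by
    by_contra hcon
    obtain ⟨t0, h0, h1, h2⟩ := leftFlat_of_not_branch hT one_pos hcon
    have h3 := h2 (t0 / 2) (by linarith) (by linarith)
    rw [Eh_one, Eh_one] at h3
    have := hl (T - t0 / 2) (by linarith) (by linarith)
    linarith
  obtain ⟨a, b, ha, hab, hab1, heq, hna, hmin⟩ := exists_min_split hT one_pos hbr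
  have hb : 0 < b := by linarith
  have hr' : ∃ t0, 0 < t0 ∧ ∀ t, 0 < t → t < t0 → Eh (T + t) 1 = Eh T 1 + t := by
    simpa [Eh_one] using hr
  have hfa := leftFlat_of_not_branch hT ha hna
  have hnb : ¬ Branch T b := by
    intro hbb
    obtain ⟨p, q, hp, hpq, hpqb, heq2, hnp, -⟩ := exists_min_split hT hb hbb
    have hq : 0 < q := by linarith
    have hfp := leftFlat_of_not_branch hT hp hnp
    -- regroup : (q + p) = b, plus a
    have h1 : Eh T (b + a) = Eh T b + Eh T a + b * a * (b + a) / (4 * T) := by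
      rw [add_comm b a, hab1, heq]; ring
    obtain ⟨h2, h3⟩ := regroup hT ha hq hp (by linarith) h1 (by rw [heq2]; ring)
    have h4 := pair_lower hT hp ha h3 hfp hfa
    have h5 : q + (p + a) = 1 := by linarith
    have h6 := pair_upper hT hq (add_pos hp ha) h2 (by rw [h5]; exact hr')
    have h7 := hmin q (p + a) hq (by linarith) h5 (by rw [h5] at h2; exact h2)
    rw [h5, mul_one] at h6
    have h8 : q * (p + a) ≤ p * a * (p + a) := h6.trans h4
    have h9 : q ≤ p * a := le_of_mul_le_mul_right h8 (by linarith)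
    have h10 : p < 1 := by linarith
    nlinarith
  have hfb := leftFlat_of_not_branch hT hb hnb
  have heq' : Eh T (a + b) = Eh T a + Eh T b + a * b * (a + b) / (4 * T) := by
    rw [hab1]; exact heq
  have h1 := pair_lower hT ha hb heq' hfa hfb
  have h2 := pair_upper hT ha hb heq' (by rw [hab1]; exact hr')
  rw [hab1, mul_one] at h1 h2
  refine ⟨a, b, ha, hab, hab1, ?_, le_antisymm h2 h1, hfa, hfb⟩
  rw [Eh_one, mul_one] at heq
  exact heq

end Pool.Agent.Lib.MP_c57125_an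
end

section
set_option autoImplicit false

open Set Filter Topology

namespace Pool.Agent.Lib.MP_c57125_an

/-- `F T = e T - T` is nonincreasing -/
noncomputable def F (T : ℝ) : ℝ := e T - T

theorem F_anti {T T' : ℝ} (hT : 0 < T) (h : T ≤ T') : F T' ≤ F T := by
  have := e_mono_sub hT h; unfold F; linarith

theorem F_lower {T : ℝ} (hT : 0 < T) : 1 / (12 * T) ≤ F T := by
  have := e_lower hT; unfold F; linarith

theorem F_pos {T : ℝ} (hT : 0 < T) : 0 < F T := lt_of_lt_of_le (by positivity) (F_lower hT)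

theorem F_continuousAt {T : ℝ} (hT : 0 < T) : ContinuousAt F T :=
  (e_continuousAt hT).sub continuousAt_id

/-- the left end of the maximal flat stretch ending at `T0` -/
theorem flatStart {T0 : ℝ} (hT0 : 0 < T0) : ∃ T1, 0 < T1 ∧ T1 ≤ T0 ∧
    (∀ T, T1 ≤ T → T ≤ T0 → F T = F T0) ∧ ∀ T, 0 < T → T < T1 → F T1 < F T := by
  set Z : Set ℝ := {T | 0 < T ∧ T ≤ T0 ∧ F T = F T0} with hZ
  have hne : Z.Nonempty := ⟨T0, hT0, le_rfl, rfl⟩
  have hlow : ∀ T ∈ Z, 1 / (12 * F T0) ≤ T := by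
    rintro T ⟨h1, h2, h3⟩
    have h4 := F_lower h1
    rw [h3] at h4
    have h5 := F_pos hT0
    rw [div_le_iff₀ (by positivity)] at h4 ⊢
    linarith
  have hbdd : BddBelow Z := ⟨_, hlow⟩
  have hF0 := F_pos hT0
  have hpos : 0 < sInf Z := lt_of_lt_of_le (by positivity) (le_csInf hne hlow)
  have hle : sInf Z ≤ T0 := csInf_le hbdd ⟨hT0, le_rfl, rfl⟩
  obtain ⟨u, hu1, hu2, hu3⟩ := exists_seq_tendsto_sInf hne hbdd
  have hFs : F (sInf Z) = F T0 := by
    have h1 : Tendsto (fun n => F (u n)) atTop (𝓝 (F (sInf Z))) :=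
      (F_continuousAt hpos).tendsto.comp hu2
    have h2 : Tendsto (fun n => F (u n)) atTop (𝓝 (F T0)) := by
      simp only [fun n => (hu3 n).2.2, tendsto_const_nhds]
    exact tendsto_nhds_unique h1 h2
  refine ⟨sInf Z, hpos, hle, ?_, ?_⟩
  · intro T h1 h2
    apply le_antisymm
    · rw [← hFs]; exact F_anti hpos h1
    · exact F_anti (lt_of_lt_of_le hpos h1) h2
  · intro T h1 h2
    apply lt_of_le_of_ne (F_anti h1 h2.le)
    intro h3
    have : T ∈ Z := ⟨h1, (h2.le.trans hle), by rw [← h3, hFs]⟩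
    exact absurd (csInf_le hbdd this) (not_le.2 h2)

/-- the constant `1 / (2 - √2)` -/
noncomputable def cs : ℝ := 1 + √2 / 2

theorem sqrt2_bounds : (1.41421 : ℝ) < √2 ∧ √2 < 1.41422 := by
  constructor
  · rw [Real.lt_sqrt (by norm_num)]; norm_num
  · rw [Real.sqrt_lt' (by norm_num)]; norm_num

theorem cs_bounds : (1.7071 : ℝ) < cs ∧ cs < 1.70711 := by
  have := sqrt2_bounds
  unfold cs
  constructor <;> linarith

theorem sqrt_half : √(1 / 2 : ℝ) = √2 / 2 := by
  rw [show (1 / 2 : ℝ) = 2 / 2 ^ 2 by norm_num, Real.sqrt_div (by norm_num),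
    Real.sqrt_sq (by norm_num)]

theorem F_quarter_le : F (1 / 4) ≤ cs := by
  have h2 : √2 ^ 2 = 2 := Real.sq_sqrt (by norm_num)
  have hb := sqrt2_bounds
  have h1 := e_split (T := 1 / 4) (p := 1 / 2) (q := 1 / 2) (by norm_num) (by norm_num)
    (by norm_num) (by norm_num)
  have h3 : Eh (1 / 4) (1 / 2) ≤ (√2 / 4) * (e (1 / 4) + (√2 / 2 - 1 / 4)) := by
    unfold Eh
    rw [sqrt_half, show (1 / 2 * (√2 / 2) : ℝ) = √2 / 4 by ring]
    apply mul_le_mul_of_nonneg_left _ (by positivity)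
    have h4 : (1 / 4 : ℝ) / (√2 / 4) = √2 / 2 := by
      field_simp; linarith
    rw [h4]
    exact e_mono_sub (by norm_num) (by linarith)
  have h5 : (1 / 2 * (1 / 2) / (4 * (1 / 4)) : ℝ) = 1 / 4 := by norm_num
  rw [h5] at h1
  set x := e (1 / 4) with hx
  have h6 : x ≤ 2 * ((√2 / 4) * (x + (√2 / 2 - 1 / 4))) + 1 / 4 := by linarith
  have h7 : x * (1 - √2 / 2) ≤ 3 / 4 - √2 / 8 := by nlinarith
  have h8 : (1 + √2 / 2 + 1 / 4) * (1 - √2 / 2) = 3 / 4 - √2 / 8 := by nlinarith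
  have h9 : x ≤ 1 + √2 / 2 + 1 / 4 := by
    rw [← h8] at h7
    exact le_of_mul_le_mul_right h7 (by linarith)
  unfold F cs
  linarith

theorem not_branch_of_large {T : ℝ} (hT : cs ≤ T) : ¬ Branch T 1 := by
  have hc := cs_bounds
  have hT0 : 0 < T := by linarith
  rintro ⟨p, q, hp, hq, hpq, h⟩
  rw [Eh_one] at h
  have h1 := Eh_lower hT0 hp
  have h2 := Eh_lower hT0 hq
  have h3 : 0 < p * q * 1 / (4 * T) := by positivity
  have h4 := F_anti (T := 1 / 4) (T' := T) (by norm_num) (by linarith)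
  have h5 := F_quarter_le
  unfold F at h4 h5
  linarith

theorem flatStart_le_cs {T1 : ℝ} (h0 : 0 < T1)
    (h3 : ∀ T, 0 < T → T < T1 → F T1 < F T) : T1 < cs := by
  by_contra hcon
  push Not at hcon
  obtain ⟨t0, ha, hb, hc⟩ := leftFlat_of_not_branch h0 one_pos (not_branch_of_large hcon)
  have := hc (t0 / 2) (by linarith) (by linarith)
  rw [Eh_one, Eh_one] at this
  have h4 := h3 (T1 - t0 / 2) (by linarith) (by linarith)
  unfold F at h4
  linarith

theorem F_eq_of_two_le {T : ℝ} (hT : 2 ≤ T) : F T = F 2 := by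
  obtain ⟨T1, h0, h1, h2, h3⟩ := flatStart (T0 := T) (by linarith)
  have h4 := flatStart_le_cs h0 h3
  have := cs_bounds
  exact (h2 2 (by linarith) hT).symm

/-- auxiliary: extract square roots -/
theorem sqrt_params {T a b : ℝ} (hT : 0 < T) (ha : 0 < a) (hab : a ≤ b) (hab1 : a + b = 1)
    (h4 : a * b = 4 * T ^ 2) : ∃ α β : ℝ, 0 < α ∧ α ≤ β ∧ α ^ 2 + β ^ 2 = 1 ∧ a = α ^ 2 ∧ b = β ^ 2 ∧
      T = α * β / 2 ∧ a * √a = α ^ 3 ∧ b * √b = β ^ 3 := by
  have hb : 0 < b := by linarith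
  have h1 : √a ^ 2 = a := Real.sq_sqrt ha.le
  have h2 : √b ^ 2 = b := Real.sq_sqrt hb.le
  have hα := Real.sqrt_pos.2 ha
  have hβ := Real.sqrt_pos.2 hb
  refine ⟨√a, √b, hα, Real.sqrt_le_sqrt hab, by rw [h1, h2, hab1], h1.symm, h2.symm, ?_, ?_, ?_⟩
  · have h5 : (√a * √b) ^ 2 = (2 * T) ^ 2 := by rw [mul_pow, h1, h2, h4]; ring
    have h6 := (pow_left_inj₀ (by positivity) (by positivity) two_ne_zero).1 h5
    linarith
  · nth_rewrite 1 [← h1]; ring
  · nth_rewrite 1 [← h2]; ring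

theorem Eh_eq_of_F {T m c : ℝ} (hm : 0 < m) (h : F (T / (m * √m)) = c) :
    Eh T m = m * √m * c + T := by
  have hm' := m32_pos hm
  unfold F at h
  unfold Eh
  rw [show e (T / (m * √m)) = c + T / (m * √m) by linarith, mul_add, mul_div_cancel₀ _ hm'.ne']

/-- the first branching time is `1/4` and `F = 1/(2-√2)` from there on -/
theorem F_eq_cs {T : ℝ} (hT : 1 / 4 ≤ T) : F T = cs := by
  obtain ⟨T1, h0, h1, h2, h3⟩ := flatStart (T0 := 2) (by norm_num)
  have hcs := cs_bounds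
  have h4 := flatStart_le_cs h0 h3
  have hall : ∀ T, T1 ≤ T → F T = F 2 := by
    intro T hT
    rcases le_total T 2 with h | h
    · exact h2 T hT h
    · exact F_eq_of_two_le h
  obtain ⟨a, b, ha, hab, hab1, heq, hab4, hfa, hfb⟩ := left_end h0
    ⟨1, one_pos, fun t ht _ => by
      have e1 := hall (T1 + t) (by linarith)
      have e2 := hall T1 le_rfl
      unfold F at e1 e2; linarith⟩
    (fun T' hT' hlt => by
      have := h3 T' hT' hlt
      unfold F at this; linarith)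
  obtain ⟨α, β, hα, hαβ, hsum, ha2, hb2, hTT, ha3, hb3⟩ := sqrt_params h0 ha hab hab1 hab4
  have hβ : 0 < β := by linarith
  set f := F 2 with hf
  have hge : ∀ m, 0 < m → m ≤ 1 → T1 ≤ T1 / (m * √m) := by
    intro m hm hm1
    rw [le_div_iff₀ (m32_pos hm)]
    have : m * √m ≤ 1 := by
      have : √m ≤ 1 := Real.sqrt_le_one.2 hm1
      nlinarith [Real.sqrt_nonneg m]
    nlinarith
  have hEa : Eh T1 a = α ^ 3 * f + T1 := by
    rw [Eh_eq_of_F ha (hall _ (hge a ha (by linarith))), ha3]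
  have hEb : Eh T1 b = β ^ 3 * f + T1 := by
    rw [Eh_eq_of_F (by linarith) (hall _ (hge b (by linarith) (by linarith))), hb3]
  have he : e T1 = f + T1 := by
    have := hall T1 le_rfl
    unfold F at this; linarith
  have hq : a * b / (4 * T1) = T1 := by
    rw [hab4]; field_simp
  rw [hEa, hEb, he, hq] at heq
  have hfle : f ≤ cs := by
    have := F_anti (T := 1 / 4) (T' := 2) (by norm_num) (by norm_num)
    exact this.trans F_quarter_le
  -- f (1 - α^3 - β^3) = α β
  have hkey : f * (1 - α ^ 3 - β ^ 3) = α * β := by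
    rw [hTT] at heq; linarith
  set σ := α + β with hσ
  have hσ2 : σ ^ 2 = 1 + 2 * (α * β) := by rw [hσ]; nlinarith
  have hαβpos : 0 < α * β := by positivity
  have hσ1 : 1 < σ := by nlinarith
  have h13 : 1 - α ^ 3 - β ^ 3 = (σ - 1) ^ 2 * (σ + 2) / 2 := by
    have e1 : α ^ 3 + β ^ 3 = σ * (1 - α * β) := by
      rw [hσ, ← hsum]; ring
    have e2 : α * β = (σ ^ 2 - 1) / 2 := by linarith
    rw [e2] at e1
    linear_combination -e1
  have h14 : α * β = (σ - 1) * (σ + 1) / 2 := by linarith [hσ2]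
  have hpos13 : 0 < 1 - α ^ 3 - β ^ 3 := by
    rw [h13]
    have : 0 < σ - 1 := by linarith
    positivity
  have h15 : (σ - 1) * (σ + 1) / 2 ≤ cs * ((σ - 1) ^ 2 * (σ + 2) / 2) := by
    rw [← h13, ← h14, ← hkey]
    exact mul_le_mul_of_nonneg_right hfle hpos13.le
  have h16 : σ + 1 ≤ cs * ((σ - 1) * (σ + 2)) := by
    have : (σ - 1) * (σ + 1) ≤ (σ - 1) * (cs * ((σ - 1) * (σ + 2))) := by nlinarith
    exact le_of_mul_le_mul_left this (by linarith)
  have h22 : √2 ^ 2 = 2 := Real.sq_sqrt (by norm_num)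
  have hs2 := sqrt2_bounds
  have hσle : σ ≤ √2 := by
    apply Real.le_sqrt_of_sq_le
    rw [hσ2]
    nlinarith [sq_nonneg (α - β)]
  have hσge : √2 ≤ σ := by
    by_contra hcon
    push Not at hcon
    have h17 : cs * ((σ - 1) * (σ + 2)) - (σ + 1) = (σ - √2) * (cs * σ + (1 + 3 * √2 / 2)) := by
      unfold cs
      linear_combination (σ / 2 + 3 / 2) * h22
    have : (σ - √2) * (cs * σ + (1 + 3 * √2 / 2)) < 0 := by
      apply mul_neg_of_neg_of_pos (by linarith)
      have : 0 < cs * σ := mul_pos (by linarith) (by linarith)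
      linarith
    linarith
  have hσe : σ = √2 := le_antisymm hσle hσge
  have hαβ2 : α * β = 1 / 2 := by
    rw [hσe, h22] at hσ2; linarith
  have hT1 : T1 = 1 / 4 := by rw [hTT, hαβ2]; norm_num
  have hfcs : f = cs := by
    rw [h13, hαβ2, hσe] at hkey
    have h18 : (√2 - 1) ^ 2 * (√2 + 2) / 2 * cs = 1 / 2 := by
      unfold cs
      linear_combination ((√2 ^ 2 - 2 + 2 * √2 + 1) / 4) * h22
    have h19 : (0 : ℝ) < (√2 - 1) ^ 2 * (√2 + 2) / 2 := by
      have : 0 < √2 - 1 := by linarith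
      positivity
    have : f * ((√2 - 1) ^ 2 * (√2 + 2) / 2) = cs * ((√2 - 1) ^ 2 * (√2 + 2) / 2) := by
      rw [hkey, ← h18]; ring
    exact mul_right_cancel₀ h19.ne' this
  rw [hall T (by rw [hT1]; exact hT), hfcs]

theorem cs_le_F {T : ℝ} (hT : 0 < T) : cs ≤ F T := by
  rcases le_total T (1 / 4) with h | h
  · rw [← F_eq_cs le_rfl]; exact F_anti hT h
  · exact (F_eq_cs h).ge

end Pool.Agent.Lib.MP_c57125_an
end

section
set_option autoImplicit false

open Set Filter Topology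

namespace Pool.Agent.Lib.MP_c57125_an

theorem hasDerivAt_m32 {p : ℝ} (hp : 0 < p) : HasDerivAt (fun p : ℝ => p * √p) (3 / 2 * √p) p := by
  have h1 := (hasDerivAt_id p).mul (Real.hasDerivAt_sqrt hp.ne')
  refine h1.congr_deriv ?_
  have hs : 0 < √p := Real.sqrt_pos.2 hp
  have h2 : √p ^ 2 = p := Real.sq_sqrt hp.le
  simp only [id]
  field_simp
  nlinarith

theorem m32_mono {p q : ℝ} (hp : 0 ≤ p) (h : p ≤ q) : p * √p ≤ q * √q :=
  mul_le_mul h (Real.sqrt_le_sqrt h) (Real.sqrt_nonneg p) (hp.trans h)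

theorem m32_lt {p q : ℝ} (hp : 0 < p) (h : p < q) : p * √p < q * √q :=
  mul_lt_mul h (Real.sqrt_le_sqrt h.le) (Real.sqrt_pos.2 hp) (hp.le.trans h.le)

/-- structure at a flat point below `1/4` -/
theorem struct_lemma {T1 : ℝ} (h0 : 0 < T1) (h14 : T1 < 1 / 4)
    (hr : ∃ t0, 0 < t0 ∧ ∀ t, 0 < t → t < t0 → F (T1 + t) = F T1)
    (hl : ∀ T', 0 < T' → T' < T1 → F T1 < F T') :
    ∃ α β : ℝ, 0 < α ∧ α < β ∧ α ^ 2 + β ^ 2 = 1 ∧ T1 = α * β / 2 ∧
      β * F (T1 / β ^ 3) = α * cs + (β ^ 2 - α ^ 2) / (3 * (α * β)) ∧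
      F T1 = α * cs + β * (1 + α ^ 2) / (3 * α) ∧
      ∃ t0, 0 < t0 ∧ t0 < T1 / β ^ 3 ∧ ∀ t, 0 < t → t < t0 → F (T1 / β ^ 3 - t) = F (T1 / β ^ 3) := by
  obtain ⟨a, b, ha, hab, hab1, heq, hab4, hfa, hfb⟩ := left_end h0
    (by obtain ⟨t0, h1, h2⟩ := hr
        exact ⟨t0, h1, fun t ht htt => by
          have := h2 t ht htt
          unfold F at this; linarith⟩)
    (fun T' hT' hlt => by
      have := hl T' hT' hlt
      unfold F at this; linarith)
  obtain ⟨α, β, hα, hαβ, hsum, ha2, hb2, hTT, ha3, hb3⟩ := sqrt_params h0 ha hab hab1 hab4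
  have hβ : 0 < β := by linarith
  have hb : 0 < b := by linarith
  have hαβ' : α < β := by
    rcases hαβ.eq_or_lt with h | h
    · exfalso
      subst h
      have : α ^ 2 = 1 / 2 := by linarith
      nlinarith
    · exact h
  have hb3' : T1 / (b * √b) = T1 / β ^ 3 := by rw [hb3]
  set f := F (T1 / β ^ 3) with hf
  have hβ3 : 0 < β ^ 3 := by positivity
  have hα3 : 0 < α ^ 3 := by positivity
  -- left flat at b in terms of F
  obtain ⟨t1, ht10, ht11, ht12⟩ := hfb
  have hflat : ∀ t, 0 < t → t < t1 → F ((T1 - t) / β ^ 3) = f := by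
    intro t ht htt
    have h1 := ht12 t ht htt
    unfold Eh at h1
    rw [hb3] at h1
    rw [hf]
    unfold F
    have h2 : e (T1 / β ^ 3) = e ((T1 - t) / β ^ 3) + t / β ^ 3 := by
      have : β ^ 3 * e (T1 / β ^ 3) = β ^ 3 * (e ((T1 - t) / β ^ 3) + t / β ^ 3) := by
        rw [h1]; field_simp
      exact mul_left_cancel₀ hβ3.ne' this
    rw [h2]; ring
  -- alpha < 1/√2
  have hα2 : α ^ 2 < 1 / 2 := by nlinarith
  have hβ2 : 1 / 2 < β ^ 2 := by nlinarith
  have hβ7 : 1 / 2 < β := by nlinarith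
  have hTa : 1 / 4 < T1 / (a * √a) := by
    rw [ha3, lt_div_iff₀ hα3, hTT]
    nlinarith [mul_pos hα hα]
  -- the comparison function
  set Ψ : ℝ → ℝ := fun p => p * √p * f + (1 - p) * √(1 - p) * cs + 2 * T1 + p * (1 - p) / (4 * T1)
    with hΨ
  have hb1 : b < 1 := by linarith
  have hΨb : Ψ b = e T1 := by
    have e1 : Eh T1 a = a * √a * cs + T1 := Eh_eq_of_F ha (F_eq_cs hTa.le)
    have e2 : Eh T1 b = b * √b * f + T1 := Eh_eq_of_F hb (by rw [hb3'])
    have e3 : a = 1 - b := by linarith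
    rw [hΨ]
    simp only
    rw [heq, e1, e2, e3]
    ring
  have hmin : IsLocalMin Ψ b := by
    -- (i) the part of mass 1 - p
    have hc1 : ContinuousAt (fun p : ℝ => T1 / ((1 - p) * √(1 - p))) b := by
      apply ContinuousAt.div (by fun_prop) (by fun_prop)
      have : 0 < 1 - b := by linarith
      exact (m32_pos this).ne'
    have hev1 : ∀ᶠ p in 𝓝 b, 1 / 4 < T1 / ((1 - p) * √(1 - p)) := by
      apply hc1.tendsto.eventually (lt_mem_nhds _)
      rw [show 1 - b = a by linarith]; exact hTa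
    -- (ii) the part of mass p
    have hc2 : ContinuousAt (fun p : ℝ => T1 * (1 - β ^ 3 / (p * √p))) b := by
      apply ContinuousAt.mul (by fun_prop)
      apply ContinuousAt.sub (by fun_prop)
      exact ContinuousAt.div (by fun_prop) (by fun_prop) (m32_pos hb).ne'
    have hev2 : ∀ᶠ p in 𝓝 b, T1 * (1 - β ^ 3 / (p * √p)) < t1 := by
      apply hc2.tendsto.eventually (gt_mem_nhds _)
      rw [hb3, div_self hβ3.ne']; simpa using ht10
    filter_upwards [hev1, hev2, lt_mem_nhds hb, gt_mem_nhds hb1] with p hp1 hp2 hp3 hp4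
    rw [hΨb]
    have hp' := m32_pos hp3
    have e0 := e_split h0 hp3 (sub_pos.2 hp4) (by ring : p + (1 - p) = 1)
    have e1 : Eh T1 (1 - p) = (1 - p) * √(1 - p) * cs + T1 :=
      Eh_eq_of_F (by linarith) (F_eq_cs hp1.le)
    have e2 : Eh T1 p ≤ p * √p * f + T1 := by
      have hFle : F (T1 / (p * √p)) ≤ f := by
        rcases le_or_gt p b with hpb | hpb
        · apply F_anti (by positivity)
          rw [← hb3']
          exact div_le_div_of_nonneg_left h0.le hp' (m32_mono hp3.le hpb)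
        · have h5 : T1 / (p * √p) = (T1 - T1 * (1 - β ^ 3 / (p * √p))) / β ^ 3 := by
            field_simp; ring
          rw [h5]
          apply le_of_eq
          apply hflat _ _ hp2
          apply mul_pos h0
          rw [sub_pos, div_lt_one hp', ← hb3]
          exact m32_lt hb hpb
      have h6 : Eh T1 p = p * √p * F (T1 / (p * √p)) + T1 := Eh_eq_of_F hp3 rfl
      rw [h6]
      have := mul_le_mul_of_nonneg_left hFle hp'.le
      linarith
    rw [hΨ]
    simp only
    rw [e1] at e0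
    linarith
  have hder : HasDerivAt Ψ (3 / 2 * √b * f + -(3 / 2 * √(1 - b)) * cs + 0 +
      (1 * (1 - b) + b * (-1)) / (4 * T1)) b := by
    have h1 : 0 < 1 - b := by linarith
    have d1 := (hasDerivAt_m32 hb).mul_const f
    have d2 : HasDerivAt (fun p : ℝ => (1 - p) * √(1 - p)) (-(3 / 2 * √(1 - b))) b := by
      have := (hasDerivAt_m32 h1).comp b ((hasDerivAt_id b).const_sub 1)
      refine this.congr_deriv ?_
      ring
    have d3 : HasDerivAt (fun p : ℝ => p * (1 - p)) (1 * (1 - b) + b * (-1)) b :=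
      (hasDerivAt_id b).mul ((hasDerivAt_id b).const_sub 1)
    exact ((d1.add (d2.mul_const cs)).add (hasDerivAt_const b (2 * T1))).add (d3.div_const (4 * T1))
  have hcrit := hmin.hasDerivAt_eq_zero hder
  have hsb : √b = β := by rw [hb2]; exact Real.sqrt_sq hβ.le
  have hsa : √(1 - b) = α := by
    rw [show 1 - b = a by linarith, ha2]; exact Real.sqrt_sq hα.le
  rw [hsb, hsa] at hcrit
  have hi : β * f = α * cs + (β ^ 2 - α ^ 2) / (3 * (α * β)) := by
    have h1 : (1 * (1 - b) + b * (-1)) / (4 * T1) = -((β ^ 2 - α ^ 2) / (2 * (α * β))) := by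
      have h0 : 1 * (1 - b) + b * (-1) = -(β ^ 2 - α ^ 2) := by
        rw [show 1 - b = a by linarith, ha2, hb2]; ring
      rw [h0, hTT]
      field_simp
      ring
    rw [h1] at hcrit
    have h2 : (β ^ 2 - α ^ 2) / (2 * (α * β)) = 3 / 2 * ((β ^ 2 - α ^ 2) / (3 * (α * β))) := by
      field_simp
    rw [h2] at hcrit
    linarith
  have hii : F T1 = α * cs + β * (1 + α ^ 2) / (3 * α) := by
    have h1 : e T1 = β ^ 3 * f + α ^ 3 * cs + 3 * T1 := by
      rw [← hΨb, hΨ]
      simp only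
      rw [hb3, show 1 - b = a by linarith, ha3]
      have : b * a / (4 * T1) = T1 := by
        rw [mul_comm b a, hab4]; field_simp
      rw [this]; ring
    have h2 : β ^ 3 * f = β ^ 2 * (α * cs + (β ^ 2 - α ^ 2) / (3 * (α * β))) := by
      rw [← hi]; ring
    unfold F
    rw [h1, h2, hTT]
    have h3 : β ^ 2 * ((β ^ 2 - α ^ 2) / (3 * (α * β))) + α * β = β * (1 + α ^ 2) / (3 * α) := by
      rw [← hsum]
      field_simp
      ring
    have h4 : β ^ 2 * (α * cs) + α ^ 3 * cs = α * cs := by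
      have : β ^ 2 * (α * cs) + α ^ 3 * cs = (α ^ 2 + β ^ 2) * (α * cs) := by ring
      rw [this, hsum, one_mul]
    linarith
  refine ⟨α, β, hα, hαβ', hsum, hTT, hi, hii, t1 / β ^ 3, by positivity, by gcongr, ?_⟩
  intro t ht htt
  have h1 := hflat (t * β ^ 3) (by positivity) (by rwa [lt_div_iff₀ hβ3] at htt)
  rw [sub_div, mul_div_cancel_right₀ _ hβ3.ne'] at h1
  exact h1

end Pool.Agent.Lib.MP_c57125_an
end

section
set_option autoImplicit false

open Set Filter Topology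

namespace Pool.Agent.Lib.MP_c57125_an

theorem step1 {α β : ℝ} (hα : 0 < α) (hαβ : α < β) (hsum : α ^ 2 + β ^ 2 = 1)
    (h : 3 * cs * (α * β) ≤ α + β) : α ≤ 0.245 := by
  by_contra hcon
  push Not at hcon
  have hcs := cs_bounds
  have hβ : 0 < β := by linarith
  have hab : 0 < α * β := mul_pos hα hβ
  set σ := α + β with hσ
  have h1 : α * β = (σ ^ 2 - 1) / 2 := by rw [hσ]; nlinarith
  have h2 : 3 * 1.7071 * (α * β) ≤ σ := by nlinarith
  rw [h1] at h2
  have hσ1 : 1 < σ := by nlinarith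
  have h3 : σ < 1.2145 := by
    by_contra hc
    push Not at hc
    nlinarith
  have h4 : β - α < 0.7245 := by linarith
  have h5 : (β - α) ^ 2 = 2 - σ ^ 2 := by rw [hσ]; nlinarith
  have h6 : (β - α) ^ 2 < 0.7245 ^ 2 := by
    apply pow_lt_pow_left₀ h4 (by linarith) two_ne_zero
  have h7 : σ ^ 2 < 1.2145 ^ 2 := pow_lt_pow_left₀ h3 (by linarith) two_ne_zero
  norm_num at h6 h7
  linarith

theorem beta_lower {α β : ℝ} (hα : 0 < α) (hβ : 0 < β) (hsum : α ^ 2 + β ^ 2 = 1)
    (h : α ≤ 0.245) : 1 + α ^ 2 / 2 - α ^ 4 ≤ β * (1 + α ^ 2) := by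
  have hx : α ^ 2 ≤ 0.0601 := by
    have := pow_le_pow_left₀ hα.le h 2
    norm_num at this ⊢
    linarith
  apply le_of_sq_le_sq _ (by positivity)
  have h1 : (β * (1 + α ^ 2)) ^ 2 = (1 - α ^ 2) * (1 + α ^ 2) ^ 2 := by
    rw [mul_pow, show β ^ 2 = 1 - α ^ 2 by linarith]
  rw [h1]
  have h2 : (1 - α ^ 2) * (1 + α ^ 2) ^ 2 - (1 + α ^ 2 / 2 - α ^ 4) ^ 2 =
      (α ^ 2) ^ 2 * (3 / 4 - (α ^ 2) ^ 2) := by ring
  have h3 : 0 ≤ (α ^ 2) ^ 2 * (3 / 4 - (α ^ 2) ^ 2) := by
    apply mul_nonneg (by positivity)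
    nlinarith [sq_nonneg α]
  linarith

theorem step2 {α β : ℝ} (hα : 0 < α) (hβ : 0 < β) (hsum : α ^ 2 + β ^ 2 = 1)
    (h : α ≤ 0.245) : 1.81 ≤ α * cs + β * (1 + α ^ 2) / (3 * α) := by
  have hcs := cs_bounds
  have h1 := beta_lower hα hβ hsum h
  have h2 : (1 + α ^ 2 / 2 - α ^ 4) / (3 * α) ≤ β * (1 + α ^ 2) / (3 * α) := by gcongr
  have h3 : 1.81 ≤ α * 1.7071 + (1 + α ^ 2 / 2 - α ^ 4) / (3 * α) := by
    rw [← sub_le_iff_le_add', le_div_iff₀ (by positivity)]
    have hd : 0 ≤ 0.245 - α := by linarith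
    nlinarith [mul_nonneg hd hα.le, mul_nonneg (mul_nonneg hd hα.le) hα.le,
      mul_nonneg (mul_nonneg (mul_nonneg hd hα.le) hα.le) hα.le, mul_nonneg hd hd]
  nlinarith

theorem step3 {α β f : ℝ} (hα : 0 < α) (hβ : 0 < β) (hsum : α ^ 2 + β ^ 2 = 1)
    (h : α ≤ 0.245) (hf : 1.81 ≤ f)
    (hi : β * f = α * cs + (β ^ 2 - α ^ 2) / (3 * (α * β))) : α < 0.223 := by
  by_contra hcon
  push Not at hcon
  have hcs := cs_bounds
  have h1 : 1.81 * β ≤ α * cs + (β ^ 2 - α ^ 2) / (3 * (α * β)) := by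
    rw [← hi]; nlinarith
  rw [← sub_le_iff_le_add', le_div_iff₀ (by positivity)] at h1
  have hβ2 : β ^ 2 = 1 - α ^ 2 := by linarith
  have h2 : (1.81 * β - α * cs) * (3 * (α * β)) = 5.43 * α * β ^ 2 - 3 * cs * α ^ 2 * β := by ring
  rw [h2, hβ2] at h1
  have h3 : β ≤ 1 - α ^ 2 / 2 := by
    apply le_of_sq_le_sq _ (by nlinarith)
    rw [hβ2]
    nlinarith [sq_nonneg (α ^ 2)]
  have h4 : 3 * cs * α ^ 2 * β ≤ 3 * 1.70711 * α ^ 2 * (1 - α ^ 2 / 2) := by
    have : 0 ≤ 1 - α ^ 2 / 2 := by nlinarith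
    gcongr
    exact hcs.2.le
  have h5 : 0 ≤ 1 - 5.43 * α + 3.12133 * α ^ 2 + 5.43 * α ^ 3 - 2.560665 * α ^ 4 := by
    nlinarith
  nlinarith [mul_nonneg (sub_nonneg.2 hcon) (sub_nonneg.2 h), mul_nonneg (sub_nonneg.2 hcon) hα.le,
    mul_nonneg (mul_nonneg (sub_nonneg.2 hcon) (sub_nonneg.2 h)) hα.le,
    mul_nonneg (mul_nonneg (mul_nonneg (sub_nonneg.2 hcon) (sub_nonneg.2 h)) hα.le) hα.le]

theorem sqrt3_bounds : (1.73205 : ℝ) < √3 ∧ √3 < 1.73206 := by
  constructor
  · rw [Real.lt_sqrt (by norm_num)]; norm_num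
  · rw [Real.sqrt_lt' (by norm_num)]; norm_num

theorem sqrt_third : √(1 / 3 : ℝ) = √3 / 3 := by
  rw [show (1 / 3 : ℝ) = 3 / 3 ^ 2 by norm_num, Real.sqrt_div (by norm_num),
    Real.sqrt_sq (by norm_num)]

/-- upper bound from three equal pieces -/
theorem e_three {T : ℝ} (hT : √3 / 36 ≤ T) : e T ≤ √3 / 3 * cs + 3 * T + 2 / (27 * T) := by
  have hs := sqrt3_bounds
  have hT0 : 0 < T := by linarith
  have h3 : (1 / 3 * √(1 / 3) : ℝ) = √3 / 9 := by rw [sqrt_third]; ring
  have hE : Eh T (1 / 3) = √3 / 9 * cs + T := by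
    rw [← h3]
    apply Eh_eq_of_F (by norm_num)
    apply F_eq_cs
    rw [h3, le_div_iff₀ (by positivity)]
    linarith
  have h1 := Eh_split hT0 (p := 1 / 3) (q := 1 / 3) (by norm_num) (by norm_num)
  have h2 := e_split hT0 (p := 1 / 3) (q := 1 / 3 + 1 / 3) (by norm_num) (by norm_num) (by norm_num)
  have h4 : (1 / 3 * (1 / 3) * (1 / 3 + 1 / 3) / (4 * T) : ℝ) = (1 / 54) / T := by
    field_simp; norm_num
  have h5 : (1 / 3 * (1 / 3 + 1 / 3) / (4 * T) : ℝ) = (1 / 18) / T := by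
    field_simp; norm_num
  have h6 : (2 / (27 * T) : ℝ) = (2 / 27) / T := by field_simp
  rw [h4] at h1
  rw [h5] at h2
  rw [h6]
  have h7 : (1 / 54 : ℝ) / T + (1 / 18) / T = (2 / 27) / T := by
    rw [← add_div]; norm_num
  rw [hE] at h1 h2
  linarith

theorem step4 {α β T : ℝ} (hα : 0 < α) (hβ : 0 < β) (hsum : α ^ 2 + β ^ 2 = 1)
    (h : α < 0.223) (hT : T = α * β / 2) :
    F T < α * cs + β * (1 + α ^ 2) / (3 * α) := by
  have hcs := cs_bounds
  have hs := sqrt3_bounds
  have hβ2 : β ^ 2 = 1 - α ^ 2 := by linarith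
  have hT0 : 0 < T := by rw [hT]; positivity
  have h223 : α ^ 2 < 0.05 := by nlinarith
  rcases le_or_gt (√3 / 36) T with hc | hc
  · have h1 := e_three hc
    have h2 : F T ≤ √3 / 3 * cs + 2 * T + 2 / (27 * T) := by unfold F; linarith
    refine h2.trans_lt ?_
    rw [hT]
    have h3 : √3 / 3 * cs + 2 * (α * β / 2) + 2 / (27 * (α * β / 2)) =
        (9 * √3 * cs * (α * β) + 27 * (α * β) ^ 2 + 4) / (27 * (α * β)) := by
      field_simp; ring
    have h4 : α * cs + β * (1 + α ^ 2) / (3 * α) =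
        (27 * cs * (α * (α * β)) + 9 * β ^ 2 * (1 + α ^ 2)) / (27 * (α * β)) := by
      field_simp; ring
    rw [h3, h4]
    apply div_lt_div_of_pos_right _ (by positivity)
    -- upper bound for beta
    have h5 : β ≤ 1 - α ^ 2 / 2 := by
      apply le_of_sq_le_sq _ (by nlinarith)
      rw [hβ2]
      nlinarith [sq_nonneg (α ^ 2)]
    have h6 : √3 * cs < 2.957 := by nlinarith
    have h7 : 9 * √3 * cs * (α * β) - 27 * cs * (α * (α * β)) =
        β * (α * (9 * (√3 * cs) - 27 * cs * α)) := by ring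
    have h8 : 9 * (√3 * cs) - 27 * cs * α ≤ 26.613 - 46.0917 * α := by nlinarith
    have h9 : β * (α * (9 * (√3 * cs) - 27 * cs * α)) ≤
        (1 - α ^ 2 / 2) * (α * (26.613 - 46.0917 * α)) := by
      have e1 : 0 ≤ α * (26.613 - 46.0917 * α) := by nlinarith
      calc β * (α * (9 * (√3 * cs) - 27 * cs * α)) ≤ β * (α * (26.613 - 46.0917 * α)) := by
            gcongr
        _ ≤ (1 - α ^ 2 / 2) * (α * (26.613 - 46.0917 * α)) := by gcongr
    have h10 : 27 * (α * β) ^ 2 = 27 * α ^ 2 * (1 - α ^ 2) := by rw [mul_pow, hβ2]; ring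
    have h11 : 9 * β ^ 2 * (1 + α ^ 2) = 9 * (1 - α ^ 4) := by rw [hβ2]; ring
    rw [h10, h11]
    have h12 : (1 - α ^ 2 / 2) * (α * (26.613 - 46.0917 * α)) + 27 * α ^ 2 * (1 - α ^ 2) + 4 <
        9 * (1 - α ^ 4) := by
      have hd : 0 < 0.223 - α := by linarith
      nlinarith [mul_pos hd hα, mul_pos (mul_pos hd hα) hα, mul_pos (mul_pos (mul_pos hd hα) hα) hα,
        mul_pos hd hd]
    linarith
  · -- small T
    have hT3 : (0 : ℝ) < √3 / 36 := by linarith
    have h1 := e_scale' hT0 hc.le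
    have h2 := e_three (le_refl (√3 / 36))
    have h33 : √3 ^ 2 = 3 := Real.sq_sqrt (by norm_num)
    have h3 : e (√3 / 36) * (√3 / 36) ≤ 0.1285 := by
      have e1 : e (√3 / 36) * (√3 / 36) ≤
          (√3 / 3 * cs + 3 * (√3 / 36) + 2 / (27 * (√3 / 36))) * (√3 / 36) := by gcongr
      have e2 : (√3 / 3 * cs + 3 * (√3 / 36) + 2 / (27 * (√3 / 36))) * (√3 / 36) =
          √3 ^ 2 / 108 * cs + 3 * √3 ^ 2 / 1296 + 2 / 27 := by field_simp; ring
      rw [e2, h33] at e1
      refine e1.trans ?_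
      linarith
    have h4 : e T ≤ 0.1285 / T := h1.trans (div_le_div_of_nonneg_right h3 hT0.le)
    have h5 : F T < 0.1285 / T := by unfold F; linarith
    refine h5.trans_le ?_
    have h6 : (0.1285 : ℝ) / T = 0.257 / (α * β) := by
      rw [hT]; field_simp; norm_num
    rw [h6]
    have h7 : β * (1 + α ^ 2) / (3 * α) = β ^ 2 * (1 + α ^ 2) / 3 / (α * β) := by
      field_simp
    have h8 : (0.257 : ℝ) / (α * β) ≤ β ^ 2 * (1 + α ^ 2) / 3 / (α * β) := by
      apply div_le_div_of_nonneg_right _ (by positivity)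
      rw [hβ2]
      nlinarith [sq_nonneg (α ^ 2)]
    rw [h7]
    have h9 : 0 < α * cs := mul_pos hα (by linarith)
    linarith

/-- a flat point below 1/4 has large value -/
theorem flat_value {T0 ε : ℝ} (hε : 0 < ε) (hεT : ε < T0) (h14 : T0 < 1 / 4)
    (h : ∀ t, 0 < t → t < ε → F (T0 - t) = F T0) :
    ∃ α β T1 : ℝ, 0 < α ∧ α < β ∧ α ^ 2 + β ^ 2 = 1 ∧ T1 = α * β / 2 ∧ α ≤ 0.245 ∧
      β * F (T1 / β ^ 3) = α * cs + (β ^ 2 - α ^ 2) / (3 * (α * β)) ∧
      F T1 = α * cs + β * (1 + α ^ 2) / (3 * α) ∧ F T1 = F T0 ∧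
      ∃ t0, 0 < t0 ∧ t0 < T1 / β ^ 3 ∧ ∀ t, 0 < t → t < t0 → F (T1 / β ^ 3 - t) = F (T1 / β ^ 3) := by
  obtain ⟨T1, h0, h1, h2, h3⟩ := flatStart (T0 := T0) (by linarith)
  have hlt : T1 < T0 := by
    apply lt_of_le_of_ne h1
    intro heq
    have h4 := h (ε / 2) (by linarith) (by linarith)
    have h5 := h3 (T0 - ε / 2) (by linarith) (by linarith)
    rw [heq, h4] at h5
    exact lt_irrefl _ h5
  obtain ⟨α, β, hα, hαβ, hsum, hT1, hi, hii, hfl⟩ := struct_lemma h0 (by linarith)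
    ⟨T0 - T1, by linarith, fun t ht htt => by
      rw [h2 (T1 + t) (by linarith) (by linarith), h2 T1 le_rfl h1]⟩ h3
  have hβ : 0 < β := by linarith
  refine ⟨α, β, T1, hα, hαβ, hsum, hT1, ?_, hi, hii, h2 T1 le_rfl h1, hfl⟩
  apply step1 hα hαβ hsum
  have h5 : cs ≤ F (T1 / β ^ 3) := cs_le_F (by positivity)
  have h6 : β * cs ≤ α * cs + (β ^ 2 - α ^ 2) / (3 * (α * β)) := by
    rw [← hi]; gcongr
  have h7 : (β - α) * cs ≤ (β - α) * ((α + β) / (3 * (α * β))) := by
    have : (β - α) * ((α + β) / (3 * (α * β))) = (β ^ 2 - α ^ 2) / (3 * (α * β)) := by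
      field_simp; ring
    rw [this]; linarith
  have h8 := le_of_mul_le_mul_left h7 (by linarith)
  rw [le_div_iff₀ (by positivity)] at h8
  linarith

/-- **Main analytic result**: `e T - T` is strictly decreasing below `1/4`. -/
theorem e_strict {T ε : ℝ} (hε : 0 < ε) (hεT : ε < T) (h14 : T < 1 / 4) :
    e T < e (T - ε) + ε := by
  have hle := e_mono_sub (T := T - ε) (T' := T) (by linarith) (by linarith)
  rw [show T - (T - ε) = ε by ring] at hle
  apply lt_of_le_of_ne hle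
  intro heq
  have hF : F (T - ε) = F T := by unfold F; linarith
  have hflat : ∀ t, 0 < t → t < ε → F (T - t) = F T := by
    intro t ht htt
    apply le_antisymm
    · rw [← hF]; exact F_anti (by linarith) (by linarith)
    · exact F_anti (by linarith) (by linarith)
  obtain ⟨α, β, T1, hα, hαβ, hsum, hT1, hα1, hi, hii, -, t0, ht0, ht01, hfl⟩ :=
    flat_value hε hεT h14 hflat
  have hβ : 0 < β := by linarith
  have hα2 : α ^ 2 < 0.0601 := by nlinarith
  have hτ : T1 / β ^ 3 < 1 / 4 := by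
    rw [hT1, div_lt_iff₀ (by positivity)]
    have hβ2 : 0.93 < β ^ 2 := by linarith
    have hβ3 : β ^ 3 = β * β ^ 2 := by ring
    rw [hβ3]
    nlinarith
  obtain ⟨α', β', T1', hα', hαβ', hsum', hT1', hα1', hi', hii', heq', -⟩ :=
    flat_value ht0 ht01 hτ hfl
  have hf : 1.81 ≤ F (T1 / β ^ 3) := by
    rw [← heq', hii']
    exact step2 hα' (by linarith) hsum' hα1'
  have h3 := step3 hα hβ hsum hα1 hf hi
  have h4 := step4 hα hβ hsum h3 hT1
  linarith

end Pool.Agent.Lib.MP_c57125_an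
end
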