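import Pool.Agent.Lib.MP_c57125_an.Lower
import Pool.Agent.Lib.MP_c57125_an.StrictFinal

section
set_option autoImplicit false

open MeasureTheory ProbabilityTheory Set Filter Topology
open scoped ENNReal

namespace Pool.Agent.Lib.MP_c57125_an

theorem ae_prod_mem {A B : Set ℝ} (hA : MeasurableSet A) (hB : MeasurableSet B) :
    ∀ᵐ p ∂(((volume : Measure ℝ).restrict A).prod ((volume : Measure ℝ).restrict B)),
      p.1 ∈ A ∧ p.2 ∈ B := by
  rw [Measure.prod_restrict]
  exact ae_restrict_mem (hA.prod hB)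

namespace Plan

variable {T c : ℝ}

theorem exists_wait (L : Plan T c) (hT : 0 < T) {ε : ℝ} (hε : 0 ≤ ε) :
    Nonempty (Plan (T + ε) (c + ε)) := by
  classical
  set X' : ℝ × ℝ → ℝ := fun p => L.X (max (p.1 - ε) 0, p.2) with hX'
  set V' : ℝ × ℝ → ℝ := fun p => if p.1 ≤ ε then 0 else L.V (p.1 - ε, p.2) with hV'
  set N' : ℝ → ℝ := fun t => if t ≤ ε then 1 else L.N (t - ε) with hN'
  have mX' : Measurable X' := L.mX.comp (by fun_prop)
  have mV' : Measurable V' := by
    apply Measurable.ite _ measurable_const (L.mV.comp (by fun_prop))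
    exact measurableSet_le measurable_fst measurable_const
  have haff : ∀ t, aff 1 (-ε) t = t - ε := fun t => by unfold aff; ring
  have haff0 : ∀ t, aff 1 0 t = t := fun t => by unfold aff; ring
  have hunion : Ioo 0 (T + ε) = Ioc 0 ε ∪ Ioo ε (T + ε) :=
    (Ioc_union_Ioo_eq_Ioo hε (by linarith)).symm
  have hdisj : Disjoint (Ioc 0 ε) (Ioo ε (T + ε)) := by
    rw [Set.disjoint_left]
    intro r hr hr'
    exact absurd hr.2 (not_le.2 hr'.1)
  -- the function N
  have hN1 : IntegrableOn N' (Ioc 0 ε) := by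
    have : IntegrableOn (fun _ => (1 : ℝ)) (Ioc 0 ε) := integrableOn_const (by simp)
    apply this.congr_fun _ measurableSet_Ioc
    intro t ht
    simp only [hN', if_pos ht.2]
  have hNaff := aff_int (α := 1) one_pos (-ε) ε (T + ε) (f := L.N) (by
    rw [haff, haff, sub_self, add_sub_cancel_right]; exact L.iN)
  rw [haff, haff, sub_self, add_sub_cancel_right] at hNaff
  have hN2' : EqOn (fun t => L.N (aff 1 (-ε) t)) N' (Ioo ε (T + ε)) := by
    intro t ht
    simp only [hN', if_neg (not_le.2 ht.1), haff]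
  have hN2 : IntegrableOn N' (Ioo ε (T + ε)) :=
    hNaff.1.congr_fun hN2' measurableSet_Ioo
  have hNint : ∫ t in Ioo 0 (T + ε), N' t = ε + ∫ t in Ioo 0 T, L.N t := by
    rw [hunion, setIntegral_union hdisj measurableSet_Ioo hN1 hN2]
    congr 1
    · have : ∫ t in Ioc 0 ε, N' t = ∫ t in Ioc 0 ε, (1 : ℝ) := by
        apply setIntegral_congr_fun measurableSet_Ioc
        intro t ht
        simp only [hN', if_pos ht.2]
      rw [this]
      simp [hε]
    · rw [← setIntegral_congr_fun measurableSet_Ioo hN2', hNaff.2]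
      simp
  -- the kinetic part
  have hPm : Pm (T + ε) = ((volume : Measure ℝ).restrict (Ioc 0 ε)).prod Lm +
      ((volume : Measure ℝ).restrict (Ioo ε (T + ε))).prod Lm := by
    unfold Pm Tm
    rw [hunion, Measure.restrict_union hdisj measurableSet_Ioo, Measure.add_prod]
  have hV1' : (fun _ => (0 : ℝ)) =ᵐ[((volume : Measure ℝ).restrict (Ioc 0 ε)).prod Lm]
      fun p => V' p ^ 2 := by
    filter_upwards [ae_prod_mem (A := Ioc 0 ε) (B := Ico 0 1) measurableSet_Ioc measurableSet_Ico]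
      with p hp
    simp [hV', if_pos hp.1.2]
  have hV1 : Integrable (fun p => V' p ^ 2) (((volume : Measure ℝ).restrict (Ioc 0 ε)).prod Lm) :=
    (integrable_zero _ _ _).congr hV1'
  have hVaff := aff_prod_int (α := 1) (γ := 1) one_pos one_pos (-ε) 0 ε (T + ε) 0 1
    (f := fun p => L.V p ^ 2) (by
      rw [haff, haff, haff0, haff0, sub_self, add_sub_cancel_right]; exact L.iV)
  rw [haff, haff, haff0, haff0, sub_self, add_sub_cancel_right] at hVaff
  have hV2' : (fun p => L.V (Prod.map (aff 1 (-ε)) (aff 1 0) p) ^ 2)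
      =ᵐ[((volume : Measure ℝ).restrict (Ioo ε (T + ε))).prod Lm] fun p => V' p ^ 2 := by
    filter_upwards [ae_prod_mem (A := Ioo ε (T + ε)) (B := Ico 0 1) measurableSet_Ioo
      measurableSet_Ico] with p hp
    simp only [hV', if_neg (not_le.2 hp.1.1), Prod.map, haff, haff0]
  have hV2 : Integrable (fun p => V' p ^ 2)
      (((volume : Measure ℝ).restrict (Ioo ε (T + ε))).prod Lm) := hVaff.1.congr hV2'
  have hVint : ∫ p, V' p ^ 2 ∂(Pm (T + ε)) = ∫ p, L.V p ^ 2 ∂(Pm T) := by
    rw [hPm, integral_add_measure hV1 hV2, ← integral_congr_ae hV1', ← integral_congr_ae hV2']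
    have h1 := hVaff.2
    simp only [inv_one, one_mul] at h1
    rw [integral_zero, zero_add]
    exact h1
  refine ⟨{
    X := X'
    V := V'
    N := N'
    C := insert ε ((fun t => t - ε) ⁻¹' L.C)
    mX := mX'
    mV := mV'
    cC := ?_
    cont := ?_
    init := ?_
    final := ?_
    deriv := ?_
    atoms := ?_
    iN := ?_
    iV := ?_
    cost := ?_ }⟩
  · apply Countable.insert
    apply L.cC.preimage_of_injOn
    intro s _ t _ h
    simpa using h
  · intro y hy
    have h1 : ContinuousOn (fun t => max (t - ε) 0) (Icc 0 (T + ε)) :=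
      (by fun_prop : Continuous fun t : ℝ => max (t - ε) 0).continuousOn
    exact (L.cont y hy).comp h1 (fun t ht => ⟨le_max_right _ _, max_le (by linarith [ht.2]) hT.le⟩)
  · intro y hy
    simp only [hX']
    rw [max_eq_right (by linarith), L.init y hy]
  · intro y hy
    simp only [hX']
    rw [add_sub_cancel_right, max_eq_left hT.le, L.final y hy]
  · intro y hy t ht htC
    rw [mem_insert_iff, not_or] at htC
    rcases lt_or_gt_of_ne htC.1 with h | h
    · have h1 : (fun s => X' (s, y)) =ᶠ[𝓝 t] fun _ => 0 := by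
        filter_upwards [gt_mem_nhds h] with s hs
        simp only [hX']
        rw [max_eq_right (by linarith), L.init y hy]
      have h2 : V' (t, y) = 0 := by simp only [hV', if_pos h.le]
      rw [h2]
      exact (hasDerivAt_const t (0 : ℝ)).congr_of_eventuallyEq h1
    · have h1 : (fun s => X' (s, y)) =ᶠ[𝓝 t] fun s => L.X (s - ε, y) := by
        filter_upwards [lt_mem_nhds h] with s hs
        simp only [hX']
        rw [max_eq_left (by linarith)]
      have h2 : V' (t, y) = L.V (t - ε, y) := by simp only [hV', if_neg (not_le.2 h)]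
      rw [h2]
      have h3 := L.deriv y hy (t - ε) ⟨by linarith, by linarith [ht.2]⟩ htC.2
      exact (h3.comp_sub_const t ε).congr_of_eventuallyEq h1
  · intro t ht htC
    rw [mem_insert_iff, not_or] at htC
    rcases lt_or_gt_of_ne htC.1 with h | h
    · refine ⟨{0}, fun y hy => ?_, ?_⟩
      · simp only [hX']
        rw [max_eq_right (by linarith), L.init y hy]
        simp
      · simp [hN', if_pos h.le]
    · obtain ⟨F, hF, hc⟩ := L.atoms (t - ε) ⟨by linarith, by linarith [ht.2]⟩ htC.2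
      refine ⟨F, fun y hy => ?_, ?_⟩
      · simp only [hX']
        rw [max_eq_left (by linarith)]
        exact hF y hy
      · simp only [hN', if_neg (not_le.2 h)]; exact hc
  · rw [hunion]; exact hN1.union hN2
  · rw [hPm]; exact hV1.add_measure hV2
  · rw [hNint, hVint]
    have := L.cost
    linarith

end Plan

end Pool.Agent.Lib.MP_c57125_an
end

section
set_option autoImplicit false

open MeasureTheory ProbabilityTheory Set Filter Topology
open scoped ENNReal

namespace Pool.Agent.Lib.MP_c57125_an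

namespace Plan

theorem Pm_real_univ {T : ℝ} (hT : 0 < T) : (Pm T).real univ = T := by
  unfold Pm Tm
  rw [← univ_prod_univ, measureReal_prod_prod]
  simp [hT.le]

/-- the square of an affine combination of the velocity -/
theorem int_sq_affine {T c : ℝ} (hT : 0 < T) (L : Plan T c) (r s : ℝ) :
    Integrable (fun p => (r + s * L.V p) ^ 2) (Pm T) ∧
    ∫ p, (r + s * L.V p) ^ 2 ∂(Pm T) = r ^ 2 * T + s ^ 2 * ∫ p, L.V p ^ 2 ∂(Pm T) := by
  have h1 : ∀ p, (r + s * L.V p) ^ 2 = r ^ 2 + (2 * r * s) * L.V p + s ^ 2 * L.V p ^ 2 :=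
    fun p => by ring
  have hi1 : Integrable (fun _ : ℝ × ℝ => r ^ 2) (Pm T) := integrable_const _
  have hi2 : Integrable (fun p => (2 * r * s) * L.V p) (Pm T) := L.V_integrable.const_mul _
  have hi12 : Integrable (fun p => r ^ 2 + (2 * r * s) * L.V p) (Pm T) := hi1.add hi2
  have hi3 : Integrable (fun p => s ^ 2 * L.V p ^ 2) (Pm T) := L.iV.const_mul _
  simp_rw [h1]
  refine ⟨hi12.add hi3, ?_⟩
  rw [integral_add hi12 hi3, integral_add hi1 hi2, integral_const_mul, integral_const_mul,
    L.mean_V hT, integral_const, Pm_real_univ hT, smul_eq_mul]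
  ring

theorem exists_split {T p q c d : ℝ} (hT : 0 < T) (hp : 0 < p) (hq : 0 < q) (hpq : p + q = 1)
    (L₁ : Plan (T / (p * √p)) c) (L₂ : Plan (T / (q * √q)) d) :
    Nonempty (Plan T (p * √p * c + q * √q * d + p * q / (4 * T))) := by
  classical
  have hpp := m32_pos hp
  have hqq := m32_pos hq
  set a := 1 / (p * √p) with ha
  set b := 1 / (q * √q) with hb
  have ha0 : 0 < a := by rw [ha]; positivity
  have hb0 : 0 < b := by rw [hb]; positivity
  have hTa : T / (p * √p) = a * T := by rw [ha]; ring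
  have hTb : T / (q * √q) = b * T := by rw [hb]; ring
  rw [hTa] at L₁
  rw [hTb] at L₂
  have haT : 0 < a * T := by positivity
  have hbT : 0 < b * T := by positivity
  have hp1 : p < 1 := by linarith
  set X' : ℝ × ℝ → ℝ := fun z => if z.2 < p then -(q / 2) * (z.1 / T) + p * L₁.X (a * z.1, z.2 / p)
    else p / 2 * (z.1 / T) + q * L₂.X (b * z.1, (z.2 - p) / q) with hX'
  set V' : ℝ × ℝ → ℝ := fun z => if z.2 < p then -(q / 2) / T + p * a * L₁.V (a * z.1, z.2 / p)
    else p / 2 / T + q * b * L₂.V (b * z.1, (z.2 - p) / q) with hV'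
  set N' : ℝ → ℝ := fun t => L₁.N (a * t) + L₂.N (b * t) with hN'
  have mX' : Measurable X' := by
    apply Measurable.ite (measurableSet_lt measurable_snd measurable_const)
    · exact (by fun_prop : Measurable fun z : ℝ × ℝ => -(q / 2) * (z.1 / T)).add
        ((L₁.mX.comp (by fun_prop)).const_mul _)
    · exact (by fun_prop : Measurable fun z : ℝ × ℝ => p / 2 * (z.1 / T)).add
        ((L₂.mX.comp (by fun_prop)).const_mul _)
  have mV' : Measurable V' := by
    apply Measurable.ite (measurableSet_lt measurable_snd measurable_const)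
    · exact measurable_const.add ((L₁.mV.comp (by fun_prop)).const_mul _)
    · exact measurable_const.add ((L₂.mV.comp (by fun_prop)).const_mul _)
  have hlab1 : ∀ y ∈ Ico (0 : ℝ) 1, y < p → y / p ∈ Ico (0 : ℝ) 1 := by
    intro y hy hyp
    exact ⟨by have := hy.1; positivity, by rw [div_lt_one hp]; exact hyp⟩
  have hlab2 : ∀ y ∈ Ico (0 : ℝ) 1, ¬ y < p → (y - p) / q ∈ Ico (0 : ℝ) 1 := by
    intro y hy hyp
    rw [not_lt] at hyp
    exact ⟨div_nonneg (by linarith) hq.le, by rw [div_lt_one hq]; linarith [hy.2]⟩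
  -- time integrals
  have haffa : ∀ t, aff a 0 t = a * t := fun t => by unfold aff; ring
  have haffb : ∀ t, aff b 0 t = b * t := fun t => by unfold aff; ring
  have hN1 := aff_int (α := a) ha0 0 0 T (f := L₁.N) (by
    rw [haffa, haffa, mul_zero]; exact L₁.iN)
  have hN2 := aff_int (α := b) hb0 0 0 T (f := L₂.N) (by
    rw [haffb, haffb, mul_zero]; exact L₂.iN)
  rw [haffa, haffa, mul_zero] at hN1
  rw [haffb, haffb, mul_zero] at hN2
  simp only [haffa] at hN1
  simp only [haffb] at hN2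
  -- kinetic part
  have hPm : Pm T = ((volume : Measure ℝ).restrict (Ioo 0 T)).prod (volume.restrict (Ico 0 p)) +
      ((volume : Measure ℝ).restrict (Ioo 0 T)).prod (volume.restrict (Ico p 1)) := by
    unfold Pm Tm Lm
    rw [← Ico_union_Ico_eq_Ico hp.le hp1.le, Measure.restrict_union _ measurableSet_Ico,
      Measure.prod_add]
    rw [Set.disjoint_left]
    intro r hr hr'
    exact absurd hr.2 (not_lt.2 hr'.1)
  have haffp : ∀ y, aff p⁻¹ 0 y = y / p := fun y => by unfold aff; ring
  have haffq : ∀ y, aff q⁻¹ (-(p / q)) y = (y - p) / q := fun y => by unfold aff; ring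
  have hI1 := int_sq_affine haT L₁ (-(q / 2) / T) (p * a)
  have hI2 := int_sq_affine hbT L₂ (p / 2 / T) (q * b)
  have e1 : aff p⁻¹ 0 0 = 0 := by rw [haffp, zero_div]
  have e2 : aff p⁻¹ 0 p = 1 := by rw [haffp, div_self hp.ne']
  have e3 : aff q⁻¹ (-(p / q)) p = 0 := by rw [haffq, sub_self, zero_div]
  have e4 : aff q⁻¹ (-(p / q)) 1 = 1 := by
    rw [haffq, div_eq_one_iff_eq hq.ne']; linarith
  have hV1 := aff_prod_int (α := a) (γ := p⁻¹) ha0 (inv_pos.2 hp) 0 0 0 T 0 p
    (f := fun z => (-(q / 2) / T + p * a * L₁.V z) ^ 2) (by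
      rw [haffa, haffa, mul_zero, e1, e2]; exact hI1.1)
  have hV2 := aff_prod_int (α := b) (γ := q⁻¹) hb0 (inv_pos.2 hq) 0 (-(p / q)) 0 T p 1
    (f := fun z => (p / 2 / T + q * b * L₂.V z) ^ 2) (by
      rw [haffb, haffb, mul_zero, e3, e4]; exact hI2.1)
  rw [haffa, haffa, mul_zero, e1, e2] at hV1
  rw [haffb, haffb, mul_zero, e3, e4] at hV2
  have hV1' : (fun z => (-(q / 2) / T + p * a * L₁.V (Prod.map (aff a 0) (aff p⁻¹ 0) z)) ^ 2)
      =ᵐ[((volume : Measure ℝ).restrict (Ioo 0 T)).prod (volume.restrict (Ico 0 p))]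
      fun z => V' z ^ 2 := by
    filter_upwards [ae_prod_mem (A := Ioo 0 T) (B := Ico 0 p) measurableSet_Ioo measurableSet_Ico]
      with z hz
    simp only [hV', if_pos hz.2.2, Prod.map, haffa, haffp]
  have hV2' : (fun z => (p / 2 / T + q * b * L₂.V (Prod.map (aff b 0) (aff q⁻¹ (-(p / q))) z)) ^ 2)
      =ᵐ[((volume : Measure ℝ).restrict (Ioo 0 T)).prod (volume.restrict (Ico p 1))]
      fun z => V' z ^ 2 := by
    filter_upwards [ae_prod_mem (A := Ioo 0 T) (B := Ico p 1) measurableSet_Ioo measurableSet_Ico]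
      with z hz
    simp only [hV', if_neg (not_lt.2 hz.2.1), Prod.map, haffb, haffq]
  have hVi1 := hV1.1.congr hV1'
  have hVi2 := hV2.1.congr hV2'
  have hVint : ∫ z, V' z ^ 2 ∂(Pm T) = a⁻¹ * p * ((-(q / 2) / T) ^ 2 * (a * T) +
      (p * a) ^ 2 * ∫ z, L₁.V z ^ 2 ∂(Pm (a * T))) + b⁻¹ * q * ((p / 2 / T) ^ 2 * (b * T) +
      (q * b) ^ 2 * ∫ z, L₂.V z ^ 2 ∂(Pm (b * T))) := by
    rw [hPm, integral_add_measure hVi1 hVi2, ← integral_congr_ae hV1', ← integral_congr_ae hV2']
    have h1 := hV1.2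
    have h2 := hV2.2
    rw [inv_inv] at h1 h2
    have h3 : ((volume : Measure ℝ).restrict (Ioo 0 (a * T))).prod (volume.restrict (Ico 0 1)) =
      Pm (a * T) := rfl
    have h4 : ((volume : Measure ℝ).restrict (Ioo 0 (b * T))).prod (volume.restrict (Ico 0 1)) =
      Pm (b * T) := rfl
    rw [h3, hI1.2] at h1
    rw [h4, hI2.2] at h2
    exact congrArg₂ (· + ·) h1 h2
  refine ⟨{
    X := X'
    V := V'
    N := N'
    C := (fun t => a * t) ⁻¹' L₁.C ∪ (fun t => b * t) ⁻¹' L₂.C
    mX := mX'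
    mV := mV'
    cC := ?_
    cont := ?_
    init := ?_
    final := ?_
    deriv := ?_
    atoms := ?_
    iN := ?_
    iV := ?_
    cost := ?_ }⟩
  · apply Countable.union
    · apply L₁.cC.preimage_of_injOn
      intro s _ t _ h
      exact mul_left_cancel₀ ha0.ne' h
    · apply L₂.cC.preimage_of_injOn
      intro s _ t _ h
      exact mul_left_cancel₀ hb0.ne' h
  · intro y hy
    by_cases hyp : y < p
    · simp only [hX', if_pos hyp]
      apply ContinuousOn.add (by fun_prop)
      apply continuousOn_const.mul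
      exact (L₁.cont _ (hlab1 y hy hyp)).comp (t := Icc 0 (a * T)) (f := fun t => a * t)
        (by fun_prop) (fun t ht => ⟨mul_nonneg ha0.le ht.1, mul_le_mul_of_nonneg_left ht.2 ha0.le⟩)
    · simp only [hX', if_neg hyp]
      apply ContinuousOn.add (by fun_prop)
      apply continuousOn_const.mul
      exact (L₂.cont _ (hlab2 y hy hyp)).comp (t := Icc 0 (b * T)) (f := fun t => b * t)
        (by fun_prop) (fun t ht => ⟨mul_nonneg hb0.le ht.1, mul_le_mul_of_nonneg_left ht.2 hb0.le⟩)
  · intro y hy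
    by_cases hyp : y < p
    · simp only [hX', if_pos hyp]
      rw [mul_zero, L₁.init _ (hlab1 y hy hyp)]; simp
    · simp only [hX', if_neg hyp]
      rw [mul_zero, L₂.init _ (hlab2 y hy hyp)]; simp
  · intro y hy
    by_cases hyp : y < p
    · simp only [hX', if_pos hyp]
      rw [L₁.final _ (hlab1 y hy hyp), div_self hT.ne']
      field_simp
      linarith
    · simp only [hX', if_neg hyp]
      rw [L₂.final _ (hlab2 y hy hyp), div_self hT.ne']
      field_simp
      linarith
  · intro y hy t ht htC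
    rw [mem_union, not_or] at htC
    by_cases hyp : y < p
    · have h1 := L₁.deriv _ (hlab1 y hy hyp) (a * t) ⟨by have := ht.1; positivity,
        mul_lt_mul_of_pos_left ht.2 ha0⟩ htC.1
      simp only [hX', hV', if_pos hyp]
      have h2 : HasDerivAt (fun s => -(q / 2) * (s / T)) (-(q / 2) * (1 / T)) t :=
        ((hasDerivAt_id t).div_const T).const_mul _
      have h3 : HasDerivAt (fun s => L₁.X (a * s, y / p)) (L₁.V (a * t, y / p) * (a * 1)) t :=
        HasDerivAt.comp t (h₂ := fun s => L₁.X (s, y / p)) h1 ((hasDerivAt_id t).const_mul a)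
      refine (h2.add (h3.const_mul p)).congr_deriv ?_
      ring
    · have h1 := L₂.deriv _ (hlab2 y hy hyp) (b * t) ⟨by have := ht.1; positivity,
        mul_lt_mul_of_pos_left ht.2 hb0⟩ htC.2
      simp only [hX', hV', if_neg hyp]
      have h2 : HasDerivAt (fun s => p / 2 * (s / T)) (p / 2 * (1 / T)) t :=
        ((hasDerivAt_id t).div_const T).const_mul _
      have h3 : HasDerivAt (fun s => L₂.X (b * s, (y - p) / q))
          (L₂.V (b * t, (y - p) / q) * (b * 1)) t :=
        HasDerivAt.comp t (h₂ := fun s => L₂.X (s, (y - p) / q)) h1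
          ((hasDerivAt_id t).const_mul b)
      refine (h2.add (h3.const_mul q)).congr_deriv ?_
      ring
  · intro t ht htC
    rw [mem_union, not_or] at htC
    obtain ⟨F₁, hF₁, hc₁⟩ := L₁.atoms (a * t) ⟨by have := ht.1; positivity,
        mul_lt_mul_of_pos_left ht.2 ha0⟩ htC.1
    obtain ⟨F₂, hF₂, hc₂⟩ := L₂.atoms (b * t) ⟨by have := ht.1; positivity,
        mul_lt_mul_of_pos_left ht.2 hb0⟩ htC.2
    refine ⟨F₁.image (fun x => -(q / 2) * (t / T) + p * x) ∪
      F₂.image (fun x => p / 2 * (t / T) + q * x), fun y hy => ?_, ?_⟩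
    · by_cases hyp : y < p
      · simp only [hX', if_pos hyp]
        apply Finset.mem_union_left
        exact Finset.mem_image_of_mem _ (hF₁ _ (hlab1 y hy hyp))
      · simp only [hX', if_neg hyp]
        apply Finset.mem_union_right
        exact Finset.mem_image_of_mem _ (hF₂ _ (hlab2 y hy hyp))
    · have h1 := Finset.card_union_le (F₁.image (fun x => -(q / 2) * (t / T) + p * x))
        (F₂.image (fun x => p / 2 * (t / T) + q * x))
      have h2 : (F₁.image (fun x => -(q / 2) * (t / T) + p * x)).card ≤ F₁.card :=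
        Finset.card_image_le
      have h3 : (F₂.image (fun x => p / 2 * (t / T) + q * x)).card ≤ F₂.card :=
        Finset.card_image_le
      have h4 : (((F₁.image (fun x => -(q / 2) * (t / T) + p * x) ∪
        F₂.image (fun x => p / 2 * (t / T) + q * x)).card : ℕ) : ℝ) ≤ F₁.card + F₂.card := by
        exact_mod_cast h1.trans (add_le_add h2 h3)
      simp only [hN']
      linarith
  · exact hN1.1.add hN2.1
  · rw [hPm]; exact hVi1.add_measure hVi2
  · have hNint : ∫ t in Ioo 0 T, N' t = a⁻¹ * (∫ t in Ioo 0 (a * T), L₁.N t) +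
        b⁻¹ * ∫ t in Ioo 0 (b * T), L₂.N t := by
      rw [← hN1.2, ← hN2.2]
      exact integral_add hN1.1 hN2.1
    rw [hNint, hVint]
    have hc1 := L₁.cost
    have hc2 := L₂.cost
    set K₁ := ∫ z, L₁.V z ^ 2 ∂(Pm (a * T)) with hK₁
    set K₂ := ∫ z, L₂.V z ^ 2 ∂(Pm (b * T)) with hK₂
    set M₁ := ∫ t in Ioo 0 (a * T), L₁.N t with hM₁
    set M₂ := ∫ t in Ioo 0 (b * T), L₂.N t with hM₂
    have hainv : a⁻¹ = p * √p := by rw [ha, one_div, inv_inv]
    have hbinv : b⁻¹ = q * √q := by rw [hb, one_div, inv_inv]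
    have h5 : a⁻¹ * p * ((-(q / 2) / T) ^ 2 * (a * T) + (p * a) ^ 2 * K₁) =
        p * q ^ 2 / (4 * T) + (p ^ 3 * a) * K₁ := by
      field_simp
      ring
    have h6 : b⁻¹ * q * ((p / 2 / T) ^ 2 * (b * T) + (q * b) ^ 2 * K₂) =
        q * p ^ 2 / (4 * T) + (q ^ 3 * b) * K₂ := by
      field_simp
      ring
    have h7 : p ^ 3 * a = p * √p := by
      rw [← m32_sq hp.le, ha]; field_simp
    have h8 : q ^ 3 * b = q * √q := by
      rw [← m32_sq hq.le, hb]; field_simp
    rw [h5, h6, h7, h8, hainv, hbinv]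
    have h9 := mul_le_mul_of_nonneg_left hc1 hpp.le
    have h10 := mul_le_mul_of_nonneg_left hc2 hqq.le
    have h11 : p * q ^ 2 / (4 * T) + q * p ^ 2 / (4 * T) = p * q / (4 * T) := by
      have : p * q ^ 2 + q * p ^ 2 = p * q := by
        have : p * q ^ 2 + q * p ^ 2 = p * q * (p + q) := by ring
        rw [this, hpq, mul_one]
      rw [← add_div, this]
    linarith

end Plan

end Pool.Agent.Lib.MP_c57125_an
end

section
set_option autoImplicit false

open MeasureTheory ProbabilityTheory Set Filter Topology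
open scoped ENNReal

namespace Pool.Agent.Lib.MP_c57125_an

/-- branching times -/
noncomputable def tk (T : ℝ) (k : ℕ) : ℝ := T * (1 - (1 / 3) ^ k)

/-- lengths of the time intervals -/
noncomputable def Dk (T : ℝ) (k : ℕ) : ℝ := T * (2 / 3) * (1 / 3) ^ k

/-- centers of dyadic cells -/
noncomputable def cc (k n : ℕ) : ℝ := ((n : ℝ) + 1 / 2) / 2 ^ k - 1 / 2

noncomputable def ck (k : ℕ) (y : ℝ) : ℝ := cc k ⌊2 ^ k * y⌋₊

noncomputable def bk (k : ℕ) (y : ℝ) : ℝ := ck (k + 1) y - ck k y

noncomputable def rho (T : ℝ) (k : ℕ) (t : ℝ) : ℝ := max 0 (min 1 ((t - tk T k) / Dk T k))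

theorem tk_zero (T : ℝ) : tk T 0 = 0 := by simp [tk]

theorem tk_succ (T : ℝ) (k : ℕ) : tk T (k + 1) = tk T k + Dk T k := by
  unfold tk Dk; rw [pow_succ]; ring

theorem Dk_pos {T : ℝ} (hT : 0 < T) (k : ℕ) : 0 < Dk T k := by unfold Dk; positivity

theorem tk_mono {T : ℝ} (hT : 0 < T) : StrictMono (tk T) :=
  strictMono_nat_of_lt_succ fun k => by rw [tk_succ]; linarith [Dk_pos hT k]

theorem tk_lt {T : ℝ} (hT : 0 < T) (k : ℕ) : tk T k < T := by
  unfold tk
  have : (0 : ℝ) < (1 / 3) ^ k := by positivity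
  nlinarith

theorem tk_tendsto (T : ℝ) : Tendsto (tk T) atTop (𝓝 T) := by
  have h1 : Tendsto (fun k : ℕ => (1 / 3 : ℝ) ^ k) atTop (𝓝 0) :=
    tendsto_pow_atTop_nhds_zero_of_lt_one (by norm_num) (by norm_num)
  have h2 : Tendsto (fun k : ℕ => T * (1 - (1 / 3 : ℝ) ^ k)) atTop (𝓝 (T * (1 - 0))) :=
    (h1.const_sub 1).const_mul T
  rw [sub_zero, mul_one] at h2
  exact h2

theorem floor_half (k : ℕ) (y : ℝ) : ⌊2 ^ k * y⌋₊ = ⌊2 ^ (k + 1) * y⌋₊ / 2 := by
  have h1 : (2 : ℝ) ^ k * y = 2 ^ (k + 1) * y / ((2 : ℕ) : ℝ) := by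
    push_cast; rw [pow_succ]; ring
  rw [h1, Nat.floor_div_natCast]

/-- displacement as a function of the cell index at the next level -/
noncomputable def bb (k n : ℕ) : ℝ := cc (k + 1) n - cc k (n / 2)

theorem bk_eq (k : ℕ) (y : ℝ) : bk k y = bb k ⌊2 ^ (k + 1) * y⌋₊ := by
  unfold bk ck bb
  rw [floor_half k y]

theorem bb_abs (k n : ℕ) : |bb k n| = 1 / 2 ^ (k + 2) := by
  have h2 : (0 : ℝ) < 2 ^ (k + 2) := by positivity
  rcases Nat.even_or_odd' n with ⟨m, h | h⟩
  · have h3 : n / 2 = m := by omega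
    have h4 : bb k n = -(1 / 2 ^ (k + 2)) := by
      unfold bb cc
      rw [h3, h]
      push_cast
      rw [pow_succ 2 (k + 1), pow_succ 2 k]
      field_simp
      ring
    rw [h4, abs_neg, abs_of_pos (by positivity)]
  · have h3 : n / 2 = m := by omega
    have h4 : bb k n = 1 / 2 ^ (k + 2) := by
      unfold bb cc
      rw [h3, h]
      push_cast
      rw [pow_succ 2 (k + 1), pow_succ 2 k]
      field_simp
      ring
    rw [h4, abs_of_pos (by positivity)]

theorem bk_abs (k : ℕ) (y : ℝ) : |bk k y| = 1 / 2 ^ (k + 2) := by rw [bk_eq, bb_abs]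

theorem bk_sq (k : ℕ) (y : ℝ) : bk k y ^ 2 = 1 / 4 ^ (k + 2) := by
  rw [← sq_abs, bk_abs, div_pow, one_pow, ← pow_mul, mul_comm, pow_mul]; norm_num

theorem ck_measurable (k : ℕ) : Measurable (ck k) := by
  unfold ck cc
  have h1 : Measurable fun y : ℝ => ((⌊2 ^ k * y⌋₊ : ℕ) : ℝ) :=
    measurable_from_nat.comp (Nat.measurable_floor.comp (measurable_const_mul _))
  fun_prop

theorem bk_measurable (k : ℕ) : Measurable (bk k) := (ck_measurable _).sub (ck_measurable _)

theorem rho_continuous (T : ℝ) (k : ℕ) : Continuous (rho T k) := by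
  unfold rho
  apply continuous_const.max
  apply continuous_const.min
  exact (continuous_id.sub continuous_const).div_const _

theorem rho_nonneg (T : ℝ) (k : ℕ) (t : ℝ) : 0 ≤ rho T k t := le_max_left _ _

theorem rho_le_one (T : ℝ) (k : ℕ) (t : ℝ) : rho T k t ≤ 1 :=
  max_le zero_le_one (min_le_left _ _)

theorem rho_of_le {T : ℝ} (hT : 0 < T) {k : ℕ} {t : ℝ} (h : t ≤ tk T k) : rho T k t = 0 := by
  unfold rho
  apply max_eq_left
  apply (min_le_right _ _).trans
  exact div_nonpos_of_nonpos_of_nonneg (by linarith) (Dk_pos hT k).le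

theorem rho_of_ge {T : ℝ} (hT : 0 < T) {k : ℕ} {t : ℝ} (h : tk T (k + 1) ≤ t) : rho T k t = 1 := by
  unfold rho
  rw [tk_succ] at h
  have h1 : 1 ≤ (t - tk T k) / Dk T k := by
    rw [one_le_div (Dk_pos hT k)]; linarith
  rw [min_eq_left h1]; simp

theorem rho_mid {T : ℝ} (hT : 0 < T) {k : ℕ} {t : ℝ} (h1 : tk T k ≤ t) (h2 : t ≤ tk T (k + 1)) :
    rho T k t = (t - tk T k) / Dk T k := by
  unfold rho
  rw [tk_succ] at h2
  have h3 : (t - tk T k) / Dk T k ≤ 1 := by
    rw [div_le_one (Dk_pos hT k)]; linarith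
  have h4 : 0 ≤ (t - tk T k) / Dk T k := div_nonneg (by linarith) (Dk_pos hT k).le
  rw [min_eq_right h3, max_eq_right h4]

theorem bound_summable : Summable fun k : ℕ => (1 : ℝ) / 2 ^ (k + 2) := by
  have h1 : Summable fun k : ℕ => (1 / 2 : ℝ) ^ k := summable_geometric_two
  have h2 := h1.mul_left (1 / 4)
  apply h2.congr
  intro k
  rw [one_div_pow, pow_add]; field_simp; norm_num

/-- positions -/
noncomputable def tX (T : ℝ) (p : ℝ × ℝ) : ℝ := ∑' k, bk k p.2 * rho T k p.1

theorem term_bound (T : ℝ) (k : ℕ) (p : ℝ × ℝ) : ‖bk k p.2 * rho T k p.1‖ ≤ 1 / 2 ^ (k + 2) := by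
  rw [norm_mul, Real.norm_eq_abs, bk_abs, Real.norm_eq_abs, abs_of_nonneg (rho_nonneg _ _ _)]
  exact mul_le_of_le_one_right (by positivity) (rho_le_one _ _ _)

theorem term_summable (T : ℝ) (p : ℝ × ℝ) : Summable fun k => bk k p.2 * rho T k p.1 :=
  Summable.of_norm_bounded bound_summable fun k => term_bound T k p

theorem tX_measurable (T : ℝ) : Measurable (tX T) := by
  apply measurable_of_tendsto_metrizable
    (f := fun (n : ℕ) (p : ℝ × ℝ) => ∑ k ∈ Finset.range n, bk k p.2 * rho T k p.1)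
  · intro n
    apply Finset.measurable_sum
    intro k _
    exact ((bk_measurable k).comp measurable_snd).mul
      ((rho_continuous T k).measurable.comp measurable_fst)
  · rw [tendsto_pi_nhds]
    intro p
    exact (term_summable T p).hasSum.tendsto_sum_nat

theorem tX_continuous (T y : ℝ) : Continuous fun t => tX T (t, y) := by
  unfold tX
  have h1 : ∀ k, Continuous fun t => bk k y * rho T k t := fun k =>
    continuous_const.mul (rho_continuous T k)
  exact continuous_tsum (f := fun k t => bk k y * rho T k t) h1 bound_summable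
    (fun k t => term_bound T k (t, y))

theorem sum_bk (n : ℕ) (y : ℝ) : ∑ k ∈ Finset.range n, bk k y = ck n y - ck 0 y := by
  unfold bk
  exact Finset.sum_range_sub (fun k => ck k y) n

theorem ck_zero {y : ℝ} (hy : y ∈ Ico (0 : ℝ) 1) : ck 0 y = 0 := by
  unfold ck cc
  have : ⌊(2 : ℝ) ^ 0 * y⌋₊ = 0 := by
    rw [pow_zero, one_mul, Nat.floor_eq_zero]; exact hy.2
  rw [this]; norm_num

theorem tX_mid {T : ℝ} (hT : 0 < T) {j : ℕ} {t y : ℝ} (h1 : tk T j ≤ t) (h2 : t ≤ tk T (j + 1))
    (hy : y ∈ Ico (0 : ℝ) 1) :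
    tX T (t, y) = ck j y + bk j y * ((t - tk T j) / Dk T j) := by
  unfold tX
  rw [tsum_eq_sum (s := Finset.range (j + 1))]
  · rw [Finset.sum_range_succ]
    simp only
    rw [rho_mid hT h1 h2]
    congr 1
    have h3 : ∀ k ∈ Finset.range j, bk k y * rho T k t = bk k y := by
      intro k hk
      rw [rho_of_ge hT, mul_one]
      exact ((tk_mono hT).monotone (Finset.mem_range.1 hk)).trans h1
    rw [Finset.sum_congr rfl h3, sum_bk, ck_zero hy, sub_zero]
  · intro k hk
    rw [Finset.mem_range, not_lt] at hk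
    simp only
    rw [rho_of_le hT, mul_zero]
    exact h2.trans ((tk_mono hT).monotone hk)

theorem ck_tendsto {y : ℝ} (hy : y ∈ Ico (0 : ℝ) 1) :
    Tendsto (fun n => ck n y) atTop (𝓝 (y - 1 / 2)) := by
  rw [tendsto_iff_norm_sub_tendsto_zero]
  have h1 : Tendsto (fun k : ℕ => (1 / 2 : ℝ) ^ k) atTop (𝓝 0) :=
    tendsto_pow_atTop_nhds_zero_of_lt_one (by norm_num) (by norm_num)
  apply squeeze_zero (fun n => norm_nonneg _) _ h1
  intro n
  unfold ck cc
  have h2 : (0 : ℝ) < 2 ^ n := by positivity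
  have h3 : (0 : ℝ) ≤ 2 ^ n * y := mul_nonneg h2.le hy.1
  have h4 := Nat.floor_le h3
  have h5 := Nat.lt_floor_add_one ((2 : ℝ) ^ n * y)
  set m : ℝ := (⌊(2 : ℝ) ^ n * y⌋₊ : ℝ) with hm
  have h6 : (m + 1 / 2) / 2 ^ n - 1 / 2 - (y - 1 / 2) = (m + 1 / 2 - 2 ^ n * y) / 2 ^ n := by
    field_simp; ring
  rw [h6, norm_div, Real.norm_eq_abs, Real.norm_eq_abs, abs_of_pos h2, one_div_pow]
  apply div_le_div_of_nonneg_right _ h2.le
  rw [abs_le]; constructor <;> linarith

theorem tX_final {T : ℝ} (hT : 0 < T) {y : ℝ} (hy : y ∈ Ico (0 : ℝ) 1) :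
    tX T (T, y) = y - 1 / 2 := by
  have h1 : HasSum (fun k => bk k y * rho T k T) (tX T (T, y)) := (term_summable T (T, y)).hasSum
  have h2 := h1.tendsto_sum_nat
  have h3 : (fun n => ∑ k ∈ Finset.range n, bk k y * rho T k T) = fun n => ck n y := by
    ext n
    have h4 : ∀ k ∈ Finset.range n, bk k y * rho T k T = bk k y := by
      intro k _
      rw [rho_of_ge hT (tk_lt hT _).le, mul_one]
    rw [Finset.sum_congr rfl h4, sum_bk, ck_zero hy, sub_zero]
  rw [h3] at h2
  exact tendsto_nhds_unique h2 (ck_tendsto hy)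

/-! ### step functions -/

/-- step function with value `a k` on `[tk k, tk (k+1))` -/
noncomputable def stp (T : ℝ) (a : ℕ → ℝ) (t : ℝ) : ℝ :=
  ∑' k, (Ico (tk T k) (tk T (k + 1))).indicator (fun _ => a k) t

theorem stp_eq {T : ℝ} (hT : 0 < T) (a : ℕ → ℝ) {j : ℕ} {t : ℝ}
    (ht : t ∈ Ico (tk T j) (tk T (j + 1))) : stp T a t = a j := by
  unfold stp
  rw [tsum_eq_single j, indicator_of_mem ht]
  intro k hk
  apply indicator_of_notMem
  intro hk'
  rcases lt_or_gt_of_ne hk with h | h
  · have := (tk_mono hT).monotone (show k + 1 ≤ j from h)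
    linarith [hk'.2, ht.1]
  · have := (tk_mono hT).monotone (show j + 1 ≤ k from h)
    linarith [hk'.1, ht.2]

theorem exists_level {T t : ℝ} (ht : t ∈ Ico 0 T) :
    ∃ j, t ∈ Ico (tk T j) (tk T (j + 1)) := by
  have h1 := (tk_tendsto T).eventually (lt_mem_nhds ht.2)
  obtain ⟨n, hn⟩ := h1.exists
  have h2 : ∃ n, t < tk T n := ⟨n, hn⟩
  classical
  set m := Nat.find h2 with hm
  have h3 : t < tk T m := Nat.find_spec h2
  have hm0 : m ≠ 0 := by
    intro h0
    rw [h0, tk_zero] at h3
    linarith [ht.1]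
  obtain ⟨j, hj⟩ := Nat.exists_eq_succ_of_ne_zero hm0
  refine ⟨j, ?_, ?_⟩
  · have h4 := Nat.find_min h2 (m := j) (by rw [← hm, hj]; exact Nat.lt_succ_self j)
    exact not_lt.1 h4
  · rw [hj] at h3; exact h3

theorem iUnion_Ico {T : ℝ} (hT : 0 < T) : ⋃ k, Ico (tk T k) (tk T (k + 1)) = Ico 0 T := by
  ext t
  rw [mem_iUnion]
  constructor
  · rintro ⟨k, hk⟩
    refine ⟨?_, hk.2.trans (tk_lt hT _)⟩
    have := (tk_mono hT).monotone (Nat.zero_le k)
    rw [tk_zero] at this
    linarith [hk.1]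
  · intro ht; exact exists_level ht

theorem stp_int {T : ℝ} (hT : 0 < T) {a : ℕ → ℝ} (ha : ∀ k, 0 ≤ a k)
    {s : ℝ} (hs : HasSum (fun k => a k * Dk T k) s) :
    IntegrableOn (stp T a) (Ioo 0 T) ∧ ∫ t in Ioo 0 T, stp T a t = s := by
  have hcongr : ∀ k, EqOn (fun _ => a k) (stp T a) (Ico (tk T k) (tk T (k + 1))) := by
    intro k t ht
    exact (stp_eq hT a ht).symm
  have hvol : ∀ k, volume.real (Ico (tk T k) (tk T (k + 1))) = Dk T k := by
    intro k
    rw [Real.volume_real_Ico_of_le ((tk_mono hT).monotone (Nat.le_succ k)), tk_succ]; ring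
  have hi : ∀ k, IntegrableOn (stp T a) (Ico (tk T k) (tk T (k + 1))) := by
    intro k
    have : IntegrableOn (fun _ => a k) (Ico (tk T k) (tk T (k + 1))) := integrableOn_const (by simp)
    exact this.congr_fun (hcongr k) measurableSet_Ico
  have hval : ∀ k, ∫ t in Ico (tk T k) (tk T (k + 1)), stp T a t = a k * Dk T k := by
    intro k
    rw [← setIntegral_congr_fun measurableSet_Ico (hcongr k), setIntegral_const, hvol, smul_eq_mul,
      mul_comm]
  have hnorm : ∀ k, ∫ t in Ico (tk T k) (tk T (k + 1)), ‖stp T a t‖ = a k * Dk T k := by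
    intro k
    rw [← hval k]
    apply setIntegral_congr_fun measurableSet_Ico
    intro t ht
    simp only
    rw [stp_eq hT a ht, Real.norm_eq_abs, abs_of_nonneg (ha k)]
  have hU : IntegrableOn (stp T a) (⋃ k, Ico (tk T k) (tk T (k + 1))) := by
    apply integrableOn_iUnion_of_summable_integral_norm hi
    simp_rw [hnorm]
    exact hs.summable
  have hd : Pairwise (Function.onFun Disjoint fun k => Ico (tk T k) (tk T (k + 1))) := by
    intro j k hjk
    rw [Function.onFun, Set.disjoint_left]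
    intro t ht ht'
    rcases lt_or_gt_of_ne hjk with h | h
    · have := (tk_mono hT).monotone (show j + 1 ≤ k from h)
      linarith [ht.2, ht'.1]
    · have := (tk_mono hT).monotone (show k + 1 ≤ j from h)
      linarith [ht.1, ht'.2]
  have h1 := hasSum_integral_iUnion (fun k => measurableSet_Ico) hd hU
  simp_rw [hval] at h1
  rw [iUnion_Ico hT] at h1 hU
  refine ⟨hU.mono_set Ioo_subset_Ico_self, ?_⟩
  rw [← integral_Ico_eq_integral_Ioo]
  exact h1.unique hs

/-- velocities -/
noncomputable def tV (T : ℝ) (p : ℝ × ℝ) : ℝ := stp T (fun k => bk k p.2 / Dk T k) p.1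

theorem stp_zero {T : ℝ} (hT : 0 < T) (a : ℕ → ℝ) {t : ℝ} (ht : t ∉ Ico 0 T) (k : ℕ) :
    (Ico (tk T k) (tk T (k + 1))).indicator (fun _ => a k) t = 0 := by
  apply indicator_of_notMem
  intro h
  apply ht
  rw [← iUnion_Ico hT]
  exact mem_iUnion.2 ⟨k, h⟩

theorem tV_measurable {T : ℝ} (hT : 0 < T) : Measurable (tV T) := by
  apply measurable_of_tendsto_metrizable
    (f := fun (n : ℕ) (p : ℝ × ℝ) => ∑ k ∈ Finset.range n,
      (Ico (tk T k) (tk T (k + 1))).indicator (fun _ => bk k p.2 / Dk T k) p.1)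
  · intro n
    apply Finset.measurable_sum
    intro k _
    have h1 : (fun p : ℝ × ℝ => (Ico (tk T k) (tk T (k + 1))).indicator
        (fun _ => bk k p.2 / Dk T k) p.1) =
        ({p : ℝ × ℝ | p.1 ∈ Ico (tk T k) (tk T (k + 1))}).indicator
          (fun p => bk k p.2 / Dk T k) := by
      ext p
      simp only [indicator]
      rfl
    rw [h1]
    apply Measurable.indicator
    · exact ((bk_measurable k).comp measurable_snd).div_const _
    · exact measurable_fst measurableSet_Ico
  · rw [tendsto_pi_nhds]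
    intro p
    unfold tV stp
    apply HasSum.tendsto_sum_nat
    apply Summable.hasSum
    by_cases hp : p.1 ∈ Ico 0 T
    · obtain ⟨j, hj⟩ := exists_level hp
      apply summable_of_ne_finset_zero (s := {j})
      intro k hk
      rw [Finset.mem_singleton] at hk
      apply indicator_of_notMem
      intro hk'
      rcases lt_or_gt_of_ne hk with h | h
      · have := (tk_mono hT).monotone (show k + 1 ≤ j from h)
        linarith [hk'.2, hj.1]
      · have := (tk_mono hT).monotone (show j + 1 ≤ k from h)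
        linarith [hk'.1, hj.2]
    · apply summable_of_ne_finset_zero (s := ∅)
      intro k _
      exact stp_zero hT (fun k => bk k p.2 / Dk T k) hp k

/-- the tail plan -/
theorem exists_tail {T : ℝ} (hT : 0 < T) : Nonempty (Plan T (5 * T + 3 / (8 * T))) := by
  classical
  -- the number of atoms
  have hNsum : HasSum (fun k => (2 : ℝ) ^ (k + 1) * Dk T k) (4 * T) := by
    have h1 : HasSum (fun k : ℕ => (2 / 3 : ℝ) ^ k) (1 - 2 / 3)⁻¹ :=
      hasSum_geometric_of_lt_one (by norm_num) (by norm_num)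
    have h2 := h1.mul_left (4 / 3 * T)
    have h3 : 4 / 3 * T * (1 - 2 / 3)⁻¹ = 4 * T := by norm_num; ring
    rw [h3] at h2
    refine h2.congr_fun ?_
    intro k
    unfold Dk
    rw [div_pow, div_pow, pow_succ]
    ring
  have hWsum : HasSum (fun k => (1 / 4 ^ (k + 2) / Dk T k ^ 2) * Dk T k) (3 / (8 * T)) := by
    have h1 : HasSum (fun k : ℕ => (3 / 4 : ℝ) ^ k) (1 - 3 / 4)⁻¹ :=
      hasSum_geometric_of_lt_one (by norm_num) (by norm_num)
    have h2 := h1.mul_left (3 / (32 * T))
    have h3 : 3 / (32 * T) * (1 - 3 / 4)⁻¹ = 3 / (8 * T) := by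
      norm_num; field_simp; norm_num
    rw [h3] at h2
    refine h2.congr_fun ?_
    intro k
    unfold Dk
    rw [div_pow, div_pow, pow_add]
    field_simp
    ring
  have hN := stp_int hT (a := fun k => (2 : ℝ) ^ (k + 1)) (fun k => by positivity) hNsum
  have hW := stp_int hT (a := fun k => 1 / 4 ^ (k + 2) / Dk T k ^ 2)
    (fun k => by have := Dk_pos hT k; positivity) hWsum
  -- the square of the velocity
  have hVsq : ∀ p : ℝ × ℝ, p.1 ∈ Ico 0 T →
      tV T p ^ 2 = stp T (fun k => 1 / 4 ^ (k + 2) / Dk T k ^ 2) p.1 := by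
    intro p hp
    obtain ⟨j, hj⟩ := exists_level hp
    unfold tV
    rw [stp_eq hT _ hj, stp_eq hT _ hj, div_pow, bk_sq]
  have hVae : (fun p : ℝ × ℝ => stp T (fun k => 1 / 4 ^ (k + 2) / Dk T k ^ 2) p.1)
      =ᵐ[Pm T] fun p => tV T p ^ 2 := by
    unfold Pm Tm Lm
    filter_upwards [ae_prod_mem (A := Ioo 0 T) (B := Ico 0 1) measurableSet_Ioo measurableSet_Ico]
      with p hp
    rw [hVsq p (Ioo_subset_Ico_self hp.1)]
  have hWi : Integrable (fun p : ℝ × ℝ => stp T (fun k => 1 / 4 ^ (k + 2) / Dk T k ^ 2) p.1) (Pm T) :=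
    Integrable.comp_fst (μ := Tm T) (ν := Lm) hW.1
  have hWint : ∫ p : ℝ × ℝ, stp T (fun k => 1 / 4 ^ (k + 2) / Dk T k ^ 2) p.1 ∂(Pm T) =
      3 / (8 * T) := by
    unfold Pm
    rw [integral_prod _ hWi]
    simp only [integral_const, probReal_univ, one_smul]
    exact hW.2
  refine ⟨{
    X := tX T
    V := tV T
    N := stp T (fun k => (2 : ℝ) ^ (k + 1))
    C := range (tk T)
    mX := tX_measurable T
    mV := tV_measurable hT
    cC := countable_range _
    cont := fun y _ => (tX_continuous T y).continuousOn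
    init := ?_
    final := fun y hy => tX_final hT hy
    deriv := ?_
    atoms := ?_
    iN := hN.1
    iV := hWi.congr hVae
    cost := ?_ }⟩
  · intro y hy
    rw [tX_mid hT (j := 0) (by rw [tk_zero]) (by
      rw [tk_succ, tk_zero]; linarith [Dk_pos hT 0]) hy, ck_zero hy, tk_zero]
    simp
  · intro y hy t ht htC
    obtain ⟨j, hj⟩ := exists_level (Ioo_subset_Ico_self ht)
    have hj1 : tk T j < t := lt_of_le_of_ne hj.1 (fun h => htC ⟨j, h⟩)
    have h1 : (fun s => tX T (s, y)) =ᶠ[𝓝 t] fun s => ck j y + bk j y * ((s - tk T j) / Dk T j) := by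
      filter_upwards [Ioo_mem_nhds hj1 hj.2] with s hs
      exact tX_mid hT hs.1.le hs.2.le hy
    have h2 : tV T (t, y) = bk j y * (1 / Dk T j) := by
      unfold tV
      rw [stp_eq hT _ hj]; ring
    rw [h2]
    have h3 : HasDerivAt (fun s => ck j y + bk j y * ((s - tk T j) / Dk T j))
        (bk j y * (1 / Dk T j)) t :=
      ((((hasDerivAt_id t).sub_const (tk T j)).div_const (Dk T j)).const_mul (bk j y)).const_add _
    exact h3.congr_of_eventuallyEq h1
  · intro t ht htC
    obtain ⟨j, hj⟩ := exists_level (Ioo_subset_Ico_self ht)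
    refine ⟨(Finset.range (2 ^ (j + 1))).image
      (fun n => cc j (n / 2) + bb j n * ((t - tk T j) / Dk T j)), fun y hy => ?_, ?_⟩
    · rw [tX_mid hT hj.1 hj.2.le hy]
      apply Finset.mem_image.2
      refine ⟨⌊2 ^ (j + 1) * y⌋₊, ?_, ?_⟩
      · rw [Finset.mem_range, Nat.floor_lt (mul_nonneg (by positivity) hy.1)]
        push_cast
        have : (0 : ℝ) < 2 ^ (j + 1) := by positivity
        nlinarith [hy.2]
      · rw [bk_eq]
        unfold ck
        rw [floor_half j y]
    · rw [stp_eq hT _ hj]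
      have h1 := Finset.card_image_le (s := Finset.range (2 ^ (j + 1)))
        (f := fun n => cc j (n / 2) + bb j n * ((t - tk T j) / Dk T j))
      rw [Finset.card_range] at h1
      exact_mod_cast h1
  · rw [hN.2, ← integral_congr_ae hVae, hWint]
    linarith

end Pool.Agent.Lib.MP_c57125_an
end
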