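import Pool.Agent.Lib.MP_c57125_an.Lower
import Pool.Agent.Lib.MP_c57125_an.PlanTail
import Pool.Agent.Lib.MP_c57125_an.StrictFinal

section
set_option autoImplicit false

open MeasureTheory ProbabilityTheory Set Filter Topology
open scoped ENNReal ContDiff BoundedContinuousFunction

namespace Pool.Agent.Lib.MP_c57125_an

/-- spatial cut-off at scale `n + 1` -/
noncomputable def cut (n : ℕ) (x : ℝ) : ℝ := (chi (x / (n + 1)) : ℝ) ^ 2

theorem cut_smooth (n : ℕ) : ContDiff ℝ ∞ (cut n) := by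
  unfold cut
  exact (chi_smooth.comp (contDiff_id.div_const _)).pow 2

theorem chi_abs_le (x : ℝ) : |(chi x : ℝ)| ≤ 1 := by
  rw [abs_of_nonneg chi.nonneg]; exact chi.le_one

theorem cut_nonneg (n : ℕ) (x : ℝ) : 0 ≤ cut n x := sq_nonneg _

theorem cut_le_one (n : ℕ) (x : ℝ) : cut n x ≤ 1 := by
  unfold cut
  have h1 : (0 : ℝ) ≤ chi (x / (n + 1)) := chi.nonneg
  have h2 : (chi (x / (n + 1)) : ℝ) ≤ 1 := chi.le_one
  nlinarith

theorem cut_tsupport (n : ℕ) : tsupport (cut n) ⊆ Metric.closedBall 0 (2 * ((n : ℝ) + 1)) := by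
  apply closure_minimal _ Metric.isClosed_closedBall
  intro x hx
  rw [Function.mem_support] at hx
  by_contra hcon
  apply hx
  have : chi (x / (n + 1)) = 0 := by
    apply chi.zero_of_le_dist
    rw [Metric.mem_closedBall, not_le, dist_zero_right] at hcon
    rw [dist_zero_right, norm_div]
    have hn : ‖((n : ℝ) + 1)‖ = n + 1 := by
      rw [Real.norm_eq_abs, abs_of_pos (by positivity)]
    rw [hn, le_div_iff₀ (by positivity)]
    exact hcon.le
  unfold cut
  rw [this]; simp

theorem cut_compact (n : ℕ) : HasCompactSupport (cut n) :=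
  (isCompact_closedBall _ _).of_isClosed_subset (isClosed_tsupport _) (cut_tsupport n)

theorem cut_deriv_bdd : ∃ C, 0 < C ∧ ∀ (n : ℕ) (x w : ℝ),
    |w * deriv (cut n) x| ≤ C / ((n : ℝ) + 1) * (cut n x + w ^ 2) := by
  obtain ⟨C, hC⟩ := chi_deriv_bdd
  have hC0 : 0 ≤ C := (abs_nonneg _).trans (hC 0)
  refine ⟨C + 1, by positivity, fun n x w => ?_⟩
  have hn : (0 : ℝ) < (n : ℝ) + 1 := by positivity
  have h3 : HasDerivAt (chi : ℝ → ℝ) (deriv (chi : ℝ → ℝ) (x / (n + 1))) (x / (n + 1)) :=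
    ((chi_smooth.differentiable (by simp)) _).hasDerivAt
  have h4 : HasDerivAt (fun y : ℝ => (chi (y / (n + 1)) : ℝ))
      (deriv (chi : ℝ → ℝ) (x / (n + 1)) * (1 / ((n : ℝ) + 1))) x :=
    HasDerivAt.comp (h₂ := (chi : ℝ → ℝ)) (h := fun y : ℝ => y / ((n : ℝ) + 1)) x h3
      ((hasDerivAt_id x).div_const ((n : ℝ) + 1))
  have h5 : deriv (cut n) x = 2 * (chi (x / (n + 1)) : ℝ) *
      (deriv (chi : ℝ → ℝ) (x / (n + 1)) * (1 / ((n : ℝ) + 1))) := by
    have := (h4.fun_pow 2).deriv
    unfold cut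
    rw [this]
    simp
  rw [h5]
  set a : ℝ := (chi (x / (n + 1)) : ℝ) with ha
  set d : ℝ := deriv (chi : ℝ → ℝ) (x / (n + 1)) with hd
  have hd1 : |d| ≤ C := hC _
  have h6 : |w * (2 * a * (d * (1 / ((n : ℝ) + 1))))| = (|d| / ((n : ℝ) + 1)) * (2 * |a| * |w|) := by
    rw [abs_mul, abs_mul, abs_mul, abs_mul]
    rw [abs_of_pos (show (0 : ℝ) < 2 by norm_num), abs_of_pos (show 0 < 1 / ((n : ℝ) + 1) by positivity)]
    ring
  rw [h6]
  have h7 : 2 * |a| * |w| ≤ cut n x + w ^ 2 := by
    unfold cut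
    rw [← ha, ← sq_abs a, ← sq_abs w]
    nlinarith [sq_nonneg (|a| - |w|)]
  have h8 : |d| / ((n : ℝ) + 1) ≤ (C + 1) / ((n : ℝ) + 1) :=
    div_le_div_of_nonneg_right (by linarith) hn.le
  have h9 : 0 ≤ cut n x + w ^ 2 := add_nonneg (cut_nonneg _ _) (sq_nonneg _)
  calc |d| / ((n : ℝ) + 1) * (2 * |a| * |w|) ≤ |d| / ((n : ℝ) + 1) * (cut n x + w ^ 2) :=
        mul_le_mul_of_nonneg_left h7 (by positivity)
    _ ≤ (C + 1) / ((n : ℝ) + 1) * (cut n x + w ^ 2) := mul_le_mul_of_nonneg_right h8 h9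

namespace AdmissiblePair

variable {T : ℝ} (A : AdmissiblePair T)

instance : IsSFiniteKernel A.slice := A.sfinite_slice

instance : SFinite A.meas := by unfold meas; infer_instance

/-- mass seen through the cut-off -/
noncomputable def y (n : ℕ) (t : ℝ) : ℝ := ∫ x, cut n x ∂(A.slice t)

theorem y_nonneg (n : ℕ) (t : ℝ) : 0 ≤ A.y n t := integral_nonneg fun _ => cut_nonneg _ _

theorem y_measurable (n : ℕ) : Measurable (A.y n) := by
  unfold y
  exact (((cut_smooth n).continuous.measurable.comp measurable_snd).stronglyMeasurable.integral_kernel_prod_right'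
    (κ := A.slice)).measurable

/-- the box used for the localisation -/
def box (a b : ℝ) (n : ℕ) : Set (ℝ × ℝ) := Icc a b ×ˢ Metric.closedBall 0 (2 * ((n : ℝ) + 1))

theorem box_compact (a b : ℝ) (n : ℕ) : IsCompact (box a b n) :=
  isCompact_Icc.prod (isCompact_closedBall _ _)

theorem box_meas (a b : ℝ) (n : ℕ) : MeasurableSet (box a b n) :=
  (box_compact a b n).isClosed.measurableSet

theorem box_sub {a b : ℝ} (ha : 0 < a) (hb : b < T) (n : ℕ) : box a b n ⊆ Ioo 0 T ×ˢ univ := by
  rintro p ⟨hp, _⟩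
  exact ⟨⟨by linarith [hp.1], by linarith [hp.2]⟩, mem_univ _⟩

theorem box_lt_top {a b : ℝ} (ha : 0 < a) (hb : b < T) (n : ℕ) : A.meas (box a b n) < ⊤ :=
  A.finite_on_compacts _ (box_compact a b n) (box_sub ha hb n)

/-- bounded measurable functions supported in a box are integrable -/
theorem int_of_box {a b : ℝ} (ha : 0 < a) (hb : b < T) (n : ℕ) {f : ℝ × ℝ → ℝ} (hf : Measurable f)
    {C : ℝ} (hC : ∀ p, |f p| ≤ C) (hs : ∀ p, p ∉ box a b n → f p = 0) : Integrable f A.meas := by
  have h1 : IntegrableOn f (box a b n) A.meas := by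
    apply Measure.integrableOn_of_bounded (M := C) (A.box_lt_top ha hb n).ne hf.aestronglyMeasurable
    exact Eventually.of_forall fun p => by rw [Real.norm_eq_abs]; exact hC p
  rw [← integrableOn_iff_integrable_of_support_subset (s := box a b n)]
  · exact h1
  · intro p hp
    by_contra hcon
    exact hp (hs p hcon)

theorem cut_zero {n : ℕ} {x : ℝ} (hx : x ∉ Metric.closedBall (0 : ℝ) (2 * ((n : ℝ) + 1))) :
    cut n x = 0 ∧ deriv (cut n) x = 0 := by
  have h1 : x ∉ tsupport (cut n) := fun h => hx (cut_tsupport n h)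
  refine ⟨image_eq_zero_of_notMem_tsupport h1, ?_⟩
  have h2 : x ∉ tsupport (deriv (cut n)) := fun h => h1 (tsupport_deriv_subset h)
  exact image_eq_zero_of_notMem_tsupport h2

theorem int_cut {a b : ℝ} (ha : 0 < a) (hb : b < T) (n : ℕ) :
    Integrable (fun p : ℝ × ℝ => (Icc a b).indicator (fun _ => (1 : ℝ)) p.1 * cut n p.2) A.meas := by
  apply A.int_of_box ha hb n (C := 1)
  · exact ((measurable_const.indicator measurableSet_Icc).comp measurable_fst).mul
      ((cut_smooth n).continuous.measurable.comp measurable_snd)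
  · intro p
    rw [abs_mul, abs_of_nonneg (cut_nonneg n p.2)]
    have h1 : |(Icc a b).indicator (fun _ => (1 : ℝ)) p.1| ≤ 1 := by
      unfold indicator; split_ifs <;> simp
    calc _ ≤ 1 * 1 := mul_le_mul h1 (cut_le_one _ _) (cut_nonneg _ _) zero_le_one
      _ = 1 := one_mul 1
  · intro p hp
    by_cases h1 : p.1 ∈ Icc a b
    · have h2 : p.2 ∉ Metric.closedBall (0 : ℝ) (2 * ((n : ℝ) + 1)) := fun h => hp ⟨h1, h⟩
      rw [(cut_zero h2).1, mul_zero]
    · rw [indicator_of_notMem h1, zero_mul]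

theorem y_integrableOn {a b : ℝ} (ha : 0 < a) (hb : b < T) (n : ℕ) :
    IntegrableOn (A.y n) (Icc a b) := by
  have h1 := A.int_cut ha hb n
  unfold meas at h1
  rw [Measure.integrable_compProd_iff h1.aestronglyMeasurable] at h1
  have h2 := h1.2
  have h3 : (fun t => ∫ x, ‖(Icc a b).indicator (fun _ => (1 : ℝ)) t * cut n x‖ ∂(A.slice t)) =
      (Icc a b).indicator (A.y n) := by
    ext t
    by_cases ht : t ∈ Icc a b
    · rw [indicator_of_mem ht, indicator_of_mem ht]
      unfold y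
      congr 1; ext x
      rw [one_mul, Real.norm_eq_abs, abs_of_nonneg (cut_nonneg _ _)]
    · rw [indicator_of_notMem ht, indicator_of_notMem ht]
      simp
  simp only at h2
  rw [h3, integrable_indicator_iff measurableSet_Icc] at h2
  have h4 : (volume.restrict (Ioo 0 T)).restrict (Icc a b) = volume.restrict (Icc a b) := by
    rw [Measure.restrict_restrict measurableSet_Icc, inter_eq_left.2]
    intro r hr
    exact ⟨by linarith [hr.1], by linarith [hr.2]⟩
  unfold IntegrableOn at h2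
  rw [h4] at h2
  exact h2

/-- good times -/
def Gd (t : ℝ) : Prop := t ∈ Ioo 0 T ∧ ∀ n, RP (A.y n) t ∧ Integrable (cut n) (A.slice t)

theorem gd_ae : ∀ᵐ t ∂(volume.restrict (Ioo 0 T)), A.Gd t := by
  have hk : ∀ k n : ℕ, ∀ᵐ t ∂(volume : Measure ℝ), t ∈ Ioo (1 / ((k : ℝ) + 1)) (T - 1 / ((k : ℝ) + 1)) →
      RP (A.y n) t ∧ Integrable (cut n) (A.slice t) := by
    intro k n
    set a := 1 / ((k : ℝ) + 1) with ha
    have ha0 : 0 < a := by positivity
    have hb : T - a < T := by linarith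
    have h1 : IntegrableOn (A.y n) (Ioo a (T - a)) :=
      (A.y_integrableOn ha0 hb n).mono_set Ioo_subset_Icc_self
    have h2 := (ae_restrict_iff' measurableSet_Ioo).1 (ae_RP isOpen_Ioo h1)
    have h3 := A.int_cut ha0 hb n
    unfold meas at h3
    rw [Measure.integrable_compProd_iff h3.aestronglyMeasurable] at h3
    have h4 := (ae_restrict_iff' measurableSet_Ioo).1 h3.1
    filter_upwards [h2, h4] with t ht2 ht4 ht
    refine ⟨ht2 ht, ?_⟩
    have h5 := ht4 ⟨by linarith [ht.1], by linarith [ht.2]⟩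
    rw [indicator_of_mem (Ioo_subset_Icc_self ht)] at h5
    simpa using h5
  have hall : ∀ᵐ t ∂(volume : Measure ℝ), ∀ k n : ℕ,
      t ∈ Ioo (1 / ((k : ℝ) + 1)) (T - 1 / ((k : ℝ) + 1)) →
      RP (A.y n) t ∧ Integrable (cut n) (A.slice t) := by
    rw [ae_all_iff]; intro k
    rw [ae_all_iff]; intro n
    exact hk k n
  rw [ae_restrict_iff' measurableSet_Ioo]
  filter_upwards [hall] with t ht htT
  refine ⟨htT, fun n => ?_⟩
  have h1 := tendsto_inv_nat.eventually (gt_mem_nhds htT.1)
  have h2 := tendsto_inv_nat.eventually (gt_mem_nhds (sub_pos.2 htT.2))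
  obtain ⟨k, hk1, hk2⟩ := (h1.and h2).exists
  exact ht k n ⟨hk1, by linarith⟩

theorem deriv_cut_bdd (n : ℕ) : ∃ C, 0 ≤ C ∧ ∀ x, |deriv (cut n) x| ≤ C := by
  have hc : Continuous (deriv (cut n)) := (cut_smooth n).continuous_deriv (by simp)
  obtain ⟨C, hC⟩ := (cut_compact n).deriv.exists_bound_of_continuous hc
  exact ⟨C, (norm_nonneg _).trans (hC 0), fun x => hC x⟩

/-- the flux term is integrable on strips -/
theorem flux_int {a b : ℝ} (ha : 0 < a) (hb : b < T) (n : ℕ) :
    Integrable (fun p : ℝ × ℝ => (Icc a b).indicator (fun _ => (1 : ℝ)) p.1 *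
      (A.v p * deriv (cut n) p.2)) A.meas := by
  obtain ⟨C, hC0, hC⟩ := deriv_cut_bdd n
  have hc : Continuous (deriv (cut n)) := (cut_smooth n).continuous_deriv (by simp)
  have h1 : IntegrableOn A.v (box a b n) A.meas :=
    A.integrable_v _ (box_compact a b n) (box_sub ha hb n)
  rw [← integrableOn_iff_integrable_of_support_subset (s := box a b n)]
  · apply (h1.norm.mul_const C).mono'
    · exact (((measurable_const.indicator measurableSet_Icc).comp measurable_fst).mul
        (A.measurable_v.mul (hc.measurable.comp measurable_snd))).aestronglyMeasurable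
    · refine Eventually.of_forall fun p => ?_
      rw [norm_mul, norm_mul]
      have h2 : ‖(Icc a b).indicator (fun _ => (1 : ℝ)) p.1‖ ≤ 1 := by
        unfold indicator; split_ifs <;> simp
      calc _ ≤ 1 * (‖A.v p‖ * ‖deriv (cut n) p.2‖) :=
            mul_le_mul_of_nonneg_right h2 (by positivity)
        _ ≤ ‖A.v p‖ * C := by
            rw [one_mul]; exact mul_le_mul_of_nonneg_left (hC _) (norm_nonneg _)
  · intro p hp
    by_contra hcon
    apply hp
    by_cases h1 : p.1 ∈ Icc a b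
    · have h2 : p.2 ∉ Metric.closedBall (0 : ℝ) (2 * ((n : ℝ) + 1)) := fun h => hcon ⟨h1, h⟩
      simp only
      rw [(cut_zero h2).2]; simp
    · simp only
      rw [indicator_of_notMem h1, zero_mul]

/-- the localised mass balance -/
theorem balance (n : ℕ) {s t : ℝ} (hs : A.Gd s) (ht : A.Gd t) (hst : s < t) :
    A.y n t - A.y n s =
      ∫ p in {p : ℝ × ℝ | p.1 ∈ Ioc s t}, A.v p * deriv (cut n) p.2 ∂A.meas := by
  set t' := (t + T) / 2 with ht'
  have htt' : t < t' := by rw [ht']; linarith [ht.1.2]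
  have ht'T : t' < T := by rw [ht']; linarith [ht.1.2]
  have hs0 : 0 < s := hs.1.1
  set S := Icc s t' with hS
  have hST : S ⊆ Ioo 0 T := fun r hr => ⟨by linarith [hr.1], by linarith [hr.2]⟩
  have hyi : IntegrableOn (A.y n) S := A.y_integrableOn hs0 ht'T n
  have hws : S ∈ 𝓝[≥] s := Icc_mem_nhdsGE (by linarith)
  have hwt : S ∈ 𝓝[≥] t := mem_nhdsWithin_of_mem_nhds (Icc_mem_nhds hst htt')
  have lim1 := (avg_tendsto measurableSet_Icc hyi hws (hs.2 n).1).sub
    (avg_tendsto measurableSet_Icc hyi hwt (ht.2 n).1)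
  have hcd : Continuous (deriv (cut n)) := (cut_smooth n).continuous_deriv (by simp)
  set D : ℝ × ℝ → ℝ := fun p => (Icc s t').indicator (fun _ => (1 : ℝ)) p.1 *
      (A.v p * deriv (cut n) p.2) with hD
  have hDi : Integrable D A.meas := A.flux_int hs0 ht'T n
  have hDm : Measurable D := ((measurable_const.indicator measurableSet_Icc).comp measurable_fst).mul
        (A.measurable_v.mul (hcd.measurable.comp measurable_snd))
  have hwin : ∀ᶠ m : ℕ in atTop, t + 1 / ((m : ℝ) + 1) < t' := by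
    have := tendsto_inv_nat.eventually (gt_mem_nhds (sub_pos.2 htt'))
    filter_upwards [this] with m hm
    linarith
  have hkey : ∀ᶠ m : ℕ in atTop,
      (∫ r in S, bump m s r * A.y n r) - (∫ r in S, bump m t r * A.y n r) =
      - ∫ p, win m s t p.1 * D p ∂A.meas := by
    filter_upwards [hwin] with m hm
    have hsub : tsupport (win m s t) ⊆ S :=
      (win_tsupport m hst).trans (Icc_subset_Icc_right hm.le)
    have hw0 : ∀ r, r ∉ S → win m s t r = 0 := fun r hr =>
      image_eq_zero_of_notMem_tsupport fun h => hr (hsub h)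
    have hb0 : ∀ r, r ∉ S → bump m s r = 0 ∧ bump m t r = 0 := by
      intro r hr
      constructor
      · apply bump_eq_zero
        intro h; apply hr
        exact ⟨h.1, by linarith [h.2]⟩
      · apply bump_eq_zero
        intro h; apply hr
        exact ⟨by linarith [h.1], by linarith [h.2]⟩
    -- the test function
    set ζ : ℝ × ℝ → ℝ := fun p => win m s t p.1 * cut n p.2 with hζ
    have hζs : ContDiff ℝ ∞ ζ :=
      ((win_smooth m s t).comp contDiff_fst).mul ((cut_smooth n).comp contDiff_snd)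
    have hζsupp : tsupport ζ ⊆ box s t' n := by
      apply closure_minimal _ (box_compact _ _ _).isClosed
      intro p hp
      rw [Function.mem_support] at hp
      constructor
      · by_contra hcon
        apply hp
        simp only [hζ, hw0 _ hcon, zero_mul]
      · by_contra hcon
        apply hp
        simp only [hζ, (cut_zero hcon).1, mul_zero]
    have hζc : HasCompactSupport ζ := (box_compact _ _ _).of_isClosed_subset (isClosed_tsupport _) hζsupp
    have hw := A.continuity ζ hζs hζc (hζsupp.trans (box_sub hs0 ht'T n))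
    have hdt : ∀ p, dt ζ p = (bump m s p.1 - bump m t p.1) * cut n p.2 := by
      intro p
      unfold dt
      simp only [hζ]
      rw [deriv_mul_const (((win_smooth m s t).differentiable (by simp)) _), deriv_win]
    have hdx : ∀ p, dx ζ p = win m s t p.1 * deriv (cut n) p.2 := by
      intro p
      unfold dx
      simp only [hζ]
      rw [deriv_const_mul _ (((cut_smooth n).differentiable (by simp)) _)]
    have hcongr : ∀ p, dt ζ p + A.v p * dx ζ p =
        (bump m s p.1 - bump m t p.1) * cut n p.2 + win m s t p.1 * D p := by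
      intro p
      rw [hdt, hdx]
      by_cases hp : p.1 ∈ S
      · have hp' : p.1 ∈ Icc s t' := hp
        have hDp : D p = A.v p * deriv (cut n) p.2 := by
          simp only [hD]
          rw [indicator_of_mem hp', one_mul]
        rw [hDp]; ring
      · rw [hw0 _ hp]; simp
    simp_rw [hcongr] at hw
    have hi1 : Integrable (fun p : ℝ × ℝ => (bump m s p.1 - bump m t p.1) * cut n p.2) A.meas := by
      obtain ⟨Cb, hCb0, hCb⟩ := bump_bdd
      apply A.int_of_box hs0 ht'T n (C := ((m : ℝ) + 1) * Cb + ((m : ℝ) + 1) * Cb)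
      · exact (((bump_continuous m s).measurable.comp measurable_fst).sub
          ((bump_continuous m t).measurable.comp measurable_fst)).mul
          ((cut_smooth n).continuous.measurable.comp measurable_snd)
      · intro p
        rw [abs_mul, abs_of_nonneg (cut_nonneg _ _)]
        have h1 : |bump m s p.1 - bump m t p.1| ≤ ((m : ℝ) + 1) * Cb + ((m : ℝ) + 1) * Cb := by
          refine (abs_sub _ _).trans (add_le_add ?_ ?_)
          · rw [abs_of_nonneg (bump_nonneg _ _ _)]; exact hCb _ _ _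
          · rw [abs_of_nonneg (bump_nonneg _ _ _)]; exact hCb _ _ _
        calc _ ≤ (((m : ℝ) + 1) * Cb + ((m : ℝ) + 1) * Cb) * 1 :=
              mul_le_mul h1 (cut_le_one _ _) (cut_nonneg _ _) (by positivity)
          _ = _ := mul_one _
      · intro p hp
        by_cases h1 : p.1 ∈ S
        · have h2 : p.2 ∉ Metric.closedBall (0 : ℝ) (2 * ((n : ℝ) + 1)) := fun h => hp ⟨h1, h⟩
          rw [(cut_zero h2).1, mul_zero]
        · rw [(hb0 _ h1).1, (hb0 _ h1).2]; simp
    have hi2 : Integrable (fun p : ℝ × ℝ => win m s t p.1 * D p) A.meas := by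
      apply hDi.norm.mono'
      · exact (((win_smooth m s t).continuous.measurable.comp measurable_fst).mul hDm).aestronglyMeasurable
      · refine Eventually.of_forall fun p => ?_
        rw [norm_mul]
        apply mul_le_of_le_one_left (norm_nonneg _)
        rw [Real.norm_eq_abs, abs_of_nonneg (win_nonneg m hst.le _)]
        exact win_le_one m _
    have hw' : ∫ p, ((bump m s p.1 - bump m t p.1) * cut n p.2 + win m s t p.1 * D p) ∂A.meas = 0 := hw
    rw [integral_add hi1 hi2] at hw'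
    have h1 : ∫ p : ℝ × ℝ, (bump m s p.1 - bump m t p.1) * cut n p.2 ∂A.meas =
        (∫ r in S, bump m s r * A.y n r) - (∫ r in S, bump m t r * A.y n r) := by
      unfold meas at hi1 ⊢
      rw [Measure.integral_compProd hi1]
      simp only [integral_const_mul]
      have h2 : ∀ a, IntegrableOn (fun r => bump m a r * A.y n r) S := by
        intro a
        exact hyi.continuousOn_mul (bump_continuous m a).continuousOn isCompact_Icc
      rw [← integral_sub (h2 s) (h2 t)]
      rw [← setIntegral_eq_of_subset_of_forall_sdiff_eq_zero measurableSet_Ioo hST]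
      · congr 1
        ext r
        unfold y; ring
      · intro r hr
        rw [(hb0 r hr.2).1, (hb0 r hr.2).2]; simp
    rw [h1] at hw'
    linarith
  have lim2 : Tendsto (fun m => ∫ p, win m s t p.1 * D p ∂A.meas) atTop
      (𝓝 (∫ p, (Ioc s t).indicator (fun _ => (1 : ℝ)) p.1 * D p ∂A.meas)) := by
    apply tendsto_integral_of_dominated_convergence (fun p => ‖D p‖)
    · intro m
      exact (((win_smooth m s t).continuous.measurable.comp measurable_fst).mul hDm).aestronglyMeasurable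
    · exact hDi.norm
    · intro m
      refine Eventually.of_forall fun p => ?_
      rw [norm_mul]
      apply mul_le_of_le_one_left (norm_nonneg _)
      rw [Real.norm_eq_abs, abs_of_nonneg (win_nonneg m hst.le _)]
      exact win_le_one m _
    · exact Eventually.of_forall fun p => (win_tendsto s t p.1 hst).mul_const _
  have h3 := tendsto_nhds_unique (lim1.congr' hkey) lim2.neg
  have h4 : ∫ p, (Ioc s t).indicator (fun _ => (1 : ℝ)) p.1 * D p ∂A.meas =
      ∫ p in {p : ℝ × ℝ | p.1 ∈ Ioc s t}, A.v p * deriv (cut n) p.2 ∂A.meas := by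
    have hm : MeasurableSet {p : ℝ × ℝ | p.1 ∈ Ioc s t} := measurable_fst measurableSet_Ioc
    rw [← integral_indicator hm]
    congr 1
    ext p
    by_cases hp : p.1 ∈ Ioc s t
    · have hpS : p.1 ∈ S := ⟨hp.1.le, by linarith [hp.2]⟩
      have hp' : p.1 ∈ Icc s t' := hpS
      have hDp : D p = A.v p * deriv (cut n) p.2 := by
        simp only [hD]
        rw [indicator_of_mem hp', one_mul]
      rw [indicator_of_mem hp, indicator_of_mem (by exact hp), one_mul, hDp]
    · rw [indicator_of_notMem hp, indicator_of_notMem (by exact hp), zero_mul]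
  rw [h4] at h3
  linarith

end AdmissiblePair

end Pool.Agent.Lib.MP_c57125_an
end

section
set_option autoImplicit false

open MeasureTheory ProbabilityTheory Set Filter Topology
open scoped ENNReal ContDiff BoundedContinuousFunction

namespace Pool.Agent.Lib.MP_c57125_an

namespace AdmissiblePair

variable {T : ℝ} (A : AdmissiblePair T)

/-- kinetic energy -/
noncomputable def kin : ℝ := ∫ p, A.v p ^ 2 ∂A.meas

theorem sq_int (hE : A.energy < ⊤) : Integrable (fun p => A.v p ^ 2) A.meas := by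
  refine ⟨(A.measurable_v.pow_const 2).aestronglyMeasurable, ?_⟩
  rw [hasFiniteIntegral_iff_ofReal (Eventually.of_forall fun p => sq_nonneg _)]
  exact lt_of_le_of_lt (by unfold energy; exact le_add_left le_rfl) hE

theorem kin_nonneg : 0 ≤ A.kin := integral_nonneg fun _ => sq_nonneg _

theorem strip_cut (n : ℕ) {s t : ℝ} (hs : 0 < s) (ht : t < T) :
    IntegrableOn (fun p : ℝ × ℝ => cut n p.2) {p : ℝ × ℝ | p.1 ∈ Ioc s t} A.meas ∧
    ∫ p in {p : ℝ × ℝ | p.1 ∈ Ioc s t}, cut n p.2 ∂A.meas = ∫ r in Ioc s t, A.y n r := by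
  have hm : MeasurableSet {p : ℝ × ℝ | p.1 ∈ Ioc s t} := measurable_fst measurableSet_Ioc
  have h0 := A.int_cut hs ht n
  have h1 : Integrable (({p : ℝ × ℝ | p.1 ∈ Ioc s t}).indicator fun p => cut n p.2) A.meas := by
    apply h0.mono'
    · exact (((cut_smooth n).continuous.measurable.comp measurable_snd).indicator hm).aestronglyMeasurable
    · refine Eventually.of_forall fun p => ?_
      by_cases hp : p.1 ∈ Ioc s t
      · rw [indicator_of_mem (by exact hp), indicator_of_mem (Ioc_subset_Icc_self hp), one_mul,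
          Real.norm_eq_abs, abs_of_nonneg (cut_nonneg _ _)]
      · rw [indicator_of_notMem (by exact hp), norm_zero]
        apply mul_nonneg _ (cut_nonneg _ _)
        exact indicator_nonneg (fun _ _ => zero_le_one) _
  refine ⟨(integrable_indicator_iff hm).1 h1, ?_⟩
  rw [← integral_indicator hm]
  unfold meas at h1 ⊢
  rw [Measure.integral_compProd h1]
  have h2 : ∀ r, ∫ x, ({p : ℝ × ℝ | p.1 ∈ Ioc s t}).indicator (fun p => cut n p.2) (r, x)
      ∂(A.slice r) = (Ioc s t).indicator (A.y n) r := by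
    intro r
    by_cases hr : r ∈ Ioc s t
    · rw [indicator_of_mem hr]
      unfold y
      congr 1; ext x
      exact indicator_of_mem (by exact hr) _
    · rw [indicator_of_notMem hr]
      have : ∀ x, ({p : ℝ × ℝ | p.1 ∈ Ioc s t}).indicator (fun p => cut n p.2) (r, x) = 0 :=
        fun x => indicator_of_notMem (by exact hr) _
      simp_rw [this]; simp
  simp_rw [h2]
  rw [integral_indicator measurableSet_Ioc, Measure.restrict_restrict measurableSet_Ioc,
    inter_eq_left.2]
  intro r hr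
  exact ⟨hs.trans hr.1, hr.2.trans_lt ht⟩

theorem flux_strip (n : ℕ) {s t : ℝ} (hs : 0 < s) (ht : t < T) :
    IntegrableOn (fun p : ℝ × ℝ => A.v p * deriv (cut n) p.2) {p : ℝ × ℝ | p.1 ∈ Ioc s t} A.meas := by
  have hm : MeasurableSet {p : ℝ × ℝ | p.1 ∈ Ioc s t} := measurable_fst measurableSet_Ioc
  have hcd : Continuous (deriv (cut n)) := (cut_smooth n).continuous_deriv (by simp)
  rw [← integrable_indicator_iff hm]
  apply (A.flux_int hs ht n).norm.mono'
  · exact ((A.measurable_v.mul (hcd.measurable.comp measurable_snd)).indicator hm).aestronglyMeasurable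
  · refine Eventually.of_forall fun p => ?_
    by_cases hp : p.1 ∈ Ioc s t
    · rw [indicator_of_mem (by exact hp), indicator_of_mem (Ioc_subset_Icc_self hp), one_mul]
    · rw [indicator_of_notMem (by exact hp), norm_zero]; exact norm_nonneg _

theorem incr (hE : A.energy < ⊤) {C : ℝ} (hC0 : 0 < C)
    (hC : ∀ (n : ℕ) (x w : ℝ), |w * deriv (cut n) x| ≤ C / ((n : ℝ) + 1) * (cut n x + w ^ 2))
    (n : ℕ) {s t : ℝ} (hs : A.Gd s) (ht : A.Gd t) (hst : s < t) :
    |A.y n t - A.y n s| ≤ C / ((n : ℝ) + 1) * ((∫ r in Ioc s t, A.y n r) + A.kin) := by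
  rw [A.balance n hs ht hst]
  obtain ⟨h1, h2⟩ := A.strip_cut n hs.1.1 ht.1.2 (s := s) (t := t)
  have h3 := A.flux_strip n hs.1.1 ht.1.2 (s := s) (t := t)
  have hsq : IntegrableOn (fun p => A.v p ^ 2) {p : ℝ × ℝ | p.1 ∈ Ioc s t} A.meas :=
    (A.sq_int hE).integrableOn
  have h4 : |∫ p in {p : ℝ × ℝ | p.1 ∈ Ioc s t}, A.v p * deriv (cut n) p.2 ∂A.meas| ≤
      ∫ p in {p : ℝ × ℝ | p.1 ∈ Ioc s t}, C / ((n : ℝ) + 1) * (cut n p.2 + A.v p ^ 2) ∂A.meas := by
    rw [← Real.norm_eq_abs]
    refine (norm_integral_le_integral_norm _).trans ?_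
    apply integral_mono h3.norm ((h1.add hsq).const_mul _)
    intro p
    exact hC n p.2 (A.v p)
  refine h4.trans ?_
  rw [integral_const_mul, integral_add h1 hsq, h2]
  apply mul_le_mul_of_nonneg_left _ (by positivity)
  apply add_le_add le_rfl
  exact setIntegral_le_integral (A.sq_int hE) (Eventually.of_forall fun p => sq_nonneg _)

theorem ae_gd_sub {s t : ℝ} (hs : 0 ≤ s) (ht : t < T) :
    ∀ᵐ r ∂(volume.restrict (Ioc s t)), A.Gd r := by
  rw [ae_restrict_iff' measurableSet_Ioc]
  filter_upwards [(ae_restrict_iff' measurableSet_Ioo).1 A.gd_ae] with r hr hrI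
  exact hr ⟨hs.trans_lt hrI.1, hrI.2.trans_lt ht⟩

theorem y_le (hE : A.energy < ⊤) {C : ℝ} (hC0 : 0 < C)
    (hC : ∀ (n : ℕ) (x w : ℝ), |w * deriv (cut n) x| ≤ C / ((n : ℝ) + 1) * (cut n x + w ^ 2))
    (n : ℕ) (hn : C / ((n : ℝ) + 1) * T < 1) {s t : ℝ} (hs : A.Gd s) (ht : A.Gd t) (hst : s < t) :
    A.y n t * (1 - C / ((n : ℝ) + 1) * T) ≤ A.y n s + C / ((n : ℝ) + 1) * A.kin := by
  set c := C / ((n : ℝ) + 1) with hc
  have hc0 : 0 < c := by rw [hc]; positivity
  have hT : 0 < T := hs.1.1.trans hs.1.2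
  set S : Set ℝ := {z | ∃ r, r ∈ Ioc s t ∧ A.Gd r ∧ z = A.y n r} with hS
  have hne : S.Nonempty := ⟨A.y n t, t, ⟨hst, le_rfl⟩, ht, rfl⟩
  have hflux := A.flux_strip n hs.1.1 ht.1.2 (s := s) (t := t)
  have hbdd : BddAbove S := by
    refine ⟨A.y n s + ∫ p in {p : ℝ × ℝ | p.1 ∈ Ioc s t}, ‖A.v p * deriv (cut n) p.2‖ ∂A.meas, ?_⟩
    rintro z ⟨r, hr, hrG, rfl⟩
    have h1 := A.balance n hs hrG hr.1
    have h2 : ∫ p in {p : ℝ × ℝ | p.1 ∈ Ioc s r}, A.v p * deriv (cut n) p.2 ∂A.meas ≤
        ∫ p in {p : ℝ × ℝ | p.1 ∈ Ioc s t}, ‖A.v p * deriv (cut n) p.2‖ ∂A.meas := by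
      refine (le_abs_self _).trans ?_
      rw [← Real.norm_eq_abs]
      refine (norm_integral_le_integral_norm _).trans ?_
      apply setIntegral_mono_set hflux.norm (Eventually.of_forall fun _ => norm_nonneg _)
      exact (show {p : ℝ × ℝ | p.1 ∈ Ioc s r} ⊆ {p : ℝ × ℝ | p.1 ∈ Ioc s t} from
        fun p hp => ⟨hp.1, hp.2.trans hr.2⟩).eventuallyLE
    linarith
  set M := sSup S with hM
  have hle : ∀ r, r ∈ Ioc s t → A.Gd r → A.y n r ≤ M := fun r hr hrG =>
    le_csSup hbdd ⟨r, hr, hrG, rfl⟩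
  have hM0 : 0 ≤ M := (A.y_nonneg n t).trans (hle t ⟨hst, le_rfl⟩ ht)
  have hstep : M ≤ A.y n s + c * (T * M + A.kin) := by
    apply csSup_le hne
    rintro z ⟨r, hr, hrG, rfl⟩
    have h1 := (abs_le.1 (A.incr hE hC0 hC n hs hrG hr.1)).2
    have h2 : ∫ w in Ioc s r, A.y n w ≤ T * M := by
      have h3 : ∫ w in Ioc s r, A.y n w ≤ ∫ _w in Ioc s r, M := by
        apply integral_mono_ae
        · exact (A.y_integrableOn hs.1.1 (hr.2.trans_lt ht.1.2) n).mono_set Ioc_subset_Icc_self
        · exact integrable_const _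
        · have h4 := (ae_restrict_iff' measurableSet_Ioc).1
            (A.ae_gd_sub hs.1.1.le (hr.2.trans_lt ht.1.2) (s := s) (t := r))
          refine (ae_restrict_iff' measurableSet_Ioc).2 ?_
          filter_upwards [h4] with w hw hwI
          exact hle w ⟨hwI.1, hwI.2.trans hr.2⟩ (hw hwI)
      refine h3.trans ?_
      rw [setIntegral_const, smul_eq_mul, Real.volume_real_Ioc_of_le hr.1.le]
      apply mul_le_mul_of_nonneg_right _ hM0
      linarith [hr.2, ht.1.2, hs.1.1]
    have h5 : c * ((∫ w in Ioc s r, A.y n w) + A.kin) ≤ c * (T * M + A.kin) := by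
      apply mul_le_mul_of_nonneg_left _ hc0.le; linarith
    linarith
  have h6 : M * (1 - c * T) ≤ A.y n s + c * A.kin := by nlinarith
  refine le_trans ?_ h6
  exact mul_le_mul_of_nonneg_right (hle t ⟨hst, le_rfl⟩ ht) (by linarith)

theorem cut_at_zero (n : ℕ) : cut n 0 = 1 := by
  unfold cut
  rw [zero_div, chi.one_of_mem_closedBall (by simp [chi])]; norm_num

/-- the cut-off as a bounded continuous function -/
noncomputable def cutB (n : ℕ) : ℝ →ᵇ ℝ :=
  BoundedContinuousFunction.ofNormedAddCommGroup (cut n) (cut_smooth n).continuous 1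
    (fun x => by rw [Real.norm_eq_abs, abs_of_nonneg (cut_nonneg _ _)]; exact cut_le_one n x)

theorem y_tendsto (n : ℕ) : Tendsto (A.y n) (𝓝[>] 0 ⊓ ae volume) (𝓝 1) := by
  have h1 := A.initial (cutB n)
  have h2 : cutB n 0 = 1 := cut_at_zero n
  rw [h2] at h1
  exact h1

theorem gd_right {t : ℝ} (ht : 0 < t) (htT : t ≤ T) :
    ∀ᶠ s in 𝓝[>] 0 ⊓ ae (volume : Measure ℝ), s ∈ Ioo 0 t ∧ A.Gd s := by
  have h1 : ∀ᶠ s in 𝓝[>] 0 ⊓ ae (volume : Measure ℝ), s ∈ Ioo 0 t :=
    mem_inf_of_left (Ioo_mem_nhdsGT ht)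
  have h2 : ∀ᶠ s in 𝓝[>] 0 ⊓ ae (volume : Measure ℝ), s ∈ Ioo 0 T → A.Gd s := by
    apply mem_inf_of_right
    exact (ae_restrict_iff' measurableSet_Ioo).1 A.gd_ae
  filter_upwards [h1, h2] with s hs hg
  exact ⟨hs, hg ⟨hs.1, hs.2.trans_le htT⟩⟩

theorem y_le' (hE : A.energy < ⊤) {C : ℝ} (hC0 : 0 < C)
    (hC : ∀ (n : ℕ) (x w : ℝ), |w * deriv (cut n) x| ≤ C / ((n : ℝ) + 1) * (cut n x + w ^ 2))
    (n : ℕ) (hn : C / ((n : ℝ) + 1) * T < 1) {t : ℝ} (ht : A.Gd t) :
    A.y n t * (1 - C / ((n : ℝ) + 1) * T) ≤ 1 + C / ((n : ℝ) + 1) * A.kin := by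
  have := neBot_right 0
  have h1 := (A.y_tendsto n).add_const (C / ((n : ℝ) + 1) * A.kin)
  apply ge_of_tendsto h1
  filter_upwards [A.gd_right ht.1.1 ht.1.2.le] with s hs
  exact A.y_le hE hC0 hC n hn hs.2 ht hs.1.2

theorem cut_tendsto (x : ℝ) : Tendsto (fun n : ℕ => cut n x) atTop (𝓝 1) := by
  have hx : Tendsto (fun n : ℕ => x / ((n : ℝ) + 1)) atTop (𝓝 0) := by
    have := tendsto_inv_nat.const_mul x
    simp only [mul_zero, mul_one_div] at this
    exact this
  have h1 : Tendsto (fun n : ℕ => (chi (x / ((n : ℝ) + 1)) : ℝ)) atTop (𝓝 1) := by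
    have h2 := (chi.continuous.tendsto 0).comp hx
    have h3 : (chi (0 : ℝ) : ℝ) = 1 := chi.one_of_mem_closedBall (by simp [chi])
    rw [h3] at h2
    exact h2
  have h4 := h1.pow 2
  rw [one_pow] at h4
  exact h4

theorem y_ofReal {t : ℝ} (ht : A.Gd t) (n : ℕ) :
    ∫⁻ x, ENNReal.ofReal (cut n x) ∂(A.slice t) = ENNReal.ofReal (A.y n t) := by
  unfold y
  rw [ofReal_integral_eq_lintegral_ofReal (ht.2 n).2 (Eventually.of_forall fun x => cut_nonneg _ _)]

theorem mass_le_one (hE : A.energy < ⊤) {t : ℝ} (ht : A.Gd t) : A.slice t univ ≤ 1 := by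
  obtain ⟨C, hC0, hC⟩ := cut_deriv_bdd
  have hT : 0 < T := ht.1.1.trans ht.1.2
  have hc : Tendsto (fun n : ℕ => C / ((n : ℝ) + 1)) atTop (𝓝 0) := by
    have := tendsto_inv_nat.const_mul C
    simp only [mul_zero, mul_one_div] at this
    exact this
  have hev : ∀ᶠ n : ℕ in atTop, C / ((n : ℝ) + 1) * T < 1 := by
    have h1 : Tendsto (fun n : ℕ => C / ((n : ℝ) + 1) * T) atTop (𝓝 0) := by
      simpa using hc.mul_const T
    exact h1.eventually (gt_mem_nhds one_pos)
  set D : ℕ → ℝ := fun n => (1 + C / ((n : ℝ) + 1) * A.kin) / (1 - C / ((n : ℝ) + 1) * T) with hD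
  have hDlim : Tendsto D atTop (𝓝 1) := by
    have h1 : Tendsto (fun n : ℕ => 1 + C / ((n : ℝ) + 1) * A.kin) atTop (𝓝 (1 + 0 * A.kin)) :=
      (hc.mul_const _).const_add 1
    have h2 : Tendsto (fun n : ℕ => 1 - C / ((n : ℝ) + 1) * T) atTop (𝓝 (1 - 0 * T)) :=
      (hc.mul_const _).const_sub 1
    have h3 : Tendsto D atTop (𝓝 ((1 + 0 * A.kin) / (1 - 0 * T))) := h1.div h2 (by simp)
    simpa using h3
  have hyD : ∀ᶠ n : ℕ in atTop, A.y n t ≤ D n := by
    filter_upwards [hev] with n hn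
    rw [hD]
    simp only
    rw [le_div_iff₀ (by linarith)]
    exact A.y_le' hE hC0 hC n hn ht
  have h1 : A.slice t univ = ∫⁻ x, liminf (fun n : ℕ => ENNReal.ofReal (cut n x)) atTop ∂(A.slice t) := by
    have h2 : ∀ x, liminf (fun n : ℕ => ENNReal.ofReal (cut n x)) atTop = 1 := by
      intro x
      have h3 : Tendsto (fun n : ℕ => ENNReal.ofReal (cut n x)) atTop (𝓝 (ENNReal.ofReal 1)) :=
        (ENNReal.continuous_ofReal.tendsto 1).comp (cut_tendsto x)
      rw [ENNReal.ofReal_one] at h3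
      exact h3.liminf_eq
    simp_rw [h2]; simp
  rw [h1]
  refine (lintegral_liminf_le fun n => ((cut_smooth n).continuous.measurable).ennreal_ofReal).trans ?_
  simp_rw [A.y_ofReal ht]
  have h4 : Tendsto (fun n => ENNReal.ofReal (D n)) atTop (𝓝 (ENNReal.ofReal 1)) :=
    (ENNReal.continuous_ofReal.tendsto 1).comp hDlim
  rw [ENNReal.ofReal_one] at h4
  rw [← h4.liminf_eq]
  refine liminf_le_liminf ?_ (by isBoundedDefault) (by isBoundedDefault)
  filter_upwards [hyD] with n hn
  exact ENNReal.ofReal_le_ofReal hn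

theorem y_le_one (hE : A.energy < ⊤) {t : ℝ} (ht : A.Gd t) (n : ℕ) : A.y n t ≤ 1 := by
  have h1 : ENNReal.ofReal (A.y n t) ≤ 1 := by
    rw [← A.y_ofReal ht]
    calc ∫⁻ x, ENNReal.ofReal (cut n x) ∂(A.slice t) ≤ ∫⁻ _, 1 ∂(A.slice t) := by
          apply lintegral_mono
          intro x
          rw [← ENNReal.ofReal_one]
          exact ENNReal.ofReal_le_ofReal (cut_le_one n x)
      _ = A.slice t univ := by simp
      _ ≤ 1 := A.mass_le_one hE ht
  rw [← ENNReal.ofReal_one] at h1
  exact (ENNReal.ofReal_le_ofReal_iff zero_le_one).1 h1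

theorem mass_eq_one (hE : A.energy < ⊤) {t : ℝ} (ht : A.Gd t) : IsProbabilityMeasure (A.slice t) := by
  obtain ⟨C, hC0, hC⟩ := cut_deriv_bdd
  have hT : 0 < T := ht.1.1.trans ht.1.2
  have hc : Tendsto (fun n : ℕ => C / ((n : ℝ) + 1)) atTop (𝓝 0) := by
    have := tendsto_inv_nat.const_mul C
    simp only [mul_zero, mul_one_div] at this
    exact this
  have hlow : ∀ n : ℕ, 1 - C / ((n : ℝ) + 1) * (T + A.kin) ≤ A.y n t := by
    intro n
    have := neBot_right 0
    have h1 := (A.y_tendsto n).sub_const (C / ((n : ℝ) + 1) * (T + A.kin))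
    apply le_of_tendsto h1
    filter_upwards [A.gd_right ht.1.1 ht.1.2.le] with s hs
    have h2 := (abs_le.1 (A.incr hE hC0 hC n hs.2 ht hs.1.2)).1
    have h3 : ∫ r in Ioc s t, A.y n r ≤ T := by
      have h4 : ∫ w in Ioc s t, A.y n w ≤ ∫ _w in Ioc s t, (1 : ℝ) := by
        apply integral_mono_ae
        · exact (A.y_integrableOn hs.1.1 ht.1.2 n).mono_set Ioc_subset_Icc_self
        · exact integrable_const _
        · filter_upwards [A.ae_gd_sub hs.1.1.le ht.1.2 (s := s) (t := t)] with w hw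
          exact A.y_le_one hE hw n
      refine h4.trans ?_
      rw [setIntegral_const, smul_eq_mul, Real.volume_real_Ioc_of_le hs.1.2.le]
      linarith [hs.1.1, ht.1.2]
    have h5 : C / ((n : ℝ) + 1) * ((∫ r in Ioc s t, A.y n r) + A.kin) ≤
        C / ((n : ℝ) + 1) * (T + A.kin) := by
      apply mul_le_mul_of_nonneg_left _ (by positivity); linarith
    linarith
  constructor
  apply le_antisymm (A.mass_le_one hE ht)
  have h1 : ∀ n : ℕ, ENNReal.ofReal (1 - C / ((n : ℝ) + 1) * (T + A.kin)) ≤ A.slice t univ := by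
    intro n
    calc ENNReal.ofReal (1 - C / ((n : ℝ) + 1) * (T + A.kin)) ≤ ENNReal.ofReal (A.y n t) :=
          ENNReal.ofReal_le_ofReal (hlow n)
      _ = ∫⁻ x, ENNReal.ofReal (cut n x) ∂(A.slice t) := (A.y_ofReal ht n).symm
      _ ≤ ∫⁻ _, 1 ∂(A.slice t) := by
          apply lintegral_mono
          intro x
          rw [← ENNReal.ofReal_one]
          exact ENNReal.ofReal_le_ofReal (cut_le_one n x)
      _ = A.slice t univ := by simp
  have h2 : Tendsto (fun n : ℕ => ENNReal.ofReal (1 - C / ((n : ℝ) + 1) * (T + A.kin))) atTop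
      (𝓝 (ENNReal.ofReal (1 - 0 * (T + A.kin)))) :=
    (ENNReal.continuous_ofReal.tendsto _).comp ((hc.mul_const _).const_sub 1)
  rw [zero_mul, sub_zero, ENNReal.ofReal_one] at h2
  exact le_of_tendsto' h2 h1

/-- every admissible pair of finite energy has probability slices and is represented by an
auxiliary pair -/
theorem exists_pair (hT : 0 < T) (hE : A.energy < ⊤) : ∃ Q : Pair T, Q.energy = A.energy ∧
    ∀ᵐ t ∂(volume.restrict (Ioo 0 T)), Q.slice t = A.slice t := by
  have hne : (volume : Measure ℝ).restrict (Ioo 0 T) ≠ 0 := by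
    intro h0
    have : (volume.restrict (Ioo 0 T)) univ = 0 := by rw [h0]; rfl
    simp at this
    linarith
  have hprob : ∀ᵐ t ∂(volume.restrict (Ioo 0 T)), IsProbabilityMeasure (A.slice t) := by
    filter_upwards [A.gd_ae] with t ht using A.mass_eq_one hE ht
  obtain ⟨η, hη, hηM⟩ := Kernel.exists_ae_eq_isMarkovKernel hprob hne
  have hcomp : (volume.restrict (Ioo 0 T)) ⊗ₘ η = (volume.restrict (Ioo 0 T)) ⊗ₘ A.slice :=
    Measure.compProd_congr hη.symm
  have hvol := (ae_restrict_iff' measurableSet_Ioo).1 hη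
  let Q : Pair T := {
    slice := η
    finite_slice := inferInstance
    v := A.v
    measurable_v := A.measurable_v
    atomic := by
      filter_upwards [A.atomic, hη] with t ht h2
      rw [← h2]; exact ht
    continuity := by
      intro ζ h1 h2 h3
      rw [hcomp]
      exact A.continuity ζ h1 h2 h3
    initial := by
      intro f
      apply (A.initial f).congr'
      have h1 : ∀ᶠ s in 𝓝[>] 0 ⊓ ae (volume : Measure ℝ), s ∈ Ioo 0 T :=
        mem_inf_of_left (Ioo_mem_nhdsGT hT)
      have h2 : ∀ᶠ s in 𝓝[>] 0 ⊓ ae (volume : Measure ℝ), s ∈ Ioo 0 T → A.slice s = η s :=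
        mem_inf_of_right hvol
      filter_upwards [h1, h2] with s hs hs2
      rw [hs2 hs]
    final := by
      intro f
      apply (A.final f).congr'
      have h1 : ∀ᶠ s in 𝓝[<] T ⊓ ae (volume : Measure ℝ), s ∈ Ioo 0 T :=
        mem_inf_of_left (Ioo_mem_nhdsLT hT)
      have h2 : ∀ᶠ s in 𝓝[<] T ⊓ ae (volume : Measure ℝ), s ∈ Ioo 0 T → A.slice s = η s :=
        mem_inf_of_right hvol
      filter_upwards [h1, h2] with s hs hs2
      rw [hs2 hs] }
  refine ⟨Q, ?_, ?_⟩
  · unfold Pair.energy energy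
    congr 1
    · apply lintegral_congr_ae
      filter_upwards [hη] with t ht
      show numSupp (η t) = numSupp (A.slice t)
      rw [ht]
    · unfold Pair.meas meas
      show ∫⁻ p, ENNReal.ofReal (A.v p ^ 2) ∂((volume.restrict (Ioo 0 T)) ⊗ₘ η) = _
      rw [hcomp]
  · filter_upwards [hη] with t ht
    exact ht.symm

end AdmissiblePair

/-- an auxiliary pair of finite energy is an admissible pair -/
noncomputable def Pair.toAdmissible {T : ℝ} (Q : Pair T) (hQ : Q.Fin) : AdmissiblePair T where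
  slice := Q.slice
  sfinite_slice := inferInstance
  finite_on_compacts := fun K _ _ => measure_lt_top Q.meas K
  v := Q.v
  measurable_v := Q.measurable_v
  integrable_v := fun _ _ _ => hQ.integrable.integrableOn
  atomic := Q.atomic
  continuity := Q.continuity
  initial := Q.initial
  final := Q.final

theorem Pair.toAdmissible_energy {T : ℝ} (Q : Pair T) (hQ : Q.Fin) :
    (Q.toAdmissible hQ).energy = Q.energy := rfl

end Pool.Agent.Lib.MP_c57125_an
end

section
set_option autoImplicit false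

open MeasureTheory ProbabilityTheory Set Filter Topology
open scoped ENNReal

namespace Pool.Agent.Lib.MP_c57125_an

theorem Reach.plan {T c : ℝ} (h : Reach T c) : Nonempty (Plan T c) := by
  induction h with
  | tail T hT => exact exists_tail hT
  | wait T c ε hε h ih =>
    obtain ⟨L⟩ := ih
    exact L.exists_wait h.pos hε
  | split T p q c d hT hp hq hpq _ _ ih₁ ih₂ =>
    obtain ⟨L₁⟩ := ih₁
    obtain ⟨L₂⟩ := ih₂
    exact Plan.exists_split hT hp hq hpq L₁ L₂

/-- **Upper bound**: explicit competitors. -/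
theorem minE_le {T : ℝ} (hT : 0 < T) : minE T ≤ ENNReal.ofReal (e T) := by
  apply le_of_forall_gt
  intro b hb
  have h0 := e_pos hT
  obtain ⟨a, ha1, ha2⟩ : ∃ a : ℝ, e T < a ∧ ENNReal.ofReal a < b := by
    by_cases hbt : b = ⊤
    · exact ⟨e T + 1, by linarith, by rw [hbt]; exact ENNReal.ofReal_lt_top⟩
    · have h1 : e T < b.toReal := (ENNReal.ofReal_lt_iff_lt_toReal h0.le hbt).1 hb
      refine ⟨(e T + b.toReal) / 2, by linarith, ?_⟩
      rw [ENNReal.ofReal_lt_iff_lt_toReal (by linarith) hbt]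
      linarith
  obtain ⟨c, hc, hca⟩ := exists_reach_lt hT ha1
  obtain ⟨L⟩ := hc.plan
  refine lt_of_le_of_lt ?_ ha2
  calc minE T ≤ (L.toPair hT).energy := iInf_le _ _
    _ ≤ ENNReal.ofReal c := L.energy_le hT
    _ ≤ ENNReal.ofReal a := ENNReal.ofReal_le_ofReal hca.le

/-- the minimal energy -/
theorem minE_eq {T : ℝ} (hT : 0 < T) : minE T = ENNReal.ofReal (e T) :=
  le_antisymm (minE_le hT) (le_iInf fun Q => energy_lower hT Q)

/-- **Every minimiser branches at time zero when `T < 1/4`.** -/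
theorem branches {T : ℝ} (hT : 0 < T) (hT4 : T < 1 / 4) (Q : Pair T) (hQ : Q.IsMinimizer) :
    Q.BranchesAtZero := by
  rintro ⟨δ, hδ, hδT, hdir⟩
  have h1 : Q.energy ≤ ENNReal.ofReal (e T) :=
    (le_iInf fun R => hQ R : Q.energy ≤ minE T).trans (minE_le hT)
  have hE : Q.energy < ⊤ := h1.trans_lt ENNReal.ofReal_lt_top
  obtain ⟨a, ha, haT, h2⟩ := energy_lower_strict Q hE hδ hδT hdir
  have h3 := e_strict ha haT hT4
  have h4 : ENNReal.ofReal (e T) < ENNReal.ofReal (e (T - a) + a) :=
    (ENNReal.ofReal_lt_ofReal_iff (by linarith [e_pos hT])).2 h3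
  exact absurd (h4.trans_le (h2.trans h1)) (lt_irrefl _)

/-- the equivalent form in terms of the value function -/
theorem minE_strict {T ε : ℝ} (hε : 0 < ε) (hεT : ε < T) (hT4 : T < 1 / 4) :
    minE T < minE (T - ε) + ENNReal.ofReal ε := by
  rw [minE_eq (by linarith), minE_eq (by linarith), ← ENNReal.ofReal_add (e_pos (by linarith)).le hε.le]
  have h3 := e_strict hε hεT hT4
  exact (ENNReal.ofReal_lt_ofReal_iff (by linarith [e_pos (show 0 < T by linarith)])).2 h3

/-! ### transfer to admissible pairs -/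

theorem minEnergy_eq {T : ℝ} (hT : 0 < T) : minEnergy T = ENNReal.ofReal (e T) := by
  apply le_antisymm
  · apply le_of_forall_gt
    intro b hb
    have h1 : minE T < b := (minE_le hT).trans_lt hb
    obtain ⟨Q, hQ⟩ := iInf_lt_iff.1 h1
    have hfin : Q.Fin := fin_of_energy (hQ.trans_le le_top)
    refine lt_of_le_of_lt (iInf_le _ (Q.toAdmissible hfin)) ?_
    rw [Q.toAdmissible_energy hfin]
    exact hQ
  · apply le_iInf
    intro A
    by_cases hE : A.energy < ⊤
    · obtain ⟨Q, hQ, _⟩ := A.exists_pair hT hE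
      rw [← hQ]
      exact energy_lower hT Q
    · rw [not_lt, top_le_iff] at hE
      rw [hE]; exact le_top

theorem AdmissiblePair.branches {T : ℝ} (hT : 0 < T) (hT4 : T < 1 / 4) (A : AdmissiblePair T)
    (hA : A.IsMinimizer) : A.BranchesAtZero := by
  rintro ⟨δ, hδ, hδT, hdir⟩
  have h1 : A.energy ≤ ENNReal.ofReal (e T) := by
    rw [← minEnergy_eq hT]; exact le_iInf fun B => hA B
  have hE : A.energy < ⊤ := h1.trans_lt ENNReal.ofReal_lt_top
  obtain ⟨Q, hQ, hslice⟩ := A.exists_pair hT hE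
  have hdir' : ∀ᵐ t ∂(volume.restrict (Ioo 0 δ)),
      ∃ (c : ℝ≥0∞) (x : ℝ), Q.slice t = c • Measure.dirac x := by
    rw [ae_restrict_iff' measurableSet_Ioo] at hdir hslice ⊢
    filter_upwards [hdir, hslice] with t h2 h3 ht
    rw [h3 ⟨ht.1, ht.2.trans_le hδT⟩]
    exact h2 ht
  rw [← hQ] at h1 hE
  obtain ⟨a, ha, haT, h2⟩ := energy_lower_strict Q hE hδ hδT hdir'
  have h3 := e_strict ha haT hT4
  have h4 : ENNReal.ofReal (e T) < ENNReal.ofReal (e (T - a) + a) :=
    (ENNReal.ofReal_lt_ofReal_iff (by linarith [e_pos hT])).2 h3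
  exact absurd (h4.trans_le (h2.trans h1)) (lt_irrefl _)

theorem minEnergy_strict {T ε : ℝ} (hε : 0 < ε) (hεT : ε < T) (hT4 : T < 1 / 4) :
    minEnergy T < minEnergy (T - ε) + ENNReal.ofReal ε := by
  rw [minEnergy_eq (by linarith), minEnergy_eq (by linarith),
    ← ENNReal.ofReal_add (e_pos (by linarith)).le hε.le]
  have h3 := e_strict hε hεT hT4
  exact (ENNReal.ofReal_lt_ofReal_iff (by linarith [e_pos (show 0 < T by linarith)])).2 h3

theorem minEnergy_late {T : ℝ} (hT : 1 / 4 ≤ T) :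
    minEnergy T = ENNReal.ofReal (T + 1 / (2 - √2)) := by
  rw [minEnergy_eq (by linarith)]
  congr 1
  have h1 := F_eq_cs hT
  unfold F cs at h1
  have h2 : √2 < 2 := by
    rw [Real.sqrt_lt' (by norm_num)]; norm_num
  have h3 : 1 / (2 - √2) = 1 + √2 / 2 := by
    have h4 : (2 - √2) ≠ 0 := by linarith
    have h5 : √2 * √2 = 2 := Real.mul_self_sqrt (by norm_num)
    field_simp
    nlinarith
  rw [h3]
  linarith

end Pool.Agent.Lib.MP_c57125_an
end
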