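import Pool.Agent.Lib.MP_c57125_an.Defs
import Pool.Agent.Lib.MP_c57125_an.StrictFinal

section
set_option autoImplicit false

open MeasureTheory ProbabilityTheory Set Filter Topology
open scoped ENNReal ContDiff BoundedContinuousFunction

namespace Pool.Agent.Lib.MP_c57125_an

/-- label measure -/
noncomputable def Lm : Measure ℝ := volume.restrict (Ico 0 1)

instance : IsProbabilityMeasure Lm := by
  constructor
  unfold Lm
  simp

/-- time measure -/
noncomputable def Tm (T : ℝ) : Measure ℝ := volume.restrict (Ioo 0 T)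

instance (T : ℝ) : IsFiniteMeasure (Tm T) := by unfold Tm; infer_instance

/-- product measure on `(0,T) × [0,1)` (time, label) -/
noncomputable def Pm (T : ℝ) : Measure (ℝ × ℝ) := (Tm T).prod Lm

instance (T : ℝ) : IsFiniteMeasure (Pm T) := by unfold Pm; infer_instance

/-- A Lagrangian plan: positions `X (t, y)` and velocities `V (t, y)` of the particle with label
`y ∈ [0,1)`, with at most `N t` distinct positions at time `t`. -/
structure Plan (T c : ℝ) where
  X : ℝ × ℝ → ℝ
  V : ℝ × ℝ → ℝ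
  N : ℝ → ℝ
  C : Set ℝ
  mX : Measurable X
  mV : Measurable V
  cC : C.Countable
  cont : ∀ y ∈ Ico (0 : ℝ) 1, ContinuousOn (fun t => X (t, y)) (Icc 0 T)
  init : ∀ y ∈ Ico (0 : ℝ) 1, X (0, y) = 0
  final : ∀ y ∈ Ico (0 : ℝ) 1, X (T, y) = y - 1 / 2
  deriv : ∀ y ∈ Ico (0 : ℝ) 1, ∀ t ∈ Ioo 0 T, t ∉ C → HasDerivAt (fun s => X (s, y)) (V (t, y)) t
  atoms : ∀ t ∈ Ioo 0 T, t ∉ C → ∃ F : Finset ℝ, (∀ y ∈ Ico (0 : ℝ) 1, X (t, y) ∈ F) ∧
    (F.card : ℝ) ≤ N t
  iN : IntegrableOn N (Ioo 0 T)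
  iV : Integrable (fun p => V p ^ 2) (Pm T)
  cost : (∫ t in Ioo 0 T, N t) + ∫ p, V p ^ 2 ∂(Pm T) ≤ c

namespace Plan

variable {T c : ℝ} (L : Plan T c)

theorem V_integrable : Integrable L.V (Pm T) := by
  have h1 : Integrable (fun p => L.V p ^ 2 + 1) (Pm T) := L.iV.add (integrable_const _)
  apply h1.mono' L.mV.aestronglyMeasurable
  exact Eventually.of_forall fun p => by
    rw [Real.norm_eq_abs, abs_le]
    constructor <;> nlinarith [sq_nonneg (L.V p - 1), sq_nonneg (L.V p + 1)]

theorem V_memLp : MemLp L.V 2 (Pm T) := by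
  rw [memLp_two_iff_integrable_sq L.mV.aestronglyMeasurable]
  exact L.iV

/-- the slices -/
noncomputable def slice : Kernel ℝ ℝ :=
  Kernel.map (Kernel.id ×ₖ Kernel.const ℝ Lm) L.X

theorem slice_apply (t : ℝ) : L.slice t = Lm.map (fun y => L.X (t, y)) := by
  unfold slice
  rw [Kernel.map_apply _ L.mX, Kernel.prod_apply, Kernel.id_apply, Kernel.const_apply,
    Measure.dirac_prod, Measure.map_map L.mX measurable_prodMk_left]
  rfl

instance : IsMarkovKernel L.slice := by
  unfold slice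
  exact Kernel.IsMarkovKernel.map _ L.mX

/-- the map `(t, y) ↦ (t, X)` -/
def g (p : ℝ × ℝ) : ℝ × ℝ := (p.1, L.X p)

theorem mg : Measurable L.g := measurable_fst.prodMk L.mX

theorem meas_eq : (Tm T) ⊗ₘ L.slice = (Pm T).map L.g := by
  ext s hs
  rw [Measure.compProd_apply hs, Measure.map_apply L.mg hs, Pm,
    Measure.prod_apply (L.mg hs)]
  apply lintegral_congr
  intro t
  have hm : Measurable (fun y => L.X (t, y)) := L.mX.comp measurable_prodMk_left
  rw [L.slice_apply, Measure.map_apply hm (measurable_prodMk_left hs)]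
  rfl

/-- conditional expectation of the velocity given time and position -/
theorem exists_v : ∃ v : ℝ × ℝ → ℝ, Measurable v ∧
    (fun p => v (L.g p)) = (Pm T)[L.V | MeasurableSpace.comap L.g inferInstance] := by
  obtain ⟨v, hv, hvE⟩ := StronglyMeasurable.exists_eq_measurable_comp
    (f := L.g) (g := (Pm T)[L.V | MeasurableSpace.comap L.g inferInstance])
    stronglyMeasurable_condExp
  exact ⟨v, hv.measurable, hvE.symm⟩

/-- the velocity field -/
noncomputable def v : ℝ × ℝ → ℝ := L.exists_v.choose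

theorem mv : Measurable L.v := L.exists_v.choose_spec.1

theorem v_comp : (fun p => L.v (L.g p)) =
    (Pm T)[L.V | MeasurableSpace.comap L.g inferInstance] := L.exists_v.choose_spec.2

theorem comap_le : MeasurableSpace.comap L.g inferInstance ≤
    (inferInstance : MeasurableSpace (ℝ × ℝ)) := L.mg.comap_le

/-- pull-out for the velocity field -/
theorem v_pull {h : ℝ × ℝ → ℝ} (hh : Measurable h) {B : ℝ} (hB : ∀ p, |h p| ≤ B) :
    ∫ p, L.v (L.g p) * h (L.g p) ∂(Pm T) = ∫ p, L.V p * h (L.g p) ∂(Pm T) := by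
  have hm : StronglyMeasurable[MeasurableSpace.comap L.g inferInstance] (fun p => h (L.g p)) := by
    apply Measurable.stronglyMeasurable
    exact hh.comp (comap_measurable L.g)
  have hfg : Integrable (L.V * fun p => h (L.g p)) (Pm T) := by
    apply (L.V_integrable.norm.mul_const B).mono'
    · exact (L.mV.mul (hh.comp L.mg)).aestronglyMeasurable
    · refine Eventually.of_forall fun p => ?_
      simp only [Pi.mul_apply, norm_mul]
      exact mul_le_mul_of_nonneg_left (hB _) (norm_nonneg _)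
  have h1 := condExp_mul_of_stronglyMeasurable_right hm hfg L.V_integrable
  have h2 : ∫ p, ((Pm T)[L.V * (fun p => h (L.g p)) | MeasurableSpace.comap L.g inferInstance]) p
      ∂(Pm T) = ∫ p, (L.V * fun p => h (L.g p)) p ∂(Pm T) := integral_condExp L.comap_le
  rw [integral_congr_ae h1] at h2
  have h3 : ∀ p, L.v (L.g p) =
      ((Pm T)[L.V | MeasurableSpace.comap L.g inferInstance]) p := fun p => congrFun L.v_comp p
  simp only [Pi.mul_apply] at h2
  rw [← h2]
  apply integral_congr_ae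
  exact Eventually.of_forall fun p => by simp only [h3]

theorem v_memLp : MemLp (fun p => L.v (L.g p)) 2 (Pm T) := by
  rw [L.v_comp]
  exact L.V_memLp.condExp (by norm_num)

/-- the kinetic energy does not increase -/
theorem kin_le : ∫⁻ p, ENNReal.ofReal (L.v p ^ 2) ∂((Tm T) ⊗ₘ L.slice) ≤
    ENNReal.ofReal (∫ p, L.V p ^ 2 ∂(Pm T)) := by
  rw [L.meas_eq, lintegral_map ((L.mv.pow_const 2).ennreal_ofReal) L.mg]
  have h1 := eLpNorm_condExp_le_eLpNorm (m := MeasurableSpace.comap L.g inferInstance)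
    (μ := Pm T) L.V (p := 2) (by norm_num)
  rw [← L.v_comp] at h1
  have h2 : ∀ f : ℝ × ℝ → ℝ, ∫⁻ p, ENNReal.ofReal (f p ^ 2) ∂(Pm T) =
      eLpNorm f 2 (Pm T) ^ (2 : ℝ) := by
    intro f
    rw [eLpNorm_eq_lintegral_rpow_enorm_toReal (by norm_num) (by norm_num)]
    simp only [ENNReal.toReal_ofNat, one_div]
    rw [← ENNReal.rpow_mul]
    norm_num
    apply lintegral_congr
    intro p
    rw [← ofReal_norm, ← ENNReal.ofReal_pow (norm_nonneg _), Real.norm_eq_abs, sq_abs]
  rw [ofReal_integral_eq_lintegral_ofReal L.iV (Eventually.of_forall fun p => sq_nonneg _)]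
  rw [h2 (fun p => L.v (L.g p)), h2 L.V]
  exact ENNReal.rpow_le_rpow h1 (by norm_num)

end Plan

end Pool.Agent.Lib.MP_c57125_an
end

section
set_option autoImplicit false

open MeasureTheory ProbabilityTheory Set Filter Topology
open scoped ENNReal ContDiff BoundedContinuousFunction

namespace Pool.Agent.Lib.MP_c57125_an

theorem dt_eq {ζ : ℝ × ℝ → ℝ} (hζ : ContDiff ℝ ∞ ζ) (p : ℝ × ℝ) : dt ζ p = fderiv ℝ ζ p (1, 0) := by
  unfold dt
  have h1 : HasFDerivAt ζ (fderiv ℝ ζ p) p := ((hζ.differentiable (by simp)) p).hasFDerivAt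
  have h2 : HasDerivAt (fun s : ℝ => (s, p.2)) ((1 : ℝ), (0 : ℝ)) p.1 :=
    (hasDerivAt_id p.1).prodMk (hasDerivAt_const _ _)
  exact (h1.comp_hasDerivAt p.1 h2).deriv

theorem dx_eq {ζ : ℝ × ℝ → ℝ} (hζ : ContDiff ℝ ∞ ζ) (p : ℝ × ℝ) : dx ζ p = fderiv ℝ ζ p (0, 1) := by
  unfold dx
  have h1 : HasFDerivAt ζ (fderiv ℝ ζ p) p := ((hζ.differentiable (by simp)) p).hasFDerivAt
  have h2 : HasDerivAt (fun s : ℝ => (p.1, s)) ((0 : ℝ), (1 : ℝ)) p.2 :=
    (hasDerivAt_const _ _).prodMk (hasDerivAt_id p.2)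
  exact (h1.comp_hasDerivAt p.2 h2).deriv

theorem dt_continuous {ζ : ℝ × ℝ → ℝ} (hζ : ContDiff ℝ ∞ ζ) : Continuous (dt ζ) := by
  have : dt ζ = fun p => fderiv ℝ ζ p (1, 0) := funext (dt_eq hζ)
  rw [this]
  exact (hζ.continuous_fderiv (by simp)).clm_apply continuous_const

theorem dx_continuous {ζ : ℝ × ℝ → ℝ} (hζ : ContDiff ℝ ∞ ζ) : Continuous (dx ζ) := by
  have : dx ζ = fun p => fderiv ℝ ζ p (0, 1) := funext (dx_eq hζ)
  rw [this]
  exact (hζ.continuous_fderiv (by simp)).clm_apply continuous_const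

theorem dt_bdd {ζ : ℝ × ℝ → ℝ} (hζ : ContDiff ℝ ∞ ζ) (hc : HasCompactSupport ζ) :
    ∃ B, ∀ p, |dt ζ p| ≤ B := by
  have h1 : HasCompactSupport (dt ζ) := by
    have : dt ζ = fun p => fderiv ℝ ζ p (1, 0) := funext (dt_eq hζ)
    rw [this]
    exact (hc.fderiv ℝ).comp_left (g := fun L : ℝ × ℝ →L[ℝ] ℝ => L (1, 0)) (by simp)
  obtain ⟨B, hB⟩ := h1.exists_bound_of_continuous (dt_continuous hζ)
  exact ⟨B, fun p => hB p⟩

theorem dx_bdd {ζ : ℝ × ℝ → ℝ} (hζ : ContDiff ℝ ∞ ζ) (hc : HasCompactSupport ζ) :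
    ∃ B, ∀ p, |dx ζ p| ≤ B := by
  have h1 : HasCompactSupport (dx ζ) := by
    have : dx ζ = fun p => fderiv ℝ ζ p (0, 1) := funext (dx_eq hζ)
    rw [this]
    exact (hc.fderiv ℝ).comp_left (g := fun L : ℝ × ℝ →L[ℝ] ℝ => L (0, 1)) (by simp)
  obtain ⟨B, hB⟩ := h1.exists_bound_of_continuous (dx_continuous hζ)
  exact ⟨B, fun p => hB p⟩

namespace Plan

variable {T c : ℝ} (L : Plan T c)

theorem ae_integrable_V : ∀ᵐ y ∂Lm, Integrable (fun t => L.V (t, y)) (Tm T) := by
  have h1 : Integrable L.V ((Tm T).prod Lm) := L.V_integrable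
  exact h1.prod_left_ae

theorem ae_mem_Lm : ∀ᵐ y ∂Lm, y ∈ Ico (0 : ℝ) 1 := by
  unfold Lm; exact ae_restrict_mem measurableSet_Ico

/-- the weak continuity equation for one particle -/
theorem ftc_line (hT : 0 < T) {ζ : ℝ × ℝ → ℝ} (hζ : ContDiff ℝ ∞ ζ) (hc : HasCompactSupport ζ)
    (hs : tsupport ζ ⊆ Ioo 0 T ×ˢ univ) {y : ℝ} (hy : y ∈ Ico (0 : ℝ) 1)
    (hi : Integrable (fun t => L.V (t, y)) (Tm T)) :
    ∫ t, (dt ζ (L.g (t, y)) + L.V (t, y) * dx ζ (L.g (t, y))) ∂(Tm T) = 0 := by
  obtain ⟨B1, hB1⟩ := dt_bdd hζ hc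
  obtain ⟨B2, hB2⟩ := dx_bdd hζ hc
  have hgm : Measurable fun t => L.g (t, y) := L.mg.comp (measurable_id.prodMk measurable_const)
  have hVm : Measurable fun t => L.V (t, y) := L.mV.comp (measurable_id.prodMk measurable_const)
  have hint : Integrable (fun t => dt ζ (L.g (t, y)) + L.V (t, y) * dx ζ (L.g (t, y))) (Tm T) := by
    apply Integrable.add
    · exact Integrable.of_bound ((dt_continuous hζ).measurable.comp hgm).aestronglyMeasurable B1
        (Eventually.of_forall fun t => hB1 _)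
    · apply (hi.norm.mul_const B2).mono'
      · exact (hVm.mul ((dx_continuous hζ).measurable.comp hgm)).aestronglyMeasurable
      · refine Eventually.of_forall fun t => ?_
        rw [norm_mul]
        exact mul_le_mul_of_nonneg_left (hB2 _) (norm_nonneg _)
  have h0 : ∀ t, t ∉ Ioo 0 T → ∀ x, ζ (t, x) = 0 := by
    intro t ht x
    apply image_eq_zero_of_notMem_tsupport
    intro h
    exact ht (hs h).1
  have key := integral_eq_of_hasDerivAt_off_countable_of_le
    (fun t => ζ (L.g (t, y))) (fun t => dt ζ (L.g (t, y)) + L.V (t, y) * dx ζ (L.g (t, y)))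
    hT.le L.cC ?_ ?_ ?_
  · unfold Tm
    rw [← integral_Ioc_eq_integral_Ioo, ← intervalIntegral.integral_of_le hT.le, key]
    unfold g
    simp only
    rw [h0 T (by simp), h0 0 (by simp), sub_zero]
  · apply hζ.continuous.comp_continuousOn
    exact continuousOn_id.prodMk (L.cont y hy)
  · intro t ht
    have h1 := L.deriv y hy t ht.1 ht.2
    have h2 : HasFDerivAt ζ (fderiv ℝ ζ (t, L.X (t, y))) (t, L.X (t, y)) :=
      ((hζ.differentiable (by simp)) _).hasFDerivAt
    have h3 : HasDerivAt (fun s : ℝ => (s, L.X (s, y))) ((1 : ℝ), L.V (t, y)) t :=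
      (hasDerivAt_id t).prodMk h1
    have h4 := h2.comp_hasDerivAt t h3
    refine h4.congr_deriv ?_
    rw [dt_eq hζ, dx_eq hζ]
    have h5 : ((1 : ℝ), L.V (t, y)) = (1, 0) + L.V (t, y) • ((0 : ℝ), (1 : ℝ)) := by simp
    rw [h5, map_add, map_smul]
    rfl
  · rw [intervalIntegrable_iff_integrableOn_Ioo_of_le hT.le]
    exact hint

theorem weak (hT : 0 < T) {ζ : ℝ × ℝ → ℝ} (hζ : ContDiff ℝ ∞ ζ) (hc : HasCompactSupport ζ)
    (hs : tsupport ζ ⊆ Ioo 0 T ×ˢ univ) :
    ∫ p, (dt ζ p + L.v p * dx ζ p) ∂((Tm T) ⊗ₘ L.slice) = 0 := by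
  obtain ⟨B1, hB1⟩ := dt_bdd hζ hc
  obtain ⟨B2, hB2⟩ := dx_bdd hζ hc
  rw [L.meas_eq, integral_map L.mg.aemeasurable]
  swap
  · exact ((dt_continuous hζ).measurable.add
      (L.mv.mul (dx_continuous hζ).measurable)).aestronglyMeasurable
  have hi1 : Integrable (fun p => dt ζ (L.g p)) (Pm T) :=
    Integrable.of_bound ((dt_continuous hζ).measurable.comp L.mg).aestronglyMeasurable B1
        (Eventually.of_forall fun t => hB1 _)
  have hvi : Integrable (fun p => L.v (L.g p)) (Pm T) := L.v_memLp.integrable (by norm_num)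
  have hi2 : Integrable (fun p => L.v (L.g p) * dx ζ (L.g p)) (Pm T) := by
    apply (hvi.norm.mul_const B2).mono'
    · exact ((L.mv.comp L.mg).mul ((dx_continuous hζ).measurable.comp L.mg)).aestronglyMeasurable
    · refine Eventually.of_forall fun t => ?_
      rw [norm_mul]
      exact mul_le_mul_of_nonneg_left (hB2 _) (norm_nonneg _)
  have hi3 : Integrable (fun p => L.V p * dx ζ (L.g p)) (Pm T) := by
    apply (L.V_integrable.norm.mul_const B2).mono'
    · exact (L.mV.mul ((dx_continuous hζ).measurable.comp L.mg)).aestronglyMeasurable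
    · refine Eventually.of_forall fun t => ?_
      rw [norm_mul]
      exact mul_le_mul_of_nonneg_left (hB2 _) (norm_nonneg _)
  rw [integral_add hi1 hi2, L.v_pull (dx_continuous hζ).measurable hB2, ← integral_add hi1 hi3]
  have hi4 : Integrable (fun p => dt ζ (L.g p) + L.V p * dx ζ (L.g p)) ((Tm T).prod Lm) :=
    hi1.add hi3
  unfold Pm
  rw [integral_prod_symm _ hi4]
  have h6 : ∀ᵐ y ∂Lm, ∫ t, (dt ζ (L.g (t, y)) + L.V (t, y) * dx ζ (L.g (t, y))) ∂(Tm T) = 0 := by
    filter_upwards [ae_integrable_V L, ae_mem_Lm] with y h1 h2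
    exact L.ftc_line hT hζ hc hs h2 h1
  rw [integral_congr_ae h6]
  simp

theorem int_slice {f : ℝ → ℝ} (hf : Continuous f) (t : ℝ) :
    ∫ x, f x ∂(L.slice t) = ∫ y, f (L.X (t, y)) ∂Lm := by
  have hm : Measurable (fun y => L.X (t, y)) := L.mX.comp measurable_prodMk_left
  rw [L.slice_apply, integral_map hm.aemeasurable hf.aestronglyMeasurable]

theorem lim_gen {t0 : ℝ} {l : Filter ℝ} [l.IsCountablyGenerated] (ht0 : t0 ∈ Icc 0 T)
    (hl : l ≤ 𝓝[Icc 0 T] t0) (f : ℝ →ᵇ ℝ) :
    Tendsto (fun t => ∫ x, f x ∂(L.slice t)) l (𝓝 (∫ y, f (L.X (t0, y)) ∂Lm)) := by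
  simp_rw [fun t => L.int_slice f.continuous t]
  apply tendsto_integral_filter_of_dominated_convergence (fun _ => ‖f‖)
  · exact Eventually.of_forall fun t =>
      (f.continuous.measurable.comp (L.mX.comp measurable_prodMk_left)).aestronglyMeasurable
  · exact Eventually.of_forall fun t => Eventually.of_forall fun y => f.norm_coe_le_norm _
  · exact integrable_const _
  · filter_upwards [ae_mem_Lm] with y hy
    have h1 : Tendsto (fun t => L.X (t, y)) (𝓝[Icc 0 T] t0) (𝓝 (L.X (t0, y))) :=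
      L.cont y hy t0 ht0
    exact (f.continuous.tendsto _).comp (h1.mono_left hl)

theorem lim_init (hT : 0 < T) (f : ℝ →ᵇ ℝ) :
    Tendsto (fun t => ∫ x, f x ∂(L.slice t)) (𝓝[>] 0 ⊓ ae volume) (𝓝 (f 0)) := by
  have h1 : 𝓝[>] (0 : ℝ) ≤ 𝓝[Icc 0 T] 0 := by
    rw [← nhdsWithin_Ioo_eq_nhdsGT hT]
    exact nhdsWithin_mono _ Ioo_subset_Icc_self
  have h2 := L.lim_gen (l := 𝓝[>] (0 : ℝ)) ⟨le_rfl, hT.le⟩ h1 f
  have h3 : ∫ y, f (L.X (0, y)) ∂Lm = f 0 := by
    have : ∀ᵐ y ∂Lm, f (L.X (0, y)) = f 0 := by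
      filter_upwards [ae_mem_Lm] with y hy
      rw [L.init y hy]
    rw [integral_congr_ae this]
    simp
  rw [h3] at h2
  exact h2.mono_left inf_le_left

theorem Lm_shift (f : ℝ → ℝ) : ∫ y, f (y - 1 / 2) ∂Lm = ∫ z in Icc (-1 / 2) (1 / 2), f z := by
  unfold Lm
  rw [integral_Ico_eq_integral_Ioo, ← integral_Ioc_eq_integral_Ioo,
    ← intervalIntegral.integral_of_le zero_le_one,
    intervalIntegral.integral_comp_sub_right (fun z => f z) (1 / 2),
    intervalIntegral.integral_of_le (by norm_num), integral_Icc_eq_integral_Ioc]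
  norm_num

theorem lim_final (hT : 0 < T) (f : ℝ →ᵇ ℝ) :
    Tendsto (fun t => ∫ x, f x ∂(L.slice t)) (𝓝[<] T ⊓ ae volume)
      (𝓝 (∫ x in Icc (-1 / 2) (1 / 2), f x)) := by
  have h1 : 𝓝[<] T ≤ 𝓝[Icc 0 T] T := by
    rw [← nhdsWithin_Ioo_eq_nhdsLT hT]
    exact nhdsWithin_mono _ Ioo_subset_Icc_self
  have h2 := L.lim_gen (l := 𝓝[<] T) ⟨hT.le, le_rfl⟩ h1 f
  have h3 : ∫ y, f (L.X (T, y)) ∂Lm = ∫ x in Icc (-1 / 2) (1 / 2), f x := by
    have : ∀ᵐ y ∂Lm, f (L.X (T, y)) = f (y - 1 / 2) := by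
      filter_upwards [ae_mem_Lm] with y hy
      rw [L.final y hy]
    rw [integral_congr_ae this, Lm_shift]
  rw [h3] at h2
  exact h2.mono_left inf_le_left

theorem slice_F {t : ℝ} {F : Finset ℝ} (hF : ∀ y ∈ Ico (0 : ℝ) 1, L.X (t, y) ∈ F) :
    L.slice t (F : Set ℝ)ᶜ = 0 := by
  have hm : Measurable (fun y => L.X (t, y)) := L.mX.comp measurable_prodMk_left
  rw [L.slice_apply, Measure.map_apply hm F.measurableSet.compl]
  have h1 : ∀ᵐ y ∂Lm, L.X (t, y) ∈ F := by
    filter_upwards [ae_mem_Lm] with y hy using hF y hy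
  exact h1

theorem ae_notMem_C : ∀ᵐ t ∂(volume.restrict (Ioo 0 T)), t ∉ L.C := by
  have h1 : ∀ᵐ t ∂(volume : Measure ℝ), t ∉ L.C := by
    have := L.cC.measure_zero volume
    exact measure_eq_zero_iff_ae_notMem.1 this
  exact ae_restrict_of_ae h1

theorem ae_atoms : ∀ᵐ t ∂(volume.restrict (Ioo 0 T)), ∃ F : Finset ℝ,
    L.slice t (F : Set ℝ)ᶜ = 0 ∧ (F.card : ℝ) ≤ L.N t := by
  have h1 : ∀ᵐ t ∂(volume.restrict (Ioo 0 T)), t ∈ Ioo 0 T := ae_restrict_mem measurableSet_Ioo
  filter_upwards [h1, L.ae_notMem_C] with t ht htC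
  obtain ⟨F, hF, hc⟩ := L.atoms t ht htC
  exact ⟨F, L.slice_F hF, hc⟩

/-- the admissible pair of a plan -/
noncomputable def toPair (hT : 0 < T) : Pair T where
  slice := L.slice
  finite_slice := inferInstance
  v := L.v
  measurable_v := L.mv
  atomic := by
    filter_upwards [L.ae_atoms] with t ht
    obtain ⟨F, hF, _⟩ := ht
    exact ⟨F, F.countable_toSet, hF⟩
  continuity := fun ζ hζ hc hs => L.weak hT hζ hc hs
  initial := L.lim_init hT
  final := L.lim_final hT

theorem energy_le (hT : 0 < T) : (L.toPair hT).energy ≤ ENNReal.ofReal c := by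
  have h1 : (∫⁻ t in Ioo 0 T, numSupp (L.slice t)) ≤ ENNReal.ofReal (∫ t in Ioo 0 T, L.N t) := by
    have hN0 : ∀ᵐ t ∂(volume.restrict (Ioo 0 T)), 0 ≤ L.N t := by
      filter_upwards [L.ae_atoms] with t ht
      obtain ⟨F, _, hc⟩ := ht
      exact (Nat.cast_nonneg _).trans hc
    rw [ofReal_integral_eq_lintegral_ofReal L.iN hN0]
    apply lintegral_mono_ae
    filter_upwards [L.ae_atoms] with t ht
    obtain ⟨F, hF, hc⟩ := ht
    have h2 : (L.slice t).support ⊆ (F : Set ℝ) :=
      Measure.support_subset_of_isClosed F.isClosed (mem_ae_iff.2 hF)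
    have h3 := encard_le_encard h2
    rw [encard_coe_eq_coe_finsetCard] at h3
    have h4 : numSupp (L.slice t) ≤ (F.card : ℝ≥0∞) := by
      unfold numSupp
      simpa using ENat.toENNReal_le.2 h3
    refine h4.trans ?_
    rw [← ENNReal.ofReal_natCast]
    exact ENNReal.ofReal_le_ofReal hc
  have h2 := L.kin_le
  have h3 : (L.toPair hT).energy = (∫⁻ t in Ioo 0 T, numSupp (L.slice t)) +
      ∫⁻ p, ENNReal.ofReal (L.v p ^ 2) ∂((Tm T) ⊗ₘ L.slice) := rfl
  rw [h3]
  have hN0 : 0 ≤ ∫ t in Ioo 0 T, L.N t := by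
    apply integral_nonneg_of_ae
    filter_upwards [L.ae_atoms] with t ht
    obtain ⟨F, _, hc⟩ := ht
    exact (Nat.cast_nonneg _).trans hc
  have hV0 : 0 ≤ ∫ p, L.V p ^ 2 ∂(Pm T) := integral_nonneg fun p => sq_nonneg _
  calc _ ≤ ENNReal.ofReal (∫ t in Ioo 0 T, L.N t) + ENNReal.ofReal (∫ p, L.V p ^ 2 ∂(Pm T)) :=
        add_le_add h1 h2
    _ = ENNReal.ofReal ((∫ t in Ioo 0 T, L.N t) + ∫ p, L.V p ^ 2 ∂(Pm T)) :=
        (ENNReal.ofReal_add hN0 hV0).symm
    _ ≤ ENNReal.ofReal c := ENNReal.ofReal_le_ofReal L.cost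

/-- the mean velocity vanishes -/
theorem mean_V (hT : 0 < T) : ∫ p, L.V p ∂(Pm T) = 0 := by
  have h1 : Integrable L.V ((Tm T).prod Lm) := L.V_integrable
  unfold Pm
  rw [integral_prod_symm _ h1]
  have h2 : ∀ᵐ y ∂Lm, ∫ t, L.V (t, y) ∂(Tm T) = y - 1 / 2 := by
    filter_upwards [ae_integrable_V L, ae_mem_Lm] with y hi hy
    have key := integral_eq_of_hasDerivAt_off_countable_of_le
      (fun t => L.X (t, y)) (fun t => L.V (t, y)) hT.le L.cC (L.cont y hy)
      (fun t ht => L.deriv y hy t ht.1 ht.2) ?_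
    · unfold Tm
      rw [← integral_Ioc_eq_integral_Ioo, ← intervalIntegral.integral_of_le hT.le, key,
        L.final y hy, L.init y hy, sub_zero]
    · rw [intervalIntegrable_iff_integrableOn_Ioo_of_le hT.le]
      exact hi
  rw [integral_congr_ae h2]
  have h3 := Lm_shift (fun z => z)
  rw [h3, integral_Icc_eq_integral_Ioc, ← intervalIntegral.integral_of_le (by norm_num)]
  norm_num

end Plan

end Pool.Agent.Lib.MP_c57125_an
end

section
set_option autoImplicit false

open MeasureTheory ProbabilityTheory Set Filter Topology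
open scoped ENNReal

namespace Pool.Agent.Lib.MP_c57125_an

/-- affine map -/
def aff (α β t : ℝ) : ℝ := α * t + β

theorem aff_emb {α : ℝ} (hα : 0 < α) (β : ℝ) : MeasurableEmbedding (aff α β) :=
  (measurableEmbedding_addRight β).comp (measurableEmbedding_mulLeft₀ hα.ne')

theorem aff_meas (α β : ℝ) : Measurable (aff α β) := by unfold aff; fun_prop

theorem map_aff {α : ℝ} (hα : 0 < α) (β : ℝ) :
    Measure.map (aff α β) volume = ENNReal.ofReal α⁻¹ • (volume : Measure ℝ) := by
  have h1 : aff α β = (fun t => t + β) ∘ (fun t => α * t) := rfl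
  rw [h1, ← Measure.map_map (by fun_prop) (by fun_prop), Real.map_volume_mul_left hα.ne',
    Measure.map_smul, map_add_right_eq_self, abs_of_pos (inv_pos.2 hα)]

theorem aff_lt {α : ℝ} (hα : 0 < α) (β : ℝ) {s t : ℝ} : aff α β s < aff α β t ↔ s < t := by
  unfold aff
  rw [add_lt_add_iff_right, mul_lt_mul_iff_right₀ hα]

theorem aff_le {α : ℝ} (hα : 0 < α) (β : ℝ) {s t : ℝ} : aff α β s ≤ aff α β t ↔ s ≤ t := by
  unfold aff
  rw [add_le_add_iff_right, mul_le_mul_iff_right₀ hα]

theorem map_aff_Ioo {α : ℝ} (hα : 0 < α) (β a b : ℝ) :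
    Measure.map (aff α β) (volume.restrict (Ioo a b)) =
      ENNReal.ofReal α⁻¹ • (volume : Measure ℝ).restrict (Ioo (aff α β a) (aff α β b)) := by
  have h1 : aff α β ⁻¹' (Ioo (aff α β a) (aff α β b)) = Ioo a b := by
    ext t; simp only [mem_preimage, mem_Ioo, aff_lt hα]
  rw [← h1, ← Measure.restrict_map (aff_meas α β) measurableSet_Ioo, map_aff hα,
    Measure.restrict_smul]

theorem map_aff_Ico {α : ℝ} (hα : 0 < α) (β a b : ℝ) :
    Measure.map (aff α β) (volume.restrict (Ico a b)) =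
      ENNReal.ofReal α⁻¹ • (volume : Measure ℝ).restrict (Ico (aff α β a) (aff α β b)) := by
  have h1 : aff α β ⁻¹' (Ico (aff α β a) (aff α β b)) = Ico a b := by
    ext t; simp only [mem_preimage, mem_Ico, aff_lt hα, aff_le hα]
  rw [← h1, ← Measure.restrict_map (aff_meas α β) measurableSet_Ico, map_aff hα,
    Measure.restrict_smul]

/-- product version -/
theorem map_aff_prod {α γ : ℝ} (hα : 0 < α) (hγ : 0 < γ) (β δ a b c d : ℝ) :
    Measure.map (Prod.map (aff α β) (aff γ δ))
      ((volume.restrict (Ioo a b)).prod (volume.restrict (Ico c d))) =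
      ENNReal.ofReal (α⁻¹ * γ⁻¹) • ((volume : Measure ℝ).restrict (Ioo (aff α β a) (aff α β b))).prod
        ((volume : Measure ℝ).restrict (Ico (aff γ δ c) (aff γ δ d))) := by
  rw [← Measure.map_prod_map _ _ (aff_meas _ _) (aff_meas _ _), map_aff_Ioo hα, map_aff_Ico hγ,
    Measure.prod_smul_left, Measure.prod_smul_right, smul_smul,
    ENNReal.ofReal_mul (inv_nonneg.2 hα.le)]

theorem aff_prod_emb {α γ : ℝ} (hα : 0 < α) (hγ : 0 < γ) (β δ : ℝ) :
    MeasurableEmbedding (Prod.map (aff α β) (aff γ δ)) :=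
  (aff_emb hα β).prodMap (aff_emb hγ δ)

theorem aff_prod_int {α γ : ℝ} (hα : 0 < α) (hγ : 0 < γ) (β δ a b c d : ℝ) {f : ℝ × ℝ → ℝ}
    (hf : Integrable f (((volume : Measure ℝ).restrict (Ioo (aff α β a) (aff α β b))).prod
        ((volume : Measure ℝ).restrict (Ico (aff γ δ c) (aff γ δ d))))) :
    Integrable (fun p => f (Prod.map (aff α β) (aff γ δ) p))
      ((volume.restrict (Ioo a b)).prod (volume.restrict (Ico c d))) ∧
    ∫ p, f (Prod.map (aff α β) (aff γ δ) p)
      ∂((volume.restrict (Ioo a b)).prod (volume.restrict (Ico c d))) =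
      α⁻¹ * γ⁻¹ * ∫ p, f p ∂(((volume : Measure ℝ).restrict (Ioo (aff α β a) (aff α β b))).prod
        ((volume : Measure ℝ).restrict (Ico (aff γ δ c) (aff γ δ d)))) := by
  have he := aff_prod_emb hα hγ β δ
  constructor
  · have h1 := (he.integrable_map_iff (f := Prod.map (aff α β) (aff γ δ)) (g := f)
      (μ := (volume.restrict (Ioo a b)).prod (volume.restrict (Ico c d)))).1
    apply h1
    rw [map_aff_prod hα hγ]
    exact hf.smul_measure ENNReal.ofReal_ne_top
  · rw [← he.integral_map (g := f), map_aff_prod hα hγ, integral_smul_measure,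
      ENNReal.toReal_ofReal (by positivity), smul_eq_mul]

theorem aff_int {α : ℝ} (hα : 0 < α) (β a b : ℝ) {f : ℝ → ℝ}
    (hf : IntegrableOn f (Ioo (aff α β a) (aff α β b))) :
    IntegrableOn (fun t => f (aff α β t)) (Ioo a b) ∧
    ∫ t in Ioo a b, f (aff α β t) = α⁻¹ * ∫ t in Ioo (aff α β a) (aff α β b), f t := by
  have he := aff_emb hα β
  constructor
  · have h1 := (he.integrable_map_iff (f := aff α β) (g := f) (μ := volume.restrict (Ioo a b))).1
    apply h1
    rw [map_aff_Ioo hα]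
    exact hf.smul_measure ENNReal.ofReal_ne_top
  · rw [← he.integral_map (g := f), map_aff_Ioo hα, integral_smul_measure,
      ENNReal.toReal_ofReal (by positivity), smul_eq_mul]

end Pool.Agent.Lib.MP_c57125_an
end

section
set_option autoImplicit false

open MeasureTheory ProbabilityTheory Set Filter Topology
open scoped ENNReal ContDiff BoundedContinuousFunction

namespace Pool.Agent.Lib.MP_c57125_an

/-- dyadic interval -/
def dyad (j : ℕ) (i : ℤ) : Set ℝ := Ico ((i : ℝ) / 2 ^ j) (((i : ℝ) + 1) / 2 ^ j)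

/-- number of dyadic intervals of level `j` with positive measure -/
noncomputable def Nj (j : ℕ) (ν : Measure ℝ) : ℝ≥0∞ := ∑' i : ℤ, if 0 < ν (dyad j i) then 1 else 0

theorem mem_dyad_floor (j : ℕ) (x : ℝ) : x ∈ dyad j ⌊x * 2 ^ j⌋ := by
  have h2 : (0 : ℝ) < 2 ^ j := by positivity
  unfold dyad
  rw [mem_Ico, div_le_iff₀ h2, lt_div_iff₀ h2]
  exact ⟨Int.floor_le _, Int.lt_floor_add_one _⟩

theorem Nj_le (j : ℕ) (ν : Measure ℝ) : Nj j ν ≤ numSupp ν := by
  unfold Nj
  rw [ENNReal.tsum_eq_iSup_sum]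
  apply iSup_le
  intro F
  classical
  have h0 : ∑ i ∈ F, (if 0 < ν (dyad j i) then (1 : ℝ≥0∞) else 0) =
      ((F.filter fun i => 0 < ν (dyad j i)).card : ℝ≥0∞) := by
    rw [← Finset.sum_filter]; simp
  rw [h0]
  set G := F.filter fun i => 0 < ν (dyad j i) with hG
  have h1 : ∀ i ∈ G, ∃ x ∈ ν.support, x ∈ dyad j i := by
    intro i hi
    obtain ⟨x, hx1, hx2⟩ := Measure.nonempty_inter_support_of_pos (Finset.mem_filter.1 hi).2
    exact ⟨x, hx2, hx1⟩
  choose! φ hφ1 hφ2 using h1
  have hinj : InjOn φ (G : Set ℤ) := by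
    intro i hi i' hi' h
    have h2 : (0 : ℝ) < 2 ^ j := by positivity
    have ha := hφ2 i hi
    have hb := hφ2 i' hi'
    rw [← h] at hb
    unfold dyad at ha hb
    rw [mem_Ico, div_le_iff₀ h2, lt_div_iff₀ h2] at ha hb
    have e1 : (i : ℝ) < i' + 1 := lt_of_le_of_lt ha.1 hb.2
    have e2 : (i' : ℝ) < i + 1 := lt_of_le_of_lt hb.1 ha.2
    have e3 : i < i' + 1 := by exact_mod_cast e1
    have e4 : i' < i + 1 := by exact_mod_cast e2
    omega
  have h3 : (G : Set ℤ).encard ≤ ν.support.encard :=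
    encard_le_encard_of_injOn (fun i hi => hφ1 i hi) hinj
  rw [encard_coe_eq_coe_finsetCard] at h3
  unfold numSupp
  have h4 := ENat.toENNReal_le.2 h3
  simpa using h4

theorem finset_le_Nj {ν : Measure ℝ} (F : Finset ℝ) (hF : (F : Set ℝ) ⊆ ν.support) :
    ∃ j, (F.card : ℝ≥0∞) ≤ Nj j ν := by
  classical
  -- separation
  obtain ⟨δ, hδ, hsep⟩ : ∃ δ > 0, ∀ x ∈ F, ∀ y ∈ F, x ≠ y → δ ≤ |x - y| := by
    by_cases hne : (F.offDiag).Nonempty
    · obtain ⟨p, hp, hmin⟩ := F.offDiag.exists_min_image (fun p => |p.1 - p.2|) hne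
      rw [Finset.mem_offDiag] at hp
      refine ⟨|p.1 - p.2|, abs_pos.2 (sub_ne_zero.2 hp.2.2), fun x hx y hy hxy => ?_⟩
      exact hmin (x, y) (Finset.mem_offDiag.2 ⟨hx, hy, hxy⟩)
    · refine ⟨1, one_pos, fun x hx y hy hxy => ?_⟩
      exact absurd ⟨(x, y), Finset.mem_offDiag.2 ⟨hx, hy, hxy⟩⟩ hne
  obtain ⟨j, hj⟩ : ∃ j : ℕ, 3 / (2 : ℝ) ^ j < δ := by
    obtain ⟨j, hj⟩ := exists_pow_lt_of_lt_one (show 0 < δ / 3 by positivity)
      (by norm_num : (1 / 2 : ℝ) < 1)
    refine ⟨j, ?_⟩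
    rw [one_div, inv_pow] at hj
    rw [div_eq_mul_inv]; linarith
  have h2 : (0 : ℝ) < 2 ^ j := by positivity
  set r := 1 / (2 : ℝ) ^ j with hr
  have hr0 : 0 < r := by positivity
  have h3r : 3 * r < δ := by rw [hr, mul_one_div]; exact hj
  have h1 : ∀ x ∈ F, ∃ i : ℤ, 0 < ν (dyad j i) ∧ ∃ z ∈ dyad j i, |z - x| < r := by
    intro x hx
    have hpos : 0 < ν (Metric.ball x r) :=
      (Measure.mem_support_iff_forall x).1 (hF hx) _ (Metric.ball_mem_nhds x hr0)
    have hcov : Metric.ball x r ⊆ ⋃ i : ℤ, (dyad j i ∩ Metric.ball x r) := by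
      intro z hz
      exact mem_iUnion.2 ⟨⌊z * 2 ^ j⌋, mem_dyad_floor j z, hz⟩
    obtain ⟨i, hi⟩ : ∃ i : ℤ, 0 < ν (dyad j i ∩ Metric.ball x r) := by
      by_contra hcon
      push Not at hcon
      have h4 : ν (⋃ i : ℤ, (dyad j i ∩ Metric.ball x r)) = 0 :=
        measure_iUnion_null fun i => le_antisymm (hcon i) zero_le
      exact absurd (measure_mono_null hcov h4) hpos.ne'
    obtain ⟨z, hz⟩ := nonempty_of_measure_ne_zero hi.ne'
    refine ⟨i, hi.trans_le (measure_mono inter_subset_left), z, hz.1, ?_⟩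
    have := hz.2
    rwa [Metric.mem_ball, Real.dist_eq] at this
  choose! φ hφ1 hφ2 using h1
  choose! ψ hψ1 hψ2 using hφ2
  have hinj : InjOn φ (F : Set ℝ) := by
    intro x hx y hy hxy
    by_contra hne
    have h5 := hsep x hx y hy hne
    have ha := hψ1 x hx
    have hb := hψ1 y hy
    rw [← hxy] at hb
    have h6 : |ψ x - ψ y| ≤ r := by
      unfold dyad at ha hb
      rw [mem_Ico] at ha hb
      have e1 : ((φ x : ℝ) + 1) / 2 ^ j = (φ x : ℝ) / 2 ^ j + r := by rw [hr]; ring
      rw [e1] at ha hb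
      rw [abs_le]; constructor <;> linarith [ha.1, ha.2, hb.1, hb.2]
    have h7 := hψ2 x hx
    have h8 := hψ2 y hy
    have h9 : |x - y| ≤ |ψ x - x| + |ψ x - ψ y| + |ψ y - y| := by
      have e : x - y = -(ψ x - x) + (ψ x - ψ y) + (ψ y - y) := by ring
      rw [e]
      refine (abs_add_le _ _).trans (add_le_add ((abs_add_le _ _).trans ?_) le_rfl)
      rw [abs_neg]
    linarith
  refine ⟨j, ?_⟩
  unfold Nj
  have h10 : (F.card : ℝ≥0∞) = ∑ i ∈ F.image φ, (if 0 < ν (dyad j i) then (1 : ℝ≥0∞) else 0) := by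
    rw [Finset.sum_image (fun x hx y hy h => hinj hx hy h)]
    rw [Finset.sum_congr rfl (fun x hx => if_pos (hφ1 x hx))]
    simp
  rw [h10]
  exact ENNReal.sum_le_tsum _

theorem numSupp_eq_iSup (ν : Measure ℝ) : numSupp ν = ⨆ j, Nj j ν := by
  apply le_antisymm _ (iSup_le fun j => Nj_le j ν)
  unfold numSupp
  by_cases hfin : ν.support.Finite
  · obtain ⟨j, hj⟩ := finset_le_Nj (ν := ν) hfin.toFinset (by simp)
    refine le_trans ?_ (le_iSup (fun j => Nj j ν) j)
    rw [hfin.encard_eq_coe_toFinset_card]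
    simpa using hj
  · have h1 : ∀ n : ℕ, (n : ℝ≥0∞) ≤ ⨆ j, Nj j ν := by
      intro n
      obtain ⟨F, hF, hcard⟩ := Set.Infinite.exists_subset_card_eq hfin n
      obtain ⟨j, hj⟩ := finset_le_Nj F hF
      rw [hcard] at hj
      exact hj.trans (le_iSup (fun j => Nj j ν) j)
    have h2 : (⨆ j, Nj j ν) = ⊤ := by
      rw [eq_top_iff]
      apply le_of_forall_lt
      intro c hc
      obtain ⟨n, hn⟩ := ENNReal.exists_nat_gt hc.ne
      exact hn.trans_le (h1 n)
    rw [h2]; exact le_top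

theorem measurable_numSupp (κ : Kernel ℝ ℝ) : Measurable fun t => numSupp (κ t) := by
  simp_rw [numSupp_eq_iSup]
  apply Measurable.iSup
  intro j
  unfold Nj
  apply Measurable.ennreal_tsum
  intro i
  apply Measurable.ite _ measurable_const measurable_const
  have h1 : Measurable fun t => κ t (dyad j i) := κ.measurable_coe measurableSet_Ico
  exact h1 measurableSet_Ioi

end Pool.Agent.Lib.MP_c57125_an
end

section
set_option autoImplicit false

open MeasureTheory ProbabilityTheory Set Filter Topology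
open scoped ENNReal ContDiff BoundedContinuousFunction

namespace Pool.Agent.Lib.MP_c57125_an

instance {T : ℝ} (Q : Pair T) : IsFiniteKernel Q.slice := Q.finite_slice

instance {T : ℝ} (Q : Pair T) : IsFiniteMeasure Q.meas := by
  unfold Pair.meas; infer_instance

/-- finite kinetic energy -/
def Pair.Fin {T : ℝ} (Q : Pair T) : Prop := ∫⁻ p, ENNReal.ofReal (Q.v p ^ 2) ∂Q.meas < ⊤

theorem Pair.Fin.sq_integrable {T : ℝ} {Q : Pair T} (h : Q.Fin) :
    Integrable (fun p => Q.v p ^ 2) Q.meas := by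
  refine ⟨(Q.measurable_v.pow_const 2).aestronglyMeasurable, ?_⟩
  rw [hasFiniteIntegral_iff_ofReal (Eventually.of_forall fun p => sq_nonneg _)]
  exact h

theorem Pair.Fin.integrable {T : ℝ} {Q : Pair T} (h : Q.Fin) : Integrable Q.v Q.meas := by
  have h1 : Integrable (fun p => Q.v p ^ 2 + 1) Q.meas := h.sq_integrable.add (integrable_const _)
  apply h1.mono' Q.measurable_v.aestronglyMeasurable
  exact Eventually.of_forall fun p => by
    rw [Real.norm_eq_abs, abs_le]
    constructor <;> nlinarith [sq_nonneg (Q.v p - 1), sq_nonneg (Q.v p + 1)]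

/-- a spatial cut-off -/
noncomputable def chi : ContDiffBump (0 : ℝ) := ⟨1, 2, one_pos, one_lt_two⟩

theorem chi_smooth : ContDiff ℝ ∞ (chi : ℝ → ℝ) := chi.contDiff

theorem chi_deriv_bdd : ∃ C, ∀ x, |deriv (chi : ℝ → ℝ) x| ≤ C := by
  have hc : Continuous (deriv (chi : ℝ → ℝ)) := chi_smooth.continuous_deriv (by simp)
  have hs : HasCompactSupport (deriv (chi : ℝ → ℝ)) := chi.hasCompactSupport.deriv
  obtain ⟨C, hC⟩ := hs.exists_bound_of_continuous hc
  exact ⟨C, fun x => by simpa using hC x⟩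

/-- The weak formulation with test functions `η(t) ζ(t,x)`, not necessarily compactly supported in
space. -/
theorem weak_form {T : ℝ} {Q : Pair T} (hQ : Q.Fin) {η : ℝ → ℝ} (hη : ContDiff ℝ ∞ η)
    (hηc : HasCompactSupport η) (hηT : tsupport η ⊆ Ioo 0 T) {ζ : ℝ × ℝ → ℝ}
    (hζ : ∀ p : ℝ × ℝ, p.1 ∈ tsupport η → ContDiffAt ℝ ∞ ζ p) {C : ℝ}
    (hC : ∀ p : ℝ × ℝ, p.1 ∈ tsupport η → |ζ p| ≤ C ∧ |dt ζ p| ≤ C ∧ |dx ζ p| ≤ C) :
    ∫ p, (deriv η p.1 * ζ p + η p.1 * (dt ζ p + Q.v p * dx ζ p)) ∂Q.meas = 0 := by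
  obtain ⟨Cχ, hCχ⟩ := chi_deriv_bdd
  have hCχ0 : 0 ≤ Cχ := (abs_nonneg _).trans (hCχ 0)
  -- test functions
  set ψ : ℕ → ℝ × ℝ → ℝ := fun n p => η p.1 * ζ p * chi (p.2 / (n + 1)) with hψ
  have hη0 : ∀ t, t ∉ tsupport η → η t = 0 := fun t ht => image_eq_zero_of_notMem_tsupport ht
  have hη'0 : ∀ t, t ∉ tsupport η → deriv η t = 0 := fun t ht => by
    have : t ∉ tsupport (deriv η) := fun h => ht (tsupport_deriv_subset h)
    exact image_eq_zero_of_notMem_tsupport this
  have hsupp : ∀ n, tsupport (ψ n) ⊆ tsupport η ×ˢ Metric.closedBall 0 (2 * (n + 1)) := by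
    intro n
    apply closure_minimal
    · intro p hp
      rw [Function.mem_support] at hp
      refine ⟨?_, ?_⟩
      · by_contra hcon
        apply hp; simp only [hψ, hη0 _ hcon, zero_mul]
      · by_contra hcon
        apply hp
        have : chi (p.2 / (n + 1)) = 0 := by
          apply chi.zero_of_le_dist
          rw [Metric.mem_closedBall, not_le, dist_zero_right] at hcon
          rw [dist_zero_right, norm_div]
          have hn : ‖((n : ℝ) + 1)‖ = n + 1 := by
            rw [Real.norm_eq_abs, abs_of_pos (by positivity)]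
          rw [hn, le_div_iff₀ (by positivity)]
          exact hcon.le
        simp only [hψ, this, mul_zero]
    · exact (isClosed_tsupport η).prod Metric.isClosed_closedBall
  have hsmooth : ∀ n, ContDiff ℝ ∞ (ψ n) := by
    intro n
    rw [contDiff_iff_contDiffAt]
    intro p
    by_cases hp : p ∈ tsupport (ψ n)
    swap
    · have h0 : ψ n =ᶠ[𝓝 p] fun _ => 0 := notMem_tsupport_iff_eventuallyEq.1 hp
      exact contDiffAt_const.congr_of_eventuallyEq h0
    have hp1 := (hsupp n hp).1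
    have h1 : ContDiffAt ℝ ∞ (fun p : ℝ × ℝ => η p.1) p := (hη.comp contDiff_fst).contDiffAt
    have h2 : ContDiffAt ℝ ∞ (fun p : ℝ × ℝ => (chi (p.2 / (n + 1)) : ℝ)) p :=
      (chi_smooth.comp (contDiff_snd.div_const _)).contDiffAt
    exact (h1.mul (hζ p hp1)).mul h2
  have hcomp : ∀ n, HasCompactSupport (ψ n) := by
    intro n
    have hK : IsCompact (tsupport η ×ˢ Metric.closedBall (0 : ℝ) (2 * (n + 1))) :=
      IsCompact.prod hηc (isCompact_closedBall _ _)
    exact hK.of_isClosed_subset (isClosed_tsupport _) (hsupp n)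
  have hzero : ∀ n, ∫ p, (dt (ψ n) p + Q.v p * dx (ψ n) p) ∂Q.meas = 0 := by
    intro n
    apply Q.continuity _ (hsmooth n) (hcomp n)
    intro p hp
    exact ⟨hηT (hsupp n hp).1, mem_univ _⟩
  -- derivatives
  have hdt : ∀ n p, dt (ψ n) p = (deriv η p.1 * ζ p + η p.1 * dt ζ p) * chi (p.2 / (n + 1)) := by
    intro n p
    by_cases hp : p.1 ∈ tsupport η
    · have h1 : DifferentiableAt ℝ (fun s => ζ (s, p.2)) p.1 := by
        have := (hζ p hp).differentiableAt (by simp)
        exact DifferentiableAt.comp (f := fun s : ℝ => (s, p.2)) (g := ζ) p.1 this (by fun_prop)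
      have h2 : DifferentiableAt ℝ η p.1 := (hη.differentiable (by simp)).differentiableAt
      unfold dt
      simp only [hψ]
      rw [deriv_mul_const (h2.fun_mul h1), deriv_fun_mul h2 h1]
    · have h0 : (fun s => ψ n (s, p.2)) =ᶠ[𝓝 p.1] fun _ => 0 := by
        have : (tsupport η)ᶜ ∈ 𝓝 p.1 := (isClosed_tsupport η).isOpen_compl.mem_nhds hp
        filter_upwards [this] with s hs
        simp only [hψ, hη0 s hs, zero_mul]
      unfold dt
      rw [h0.deriv_eq, hη0 _ hp, hη'0 _ hp]; simp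
  have hdx : ∀ n p, dx (ψ n) p = η p.1 * (dx ζ p * chi (p.2 / (n + 1)) +
      ζ p * (deriv (chi : ℝ → ℝ) (p.2 / (n + 1)) / (n + 1))) := by
    intro n p
    by_cases hp : p.1 ∈ tsupport η
    · have h1 : DifferentiableAt ℝ (fun y => ζ (p.1, y)) p.2 := by
        have := (hζ p hp).differentiableAt (by simp)
        exact DifferentiableAt.comp (f := fun s : ℝ => (p.1, s)) (g := ζ) p.2 this (by fun_prop)
      have h2 : HasDerivAt (fun y : ℝ => (chi (y / (n + 1)) : ℝ))
          (deriv (chi : ℝ → ℝ) (p.2 / (n + 1)) / (n + 1)) p.2 := by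
        have h3 : HasDerivAt (chi : ℝ → ℝ) (deriv (chi : ℝ → ℝ) (p.2 / (n + 1))) (p.2 / (n + 1)) :=
          ((chi_smooth.differentiable (by simp)) _).hasDerivAt
        have h4 := h3.comp p.2 ((hasDerivAt_id p.2).div_const ((n : ℝ) + 1))
        refine h4.congr_deriv ?_
        ring
      unfold dx
      have h5 := ((h1.hasDerivAt.mul h2).const_mul (η p.1)).deriv
      simp only [hψ, mul_assoc]
      exact h5
    · unfold dx
      simp only [hψ, hη0 _ hp, zero_mul]
      simp
  -- bounds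
  obtain ⟨Cη, hCη⟩ := hηc.exists_bound_of_continuous hη.continuous
  obtain ⟨Cη', hCη'⟩ := hηc.deriv.exists_bound_of_continuous (hη.continuous_deriv (by simp))
  have hCη0 : 0 ≤ Cη := (norm_nonneg _).trans (hCη 0)
  have hCη'0 : 0 ≤ Cη' := (norm_nonneg _).trans (hCη' 0)
  have hchi1 : ∀ x, |(chi x : ℝ)| ≤ 1 := fun x => by
    rw [abs_of_nonneg chi.nonneg]; exact chi.le_one
  set C' := max C 0 with hC'
  have hC'0 : 0 ≤ C' := le_max_right _ _
  have hlim := tendsto_integral_of_dominated_convergence (μ := Q.meas)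
    (F := fun n p => dt (ψ n) p + Q.v p * dx (ψ n) p)
    (f := fun p => deriv η p.1 * ζ p + η p.1 * (dt ζ p + Q.v p * dx ζ p))
    (bound := fun p => (Cη' * C' + Cη * C') + |Q.v p| * (Cη * (C' + C' * Cχ))) ?_ ?_ ?_ ?_
  · simp only [hzero] at hlim
    exact (tendsto_nhds_unique hlim tendsto_const_nhds)
  · intro n
    apply Measurable.aestronglyMeasurable
    have hcd := hsmooth n
    have m1 : Measurable (dt (ψ n)) := by
      have : dt (ψ n) = fun p => fderiv ℝ (ψ n) p (1, 0) := by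
        ext p
        unfold dt
        have h1 : HasFDerivAt (ψ n) (fderiv ℝ (ψ n) p) p :=
          ((hcd.differentiable (by simp)) p).hasFDerivAt
        have h2 : HasDerivAt (fun s : ℝ => (s, p.2)) ((1 : ℝ), (0 : ℝ)) p.1 :=
          (hasDerivAt_id p.1).prodMk (hasDerivAt_const _ _)
        exact (h1.comp_hasDerivAt p.1 h2).deriv
      rw [this]
      exact ((hcd.continuous_fderiv (by simp)).clm_apply continuous_const).measurable
    have m2 : Measurable (dx (ψ n)) := by
      have : dx (ψ n) = fun p => fderiv ℝ (ψ n) p (0, 1) := by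
        ext p
        unfold dx
        have h1 : HasFDerivAt (ψ n) (fderiv ℝ (ψ n) p) p :=
          ((hcd.differentiable (by simp)) p).hasFDerivAt
        have h2 : HasDerivAt (fun s : ℝ => (p.1, s)) ((0 : ℝ), (1 : ℝ)) p.2 :=
          (hasDerivAt_const _ _).prodMk (hasDerivAt_id p.2)
        exact (h1.comp_hasDerivAt p.2 h2).deriv
      rw [this]
      exact ((hcd.continuous_fderiv (by simp)).clm_apply continuous_const).measurable
    exact m1.add (Q.measurable_v.mul m2)
  · exact (integrable_const _).add (hQ.integrable.abs.mul_const _)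
  · intro n
    refine Eventually.of_forall fun p => ?_
    rw [hdt, hdx, Real.norm_eq_abs]
    by_cases hp : p.1 ∈ tsupport η
    · obtain ⟨b1, b2, b3⟩ := hC p hp
      have b1' : |ζ p| ≤ C' := b1.trans (le_max_left _ _)
      have b2' : |dt ζ p| ≤ C' := b2.trans (le_max_left _ _)
      have b3' : |dx ζ p| ≤ C' := b3.trans (le_max_left _ _)
      have b4 : |η p.1| ≤ Cη := by simpa using hCη p.1
      have b5 : |deriv η p.1| ≤ Cη' := by simpa using hCη' p.1
      have b6 := hchi1 (p.2 / (n + 1))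
      have b7 : |deriv (chi : ℝ → ℝ) (p.2 / (n + 1)) / (n + 1)| ≤ Cχ := by
        rw [abs_div]
        have hn : |(n : ℝ) + 1| = n + 1 := abs_of_pos (by positivity)
        rw [hn]
        refine (div_le_self (abs_nonneg _) ?_).trans (hCχ _)
        have : (0 : ℝ) ≤ n := Nat.cast_nonneg n
        linarith
      refine (abs_add_le _ _).trans (add_le_add ?_ ?_)
      · rw [abs_mul]
        have h8 : |deriv η p.1 * ζ p + η p.1 * dt ζ p| ≤ Cη' * C' + Cη * C' := by
          refine (abs_add_le _ _).trans (add_le_add ?_ ?_)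
          · rw [abs_mul]; exact mul_le_mul b5 b1' (abs_nonneg _) hCη'0
          · rw [abs_mul]; exact mul_le_mul b4 b2' (abs_nonneg _) hCη0
        calc _ ≤ (Cη' * C' + Cη * C') * 1 := mul_le_mul h8 b6 (abs_nonneg _) (by positivity)
          _ = _ := mul_one _
      · rw [abs_mul, abs_mul]
        apply mul_le_mul_of_nonneg_left _ (abs_nonneg _)
        apply mul_le_mul b4 _ (abs_nonneg _) hCη0
        refine (abs_add_le _ _).trans (add_le_add ?_ ?_)
        · rw [abs_mul]
          calc _ ≤ C' * 1 := mul_le_mul b3' b6 (abs_nonneg _) hC'0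
            _ = _ := mul_one _
        · rw [abs_mul]; exact mul_le_mul b1' b7 (abs_nonneg _) hC'0
    · rw [hη0 _ hp, hη'0 _ hp]
      simp
      positivity
  · refine Eventually.of_forall fun p => ?_
    simp only [hdt, hdx]
    have hx : Tendsto (fun n : ℕ => p.2 / ((n : ℝ) + 1)) atTop (𝓝 0) := by
      have := tendsto_const_div_atTop_nhds_zero_nat p.2
      exact (this.comp (tendsto_add_atTop_nat 1)).congr fun n => by simp
    have h1 : Tendsto (fun n : ℕ => (chi (p.2 / ((n : ℝ) + 1)) : ℝ)) atTop (𝓝 1) := by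
      have := chi.continuous.tendsto 0
      have h2 := this.comp hx
      have h3 : (chi (0 : ℝ) : ℝ) = 1 := chi.one_of_mem_closedBall (by simp [chi])
      rw [h3] at h2
      exact h2
    have h2 : Tendsto (fun n : ℕ => deriv (chi : ℝ → ℝ) (p.2 / ((n : ℝ) + 1)) / ((n : ℝ) + 1)) atTop (𝓝 0) := by
      have ha : Tendsto (fun n : ℕ => Cχ / ((n : ℝ) + 1)) atTop (𝓝 0) := by
        have := tendsto_const_div_atTop_nhds_zero_nat Cχ
        exact (this.comp (tendsto_add_atTop_nat 1)).congr fun n => by simp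
      apply squeeze_zero_norm _ ha
      intro n
      rw [norm_div, Real.norm_eq_abs, Real.norm_eq_abs, abs_of_pos (show (0 : ℝ) < n + 1 by positivity)]
      exact div_le_div_of_nonneg_right (hCχ _) (by positivity)
    have h3 := (h1.const_mul (deriv η p.1 * ζ p + η p.1 * dt ζ p)).add
      ((((h1.const_mul (dx ζ p)).add (h2.const_mul (ζ p))).const_mul (η p.1)).const_mul (Q.v p))
    refine h3.trans (le_of_eq ?_)
    congr 1
    ring

end Pool.Agent.Lib.MP_c57125_an
end

section
set_option autoImplicit false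

open MeasureTheory ProbabilityTheory Set Filter Topology
open scoped ENNReal ContDiff BoundedContinuousFunction

namespace Pool.Agent.Lib.MP_c57125_an

/-- time ramp: `0` before `a`, `1` after `a + 1/(n+1)` -/
noncomputable def ramp (n : ℕ) (a r : ℝ) : ℝ := Real.smoothTransition (((n : ℝ) + 1) * (r - a))

/-- the derivative of the ramp -/
noncomputable def bump (n : ℕ) (a r : ℝ) : ℝ := deriv (ramp n a) r

theorem ramp_smooth (n : ℕ) (a : ℝ) : ContDiff ℝ ∞ (ramp n a) := by
  unfold ramp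
  exact (Real.smoothTransition.contDiff (n := ⊤)).comp (contDiff_const.mul (contDiff_id.sub contDiff_const))

theorem ramp_of_le {n : ℕ} {a r : ℝ} (h : r ≤ a) : ramp n a r = 0 := by
  apply Real.smoothTransition.zero_of_nonpos
  have : (0 : ℝ) < n + 1 := by positivity
  nlinarith

theorem ramp_of_ge {n : ℕ} {a r : ℝ} (h : a + 1 / ((n : ℝ) + 1) ≤ r) : ramp n a r = 1 := by
  apply Real.smoothTransition.one_of_one_le
  have h0 : (0 : ℝ) < n + 1 := by positivity
  have h1 : 1 / ((n : ℝ) + 1) ≤ r - a := by linarith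
  rw [div_le_iff₀ h0] at h1
  linarith

theorem ramp_nonneg (n : ℕ) (a r : ℝ) : 0 ≤ ramp n a r := Real.smoothTransition.nonneg _
theorem ramp_le_one (n : ℕ) (a r : ℝ) : ramp n a r ≤ 1 := Real.smoothTransition.le_one _

theorem ramp_mono (n : ℕ) (a : ℝ) : Monotone (ramp n a) := by
  intro r s h
  apply Real.smoothTransition.monotone
  have h0 : (0 : ℝ) < n + 1 := by positivity
  nlinarith

theorem ramp_anti (n : ℕ) {a b : ℝ} (hab : a ≤ b) (r : ℝ) : ramp n b r ≤ ramp n a r := by
  apply Real.smoothTransition.monotone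
  have h0 : (0 : ℝ) < n + 1 := by positivity
  nlinarith

theorem bump_nonneg (n : ℕ) (a r : ℝ) : 0 ≤ bump n a r := (ramp_mono n a).deriv_nonneg

theorem bump_eq_zero {n : ℕ} {a r : ℝ} (h : r ∉ Icc a (a + 1 / ((n : ℝ) + 1))) : bump n a r = 0 := by
  unfold bump
  rw [mem_Icc, not_and_or, not_le, not_le] at h
  rcases h with h | h
  · have : ramp n a =ᶠ[𝓝 r] fun _ => 0 := by
      filter_upwards [gt_mem_nhds h] with s hs using ramp_of_le hs.le
    rw [this.deriv_eq]; simp
  · have : ramp n a =ᶠ[𝓝 r] fun _ => 1 := by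
      filter_upwards [lt_mem_nhds h] with s hs using ramp_of_ge hs.le
    rw [this.deriv_eq]; simp

theorem bump_bdd : ∃ C, 0 ≤ C ∧ ∀ n a r, bump n a r ≤ ((n : ℝ) + 1) * C := by
  have h1 : Continuous (deriv Real.smoothTransition) :=
    (Real.smoothTransition.contDiff (n := ⊤)).continuous_deriv (by simp)
  have hs : HasCompactSupport (deriv Real.smoothTransition) := by
    apply HasCompactSupport.intro (isCompact_Icc (a := (0 : ℝ)) (b := 1))
    intro x hx
    rw [mem_Icc, not_and_or, not_le, not_le] at hx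
    rcases hx with h | h
    · have : Real.smoothTransition =ᶠ[𝓝 x] fun _ => 0 := by
        filter_upwards [gt_mem_nhds h] with s hs using Real.smoothTransition.zero_of_nonpos hs.le
      rw [this.deriv_eq]; simp
    · have : Real.smoothTransition =ᶠ[𝓝 x] fun _ => 1 := by
        filter_upwards [lt_mem_nhds h] with s hs using Real.smoothTransition.one_of_one_le hs.le
      rw [this.deriv_eq]; simp
  obtain ⟨C, hC⟩ := hs.exists_bound_of_continuous h1
  refine ⟨C, (norm_nonneg _).trans (hC 0), fun n a r => ?_⟩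
  have h2 : HasDerivAt (ramp n a) (deriv Real.smoothTransition (((n : ℝ) + 1) * (r - a)) *
      (((n : ℝ) + 1) * 1)) r := by
    have h3 : HasDerivAt Real.smoothTransition (deriv Real.smoothTransition (((n : ℝ) + 1) * (r - a)))
      (((n : ℝ) + 1) * (r - a)) :=
      (((Real.smoothTransition.contDiff (n := ⊤)).differentiable (by simp)) _).hasDerivAt
    exact h3.comp r (((hasDerivAt_id r).sub_const a).const_mul ((n : ℝ) + 1))
  unfold bump
  rw [h2.deriv]
  have h4 := (Real.norm_eq_abs _ ▸ hC (((n : ℝ) + 1) * (r - a)))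
  have h5 := le_of_abs_le h4
  have h0 : (0 : ℝ) < n + 1 := by positivity
  nlinarith

theorem bump_continuous (n : ℕ) (a : ℝ) : Continuous (bump n a) :=
  (ramp_smooth n a).continuous_deriv (by simp)

theorem bump_integral (n : ℕ) (a : ℝ) {S : Set ℝ} (hS : MeasurableSet S)
    (h : Icc a (a + 1 / ((n : ℝ) + 1)) ⊆ S) : ∫ r in S, bump n a r = 1 := by
  have h0 : (0 : ℝ) < 1 / ((n : ℝ) + 1) := by positivity
  have h1 : ∫ r in S, bump n a r = ∫ r in Icc a (a + 1 / ((n : ℝ) + 1)), bump n a r := by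
    apply setIntegral_eq_of_subset_of_forall_sdiff_eq_zero hS h
    intro r hr
    exact bump_eq_zero hr.2
  rw [h1, integral_Icc_eq_integral_Ioc, ← intervalIntegral.integral_of_le (by linarith)]
  rw [intervalIntegral.integral_eq_sub_of_hasDerivAt (f := ramp n a)]
  · rw [ramp_of_ge le_rfl, ramp_of_le le_rfl, sub_zero]
  · intro x _
    exact (((ramp_smooth n a).differentiable (by simp)) x).hasDerivAt
  · exact (bump_continuous n a).intervalIntegrable _ _

/-- right averages of `|g - g a|` tend to zero -/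
def RP (g : ℝ → ℝ) (a : ℝ) : Prop :=
  Tendsto (fun n : ℕ => ((n : ℝ) + 1) * ∫ r in Icc a (a + 1 / ((n : ℝ) + 1)), |g r - g a|) atTop (𝓝 0)

theorem tendsto_inv_nat : Tendsto (fun n : ℕ => 1 / ((n : ℝ) + 1)) atTop (𝓝 0) :=
  tendsto_one_div_add_atTop_nhds_zero_nat

theorem avg_tendsto {g : ℝ → ℝ} {S : Set ℝ} (hS : MeasurableSet S) (hg : IntegrableOn g S) {a : ℝ}
    (ha : S ∈ 𝓝[≥] a) (h : RP g a) :
    Tendsto (fun n : ℕ => ∫ r in S, bump n a r * g r) atTop (𝓝 (g a)) := by
  obtain ⟨C, hC0, hC⟩ := bump_bdd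
  -- eventually the window is in S
  have hwin : ∀ᶠ n : ℕ in atTop, Icc a (a + 1 / ((n : ℝ) + 1)) ⊆ S := by
    obtain ⟨b, hb, hbS⟩ := mem_nhdsGE_iff_exists_Icc_subset.1 ha
    have := tendsto_inv_nat.eventually (gt_mem_nhds (sub_pos.2 hb))
    filter_upwards [this] with n hn
    exact (Icc_subset_Icc_right (by linarith)).trans hbS
  rw [tendsto_iff_norm_sub_tendsto_zero]
  have hz : Tendsto (fun n : ℕ => C * (((n : ℝ) + 1) *
      ∫ r in Icc a (a + 1 / ((n : ℝ) + 1)), |g r - g a|)) atTop (𝓝 0) := by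
    simpa using h.const_mul C
  apply squeeze_zero' (Eventually.of_forall fun n => norm_nonneg _) _ hz
  filter_upwards [hwin] with n hn
  have hgi : IntegrableOn g (Icc a (a + 1 / ((n : ℝ) + 1))) := hg.mono_set hn
  have hbg : IntegrableOn (fun r => bump n a r * g r) (Icc a (a + 1 / ((n : ℝ) + 1))) := by
    apply hgi.continuousOn_mul (bump_continuous n a).continuousOn isCompact_Icc
  have h1 : ∫ r in S, bump n a r * g r = ∫ r in Icc a (a + 1 / ((n : ℝ) + 1)), bump n a r * g r := by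
    apply setIntegral_eq_of_subset_of_forall_sdiff_eq_zero hS hn
    intro r hr
    rw [bump_eq_zero hr.2, zero_mul]
  have hbi : IntegrableOn (fun r => bump n a r * g a) (Icc a (a + 1 / ((n : ℝ) + 1))) := by
    apply ContinuousOn.integrableOn_compact isCompact_Icc
    exact ((bump_continuous n a).mul continuous_const).continuousOn
  have h2 : g a = ∫ r in Icc a (a + 1 / ((n : ℝ) + 1)), bump n a r * g a := by
    rw [integral_mul_const, bump_integral n a measurableSet_Icc le_rfl, one_mul]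
  have h6 : (∫ r in Icc a (a + 1 / ((n : ℝ) + 1)), bump n a r * g r) - g a =
      ∫ r in Icc a (a + 1 / ((n : ℝ) + 1)), (bump n a r * g r - bump n a r * g a) := by
    rw [integral_sub hbg hbi, ← h2]
  rw [h1, h6]
  refine (norm_integral_le_integral_norm _).trans ?_
  have h3 : ∫ r in Icc a (a + 1 / ((n : ℝ) + 1)), ‖bump n a r * g r - bump n a r * g a‖ ≤
      ∫ r in Icc a (a + 1 / ((n : ℝ) + 1)), (((n : ℝ) + 1) * C) * |g r - g a| := by
    apply setIntegral_mono_on (hbg.sub hbi).norm _ measurableSet_Icc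
    · intro r _
      simp only [Pi.sub_apply]
      rw [← mul_sub, norm_mul, Real.norm_eq_abs, Real.norm_eq_abs, abs_of_nonneg (bump_nonneg n a r)]
      exact mul_le_mul_of_nonneg_right (hC n a r) (abs_nonneg _)
    · exact ((hgi.sub (integrableOn_const (by simp))).norm.const_mul _)
  refine h3.trans (le_of_eq ?_)
  rw [integral_const_mul]; ring

/-- almost every point is a right Lebesgue point -/
theorem ae_RP {g : ℝ → ℝ} {S : Set ℝ} (hSo : IsOpen S) (hg : IntegrableOn g S) :
    ∀ᵐ a ∂(volume.restrict S), RP g a := by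
  have hS : MeasurableSet S := hSo.measurableSet
  set g' := S.indicator g with hg'
  have hgi : Integrable g' := hg.integrable_indicator hS
  have h1 := (IsUnifLocDoublingMeasure.vitaliFamily (volume : Measure ℝ) 1).ae_tendsto_average_norm_sub
    hgi.locallyIntegrable
  rw [ae_restrict_iff' hS]
  filter_upwards [h1] with a ha haS
  have h2 := ha.comp (Real.tendsto_Icc_vitaliFamily_right a)
  have h3 : Tendsto (fun n : ℕ => a + 1 / ((n : ℝ) + 1)) atTop (𝓝[>] a) := by
    rw [tendsto_nhdsWithin_iff]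
    refine ⟨by simpa using (tendsto_inv_nat.const_add a), Eventually.of_forall fun n => ?_⟩
    rw [mem_Ioi]
    have : (0 : ℝ) < 1 / ((n : ℝ) + 1) := by positivity
    linarith
  have h4 := h2.comp h3
  unfold RP
  refine h4.congr' ?_
  have hwin : ∀ᶠ n : ℕ in atTop, Icc a (a + 1 / ((n : ℝ) + 1)) ⊆ S := by
    obtain ⟨b, hb, hbS⟩ := mem_nhdsGE_iff_exists_Icc_subset.1
      (mem_nhdsWithin_of_mem_nhds (hSo.mem_nhds haS) : S ∈ 𝓝[≥] a)
    have := tendsto_inv_nat.eventually (gt_mem_nhds (sub_pos.2 hb))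
    filter_upwards [this] with n hn
    exact (Icc_subset_Icc_right (by linarith)).trans hbS
  filter_upwards [hwin] with n hn
  simp only [Function.comp]
  rw [setAverage_eq, smul_eq_mul]
  have h5 : volume.real (Icc a (a + 1 / ((n : ℝ) + 1))) = 1 / ((n : ℝ) + 1) := by
    rw [Real.volume_real_Icc_of_le]
    · ring
    · have : (0 : ℝ) < 1 / ((n : ℝ) + 1) := by positivity
      linarith
  rw [h5]
  congr 1
  · rw [one_div, inv_inv]
  · apply setIntegral_congr_fun measurableSet_Icc
    intro r hr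
    simp only [hg', indicator_of_mem haS, indicator_of_mem (hn hr), Real.norm_eq_abs]

end Pool.Agent.Lib.MP_c57125_an
end

section
set_option autoImplicit false

open MeasureTheory ProbabilityTheory Set Filter Topology
open scoped ENNReal ContDiff BoundedContinuousFunction

namespace Pool.Agent.Lib.MP_c57125_an

/-- window function -/
noncomputable def win (n : ℕ) (s t r : ℝ) : ℝ := ramp n s r - ramp n t r

theorem win_smooth (n : ℕ) (s t : ℝ) : ContDiff ℝ ∞ (win n s t) :=
  (ramp_smooth n s).sub (ramp_smooth n t)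

theorem deriv_win (n : ℕ) (s t r : ℝ) : deriv (win n s t) r = bump n s r - bump n t r := by
  unfold win bump
  exact deriv_fun_sub (((ramp_smooth n s).differentiable (by simp)) r)
    (((ramp_smooth n t).differentiable (by simp)) r)

theorem win_nonneg (n : ℕ) {s t : ℝ} (hst : s ≤ t) (r : ℝ) : 0 ≤ win n s t r :=
  sub_nonneg.2 (ramp_anti n hst r)

theorem win_le_one (n : ℕ) {s t : ℝ} (r : ℝ) : win n s t r ≤ 1 := by
  unfold win
  linarith [ramp_nonneg n t r, ramp_le_one n s r]

theorem win_tsupport (n : ℕ) {s t : ℝ} (hst : s < t) :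
    tsupport (win n s t) ⊆ Icc s (t + 1 / ((n : ℝ) + 1)) := by
  apply closure_minimal _ isClosed_Icc
  intro r hr
  rw [Function.mem_support] at hr
  by_contra hcon
  apply hr
  rw [mem_Icc, not_and_or, not_le, not_le] at hcon
  unfold win
  rcases hcon with h | h
  · rw [ramp_of_le h.le, ramp_of_le (by linarith)]; simp
  · rw [ramp_of_ge h.le, ramp_of_ge (by linarith)]; simp

theorem win_tendsto (s t r : ℝ) (hst : s < t) :
    Tendsto (fun n => win n s t r) atTop (𝓝 ((Ioc s t).indicator (fun _ => (1 : ℝ)) r)) := by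
  have h1 : ∀ a, a < r → ∀ᶠ n in atTop, ramp n a r = 1 := by
    intro a ha
    have := tendsto_inv_nat.eventually (gt_mem_nhds (sub_pos.2 ha))
    filter_upwards [this] with n hn
    exact ramp_of_ge (by linarith)
  by_cases hs : s < r
  · by_cases ht : t < r
    · have : r ∉ Ioc s t := fun h => absurd h.2 (not_le.2 ht)
      rw [indicator_of_notMem this]
      apply tendsto_const_nhds.congr'
      filter_upwards [h1 s hs, h1 t ht] with n h2 h3
      rw [win, h2, h3, sub_self]
    · have : r ∈ Ioc s t := ⟨hs, not_lt.1 ht⟩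
      rw [indicator_of_mem this]
      apply tendsto_const_nhds.congr'
      filter_upwards [h1 s hs] with n h2
      rw [win, h2, ramp_of_le (not_lt.1 ht), sub_zero]
  · have : r ∉ Ioc s t := fun h => hs h.1
    rw [indicator_of_notMem this]
    apply tendsto_const_nhds.congr
    intro n
    rw [win, ramp_of_le (not_lt.1 hs), ramp_of_le (by linarith [not_lt.1 hs]), sub_zero]

/-- slice integrals -/
noncomputable def gfun {T : ℝ} (Q : Pair T) (ζ : ℝ × ℝ → ℝ) (r : ℝ) : ℝ := ∫ x, ζ (r, x) ∂(Q.slice r)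

theorem gfun_measurable {T : ℝ} (Q : Pair T) {ζ : ℝ × ℝ → ℝ} (hζ : Measurable ζ) :
    Measurable (gfun Q ζ) :=
  (hζ.stronglyMeasurable.integral_kernel_prod_right').measurable

theorem gfun_bdd {T : ℝ} (Q : Pair T) {ζ : ℝ × ℝ → ℝ} {A : Set ℝ} {C : ℝ} (hC0 : 0 ≤ C)
    (hC : ∀ p : ℝ × ℝ, p.1 ∈ A → |ζ p| ≤ C) :
    ∀ r ∈ A, |gfun Q ζ r| ≤ C * (Q.slice.bound).toReal := by
  intro r hr
  unfold gfun
  rw [← Real.norm_eq_abs]
  have h1 := norm_integral_le_of_norm_le_const (μ := Q.slice r) (f := fun x => ζ (r, x)) (C := C)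
    (Eventually.of_forall fun x => by rw [Real.norm_eq_abs]; exact hC (r, x) hr)
  refine h1.trans ?_
  apply mul_le_mul_of_nonneg_left _ hC0
  rw [Measure.real]
  apply ENNReal.toReal_mono (Kernel.bound_ne_top Q.slice)
  exact Kernel.measure_le_bound Q.slice r univ

/-- the integrated continuity equation between two right Lebesgue times -/
theorem ident {T : ℝ} {Q : Pair T} (hQ : Q.Fin) {s t t' : ℝ} (hs : 0 < s) (hst : s < t)
    (htt' : t < t') (ht'T : t' < T) {ζ D1 D2 : ℝ × ℝ → ℝ} (hζm : Measurable ζ)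
    (hζ : ∀ p : ℝ × ℝ, p.1 ∈ Icc s t' → ContDiffAt ℝ ∞ ζ p)
    (hD1m : Measurable D1) (hD2m : Measurable D2)
    (hD1 : ∀ p : ℝ × ℝ, p.1 ∈ Icc s t' → dt ζ p = D1 p)
    (hD2 : ∀ p : ℝ × ℝ, p.1 ∈ Icc s t' → dx ζ p = D2 p) {C : ℝ}
    (hC : ∀ p : ℝ × ℝ, p.1 ∈ Icc s t' → |ζ p| ≤ C ∧ |D1 p| ≤ C ∧ |D2 p| ≤ C)
    (hRs : RP (gfun Q ζ) s) (hRt : RP (gfun Q ζ) t) :
    gfun Q ζ t - gfun Q ζ s = ∫ p in {p : ℝ × ℝ | p.1 ∈ Ioc s t}, (D1 p + Q.v p * D2 p) ∂Q.meas := by
  have hC0 : 0 ≤ C := (abs_nonneg _).trans (hC (s, 0) ⟨le_rfl, by simp; linarith⟩).1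
  set S := Icc s t' with hS
  have hSm : MeasurableSet S := measurableSet_Icc
  have hST : S ⊆ Ioo 0 T := fun r hr => ⟨by linarith [hr.1], by linarith [hr.2]⟩
  set g := gfun Q ζ with hg
  have hgm : Measurable g := gfun_measurable Q hζm
  have hgi : IntegrableOn g S := by
    apply Measure.integrableOn_of_bounded (M := C * (Q.slice.bound).toReal) (by simp [hS])
      hgm.aestronglyMeasurable
    rw [ae_restrict_iff' hSm]
    exact Eventually.of_forall fun r hr => by
      rw [Real.norm_eq_abs]; exact gfun_bdd Q hC0 (fun p hp => (hC p hp).1) r hr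
  have hws : S ∈ 𝓝[≥] s := Icc_mem_nhdsGE (by linarith)
  have hwt : S ∈ 𝓝[≥] t := mem_nhdsWithin_of_mem_nhds (Icc_mem_nhds hst htt')
  have lim1 := (avg_tendsto hSm hgi hws hRs).sub (avg_tendsto hSm hgi hwt hRt)
  -- integrability of the main term
  have hmeasS : MeasurableSet {p : ℝ × ℝ | p.1 ∈ S} := measurable_fst hSm
  set D : ℝ × ℝ → ℝ := {p : ℝ × ℝ | p.1 ∈ S}.indicator (fun p => D1 p + Q.v p * D2 p) with hD
  have hDm : Measurable D := (hD1m.add (Q.measurable_v.mul hD2m)).indicator hmeasS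
  have hDb : ∀ p, |D p| ≤ C + |Q.v p| * C := by
    intro p
    by_cases hp : p.1 ∈ S
    · rw [hD, indicator_of_mem (by exact hp)]
      refine (abs_add_le _ _).trans (add_le_add (hC p hp).2.1 ?_)
      rw [abs_mul]; exact mul_le_mul_of_nonneg_left (hC p hp).2.2 (abs_nonneg _)
    · rw [hD, indicator_of_notMem (by exact hp), abs_zero]; positivity
  have hbi : Integrable (fun p => C + |Q.v p| * C) Q.meas :=
    (integrable_const _).add (hQ.integrable.abs.mul_const _)
  have hDi : Integrable D Q.meas :=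
    hbi.mono' hDm.aestronglyMeasurable (Eventually.of_forall fun p => by
      rw [Real.norm_eq_abs]; exact hDb p)
  -- eventually the windows fit
  have hwin : ∀ᶠ n : ℕ in atTop, t + 1 / ((n : ℝ) + 1) < t' := by
    have := tendsto_inv_nat.eventually (gt_mem_nhds (sub_pos.2 htt'))
    filter_upwards [this] with n hn
    linarith
  have hkey : ∀ᶠ n : ℕ in atTop,
      (∫ r in S, bump n s r * g r) - (∫ r in S, bump n t r * g r) =
      - ∫ p, win n s t p.1 * D p ∂Q.meas := by
    filter_upwards [hwin] with n hn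
    have hsub : tsupport (win n s t) ⊆ S :=
      (win_tsupport n hst).trans (Icc_subset_Icc_right hn.le)
    have hηc : HasCompactSupport (win n s t) :=
      isCompact_Icc.of_isClosed_subset (isClosed_tsupport _) hsub
    have hw := weak_form hQ (win_smooth n s t) hηc (hsub.trans hST)
      (fun p hp => hζ p (hsub hp)) (C := C)
      (fun p hp => ⟨(hC p (hsub hp)).1, by rw [hD1 p (hsub hp)]; exact (hC p (hsub hp)).2.1,
        by rw [hD2 p (hsub hp)]; exact (hC p (hsub hp)).2.2⟩)
    -- rewrite the integrand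
    have hb0 : ∀ r, r ∉ S → bump n s r = 0 ∧ bump n t r = 0 := by
      intro r hr
      constructor
      · apply bump_eq_zero
        intro h; apply hr
        exact ⟨h.1, by linarith [h.2]⟩
      · apply bump_eq_zero
        intro h; apply hr
        exact ⟨by linarith [h.1], by linarith [h.2]⟩
    have hcongr : ∀ p : ℝ × ℝ, deriv (win n s t) p.1 * ζ p + win n s t p.1 * (dt ζ p + Q.v p * dx ζ p) =
        (bump n s p.1 - bump n t p.1) * ζ p + win n s t p.1 * D p := by
      intro p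
      rw [deriv_win]
      by_cases hp : p.1 ∈ S
      · rw [hD1 p hp, hD2 p hp, hD, indicator_of_mem (by exact hp)]
      · have hw0 : win n s t p.1 = 0 := image_eq_zero_of_notMem_tsupport fun h => hp (hsub h)
        rw [hw0]; simp
    simp_rw [hcongr] at hw
    have hi1 : Integrable (fun p : ℝ × ℝ => (bump n s p.1 - bump n t p.1) * ζ p) Q.meas := by
      obtain ⟨Cb, hCb0, hCb⟩ := bump_bdd
      apply (integrable_const ((((n : ℝ) + 1) * Cb + ((n : ℝ) + 1) * Cb) * C)).mono'
      · exact (((bump_continuous n s).measurable.comp measurable_fst).sub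
          ((bump_continuous n t).measurable.comp measurable_fst)).mul hζm |>.aestronglyMeasurable
      · refine Eventually.of_forall fun p => ?_
        rw [Real.norm_eq_abs, abs_mul]
        by_cases hp : p.1 ∈ S
        · apply mul_le_mul _ (hC p hp).1 (abs_nonneg _) (by positivity)
          refine (abs_sub _ _).trans (add_le_add ?_ ?_)
          · rw [abs_of_nonneg (bump_nonneg _ _ _)]; exact hCb _ _ _
          · rw [abs_of_nonneg (bump_nonneg _ _ _)]; exact hCb _ _ _
        · rw [(hb0 _ hp).1, (hb0 _ hp).2]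
          simp only [sub_self, abs_zero, zero_mul]
          positivity
    have hi2 : Integrable (fun p : ℝ × ℝ => win n s t p.1 * D p) Q.meas := by
      apply hDi.norm.mono'
      · exact (((win_smooth n s t).continuous.measurable.comp measurable_fst).mul hDm).aestronglyMeasurable
      · refine Eventually.of_forall fun p => ?_
        rw [norm_mul]
        apply mul_le_of_le_one_left (norm_nonneg _)
        rw [Real.norm_eq_abs, abs_of_nonneg (win_nonneg n hst.le _)]
        exact win_le_one n _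
    rw [integral_add hi1 hi2] at hw
    have h1 : ∫ p : ℝ × ℝ, (bump n s p.1 - bump n t p.1) * ζ p ∂Q.meas =
        (∫ r in S, bump n s r * g r) - (∫ r in S, bump n t r * g r) := by
      unfold Pair.meas at hi1 ⊢
      rw [Measure.integral_compProd hi1]
      simp only [integral_const_mul]
      have h2 : ∀ a, (∀ r, r ∉ S → bump n a r = 0) → IntegrableOn (fun r => bump n a r * g r) S := by
        intro a _
        exact hgi.continuousOn_mul (bump_continuous n a).continuousOn isCompact_Icc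
      rw [← integral_sub (h2 s fun r hr => (hb0 r hr).1) (h2 t fun r hr => (hb0 r hr).2)]
      rw [← setIntegral_eq_of_subset_of_forall_sdiff_eq_zero measurableSet_Ioo hST]
      · congr 1
        ext r
        rw [hg]; unfold gfun; ring
      · intro r hr
        rw [(hb0 r hr.2).1, (hb0 r hr.2).2]; simp
    rw [h1] at hw
    linarith
  -- limit of the right-hand side
  have lim2 : Tendsto (fun n => ∫ p, win n s t p.1 * D p ∂Q.meas) atTop
      (𝓝 (∫ p, (Ioc s t).indicator (fun _ => (1 : ℝ)) p.1 * D p ∂Q.meas)) := by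
    apply tendsto_integral_of_dominated_convergence (fun p => ‖D p‖)
    · intro n
      exact (((win_smooth n s t).continuous.measurable.comp measurable_fst).mul hDm).aestronglyMeasurable
    · exact hDi.norm
    · intro n
      refine Eventually.of_forall fun p => ?_
      rw [norm_mul]
      apply mul_le_of_le_one_left (norm_nonneg _)
      rw [Real.norm_eq_abs, abs_of_nonneg (win_nonneg n hst.le _)]
      exact win_le_one n _
    · exact Eventually.of_forall fun p => (win_tendsto s t p.1 hst).mul_const _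
  have h3 := tendsto_nhds_unique (lim1.congr' hkey) lim2.neg
  have h4 : ∫ p, (Ioc s t).indicator (fun _ => (1 : ℝ)) p.1 * D p ∂Q.meas =
      ∫ p in {p : ℝ × ℝ | p.1 ∈ Ioc s t}, (D1 p + Q.v p * D2 p) ∂Q.meas := by
    have hm : MeasurableSet {p : ℝ × ℝ | p.1 ∈ Ioc s t} := measurable_fst measurableSet_Ioc
    rw [← integral_indicator hm]
    congr 1
    ext p
    by_cases hp : p.1 ∈ Ioc s t
    · have hpS : p.1 ∈ S := ⟨hp.1.le, by linarith [hp.2]⟩
      rw [indicator_of_mem hp, indicator_of_mem (by exact hp), hD, indicator_of_mem (by exact hpS), one_mul]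
    · rw [indicator_of_notMem hp, indicator_of_notMem (by exact hp), zero_mul]
  rw [h4] at h3
  linarith

end Pool.Agent.Lib.MP_c57125_an
end

section
set_option autoImplicit false

open MeasureTheory ProbabilityTheory Set Filter Topology
open scoped ENNReal ContDiff BoundedContinuousFunction

namespace Pool.Agent.Lib.MP_c57125_an

section soft

variable (ε C s' : ℝ) {n : ℕ} (a x : Fin n → ℝ)

/-- weights of the soft minimum -/
noncomputable def wt (k : Fin n) (p : ℝ × ℝ) : ℝ :=
  Real.exp (-(a k + (p.2 - x k) ^ 2 / (2 * (p.1 - s'))) / ε)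

/-- total weight -/
noncomputable def wW (p : ℝ × ℝ) : ℝ := Real.exp (-C / ε) + ∑ k, wt ε s' a x k p

/-- soft minimum of the Hopf-Lax paraboloids and a constant -/
noncomputable def soft (p : ℝ × ℝ) : ℝ := -(ε * Real.log (wW ε C s' a x p))

/-- its time derivative -/
noncomputable def softt (p : ℝ × ℝ) : ℝ :=
  -(∑ k, wt ε s' a x k p * ((p.2 - x k) ^ 2 / (2 * (p.1 - s') ^ 2))) / wW ε C s' a x p

/-- its space derivative -/
noncomputable def softx (p : ℝ × ℝ) : ℝ :=
  (∑ k, wt ε s' a x k p * ((p.2 - x k) / (p.1 - s'))) / wW ε C s' a x p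

variable {ε C s'} {a x}

theorem wt_pos (k : Fin n) (p : ℝ × ℝ) : 0 < wt ε s' a x k p := Real.exp_pos _

theorem wW_ge (p : ℝ × ℝ) : Real.exp (-C / ε) ≤ wW ε C s' a x p := by
  unfold wW
  have : 0 ≤ ∑ k, wt ε s' a x k p := Finset.sum_nonneg fun k _ => (wt_pos k p).le
  linarith

theorem wW_pos (p : ℝ × ℝ) : 0 < wW ε C s' a x p := (Real.exp_pos _).trans_le (wW_ge p)

theorem wt_measurable (k : Fin n) : Measurable (wt ε s' a x k) := by
  unfold wt; fun_prop

theorem wW_measurable : Measurable (wW ε C s' a x) := by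
  unfold wW
  exact measurable_const.add (Finset.measurable_sum _ fun k _ => wt_measurable k)

theorem soft_measurable : Measurable (soft ε C s' a x) := by
  unfold soft
  exact (((wW_measurable (ε := ε) (C := C) (s' := s') (a := a) (x := x)).log).const_mul ε).neg

theorem softt_measurable : Measurable (softt ε C s' a x) := by
  unfold softt
  refine Measurable.div (Measurable.neg (Finset.measurable_sum _ fun k _ => ?_)) wW_measurable
  exact (wt_measurable k).mul (by fun_prop)

theorem softx_measurable : Measurable (softx ε C s' a x) := by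
  unfold softx
  refine Measurable.div (Finset.measurable_sum _ fun k _ => ?_) wW_measurable
  exact (wt_measurable k).mul (by fun_prop)

theorem wt_contDiffAt (k : Fin n) {p : ℝ × ℝ} (hp : s' < p.1) :
    ContDiffAt ℝ ∞ (wt ε s' a x k) p := by
  unfold wt
  have h1 : (2 * (p.1 - s')) ≠ 0 := by
    have : 0 < p.1 - s' := by linarith
    positivity
  have h2 : ContDiffAt ℝ ∞ (fun p : ℝ × ℝ => (p.2 - x k) ^ 2 / (2 * (p.1 - s'))) p := by
    have h3 : ContDiffAt ℝ ∞ (fun p : ℝ × ℝ => (p.2 - x k) ^ 2) p :=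
      (contDiffAt_snd.sub contDiffAt_const).pow 2
    have h4 : ContDiffAt ℝ ∞ (fun p : ℝ × ℝ => (2 * (p.1 - s'))) p :=
      contDiffAt_const.mul (contDiffAt_fst.sub contDiffAt_const)
    exact h3.div h4 h1
  exact (((contDiffAt_const.add h2).neg).div_const ε).exp

theorem wW_contDiffAt {p : ℝ × ℝ} (hp : s' < p.1) : ContDiffAt ℝ ∞ (wW ε C s' a x) p := by
  unfold wW
  exact contDiffAt_const.add (ContDiffAt.sum fun k _ => wt_contDiffAt k hp)

theorem soft_contDiffAt {p : ℝ × ℝ} (hp : s' < p.1) : ContDiffAt ℝ ∞ (soft ε C s' a x) p := by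
  unfold soft
  exact (contDiffAt_const.mul ((wW_contDiffAt hp).log (wW_pos p).ne')).neg

theorem dt_soft (hε : ε ≠ 0) {p : ℝ × ℝ} (hp : s' < p.1) :
    dt (soft ε C s' a x) p = softt ε C s' a x p := by
  have hτ : p.1 - s' ≠ 0 := by
    have : 0 < p.1 - s' := by linarith
    exact this.ne'
  have hk : ∀ k, HasDerivAt (fun s => wt ε s' a x k (s, p.2))
      (wt ε s' a x k p * ((p.2 - x k) ^ 2 / (2 * (p.1 - s') ^ 2)) / ε) p.1 := by
    intro k
    have h1 : HasDerivAt (fun s : ℝ => 2 * (s - s')) (2 * 1) p.1 :=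
      ((hasDerivAt_id p.1).sub_const s').const_mul 2
    have h2 : HasDerivAt (fun s : ℝ => (p.2 - x k) ^ 2 / (2 * (s - s')))
        ((0 * (2 * (p.1 - s')) - (p.2 - x k) ^ 2 * (2 * 1)) / (2 * (p.1 - s')) ^ 2) p.1 :=
      (hasDerivAt_const p.1 ((p.2 - x k) ^ 2)).fun_div h1 (by simpa using hτ)
    have h3 := (((h2.const_add (a k)).fun_neg).div_const ε).exp
    unfold wt
    refine h3.congr_deriv ?_
    field_simp
    ring
  have hW : HasDerivAt (fun s => wW ε C s' a x (s, p.2))
      ((∑ k, wt ε s' a x k p * ((p.2 - x k) ^ 2 / (2 * (p.1 - s') ^ 2))) / ε) p.1 := by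
    unfold wW
    have := (HasDerivAt.fun_sum fun k (_ : k ∈ Finset.univ) => hk k).const_add (Real.exp (-C / ε))
    refine this.congr_deriv ?_
    rw [Finset.sum_div]
  have h4 := ((hW.log (wW_pos _).ne').const_mul ε).fun_neg
  unfold dt soft softt
  rw [h4.deriv]
  have := (wW_pos (ε := ε) (C := C) (s' := s') (a := a) (x := x) p).ne'
  simp only [Prod.mk.eta]
  field_simp

theorem dx_soft (hε : ε ≠ 0) {p : ℝ × ℝ} (hp : s' < p.1) :
    dx (soft ε C s' a x) p = softx ε C s' a x p := by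
  have hτ : p.1 - s' ≠ 0 := by
    have : 0 < p.1 - s' := by linarith
    exact this.ne'
  have hk : ∀ k, HasDerivAt (fun y => wt ε s' a x k (p.1, y))
      (-(wt ε s' a x k p * ((p.2 - x k) / (p.1 - s'))) / ε) p.2 := by
    intro k
    have h1 : HasDerivAt (fun y : ℝ => (y - x k) ^ 2) (2 * (p.2 - x k)) p.2 := by
      have := ((hasDerivAt_id p.2).sub_const (x k)).pow 2
      refine this.congr_deriv ?_
      simp
    have h3 := ((((h1.div_const (2 * (p.1 - s'))).const_add (a k)).fun_neg).div_const ε).exp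
    unfold wt
    refine h3.congr_deriv ?_
    field_simp
  have hW : HasDerivAt (fun y => wW ε C s' a x (p.1, y))
      (-(∑ k, wt ε s' a x k p * ((p.2 - x k) / (p.1 - s'))) / ε) p.2 := by
    unfold wW
    have := (HasDerivAt.fun_sum fun k (_ : k ∈ Finset.univ) => hk k).const_add (Real.exp (-C / ε))
    refine this.congr_deriv ?_
    rw [← Finset.sum_div, Finset.sum_neg_distrib]
  have h4 := ((hW.log (wW_pos _).ne').const_mul ε).fun_neg
  unfold dx soft softx
  rw [h4.deriv]
  have := (wW_pos (ε := ε) (C := C) (s' := s') (a := a) (x := x) p).ne'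
  simp only [Prod.mk.eta]
  field_simp

/-- the soft minimum is a subsolution of the Hamilton-Jacobi equation -/
theorem soft_HJ {p : ℝ × ℝ} :
    2 * softt ε C s' a x p + softx ε C s' a x p ^ 2 ≤ 0 := by
  have hW := wW_pos (ε := ε) (C := C) (s' := s') (a := a) (x := x) p
  have h1 := Finset.sum_sq_le_sum_mul_sum_of_sq_le_mul (Finset.univ : Finset (Fin n))
    (r := fun k => wt ε s' a x k p * ((p.2 - x k) / (p.1 - s')))
    (f := fun k => wt ε s' a x k p)
    (g := fun k => wt ε s' a x k p * ((p.2 - x k) / (p.1 - s')) ^ 2)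
    (fun k _ => (wt_pos k p).le) (fun k _ => mul_nonneg (wt_pos k p).le (sq_nonneg _))
    (fun k _ => le_of_eq (by ring))
  set A := ∑ k, wt ε s' a x k p with hA
  set B := ∑ k, wt ε s' a x k p * ((p.2 - x k) / (p.1 - s')) ^ 2 with hB
  have hB0 : 0 ≤ B := Finset.sum_nonneg fun k _ => mul_nonneg (wt_pos k p).le (sq_nonneg _)
  have hAW : A ≤ wW ε C s' a x p := by
    unfold wW; have := Real.exp_pos (-C / ε); linarith
  have h2 : ∑ k, wt ε s' a x k p * ((p.2 - x k) ^ 2 / (2 * (p.1 - s') ^ 2)) = B / 2 := by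
    rw [hB, Finset.sum_div]
    apply Finset.sum_congr rfl
    intro k _
    rw [div_pow, mul_comm (2 : ℝ), ← div_div]; ring
  unfold softt softx
  rw [h2, div_pow]
  have h3 : (∑ k, wt ε s' a x k p * ((p.2 - x k) / (p.1 - s'))) ^ 2 / wW ε C s' a x p ^ 2 ≤
      B / wW ε C s' a x p := by
    rw [div_le_div_iff₀ (by positivity) hW]
    calc (∑ k, wt ε s' a x k p * ((p.2 - x k) / (p.1 - s'))) ^ 2 * wW ε C s' a x p
        ≤ (A * B) * wW ε C s' a x p := mul_le_mul_of_nonneg_right h1 hW.le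
      _ ≤ (wW ε C s' a x p * B) * wW ε C s' a x p := by
          apply mul_le_mul_of_nonneg_right _ hW.le
          exact mul_le_mul_of_nonneg_right hAW hB0
      _ = B * wW ε C s' a x p ^ 2 := by ring
  have h4 : 2 * (-(B / 2) / wW ε C s' a x p) = -(B / wW ε C s' a x p) := by ring
  rw [h4]
  linarith

theorem wt_le (hε : 0 < ε) (k : Fin n) {p : ℝ × ℝ} (hp : s' < p.1) :
    wt ε s' a x k p ≤ Real.exp (-(a k) / ε) := by
  unfold wt
  apply Real.exp_le_exp.2
  apply div_le_div_of_nonneg_right _ hε.le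
  have h1 : 0 < p.1 - s' := by linarith
  have : 0 ≤ (p.2 - x k) ^ 2 / (2 * (p.1 - s')) := by positivity
  linarith

theorem soft_le (hε : 0 < ε) (p : ℝ × ℝ) : soft ε C s' a x p ≤ C := by
  unfold soft
  have h1 := Real.log_le_log (Real.exp_pos _)
    (wW_ge (ε := ε) (C := C) (s' := s') (a := a) (x := x) p)
  rw [Real.log_exp] at h1
  have h2 := mul_le_mul_of_nonneg_left h1 hε.le
  have h3 : ε * (-C / ε) = -C := by field_simp
  linarith

theorem soft_le_at (hε : 0 < ε) (k : Fin n) {p : ℝ × ℝ} (hp : p.2 = x k) :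
    soft ε C s' a x p ≤ a k := by
  unfold soft
  have h0 : wt ε s' a x k p = Real.exp (-(a k) / ε) := by
    unfold wt; rw [hp]; simp
  have h1 : Real.exp (-(a k) / ε) ≤ wW ε C s' a x p := by
    rw [← h0]; unfold wW
    have := Finset.single_le_sum (fun j _ => (wt_pos (ε := ε) (s' := s') (a := a) (x := x) j p).le)
      (Finset.mem_univ k)
    have h2 := Real.exp_pos (-C / ε)
    linarith
  have h1 := Real.log_le_log (Real.exp_pos _) h1
  rw [Real.log_exp] at h1
  have h2 := mul_le_mul_of_nonneg_left h1 hε.le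
  have h3 : ε * (-(a k) / ε) = -(a k) := by field_simp
  linarith

theorem soft_ge (hε : 0 < ε) {p : ℝ × ℝ} {q : ℝ} (hC : q ≤ C)
    (hq : ∀ k, q ≤ a k + (p.2 - x k) ^ 2 / (2 * (p.1 - s'))) :
    q - ε * Real.log ((n : ℝ) + 1) ≤ soft ε C s' a x p := by
  unfold soft
  have h1 : wW ε C s' a x p ≤ ((n : ℝ) + 1) * Real.exp (-q / ε) := by
    unfold wW
    have h2 : Real.exp (-C / ε) ≤ Real.exp (-q / ε) := by
      apply Real.exp_le_exp.2
      apply div_le_div_of_nonneg_right _ hε.le
      linarith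
    have h3 : ∑ k, wt ε s' a x k p ≤ ∑ _k : Fin n, Real.exp (-q / ε) := by
      apply Finset.sum_le_sum
      intro k _
      unfold wt
      apply Real.exp_le_exp.2
      apply div_le_div_of_nonneg_right _ hε.le
      linarith [hq k]
    rw [Finset.sum_const, Finset.card_univ, Fintype.card_fin, nsmul_eq_mul] at h3
    linarith
  have h4 := Real.log_le_log (wW_pos p) h1
  rw [Real.log_mul (by positivity) (Real.exp_pos _).ne', Real.log_exp] at h4
  have h2 := mul_le_mul_of_nonneg_left h4 hε.le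
  have h3 : ε * (Real.log ((n : ℝ) + 1) + -q / ε) = ε * Real.log ((n : ℝ) + 1) - q := by
    field_simp
    ring
  linarith

/-- uniform bounds for the soft minimum and its derivatives -/
theorem soft_bdd (hε : 0 < ε) {s : ℝ} (hs : s' < s) : ∃ B, 0 ≤ B ∧ ∀ p : ℝ × ℝ, s ≤ p.1 →
    |soft ε C s' a x p| ≤ B ∧ |softt ε C s' a x p| ≤ B ∧ |softx ε C s' a x p| ≤ B := by
  set S := ∑ k, Real.exp (-(a k) / ε) with hS
  have hS0 : 0 ≤ S := Finset.sum_nonneg fun k _ => (Real.exp_pos _).le
  set w0 := Real.exp (-C / ε) with hw0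
  have hw0p : 0 < w0 := Real.exp_pos _
  set B1 := ε * |Real.log (w0 + S)| + |C| with hB1
  set B2 := S * (ε / (s - s')) / w0 with hB2
  have hss : 0 < s - s' := by linarith
  have hB20 : 0 ≤ B2 := by positivity
  have hB10 : 0 ≤ B1 := by positivity
  refine ⟨B1 + 2 * B2 + 1, by positivity, fun p hp => ?_⟩
  have hp' : s' < p.1 := by linarith
  have hτ : 0 < p.1 - s' := by linarith
  have hW := wW_pos (ε := ε) (C := C) (s' := s') (a := a) (x := x) p
  have hWge := wW_ge (ε := ε) (C := C) (s' := s') (a := a) (x := x) p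
  -- bound for softt
  have ht : |softt ε C s' a x p| ≤ B2 := by
    unfold softt
    rw [abs_div, abs_neg, abs_of_pos hW]
    have h1 : |∑ k, wt ε s' a x k p * ((p.2 - x k) ^ 2 / (2 * (p.1 - s') ^ 2))| ≤
        S * (ε / (s - s')) := by
      refine (Finset.abs_sum_le_sum_abs _ _).trans ?_
      rw [hS, Finset.sum_mul]
      apply Finset.sum_le_sum
      intro k _
      rw [abs_of_nonneg (mul_nonneg (wt_pos k p).le (by positivity))]
      have h2 : wt ε s' a x k p = Real.exp (-(a k) / ε) *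
          Real.exp (-((p.2 - x k) ^ 2 / (2 * (p.1 - s') * ε))) := by
        unfold wt
        rw [← Real.exp_add]
        congr 1
        field_simp
        ring
      rw [h2, mul_assoc]
      apply mul_le_mul_of_nonneg_left _ (Real.exp_pos _).le
      set u := (p.2 - x k) ^ 2 / (2 * (p.1 - s') * ε) with hu
      have hu0 : 0 ≤ u := by positivity
      have h3 : (p.2 - x k) ^ 2 / (2 * (p.1 - s') ^ 2) = u * (ε / (p.1 - s')) := by
        rw [hu]; field_simp
      rw [h3, ← mul_assoc]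
      have h4 : Real.exp (-u) * u ≤ 1 := by
        have h5 := Real.add_one_le_exp u
        rw [Real.exp_neg, inv_mul_le_iff₀ (Real.exp_pos _)]
        linarith
      have h6 : ε / (p.1 - s') ≤ ε / (s - s') :=
        div_le_div_of_nonneg_left hε.le hss (by linarith)
      calc Real.exp (-u) * u * (ε / (p.1 - s')) ≤ 1 * (ε / (p.1 - s')) := by
            apply mul_le_mul_of_nonneg_right h4 (by positivity)
        _ ≤ ε / (s - s') := by rw [one_mul]; exact h6
    rw [hB2]
    calc _ ≤ S * (ε / (s - s')) / wW ε C s' a x p := div_le_div_of_nonneg_right h1 hW.le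
      _ ≤ _ := div_le_div_of_nonneg_left (by positivity) hw0p hWge
  have hx : |softx ε C s' a x p| ≤ 1 + 2 * B2 := by
    have h1 := soft_HJ (ε := ε) (C := C) (s' := s') (a := a) (x := x) (p := p)
    have h2 : softx ε C s' a x p ^ 2 ≤ 2 * B2 := by
      have := (abs_le.1 ht).1
      linarith
    have h3 : |softx ε C s' a x p| ≤ 1 + softx ε C s' a x p ^ 2 := by
      rw [← sq_abs (softx ε C s' a x p)]
      nlinarith [sq_nonneg (|softx ε C s' a x p| - 1), abs_nonneg (softx ε C s' a x p)]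
    linarith
  have hz : |soft ε C s' a x p| ≤ B1 := by
    rw [abs_le]
    constructor
    · unfold soft
      have h1 : wW ε C s' a x p ≤ w0 + S := by
        unfold wW
        have := Finset.sum_le_sum fun k (_ : k ∈ Finset.univ) =>
          wt_le (a := a) (x := x) hε k hp'
        linarith
      have h2 := Real.log_le_log hW h1
      have h3 := mul_le_mul_of_nonneg_left (h2.trans (le_abs_self _)) hε.le
      have := abs_nonneg C
      linarith
    · have h1 := soft_le (C := C) (s' := s') (a := a) (x := x) hε p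
      have h2 := le_abs_self C
      have h3 : 0 ≤ ε * |Real.log (w0 + S)| := by positivity
      linarith
  refine ⟨by linarith, by linarith, by linarith⟩

theorem soft_bdd' (hε : 0 < ε) : ∃ B, 0 ≤ B ∧ ∀ p : ℝ × ℝ, s' < p.1 →
    |soft ε C s' a x p| ≤ B := by
  set S := ∑ k, Real.exp (-(a k) / ε) with hS
  have hS0 : 0 ≤ S := Finset.sum_nonneg fun k _ => (Real.exp_pos _).le
  set w0 := Real.exp (-C / ε) with hw0
  have hw0p : 0 < w0 := Real.exp_pos _
  refine ⟨ε * |Real.log (w0 + S)| + |C|, by positivity, fun p hp' => ?_⟩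
  have hW := wW_pos (ε := ε) (C := C) (s' := s') (a := a) (x := x) p
  rw [abs_le]
  constructor
  · unfold soft
    have h1 : wW ε C s' a x p ≤ w0 + S := by
      unfold wW
      have := Finset.sum_le_sum fun k (_ : k ∈ Finset.univ) =>
        wt_le (a := a) (x := x) hε k hp'
      linarith
    have h2 := Real.log_le_log hW h1
    have h3 := mul_le_mul_of_nonneg_left (h2.trans (le_abs_self _)) hε.le
    have := abs_nonneg C
    linarith
  · have h1 := soft_le (C := C) (s' := s') (a := a) (x := x) hε p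
    have h2 := le_abs_self C
    have h3 : 0 ≤ ε * |Real.log (w0 + S)| := by positivity
    linarith

end soft

end Pool.Agent.Lib.MP_c57125_an
end

section
set_option autoImplicit false

open MeasureTheory ProbabilityTheory Set Filter Topology
open scoped ENNReal ContDiff BoundedContinuousFunction

namespace Pool.Agent.Lib.MP_c57125_an

/-- soft minimum with rational parameters -/
noncomputable def softq (n : ℕ) (ε C s' : ℚ) (a x : Fin n → ℚ) : ℝ × ℝ → ℝ :=
  soft (ε : ℝ) (C : ℝ) (s' : ℝ) (fun k => (a k : ℝ)) (fun k => (x k : ℝ))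

/-- good times -/
def Good {T : ℝ} (Q : Pair T) (t : ℝ) : Prop :=
  t ∈ Ioo 0 T ∧ numSupp (Q.slice t) < ⊤ ∧ RP (gfun Q fun _ => 1) t ∧
    ∀ (n : ℕ) (ε C s' : ℚ) (a x : Fin n → ℚ), 0 < ε → (s' : ℝ) < t →
      RP (gfun Q (softq n ε C s' a x)) t

/-- kinetic energy between two times -/
noncomputable def Kin {T : ℝ} (Q : Pair T) (A : Set ℝ) : ℝ :=
  ∫ p in {p : ℝ × ℝ | p.1 ∈ A}, Q.v p ^ 2 ∂Q.meas

theorem Kin_mono {T : ℝ} {Q : Pair T} (hQ : Q.Fin) {A B : Set ℝ} (hAB : A ⊆ B) :
    Kin Q A ≤ Kin Q B := by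
  unfold Kin
  apply setIntegral_mono_set hQ.sq_integrable.integrableOn
  · exact Eventually.of_forall fun _ => sq_nonneg _
  · exact (show {p : ℝ × ℝ | p.1 ∈ A} ⊆ {p : ℝ × ℝ | p.1 ∈ B} from fun p hp => hAB hp).eventuallyLE

theorem Kin_nonneg {T : ℝ} (Q : Pair T) (A : Set ℝ) : 0 ≤ Kin Q A :=
  integral_nonneg fun p => sq_nonneg _

theorem good_ae {T : ℝ} {Q : Pair T} (hE : Q.energy < ⊤) :
    ∀ᵐ t ∂(volume.restrict (Ioo 0 T)), Good Q t := by
  have h1 : ∀ᵐ t ∂(volume.restrict (Ioo 0 T)), t ∈ Ioo 0 T := ae_restrict_mem measurableSet_Ioo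
  have h2 : ∀ᵐ t ∂(volume.restrict (Ioo 0 T)), numSupp (Q.slice t) < ⊤ := by
    apply ae_lt_top (measurable_numSupp Q.slice)
    have : (∫⁻ t in Ioo 0 T, numSupp (Q.slice t)) ≤ Q.energy := by
      unfold Pair.energy; exact le_add_right le_rfl
    exact (this.trans_lt hE).ne
  have h3 : ∀ᵐ t ∂(volume.restrict (Ioo 0 T)), RP (gfun Q fun _ => 1) t := by
    apply ae_RP isOpen_Ioo
    apply Measure.integrableOn_of_bounded (M := 1 * (Q.slice.bound).toReal) (by simp)
      (gfun_measurable Q measurable_const).aestronglyMeasurable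
    refine Eventually.of_forall fun r => ?_
    rw [Real.norm_eq_abs]
    exact gfun_bdd Q (A := univ) zero_le_one (fun p _ => by simp) r (mem_univ _)
  have h4 : ∀ᵐ t ∂(volume.restrict (Ioo 0 T)),
      ∀ (n : ℕ) (ε C s' : ℚ) (a x : Fin n → ℚ), 0 < ε → (s' : ℝ) < t →
      RP (gfun Q (softq n ε C s' a x)) t := by
    simp only [ae_all_iff]
    intro n ε C s' a x hε
    have hε' : (0 : ℝ) < ε := by exact_mod_cast hε
    set I := Ioo (max 0 (s' : ℝ)) T with hI
    have h5 : ∀ᵐ t ∂(volume.restrict I), RP (gfun Q (softq n ε C s' a x)) t := by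
      apply ae_RP isOpen_Ioo
      obtain ⟨B, hB0, hB⟩ := soft_bdd' (C := (C : ℝ)) (s' := (s' : ℝ)) (a := fun k => (a k : ℝ))
        (x := fun k => (x k : ℝ)) hε'
      apply Measure.integrableOn_of_bounded (M := B * (Q.slice.bound).toReal) (by simp [hI])
        (gfun_measurable Q soft_measurable).aestronglyMeasurable
      rw [ae_restrict_iff' measurableSet_Ioo]
      refine Eventually.of_forall fun r hr => ?_
      rw [Real.norm_eq_abs]
      refine gfun_bdd Q (A := I) hB0 (fun p hp => ?_) r hr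
      exact hB p ((le_max_right _ _).trans_lt hp.1)
    rw [ae_restrict_iff' measurableSet_Ioo] at h5 ⊢
    filter_upwards [h5] with t ht htT hst
    exact ht ⟨max_lt htT.1 hst, htT.2⟩
  filter_upwards [h1, h2, h3, h4] with t a1 a2 a3 a4
  exact ⟨a1, a2, a3, a4⟩

/-- Hamilton-Jacobi duality for rational parameters -/
theorem dual_rat {T : ℝ} {Q : Pair T} (hQ : Q.Fin) {s t : ℝ} (hs : Good Q s) (ht : Good Q t)
    (hst : s < t) (n : ℕ) (ε C s' : ℚ) (a x : Fin n → ℚ) (hε : 0 < ε) (hs' : (s' : ℝ) < s) :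
    gfun Q (softq n ε C s' a x) t - gfun Q (softq n ε C s' a x) s ≤ (1 / 2) * Kin Q (Ioc s t) := by
  have hε' : (0 : ℝ) < ε := by exact_mod_cast hε
  have htT : t < (t + T) / 2 := by linarith [ht.1.2]
  have htT' : (t + T) / 2 < T := by linarith [ht.1.2]
  obtain ⟨B, hB0, hB⟩ := soft_bdd (C := (C : ℝ)) (a := fun k => (a k : ℝ))
        (x := fun k => (x k : ℝ)) hε' hs'
  have h1 := ident hQ hs.1.1 hst htT htT' (ζ := softq n ε C s' a x)
    (D1 := softt (ε : ℝ) (C : ℝ) (s' : ℝ) (fun k => (a k : ℝ)) (fun k => (x k : ℝ)))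
    (D2 := softx (ε : ℝ) (C : ℝ) (s' : ℝ) (fun k => (a k : ℝ)) (fun k => (x k : ℝ)))
    soft_measurable (fun p hp => soft_contDiffAt (hs'.trans_le hp.1)) softt_measurable
    softx_measurable (fun p hp => dt_soft hε'.ne' (hs'.trans_le hp.1))
    (fun p hp => dx_soft hε'.ne' (hs'.trans_le hp.1)) (C := B) (fun p hp => hB p hp.1)
    (hs.2.2.2 n ε C s' a x hε hs') (ht.2.2.2 n ε C s' a x hε (hs'.trans hst))
  rw [h1]
  unfold Kin
  rw [← integral_const_mul]
  have hm : MeasurableSet {p : ℝ × ℝ | p.1 ∈ Ioc s t} := measurable_fst measurableSet_Ioc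
  apply setIntegral_mono_on _ (hQ.sq_integrable.const_mul _).integrableOn hm
  · intro p hp
    have h2 := soft_HJ (ε := (ε : ℝ)) (C := (C : ℝ)) (s' := (s' : ℝ)) (a := fun k => (a k : ℝ))
      (x := fun k => (x k : ℝ)) (p := p)
    nlinarith [sq_nonneg (Q.v p - softx (ε : ℝ) (C : ℝ) (s' : ℝ) (fun k => (a k : ℝ))
      (fun k => (x k : ℝ)) p)]
  · have hbi : Integrable (fun p => B + |Q.v p| * B) Q.meas :=
      (integrable_const _).add (hQ.integrable.abs.mul_const _)
    apply hbi.integrableOn.mono'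
    · exact (softt_measurable.add (Q.measurable_v.mul softx_measurable)).aestronglyMeasurable
    · rw [ae_restrict_iff' hm]
      refine Eventually.of_forall fun p hp => ?_
      have hp' : s ≤ p.1 := (show p.1 ∈ Ioc s t from hp).1.le
      rw [Real.norm_eq_abs]
      refine (abs_add_le _ _).trans (add_le_add (hB p hp').2.1 ?_)
      rw [abs_mul]; exact mul_le_mul_of_nonneg_left (hB p hp').2.2 (abs_nonneg _)

theorem gfun_eq_sum {T : ℝ} {Q : Pair T} {t : ℝ} (ht : Good Q t) (ζ : ℝ × ℝ → ℝ) :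
    ∃ F : Finset ℝ, (F : Set ℝ) = (Q.slice t).support ∧
      gfun Q ζ t = ∑ x ∈ F, (Q.slice t).real {x} * ζ (t, x) := by
  have hfin : ((Q.slice t).support).Finite := by
    have := ht.2.1
    unfold numSupp at this
    rw [← encard_lt_top_iff]
    by_contra hcon
    rw [not_lt, top_le_iff] at hcon
    rw [hcon] at this
    simp at this
  refine ⟨hfin.toFinset, by simp, ?_⟩
  unfold gfun
  have h1 : (Q.slice t).restrict (hfin.toFinset : Set ℝ) = Q.slice t := by
    apply Measure.restrict_eq_self_of_ae_mem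
    simpa using (Measure.support_mem_ae (μ := Q.slice t))
  calc ∫ x, ζ (t, x) ∂(Q.slice t) = ∫ x in (hfin.toFinset : Set ℝ), ζ (t, x) ∂(Q.slice t) := by
        rw [h1]
    _ = _ := by
      rw [setIntegral_finset]
      · simp only [smul_eq_mul]
      · exact IntegrableOn.finset

theorem soft_continuous_params (ε C s' : ℝ) (n : ℕ) (p : ℝ × ℝ) :
    Continuous fun q : (Fin n → ℝ) × (Fin n → ℝ) => soft ε C s' q.1 q.2 p := by
  unfold soft
  apply Continuous.neg
  apply continuous_const.mul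
  apply Continuous.log
  · unfold wW wt
    fun_prop
  · intro q; exact (wW_pos p).ne'

/-- Hamilton-Jacobi duality for real parameters -/
theorem dual_real {T : ℝ} {Q : Pair T} (hQ : Q.Fin) {s t : ℝ} (hs : Good Q s) (ht : Good Q t)
    (hst : s < t) (n : ℕ) (ε C s' : ℚ) (a x : Fin n → ℝ) (hε : 0 < ε) (hs' : (s' : ℝ) < s) :
    gfun Q (soft ε C s' a x) t - gfun Q (soft ε C s' a x) s ≤ (1 / 2) * Kin Q (Ioc s t) := by
  have hd : DenseRange fun q : (Fin n → ℚ) × (Fin n → ℚ) =>
      (((fun k => (q.1 k : ℝ)), (fun k => (q.2 k : ℝ))) : (Fin n → ℝ) × (Fin n → ℝ)) := by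
    have h1 : DenseRange (Pi.map fun (_ : Fin n) (r : ℚ) => (r : ℝ)) :=
      DenseRange.piMap fun _ => Rat.denseRange_cast
    exact h1.prodMap h1
  have hc : IsClosed {q : (Fin n → ℝ) × (Fin n → ℝ) |
      gfun Q (soft ε C s' q.1 q.2) t - gfun Q (soft ε C s' q.1 q.2) s ≤
        (1 / 2) * Kin Q (Ioc s t)} := by
    apply isClosed_le _ continuous_const
    have h2 : ∀ r, Good Q r → Continuous fun q : (Fin n → ℝ) × (Fin n → ℝ) =>
        gfun Q (soft ε C s' q.1 q.2) r := by
      intro r hr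
      obtain ⟨F, hF, _⟩ := gfun_eq_sum hr (fun _ => 0)
      have h3 : (fun q : (Fin n → ℝ) × (Fin n → ℝ) => gfun Q (soft ε C s' q.1 q.2) r) =
          fun q => ∑ x ∈ F, (Q.slice r).real {x} * soft ε C s' q.1 q.2 (r, x) := by
        ext q
        obtain ⟨F', hF', h4⟩ := gfun_eq_sum hr (soft ε C s' q.1 q.2)
        have : F' = F := Finset.coe_injective (hF'.trans hF.symm)
        rw [h4, this]
      rw [h3]
      apply continuous_finsetSum
      intro z _
      exact continuous_const.mul (soft_continuous_params _ _ _ _ _)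
    exact (h2 t ht).sub (h2 s hs)
  refine hd.induction_on (p := fun q : (Fin n → ℝ) × (Fin n → ℝ) =>
      gfun Q (soft ε C s' q.1 q.2) t - gfun Q (soft ε C s' q.1 q.2) s ≤
        (1 / 2) * Kin Q (Ioc s t)) (a, x) hc ?_
  intro q
  exact dual_rat hQ hs ht hst n ε C s' q.1 q.2 hε hs'

/-- total mass is constant -/
theorem mass_const {T : ℝ} {Q : Pair T} (hQ : Q.Fin) {s t : ℝ} (hs : Good Q s) (ht : Good Q t)
    (hst : s < t) : (Q.slice t).real univ = (Q.slice s).real univ := by
  have htT : t < (t + T) / 2 := by linarith [ht.1.2]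
  have htT' : (t + T) / 2 < T := by linarith [ht.1.2]
  have h1 := ident hQ hs.1.1 hst htT htT' (ζ := fun _ => 1) (D1 := fun _ => 0) (D2 := fun _ => 0)
    measurable_const (fun p _ => contDiffAt_const) measurable_const measurable_const
    (fun p _ => by simp [dt]) (fun p _ => by simp [dx]) (C := 1) (fun p _ => by simp)
    hs.2.2.1 ht.2.2.1
  simp only [mul_zero, add_zero, integral_zero] at h1
  unfold gfun at h1
  simp only [integral_const, smul_eq_mul, mul_one] at h1
  linarith

theorem neBot_right (a : ℝ) : (𝓝[>] a ⊓ ae (volume : Measure ℝ)).NeBot := by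
  rw [inf_neBot_iff]
  intro U hU V hV
  obtain ⟨u, hu, huU⟩ := mem_nhdsGT_iff_exists_Ioo_subset.1 hU
  by_contra hcon
  rw [not_nonempty_iff_eq_empty] at hcon
  have h1 : Ioo a u ⊆ Vᶜ := fun r hr hrV => by
    have : r ∈ U ∩ V := ⟨huU hr, hrV⟩
    rw [hcon] at this; exact this
  have h2 : volume (Ioo a u) = 0 := measure_mono_null h1 (mem_ae_iff.1 hV)
  rw [Real.volume_Ioo, ENNReal.ofReal_eq_zero] at h2
  have : a < u := hu
  linarith

theorem neBot_left (a : ℝ) : (𝓝[<] a ⊓ ae (volume : Measure ℝ)).NeBot := by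
  rw [inf_neBot_iff]
  intro U hU V hV
  obtain ⟨u, hu, huU⟩ := mem_nhdsLT_iff_exists_Ioo_subset.1 hU
  by_contra hcon
  rw [not_nonempty_iff_eq_empty] at hcon
  have h1 : Ioo u a ⊆ Vᶜ := fun r hr hrV => by
    have : r ∈ U ∩ V := ⟨huU hr, hrV⟩
    rw [hcon] at this; exact this
  have h2 : volume (Ioo u a) = 0 := measure_mono_null h1 (mem_ae_iff.1 hV)
  rw [Real.volume_Ioo, ENNReal.ofReal_eq_zero] at h2
  have : u < a := hu
  linarith

theorem good_right {T : ℝ} {Q : Pair T} (hE : Q.energy < ⊤) {t : ℝ} (ht : 0 < t) (htT : t ≤ T) :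
    ∀ᶠ s in 𝓝[>] 0 ⊓ ae (volume : Measure ℝ), s ∈ Ioo 0 t ∧ Good Q s := by
  have h1 : ∀ᶠ s in 𝓝[>] 0 ⊓ ae (volume : Measure ℝ), s ∈ Ioo 0 t :=
    mem_inf_of_left (Ioo_mem_nhdsGT ht)
  have h2 : ∀ᶠ s in 𝓝[>] 0 ⊓ ae (volume : Measure ℝ), s ∈ Ioo 0 T → Good Q s := by
    apply mem_inf_of_right
    exact (ae_restrict_iff' measurableSet_Ioo).1 (good_ae hE)
  filter_upwards [h1, h2] with s hs hg
  exact ⟨hs, hg ⟨hs.1, hs.2.trans_le htT⟩⟩

theorem good_left {T : ℝ} {Q : Pair T} (hE : Q.energy < ⊤) {s : ℝ} (hs : 0 ≤ s) (hsT : s < T) :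
    ∀ᶠ t in 𝓝[<] T ⊓ ae (volume : Measure ℝ), t ∈ Ioo s T ∧ Good Q t := by
  have h1 : ∀ᶠ t in 𝓝[<] T ⊓ ae (volume : Measure ℝ), t ∈ Ioo s T :=
    mem_inf_of_left (Ioo_mem_nhdsLT hsT)
  have h2 : ∀ᶠ t in 𝓝[<] T ⊓ ae (volume : Measure ℝ), t ∈ Ioo 0 T → Good Q t := by
    apply mem_inf_of_right
    exact (ae_restrict_iff' measurableSet_Ioo).1 (good_ae hE)
  filter_upwards [h1, h2] with t ht hg
  exact ⟨ht, hg ⟨hs.trans_lt ht.1, ht.2⟩⟩

theorem mass_one {T : ℝ} {Q : Pair T} (hQ : Q.Fin) (hE : Q.energy < ⊤) {t : ℝ} (ht : Good Q t) :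
    IsProbabilityMeasure (Q.slice t) := by
  have h1 := Q.initial (BoundedContinuousFunction.const ℝ 1)
  simp only [BoundedContinuousFunction.const_apply, integral_const, smul_eq_mul, mul_one] at h1
  have h2 : ∀ᶠ s in 𝓝[>] 0 ⊓ ae (volume : Measure ℝ),
      (Q.slice s).real univ = (Q.slice t).real univ := by
    filter_upwards [good_right hE ht.1.1 ht.1.2.le] with s hs
    exact (mass_const hQ hs.2 ht hs.1.2).symm
  have := neBot_right 0
  have h3 : (Q.slice t).real univ = 1 :=
    tendsto_nhds_unique (tendsto_const_nhds.congr' (h2.mono fun s hs => hs.symm)) h1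
  constructor
  rw [Measure.real] at h3
  have h5 := (ENNReal.toReal_eq_one_iff _).1 h3
  exact h5

end Pool.Agent.Lib.MP_c57125_an
end

section
set_option autoImplicit false

open MeasureTheory ProbabilityTheory Set Filter Topology
open scoped ENNReal ContDiff BoundedContinuousFunction

namespace Pool.Agent.Lib.MP_c57125_an

theorem soft_continuous_space (ε C s' : ℝ) {n : ℕ} (a x : Fin n → ℝ) (r : ℝ) :
    Continuous fun z => soft ε C s' a x (r, z) := by
  unfold soft
  apply Continuous.neg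
  apply continuous_const.mul
  apply Continuous.log
  · unfold wW wt
    apply continuous_const.add
    apply continuous_finsetSum
    intro k _
    apply Real.continuous_exp.comp
    apply Continuous.div_const
    apply Continuous.neg
    apply continuous_const.add
    have h : Continuous fun z : ℝ => (z - x k) ^ 2 / (2 * (r - s')) := by
      apply Continuous.div_const
      fun_prop
    exact h
  · intro z; exact (wW_pos _).ne'

theorem gfun_tendsto {T : ℝ} (Q : Pair T) {ε C s' : ℝ} {n : ℕ} {a x : Fin n → ℝ} (hε : 0 < ε)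
    {T0 : ℝ} (hT0 : s' < T0) {l : Filter ℝ} (hl : l ≤ 𝓝 T0) (L : (ℝ →ᵇ ℝ) → ℝ)
    (hL : ∀ f : ℝ →ᵇ ℝ, Tendsto (fun t => ∫ x, f x ∂(Q.slice t)) l (𝓝 (L f))) :
    ∃ f : ℝ →ᵇ ℝ, (∀ z, f z = soft ε C s' a x (T0, z)) ∧
      Tendsto (gfun Q (soft ε C s' a x)) l (𝓝 (L f)) := by
  set s1 := (s' + T0) / 2 with hs1
  have h1 : s' < s1 := by rw [hs1]; linarith
  have h2 : s1 < T0 := by rw [hs1]; linarith
  obtain ⟨B, hB0, hB⟩ := soft_bdd (C := C) (a := a) (x := x) hε h1
  refine ⟨BoundedContinuousFunction.ofNormedAddCommGroup (fun z => soft ε C s' a x (T0, z))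
    (soft_continuous_space _ _ _ _ _ _) B (fun z => by
      rw [Real.norm_eq_abs]; exact (hB (T0, z) h2.le).1), fun z => rfl, ?_⟩
  set f := BoundedContinuousFunction.ofNormedAddCommGroup (fun z => soft ε C s' a x (T0, z))
    (soft_continuous_space _ _ _ _ _ _) B (fun z => by
      rw [Real.norm_eq_abs]; exact (hB (T0, z) h2.le).1) with hf
  have hlip : ∀ r, s1 ≤ r → ∀ z, |soft ε C s' a x (r, z) - soft ε C s' a x (T0, z)| ≤
      B * |r - T0| := by
    intro r hr z
    have h3 := Convex.norm_image_sub_le_of_norm_deriv_le (𝕜 := ℝ)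
      (f := fun r => soft ε C s' a x (r, z)) (C := B) (s := Ici s1) (x := T0) (y := r)
      (fun w hw => ?_) (fun w hw => ?_) (convex_Ici _) h2.le hr
    · simpa [Real.norm_eq_abs] using h3
    · have h4 : ContDiffAt ℝ ∞ (soft ε C s' a x) (w, z) := soft_contDiffAt (h1.trans_le hw)
      have h5 : DifferentiableAt ℝ (soft ε C s' a x) (w, z) := h4.differentiableAt (by simp)
      have h5' : DifferentiableAt ℝ (fun r : ℝ => (r, z)) w :=
        differentiableAt_id.prodMk (differentiableAt_const z)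
      exact DifferentiableAt.comp (g := soft ε C s' a x) w h5 h5'
    · have h6 := (hB (w, z) hw).2.1
      rw [← dt_soft (p := (w, z)) hε.ne' (h1.trans_le hw)] at h6
      exact h6
  have hev : ∀ᶠ r in l, s1 < r := hl (lt_mem_nhds h2)
  have hdiff : Tendsto (fun r => gfun Q (soft ε C s' a x) r - ∫ z, f z ∂(Q.slice r)) l (𝓝 0) := by
    have h7 : Tendsto (fun r => B * |r - T0| * (Q.slice.bound).toReal) l (𝓝 0) := by
      have : Tendsto (fun r => B * |r - T0| * (Q.slice.bound).toReal) (𝓝 T0)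
          (𝓝 (B * |T0 - T0| * (Q.slice.bound).toReal)) := by
        apply Continuous.tendsto
        fun_prop
      rw [sub_self, abs_zero, mul_zero, zero_mul] at this
      exact this.mono_left hl
    apply squeeze_zero_norm' _ h7
    filter_upwards [hev] with r hr
    unfold gfun
    have hi1 : Integrable (fun z => soft ε C s' a x (r, z)) (Q.slice r) :=
      Integrable.of_bound (soft_continuous_space _ _ _ _ _ _).aestronglyMeasurable B
        (Eventually.of_forall fun z => by rw [Real.norm_eq_abs]; exact (hB (r, z) hr.le).1)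
    have hi2 : Integrable (fun z => f z) (Q.slice r) := f.integrable _
    rw [← integral_sub hi1 hi2]
    have h8 := norm_integral_le_of_norm_le_const (μ := Q.slice r)
      (f := fun z => soft ε C s' a x (r, z) - f z) (C := B * |r - T0|)
      (Eventually.of_forall fun z => by rw [Real.norm_eq_abs]; exact hlip r hr.le z)
    refine h8.trans ?_
    apply mul_le_mul_of_nonneg_left _ (by positivity)
    rw [Measure.real]
    exact ENNReal.toReal_mono (Kernel.bound_ne_top Q.slice) (Kernel.measure_le_bound Q.slice r univ)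
  have h9 := hdiff.add (hL f)
  rw [zero_add] at h9
  exact h9.congr fun r => by ring

theorem dual_zero {T : ℝ} {Q : Pair T} (hQ : Q.Fin) (hE : Q.energy < ⊤) {t : ℝ} (ht : Good Q t)
    (n : ℕ) (ε C s' : ℚ) (a x : Fin n → ℝ) (hε : 0 < ε) (hs' : (s' : ℝ) < 0) :
    gfun Q (soft ε C s' a x) t - soft ε C s' a x (0, 0) ≤ (1 / 2) * Kin Q (Ioc 0 t) := by
  have hε' : (0 : ℝ) < ε := by exact_mod_cast hε
  obtain ⟨f, hf, hlim⟩ := gfun_tendsto Q (C := (C : ℝ)) (a := a) (x := x) hε' hs'
    (l := 𝓝[>] 0 ⊓ ae volume) (inf_le_left.trans nhdsWithin_le_nhds) (fun f => f 0) Q.initial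
  have := neBot_right 0
  have h1 : gfun Q (soft ε C s' a x) t - (1 / 2) * Kin Q (Ioc 0 t) ≤ f 0 := by
    apply ge_of_tendsto hlim
    filter_upwards [good_right hE ht.1.1 ht.1.2.le] with s hs
    have h2 := dual_real hQ hs.2 ht hs.1.2 n ε C s' a x hε (hs'.trans hs.1.1)
    have h3 := Kin_mono hQ (Ioc_subset_Ioc_left hs.1.1.le : Ioc s t ⊆ Ioc 0 t)
    linarith
  rw [hf 0] at h1
  linarith

theorem dual_T {T : ℝ} {Q : Pair T} (hQ : Q.Fin) (hE : Q.energy < ⊤) {s : ℝ} (hs : Good Q s)
    (n : ℕ) (ε C s' : ℚ) (a x : Fin n → ℝ) (hε : 0 < ε) (hs' : (s' : ℝ) < s) :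
    (∫ z in Icc (-1 / 2) (1 / 2), soft ε C s' a x (T, z)) - gfun Q (soft ε C s' a x) s ≤
      (1 / 2) * Kin Q (Ioo s T) := by
  have hε' : (0 : ℝ) < ε := by exact_mod_cast hε
  obtain ⟨f, hf, hlim⟩ := gfun_tendsto Q (C := (C : ℝ)) (a := a) (x := x) hε' (hs'.trans hs.1.2)
    (l := 𝓝[<] T ⊓ ae volume) (inf_le_left.trans nhdsWithin_le_nhds)
    (fun f => ∫ z in Icc (-1 / 2) (1 / 2), f z) Q.final
  have := neBot_left T
  have h1 : (∫ z in Icc (-1 / 2) (1 / 2), f z) ≤ gfun Q (soft ε C s' a x) s +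
      (1 / 2) * Kin Q (Ioo s T) := by
    apply le_of_tendsto hlim
    filter_upwards [good_left hE hs.1.1.le hs.1.2] with t ht
    have h2 := dual_real hQ hs ht.2 ht.1.1 n ε C s' a x hε hs'
    have h3' : Ioc s t ⊆ Ioo s T := fun r hr => ⟨hr.1, hr.2.trans_lt ht.1.2⟩
    have h3 := Kin_mono hQ h3'
    linarith
  simp_rw [hf] at h1
  linarith

end Pool.Agent.Lib.MP_c57125_an
end

section
set_option autoImplicit false

open MeasureTheory ProbabilityTheory Set Filter Topology
open scoped ENNReal ContDiff BoundedContinuousFunction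

namespace Pool.Agent.Lib.MP_c57125_an

section

variable (X Y : ℝ → ℝ) (M : ℝ)

/-- monotone interpolation of the coupling of two monotone functions -/
noncomputable def cg (z : ℝ) : ℝ := sSup (insert (-M) (Y '' {y | y ∈ Ioo 0 1 ∧ X y < z}))

variable {X Y M}

theorem cg_bddAbove (hYb : ∀ y, |Y y| ≤ M) (z : ℝ) :
    BddAbove (insert (-M) (Y '' {y | y ∈ Ioo 0 1 ∧ X y < z})) := by
  refine ⟨M, ?_⟩
  rintro w (rfl | ⟨y, _, rfl⟩)
  · have := (abs_nonneg _).trans (hYb 0); linarith
  · exact (abs_le.1 (hYb y)).2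

theorem cg_mono (hYb : ∀ y, |Y y| ≤ M) : Monotone (cg X Y M) := by
  intro z z' hzz'
  apply csSup_le_csSup (cg_bddAbove hYb z') (insert_nonempty _ _)
  apply insert_subset_insert
  apply image_mono
  intro y hy
  exact ⟨hy.1, hy.2.trans_le hzz'⟩

theorem le_cg (hYb : ∀ y, |Y y| ≤ M) {y z : ℝ} (hy : y ∈ Ioo (0 : ℝ) 1) (h : X y < z) :
    Y y ≤ cg X Y M z :=
  le_csSup (cg_bddAbove hYb z) (mem_insert_of_mem _ ⟨y, ⟨hy, h⟩, rfl⟩)

theorem cg_le (hX : MonotoneOn X (Ioo 0 1)) (hY : MonotoneOn Y (Ioo 0 1))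
    (hYb : ∀ y, |Y y| ≤ M) {y z : ℝ} (hy : y ∈ Ioo (0 : ℝ) 1) (h : z ≤ X y) :
    cg X Y M z ≤ Y y := by
  apply csSup_le (insert_nonempty _ _)
  rintro w (rfl | ⟨y', ⟨hy', hlt⟩, rfl⟩)
  · exact (abs_le.1 (hYb y)).1
  · apply hY hy' hy
    by_contra hcon
    rw [not_le] at hcon
    have := hX hy hy' hcon.le
    linarith

/-- the Kantorovich potential -/
noncomputable def pot (X Y : ℝ → ℝ) (M h z : ℝ) : ℝ :=
  (1 / h) * ((∫ w in (0 : ℝ)..z, cg X Y M w) - z ^ 2 / 2)

theorem pot_ineq (hX : MonotoneOn X (Ioo 0 1)) (hY : MonotoneOn Y (Ioo 0 1))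
    (hYb : ∀ y, |Y y| ≤ M) {h : ℝ} (hh : 0 < h) {y : ℝ} (hy : y ∈ Ioo (0 : ℝ) 1) (z : ℝ) :
    pot X Y M h (X y) + (Y y - X y) ^ 2 / (2 * h) ≤ pot X Y M h z + (Y y - z) ^ 2 / (2 * h) := by
  have hint : ∀ a b, IntervalIntegrable (cg X Y M) volume a b :=
    fun a b => (cg_mono hYb).intervalIntegrable
  have h1 : (∫ w in (0 : ℝ)..z, cg X Y M w) - (∫ w in (0 : ℝ)..(X y), cg X Y M w) =
      ∫ w in (X y)..z, cg X Y M w :=
    intervalIntegral.integral_interval_sub_left (hint _ _) (hint _ _)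
  have h2 : Y y * (z - X y) ≤ ∫ w in (X y)..z, cg X Y M w := by
    rcases le_total (X y) z with hle | hle
    · have h3 : ∫ _w in (X y)..z, Y y ≤ ∫ w in (X y)..z, cg X Y M w := by
        apply intervalIntegral.integral_mono_on_of_le_Ioo hle (by simp) (hint _ _)
        intro w hw
        exact le_cg hYb hy hw.1
      rw [intervalIntegral.integral_const, smul_eq_mul] at h3
      linarith
    · have h3 : ∫ w in z..(X y), cg X Y M w ≤ ∫ _w in z..(X y), Y y := by
        apply intervalIntegral.integral_mono_on_of_le_Ioo hle (hint _ _) (by simp)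
        intro w hw
        exact cg_le hX hY hYb hy hw.2.le
      rw [intervalIntegral.integral_const, smul_eq_mul] at h3
      rw [intervalIntegral.integral_symm]
      linarith
  unfold pot
  have h4 : (1 / h) * ((∫ w in (0 : ℝ)..z, cg X Y M w) - z ^ 2 / 2) + (Y y - z) ^ 2 / (2 * h) -
      ((1 / h) * ((∫ w in (0 : ℝ)..(X y), cg X Y M w) - (X y) ^ 2 / 2) +
        (Y y - X y) ^ 2 / (2 * h)) =
      (1 / h) * ((∫ w in (X y)..z, cg X Y M w) - Y y * (z - X y)) := by
    rw [← h1]; field_simp; ring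
  have h5 : 0 ≤ (1 / h) * ((∫ w in (X y)..z, cg X Y M w) - Y y * (z - X y)) := by
    apply mul_nonneg (by positivity); linarith
  linarith

end

/-- the label measure -/
noncomputable def P01 : Measure ℝ := volume.restrict (Ioo 0 1)

instance : IsProbabilityMeasure P01 := by
  constructor
  unfold P01
  simp

theorem integrable_P01 {f : ℝ → ℝ} (hf : Measurable f) {C : ℝ} (h : ∀ y, |f y| ≤ C) :
    Integrable f P01 :=
  Integrable.of_bound hf.aestronglyMeasurable C (Eventually.of_forall fun y => by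
    rw [Real.norm_eq_abs]; exact h y)

/-- the duality inequality implies the Wasserstein inequality for monotone functions -/
theorem duality_core (X : SimpleFunc ℝ ℝ) {Y : ℝ → ℝ} (hYm : Measurable Y)
    (hX : MonotoneOn X (Ioo 0 1)) (hY : MonotoneOn Y (Ioo 0 1)) {M : ℝ} (hYb : ∀ y, |Y y| ≤ M)
    {s t K : ℝ} (hst : s < t)
    (H : ∀ (n : ℕ) (ε C s' : ℚ) (a x : Fin n → ℝ), 0 < ε → (s' : ℝ) < s →
      (∫ y, soft ε C s' a x (t, Y y) ∂P01) - (∫ y, soft ε C s' a x (s, X y) ∂P01) ≤ (1 / 2) * K) :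
    ∫ y, (Y y - X y) ^ 2 ∂P01 ≤ (t - s) * K := by
  classical
  obtain ⟨CX, hCX⟩ := X.exists_forall_norm_le
  have hM0 : 0 ≤ M := (abs_nonneg _).trans (hYb 0)
  have hCX0 : 0 ≤ CX := (norm_nonneg _).trans (hCX 0)
  have hsq : Integrable (fun y => (Y y - X y) ^ 2) P01 := by
    apply integrable_P01 ((hYm.sub X.measurable).pow_const 2) (C := (M + CX) ^ 2)
    intro y
    rw [abs_pow]
    exact pow_le_pow_left₀ (abs_nonneg _) ((abs_sub _ _).trans (add_le_add (hYb y) (hCX y))) 2
  -- first bound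
  have key : ∀ s' : ℚ, (s' : ℝ) < s → ∫ y, (Y y - X y) ^ 2 ∂P01 ≤ (t - s') * K := by
    intro s' hs'
    set h := t - (s' : ℝ) with hh
    have hh0 : 0 < h := by rw [hh]; linarith
    set A := pot X Y M h with hA
    have hfin : (range fun y => A (X y)).Finite := by
      have : (range fun y => A (X y)) = A '' (range X) := range_comp A X
      rw [this]; exact X.finite_range.image _
    obtain ⟨CA, hCA⟩ := hfin.bddAbove
    obtain ⟨CA', hCA'⟩ := hfin.bddBelow
    set n := X.range.card with hn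
    set x : Fin n → ℝ := fun k => (X.range.equivFin.symm k : ℝ) with hx
    have hxsurj : ∀ y, ∃ k, x k = X y := by
      intro y
      refine ⟨X.range.equivFin ⟨X y, X.mem_range_self y⟩, ?_⟩
      rw [hx]; simp
    obtain ⟨C, hC⟩ := exists_rat_gt (CA + (M + CX) ^ 2 / (2 * h))
    have hmain : ∀ ε : ℚ, 0 < ε → (∫ y, (Y y - X y) ^ 2 ∂P01) / (2 * h) ≤
        (1 / 2) * K + ε * Real.log ((n : ℝ) + 1) := by
      intro ε hε
      have hε' : (0 : ℝ) < ε := by exact_mod_cast hε
      have h1 := H n ε C s' (fun k => A (x k)) x hε hs'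
      have hAm : Measurable fun y => A (X y) := (X.map A).measurable
      have hAb : ∀ y, |A (X y)| ≤ max |CA| |CA'| := by
        intro y
        have a1 : A (X y) ≤ CA := hCA ⟨y, rfl⟩
        have a2 : CA' ≤ A (X y) := hCA' ⟨y, rfl⟩
        exact abs_le_max_abs_abs a2 a1 |>.trans (by rw [max_comm])
      have hAi : Integrable (fun y => A (X y)) P01 := integrable_P01 hAm hAb
      -- lower bound at time t
      have h2 : ∫ y, (A (X y) + (Y y - X y) ^ 2 / (2 * h) - ε * Real.log ((n : ℝ) + 1)) ∂P01 ≤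
          ∫ y, soft ε C s' (fun k => A (x k)) x (t, Y y) ∂P01 := by
        obtain ⟨B, hB0, hB⟩ := soft_bdd (C := (C : ℝ)) (a := fun k => A (x k)) (x := x) hε' (hs'.trans hst)
        apply integral_mono_ae
        · exact (hAi.add (hsq.div_const _)).sub (integrable_const _)
        · exact integrable_P01 (soft_measurable.comp (measurable_const.prodMk hYm))
            (fun y => (hB (t, Y y) le_rfl).1)
        · unfold P01
          refine (ae_restrict_iff' measurableSet_Ioo).2 (Eventually.of_forall fun y hy => ?_)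
          apply soft_ge hε'
          · have a1 : A (X y) ≤ CA := hCA ⟨y, rfl⟩
            have a2 : (Y y - X y) ^ 2 ≤ (M + CX) ^ 2 := by
              rw [← sq_abs]
              exact pow_le_pow_left₀ (abs_nonneg _)
                ((abs_sub _ _).trans (add_le_add (hYb y) (hCX y))) 2
            have a3 : (Y y - X y) ^ 2 / (2 * h) ≤ (M + CX) ^ 2 / (2 * h) :=
              div_le_div_of_nonneg_right a2 (by positivity)
            linarith
          · intro k
            exact pot_ineq hX hY hYb hh0 hy (x k)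
      -- upper bound at time s
      have h3 : ∫ y, soft ε C s' (fun k => A (x k)) x (s, X y) ∂P01 ≤ ∫ y, A (X y) ∂P01 := by
        obtain ⟨B, hB0, hB⟩ := soft_bdd (C := (C : ℝ)) (a := fun k => A (x k)) (x := x) hε' hs'
        apply integral_mono _ hAi
        · intro y
          obtain ⟨k, hk⟩ := hxsurj y
          have := soft_le_at (C := (C : ℝ)) (s' := (s' : ℝ)) (a := fun k => A (x k)) (x := x) hε' k
            (p := (s, X y)) hk.symm
          rw [hk] at this
          exact this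
        · exact integrable_P01 (soft_measurable.comp (measurable_const.prodMk X.measurable))
            (fun y => (hB (s, X y) le_rfl).1)
      have h2' : ∫ y, (A (X y) + (Y y - X y) ^ 2 / (2 * h) - ε * Real.log ((n : ℝ) + 1)) ∂P01 =
          (∫ y, A (X y) ∂P01) + (∫ y, (Y y - X y) ^ 2 ∂P01) / (2 * h) -
            ε * Real.log ((n : ℝ) + 1) := by
        have hi1 : Integrable (fun y => A (X y) + (Y y - X y) ^ 2 / (2 * h)) P01 :=
          hAi.add (hsq.div_const _)
        rw [integral_sub hi1 (integrable_const _), integral_add hAi (hsq.div_const _),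
          integral_div]
        simp only [integral_const, probReal_univ, one_smul]
      rw [h2'] at h2
      linarith
    -- let ε tend to zero
    have hmain2 : (∫ y, (Y y - X y) ^ 2 ∂P01) / (2 * h) ≤ (1 / 2) * K := by
      have hlog : 0 ≤ Real.log ((n : ℝ) + 1) := Real.log_nonneg (by
        have : (0 : ℝ) ≤ n := Nat.cast_nonneg n
        linarith)
      apply le_of_forall_pos_le_add
      intro η hη
      obtain ⟨ε, hε0, hε1⟩ := exists_rat_btwn (show (0 : ℝ) < η / (Real.log ((n : ℝ) + 1) + 1) by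
        positivity)
      have h4 := hmain ε (by exact_mod_cast hε0)
      rw [lt_div_iff₀ (by positivity)] at hε1
      nlinarith
    rw [div_le_iff₀ (by positivity)] at hmain2
    linarith
  -- let s' tend to s
  have hI0 : 0 ≤ ∫ y, (Y y - X y) ^ 2 ∂P01 := integral_nonneg fun y => sq_nonneg _
  have hK0 : 0 ≤ K := by
    obtain ⟨s', hs'1, hs'2⟩ := exists_rat_btwn (show s - 1 < s by linarith)
    have h5 := key s' hs'2
    have h6 : 0 < t - (s' : ℝ) := by linarith
    by_contra hcon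
    rw [not_le] at hcon
    have := mul_neg_of_pos_of_neg h6 hcon
    linarith
  apply le_of_forall_pos_le_add
  intro η hη
  obtain ⟨s', hs'1, hs'2⟩ := exists_rat_btwn (show s - η / (K + 1) < s by
    have : 0 < η / (K + 1) := by positivity
    linarith)
  have h7 := key s' hs'2
  have h8 : (s - (s' : ℝ)) * K ≤ η := by
    have h9 : s - (s' : ℝ) < η / (K + 1) := by linarith
    rw [lt_div_iff₀ (by positivity)] at h9
    nlinarith
  nlinarith

end Pool.Agent.Lib.MP_c57125_an
end

section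
set_option autoImplicit false

open MeasureTheory ProbabilityTheory Set Filter Topology
open scoped ENNReal ContDiff BoundedContinuousFunction

namespace Pool.Agent.Lib.MP_c57125_an

/-- projection onto the label interval -/
noncomputable def pr (y : ℝ) : ℝ := open Classical in if y ∈ Ioo (0 : ℝ) 1 then y else 1 / 2

theorem pr_of_mem {y : ℝ} (hy : y ∈ Ioo (0 : ℝ) 1) : pr y = y := by
  unfold pr; rw [if_pos hy]

theorem pr_mem (y : ℝ) : pr y ∈ Ioo (0 : ℝ) 1 := by
  unfold pr
  split_ifs with h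
  · exact h
  · constructor <;> norm_num

theorem measurable_pr : Measurable pr := by
  unfold pr
  exact Measurable.ite measurableSet_Ioo measurable_id measurable_const

section

variable (ν : Measure ℝ) [IsProbabilityMeasure ν]

/-- quantile function -/
noncomputable def qt (y : ℝ) : ℝ := sInf {x | y ≤ ν.real (Iic x)}

theorem qt_nonempty {y : ℝ} (hy : y < 1) : {x | y ≤ ν.real (Iic x)}.Nonempty := by
  have h1 := (tendsto_cdf_atTop ν).eventually (lt_mem_nhds hy)
  obtain ⟨x, hx⟩ := h1.exists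
  rw [cdf_eq_real] at hx
  exact ⟨x, hx.le⟩

theorem qt_bddBelow {y : ℝ} (hy : 0 < y) : BddBelow {x | y ≤ ν.real (Iic x)} := by
  have h1 := (tendsto_cdf_atBot ν).eventually (gt_mem_nhds hy)
  obtain ⟨x, hx⟩ := h1.exists
  rw [cdf_eq_real] at hx
  refine ⟨x, fun z hz => ?_⟩
  by_contra hcon
  rw [not_le] at hcon
  have h2 : ν.real (Iic z) ≤ ν.real (Iic x) := measureReal_mono (Iic_subset_Iic.2 hcon.le)
  have h3 : y ≤ ν.real (Iic z) := hz
  linarith

theorem qt_le_iff {y : ℝ} (hy : y ∈ Ioo (0 : ℝ) 1) (x : ℝ) :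
    qt ν y ≤ x ↔ y ≤ ν.real (Iic x) := by
  constructor
  · intro h
    have h1 : ∀ z, x < z → y ≤ cdf ν z := by
      intro z hz
      obtain ⟨w, hw, hwz⟩ := exists_lt_of_csInf_lt (qt_nonempty ν hy.2) (lt_of_le_of_lt h hz)
      rw [cdf_eq_real]
      exact (show y ≤ ν.real (Iic w) from hw).trans (measureReal_mono (Iic_subset_Iic.2 hwz.le))
    have h2 := ((cdf ν).right_continuous x).mono Ioi_subset_Ici_self
    have h3 : y ≤ cdf ν x := by
      apply ge_of_tendsto h2
      filter_upwards [self_mem_nhdsWithin] with z hz using h1 z hz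
    rwa [cdf_eq_real] at h3
  · intro h
    exact csInf_le (qt_bddBelow ν hy.1) h

theorem qt_mono : MonotoneOn (qt ν) (Ioo 0 1) := by
  intro y hy y' hy' hyy'
  rw [qt_le_iff ν hy]
  exact hyy'.trans ((qt_le_iff ν hy' _).1 le_rfl)

theorem qt_mem_support {y : ℝ} (hy : y ∈ Ioo (0 : ℝ) 1) : qt ν y ∈ ν.support := by
  rw [Measure.mem_support_iff_forall]
  intro U hU
  obtain ⟨r, hr, hrU⟩ := Metric.mem_nhds_iff.1 hU
  have h1 : Ioc (qt ν y - r / 2) (qt ν y) ⊆ U := by
    refine Subset.trans ?_ hrU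
    intro z hz
    rw [Metric.mem_ball, Real.dist_eq, abs_lt]
    constructor <;> linarith [hz.1, hz.2]
  refine lt_of_lt_of_le ?_ (measure_mono h1)
  rw [pos_iff_ne_zero]
  intro h0
  have h2 : ν.real (Iic (qt ν y)) ≤ ν.real (Iic (qt ν y - r / 2)) := by
    have h3 : Iic (qt ν y) ⊆ Iic (qt ν y - r / 2) ∪ Ioc (qt ν y - r / 2) (qt ν y) := by
      intro z hz
      rcases le_or_gt z (qt ν y - r / 2) with h | h
      · exact Or.inl h
      · exact Or.inr ⟨h, hz⟩
    have h4 := (measureReal_mono (μ := ν) h3).trans (measureReal_union_le _ _)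
    rw [measureReal_def ν (Ioc _ _), h0] at h4
    simpa using h4
  have h5 := (qt_le_iff ν hy (qt ν y)).1 le_rfl
  have h6 := (qt_le_iff ν hy (qt ν y - r / 2)).2 (h5.trans h2)
  linarith

theorem measurable_qt_pr : Measurable fun y => qt ν (pr y) := by
  apply measurable_of_Iic
  intro x
  have : (fun y => qt ν (pr y)) ⁻¹' Iic x = pr ⁻¹' Iic (ν.real (Iic x)) := by
    ext y
    simp only [mem_preimage, mem_Iic]
    exact qt_le_iff ν (pr_mem y) x
  rw [this]
  exact measurable_pr measurableSet_Iic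

theorem map_qt : P01.map (fun y => qt ν (pr y)) = ν := by
  have : IsProbabilityMeasure (P01.map (fun y => qt ν (pr y))) :=
    Measure.isProbabilityMeasure_map (measurable_qt_pr ν).aemeasurable
  apply Measure.ext_of_Iic
  intro x
  rw [Measure.map_apply (measurable_qt_pr ν) measurableSet_Iic]
  have h1 : (fun y => qt ν (pr y)) ⁻¹' Iic x = pr ⁻¹' Iic (ν.real (Iic x)) := by
    ext y
    simp only [mem_preimage, mem_Iic]
    exact qt_le_iff ν (pr_mem y) x
  rw [h1]
  unfold P01
  rw [Measure.restrict_apply (measurable_pr measurableSet_Iic)]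
  set F := ν.real (Iic x) with hF
  have hF0 : 0 ≤ F := measureReal_nonneg
  have hF1 : F ≤ 1 := by
    rw [hF, ← probReal_univ (μ := ν)]; exact measureReal_mono (subset_univ _)
  have h2 : ν (Iic x) = ENNReal.ofReal F := by
    rw [hF, measureReal_def, ENNReal.ofReal_toReal (measure_ne_top _ _)]
  rw [h2]
  apply le_antisymm
  · have h3 : pr ⁻¹' Iic F ∩ Ioo 0 1 ⊆ Ioc 0 F := by
      rintro y ⟨hy1, hy2⟩
      rw [mem_preimage, pr_of_mem hy2, mem_Iic] at hy1
      exact ⟨hy2.1, hy1⟩
    refine (measure_mono h3).trans ?_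
    rw [Real.volume_Ioc, sub_zero]
  · have h3 : Ioo 0 F ⊆ pr ⁻¹' Iic F ∩ Ioo 0 1 := by
      intro y hy
      have hy2 : y ∈ Ioo (0 : ℝ) 1 := ⟨hy.1, hy.2.trans_le hF1⟩
      refine ⟨?_, hy2⟩
      rw [mem_preimage, pr_of_mem hy2, mem_Iic]
      exact hy.2.le
    refine le_trans ?_ (measure_mono h3)
    rw [Real.volume_Ioo, sub_zero]

theorem range_qt_subset : (range fun y => qt ν (pr y)) ⊆ ν.support := by
  rintro _ ⟨y, rfl⟩
  exact qt_mem_support ν (pr_mem y)

end

/-- the quantile function as a simple function -/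
noncomputable def qS (ν : Measure ℝ) : SimpleFunc ℝ ℝ := open Classical in
  if h : IsProbabilityMeasure ν ∧ ν.support.Finite then
    haveI := h.1
    ⟨fun y => qt ν (pr y), fun x => measurable_qt_pr ν (measurableSet_singleton x),
      h.2.subset (range_qt_subset ν)⟩
  else SimpleFunc.const ℝ 0

theorem qS_apply {ν : Measure ℝ} [hν : IsProbabilityMeasure ν] (hf : ν.support.Finite) (y : ℝ) :
    qS ν y = qt ν (pr y) := by
  unfold qS
  rw [dif_pos ⟨hν, hf⟩]
  rfl

theorem qS_mono {ν : Measure ℝ} [IsProbabilityMeasure ν] (hf : ν.support.Finite) :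
    MonotoneOn (qS ν) (Ioo 0 1) := by
  intro y hy y' hy' hyy'
  rw [qS_apply hf, qS_apply hf, pr_of_mem hy, pr_of_mem hy']
  exact qt_mono ν hy hy' hyy'

theorem qS_integral {ν : Measure ℝ} [IsProbabilityMeasure ν] (hf : ν.support.Finite) {f : ℝ → ℝ}
    (hfm : Measurable f) : ∫ y, f (qS ν y) ∂P01 = ∫ x, f x ∂ν := by
  simp_rw [qS_apply hf]
  rw [← integral_map (μ := P01) (measurable_qt_pr ν).aemeasurable
    (by rw [map_qt]; exact hfm.aestronglyMeasurable), map_qt]

theorem qS_card {ν : Measure ℝ} [IsProbabilityMeasure ν] (hf : ν.support.Finite) :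
    ((qS ν).range.card : ℝ≥0∞) ≤ numSupp ν := by
  have h1 : ((qS ν).range : Set ℝ) ⊆ ν.support := by
    rw [SimpleFunc.coe_range]
    rintro _ ⟨y, rfl⟩
    rw [qS_apply hf]
    exact qt_mem_support ν (pr_mem y)
  have h2 := encard_le_encard h1
  rw [encard_coe_eq_coe_finsetCard] at h2
  unfold numSupp
  simpa using ENat.toENNReal_le.2 h2

/-- the terminal map -/
noncomputable def Zf (y : ℝ) : ℝ := pr y - 1 / 2

theorem Zf_measurable : Measurable Zf := measurable_pr.sub_const _

theorem Zf_bdd (y : ℝ) : |Zf y| ≤ 1 / 2 := by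
  unfold Zf
  have := pr_mem y
  rw [abs_le]; constructor <;> linarith [this.1, this.2]

theorem Zf_mono : MonotoneOn Zf (Ioo 0 1) := by
  intro y hy y' hy' h
  unfold Zf
  rw [pr_of_mem hy, pr_of_mem hy']
  linarith

theorem Zf_integral (f : ℝ → ℝ) : ∫ y, f (Zf y) ∂P01 = ∫ z in Icc (-1 / 2) (1 / 2), f z := by
  have h1 : ∫ y, f (Zf y) ∂P01 = ∫ y in Ioo 0 1, f (y - 1 / 2) := by
    unfold P01
    apply setIntegral_congr_fun measurableSet_Ioo
    intro y hy
    simp only [Zf, pr_of_mem hy]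
  rw [h1, ← integral_Ioc_eq_integral_Ioo, ← intervalIntegral.integral_of_le zero_le_one,
    intervalIntegral.integral_comp_sub_right (fun z => f z) (1 / 2),
    intervalIntegral.integral_of_le (by norm_num), integral_Icc_eq_integral_Ioc]
  norm_num

/-- the terminal map spreads every set at least as much as an interval -/
theorem Zf_spread : Spread P01 Zf := by
  intro A hA c
  set B := A ∩ Ioo 0 1 with hB
  have hBm : MeasurableSet B := hA.inter measurableSet_Ioo
  have h1 : ∫ w in A, (Zf w - c) ^ 2 ∂P01 = ∫ y in B, (y - (c + 1 / 2)) ^ 2 := by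
    unfold P01
    rw [Measure.restrict_restrict hA]
    apply setIntegral_congr_fun hBm
    intro y hy
    simp only [Zf, pr_of_mem hy.2]
    ring
  have h2 : P01.real A = volume.real B := by
    unfold P01
    rw [measureReal_restrict_apply hA]
  rw [h1, h2]
  set m := volume.real B with hm
  have hBfin : volume B ≠ ⊤ := by
    refine ((measure_mono inter_subset_right).trans_lt ?_).ne
    simp
  have hm0 : 0 ≤ m := measureReal_nonneg
  set c' := c + 1 / 2 with hc'
  set r := m / 2 with hr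
  have hr0 : 0 ≤ r := by positivity
  set I := Icc (c' - r) (c' + r) with hI
  -- comparison
  have hBi : IntegrableOn (fun y => (y - c') ^ 2) B := by
    have : IntegrableOn (fun y : ℝ => (y - c') ^ 2) (Icc 0 1) :=
      (by fun_prop : Continuous fun y : ℝ => (y - c') ^ 2).continuousOn.integrableOn_compact
        isCompact_Icc
    exact this.mono_set (inter_subset_right.trans Ioo_subset_Icc_self)
  have hIi : IntegrableOn (fun y => (y - c') ^ 2 - r ^ 2) I :=
    (by fun_prop : Continuous fun y : ℝ => (y - c') ^ 2 - r ^ 2).continuousOn.integrableOn_compact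
      isCompact_Icc
  have hBi2 : IntegrableOn (fun y => (y - c') ^ 2 - r ^ 2) B :=
    hBi.sub (integrableOn_const hBfin)
  have h3 : ∫ y in I, ((y - c') ^ 2 - r ^ 2) ≤ ∫ y in B, ((y - c') ^ 2 - r ^ 2) := by
    rw [← integral_indicator measurableSet_Icc, ← integral_indicator hBm]
    apply integral_mono
    · exact hIi.integrable_indicator measurableSet_Icc
    · exact hBi2.integrable_indicator hBm
    · intro y
      simp only [indicator]
      by_cases hyI : y ∈ I
      · rw [if_pos hyI]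
        have : (y - c') ^ 2 ≤ r ^ 2 := by
          apply sq_le_sq'
          · linarith [hyI.1]
          · linarith [hyI.2]
        split_ifs <;> linarith
      · rw [if_neg hyI]
        have : r ^ 2 ≤ (y - c') ^ 2 := by
          rw [hI, mem_Icc, not_and_or, not_le, not_le] at hyI
          rcases hyI with h | h <;> nlinarith
        split_ifs <;> linarith
  have h4 : ∫ y in I, ((y - c') ^ 2 - r ^ 2) = -(4 / 3) * r ^ 3 := by
    rw [hI, integral_Icc_eq_integral_Ioc, ← intervalIntegral.integral_of_le (by linarith)]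
    rw [intervalIntegral.integral_comp_sub_right (fun z => z ^ 2 - r ^ 2) c']
    rw [intervalIntegral.integral_sub (by simp) (by simp)]
    simp
    ring
  have h5 : ∫ y in B, ((y - c') ^ 2 - r ^ 2) = (∫ y in B, (y - c') ^ 2) - m * r ^ 2 := by
    rw [integral_sub hBi (integrableOn_const hBfin)]
    simp [hm]
  rw [h4, h5] at h3
  have h6 : m * r ^ 2 = 2 * r ^ 3 := by rw [hr]; ring
  have h7 : m ^ 3 / 12 = 2 / 3 * r ^ 3 := by rw [hr]; ring
  rw [h7]
  linarith

end Pool.Agent.Lib.MP_c57125_an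
end

section
set_option autoImplicit false

open MeasureTheory ProbabilityTheory Set Filter Topology
open scoped ENNReal BoundedContinuousFunction

namespace Pool.Agent.Lib.MP_c57125_an

/-! ### bounds for the discrete value -/

theorem Et_upper {S p : ℝ} (hS : 0 < S) (hp : 0 ≤ p) : Et S p ≤ 5 * S + (7 / 24) * p ^ 3 / S := by
  rcases hp.eq_or_lt with h | h
  · rw [← h, Et_zero]; positivity
  · have h1 := m32_pos h
    have h2 := e_upper (T := S / (p * √p)) (by positivity)
    have h3 := mul_le_mul_of_nonneg_left h2 h1.le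
    have h4 : p * √p * (5 * (S / (p * √p)) + 3 / (8 * (S / (p * √p)))) =
        5 * S + 3 / (8 * S) * (p * √p) ^ 2 := by field_simp
    rw [h4, m32_sq h.le] at h3
    unfold Et Eh
    have h5 : 3 / (8 * S) * p ^ 3 - p ^ 3 / (12 * S) = (7 / 24) * p ^ 3 / S := by
      field_simp; ring
    linarith

theorem W_upper (X : SimpleFunc ℝ ℝ) {S : ℝ} (hS : 0 < S) :
    W P01 Zf S X ≤ 5 * S * X.range.card + (9 / 2) / S * ∫ y, (X y - Zf y) ^ 2 ∂P01 := by
  obtain ⟨CX, hCX⟩ := X.exists_forall_norm_le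
  have hsq : Integrable (fun y => (X y - Zf y) ^ 2) P01 := by
    apply integrable_P01 ((X.measurable.sub Zf_measurable).pow_const 2) (C := (CX + 1 / 2) ^ 2)
    intro y
    rw [abs_pow]
    exact pow_le_pow_left₀ (abs_nonneg _) ((abs_sub _ _).trans (add_le_add (hCX y) (Zf_bdd y))) 2
  have h1 : ∑ a ∈ X.range, P01.real (X ⁻¹' {a}) ^ 3 / 12 ≤ ∫ y, (X y - Zf y) ^ 2 ∂P01 := by
    rw [integral_fiber X _ hsq]
    apply Finset.sum_le_sum
    intro a _
    refine (Zf_spread _ (X.measurableSet_fiber a) a).trans (le_of_eq ?_)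
    apply setIntegral_congr_fun (X.measurableSet_fiber a)
    intro y hy
    have : X y = a := hy
    simp only [this]; ring
  have h2 : ∑ a ∈ X.range, Et S (P01.real (X ⁻¹' {a})) ≤
      ∑ a ∈ X.range, (5 * S + (7 / 2) / S * (P01.real (X ⁻¹' {a}) ^ 3 / 12)) := by
    apply Finset.sum_le_sum
    intro a _
    refine (Et_upper hS measureReal_nonneg).trans (le_of_eq ?_)
    field_simp
    ring
  rw [Finset.sum_add_distrib, Finset.sum_const, nsmul_eq_mul, ← Finset.mul_sum] at h2
  have h3 := mul_le_mul_of_nonneg_left h1 (show 0 ≤ (7 / 2) / S by positivity)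
  unfold W
  have h4 : (9 / 2) / S * ∫ y, (X y - Zf y) ^ 2 ∂P01 =
      (7 / 2) / S * (∫ y, (X y - Zf y) ^ 2 ∂P01) + (1 / S) * ∫ y, (X y - Zf y) ^ 2 ∂P01 := by
    ring
  rw [h4]
  have h5 : 5 * S * (X.range.card : ℝ) = X.range.card * (5 * S) := by ring
  rw [h5]
  linarith

theorem W_const (x0 : ℝ) {S : ℝ} (hS : 0 < S) : e S ≤ W P01 Zf S (SimpleFunc.const ℝ x0) := by
  have h1 := Zf_spread univ MeasurableSet.univ x0
  rw [setIntegral_univ, probReal_univ] at h1
  have h2 : ∫ y, (SimpleFunc.const ℝ x0 y - Zf y) ^ 2 ∂P01 = ∫ w, (Zf w - x0) ^ 2 ∂P01 := by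
    congr 1; ext y; simp; ring
  have h3 : (SimpleFunc.const ℝ x0).range = {x0} := by
    rw [SimpleFunc.range_const]
  unfold W
  rw [h2, h3, Finset.sum_singleton]
  have h4 : P01.real ((SimpleFunc.const ℝ x0) ⁻¹' {x0}) = 1 := by
    have : (SimpleFunc.const ℝ x0) ⁻¹' {x0} = univ := by ext y; simp
    rw [this, probReal_univ]
  rw [h4]
  unfold Et
  rw [Eh_one]
  have h5 := mul_le_mul_of_nonneg_left h1 (show 0 ≤ 1 / S by positivity)
  have h6 : (1 : ℝ) ^ 3 / (12 * S) = 1 / S * (1 ^ 3 / 12) := by field_simp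
  rw [h6]; linarith

/-! ### Wasserstein bounds -/

theorem supp_finite {T : ℝ} {Q : Pair T} {t : ℝ} (ht : Good Q t) : (Q.slice t).support.Finite := by
  have := ht.2.1
  unfold numSupp at this
  rw [← encard_lt_top_iff]
  by_contra hcon
  rw [not_lt, top_le_iff] at hcon
  rw [hcon] at this
  simp at this

theorem gfun_eq_qS {T : ℝ} {Q : Pair T} (hQ : Q.Fin) (hE : Q.energy < ⊤) {t : ℝ} (ht : Good Q t)
    {ζ : ℝ × ℝ → ℝ} (hζ : Measurable ζ) :
    gfun Q ζ t = ∫ y, ζ (t, qS (Q.slice t) y) ∂P01 := by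
  have := mass_one hQ hE ht
  exact (qS_integral (ν := Q.slice t) (supp_finite ht) (f := fun x => ζ (t, x))
    (hζ.comp (measurable_const.prodMk measurable_id))).symm

theorem wass {T : ℝ} {Q : Pair T} (hQ : Q.Fin) (hE : Q.energy < ⊤) {s t : ℝ} (hs : Good Q s)
    (ht : Good Q t) (hst : s < t) :
    ∫ y, (qS (Q.slice t) y - qS (Q.slice s) y) ^ 2 ∂P01 ≤ (t - s) * Kin Q (Ioc s t) := by
  have h1 := mass_one hQ hE hs
  have h2 := mass_one hQ hE ht
  obtain ⟨C, hC⟩ := (qS (Q.slice t)).exists_forall_norm_le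
  apply duality_core (qS (Q.slice s)) (qS (Q.slice t)).measurable (qS_mono (supp_finite hs))
    (qS_mono (supp_finite ht)) (M := C) (fun y => hC y) hst
  intro n ε C' s' a x hε hs'
  rw [← gfun_eq_qS hQ hE ht soft_measurable, ← gfun_eq_qS hQ hE hs soft_measurable]
  exact dual_real hQ hs ht hst n ε C' s' a x hε hs'

theorem wassT {T : ℝ} {Q : Pair T} (hQ : Q.Fin) (hE : Q.energy < ⊤) {s : ℝ} (hs : Good Q s) :
    ∫ y, (qS (Q.slice s) y - Zf y) ^ 2 ∂P01 ≤ (T - s) * Kin Q (Ioo s T) := by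
  have h1 := mass_one hQ hE hs
  have h2 : ∫ y, (qS (Q.slice s) y - Zf y) ^ 2 ∂P01 = ∫ y, (Zf y - qS (Q.slice s) y) ^ 2 ∂P01 := by
    congr 1; ext y; ring
  rw [h2]
  apply duality_core (qS (Q.slice s)) Zf_measurable (qS_mono (supp_finite hs))
    Zf_mono (M := 1 / 2) Zf_bdd hs.1.2
  intro n ε C' s' a x hε hs'
  rw [← gfun_eq_qS hQ hE hs soft_measurable,
    Zf_integral (fun z => soft (ε : ℝ) (C' : ℝ) (s' : ℝ) a x (T, z))]
  exact dual_T hQ hE hs n ε C' s' a x hε hs'

/-- admissible starting configurations: a single atom -/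
def Start {T : ℝ} (Q : Pair T) (a x0 : ℝ) : Prop :=
  (a = 0 ∧ x0 = 0) ∨ (Good Q a ∧ Q.slice a = Measure.dirac x0)

theorem wass0 {T : ℝ} {Q : Pair T} (hQ : Q.Fin) (hE : Q.energy < ⊤) {s x0 t : ℝ}
    (hs : Start Q s x0) (ht : Good Q t) (hst : s < t) :
    ∫ y, (qS (Q.slice t) y - SimpleFunc.const ℝ x0 y) ^ 2 ∂P01 ≤ (t - s) * Kin Q (Ioc s t) := by
  have h2 := mass_one hQ hE ht
  rcases hs with ⟨rfl, rfl⟩ | ⟨hs, hd⟩
  · obtain ⟨C, hC⟩ := (qS (Q.slice t)).exists_forall_norm_le
    apply duality_core (SimpleFunc.const ℝ 0) (qS (Q.slice t)).measurable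
      (fun y _ y' _ _ => by simp) (qS_mono (supp_finite ht)) (M := C) (fun y => hC y) hst
    intro n ε C' s' a x hε hs'
    rw [← gfun_eq_qS hQ hE ht soft_measurable]
    simp only [SimpleFunc.const_apply, integral_const, probReal_univ, one_smul]
    exact dual_zero hQ hE ht n ε C' s' a x hε hs'
  · have h1 := mass_one hQ hE hs
    have h3 : ∀ y, qS (Q.slice s) y = SimpleFunc.const ℝ x0 y := by
      intro y
      rw [qS_apply (supp_finite hs), SimpleFunc.const_apply]
      have h4 := qt_mem_support (Q.slice s) (pr_mem y)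
      by_contra hne
      rw [Measure.mem_support_iff_forall] at h4
      have h5 := h4 {x0}ᶜ (isOpen_compl_singleton.mem_nhds hne)
      rw [hd] at h5
      simp at h5
    have h4 := wass hQ hE hs ht hst
    simp_rw [h3] at h4
    exact h4

/-! ### additivity of the kinetic energy -/

theorem Kin_union {T : ℝ} {Q : Pair T} (hQ : Q.Fin) {A B : Set ℝ} (hB : MeasurableSet B)
    (hAB : Disjoint A B) : Kin Q (A ∪ B) = Kin Q A + Kin Q B := by
  unfold Kin
  have h1 : {p : ℝ × ℝ | p.1 ∈ A ∪ B} = {p : ℝ × ℝ | p.1 ∈ A} ∪ {p : ℝ × ℝ | p.1 ∈ B} := rfl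
  rw [h1, setIntegral_union]
  · rw [Set.disjoint_left]
    intro p hp hp'
    exact Set.disjoint_left.1 hAB hp hp'
  · exact measurable_fst hB
  · exact hQ.sq_integrable.integrableOn
  · exact hQ.sq_integrable.integrableOn

theorem Kin_sum {T : ℝ} {Q : Pair T} (hQ : Q.Fin) (τ : ℕ → ℝ) (hτ : Monotone τ) (K : ℕ) :
    ∑ k ∈ Finset.range K, Kin Q (Ioc (τ k) (τ (k + 1))) = Kin Q (Ioc (τ 0) (τ K)) := by
  induction K with
  | zero => simp [Kin]
  | succ K ih =>
    rw [Finset.sum_range_succ, ih, ← Kin_union hQ measurableSet_Ioc]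
    · rw [Ioc_union_Ioc_eq_Ioc (hτ (Nat.zero_le _)) (hτ (Nat.le_succ _))]
    · rw [Set.disjoint_left]
      intro r hr hr'
      exact absurd hr.2 (not_le.2 hr'.1)

/-! ### the chain -/

theorem chain {T : ℝ} {Q : Pair T} (hQ : Q.Fin) (hE : Q.energy < ⊤) {a x0 : ℝ}
    (hstart : Start Q a x0) {K : ℕ} {u h : ℝ} (hu : 0 < u) (huh : u < h)
    (hKh : a + (K + 1 : ℕ) * h = T) (hgood : ∀ k < K + 1, Good Q (a + u + k * h)) :
    e (T - a) ≤ ∑ k ∈ Finset.range (K + 1), h * (qS (Q.slice (a + u + k * h))).range.card +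
      5 * h * (qS (Q.slice (a + u + K * h))).range.card + Kin Q (Ioo a T) +
      (7 / 2) * Kin Q (Ioo (T - h) T) := by
  have hh : 0 < h := hu.trans huh
  set τ : ℕ → ℝ := fun k => if k = 0 then a else a + u + ((k : ℝ) - 1) * h with hτ
  have hτ0 : τ 0 = a := by simp [hτ]
  have hτs : ∀ k : ℕ, τ (k + 1) = a + u + k * h := by
    intro k; simp [hτ]
  have hτlt : ∀ k, τ k < τ (k + 1) := by
    intro k
    rw [hτs]
    rcases k with _ | k
    · rw [hτ0]; simp; exact hu
    · rw [hτs]; push_cast; linarith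
  have hτm : Monotone τ := monotone_nat_of_le_succ fun k => (hτlt k).le
  have hτle : ∀ k, τ (k + 1) - τ k ≤ h := by
    intro k
    rw [hτs]
    rcases k with _ | k
    · rw [hτ0]; simp; linarith
    · rw [hτs]; push_cast; linarith
  have hg : ∀ k, k < K + 1 → Good Q (τ (k + 1)) := by
    intro k hk; rw [hτs]; exact hgood k hk
  set X : ℕ → SimpleFunc ℝ ℝ := fun k => if k = 0 then SimpleFunc.const ℝ x0 else qS (Q.slice (τ k))
    with hX
  have hX0 : X 0 = SimpleFunc.const ℝ x0 := by simp [hX]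
  have hXs : ∀ k, X (k + 1) = qS (Q.slice (τ (k + 1))) := by
    intro k; simp [hX]
  have hstartτ : ∀ k, k < K + 1 → ∫ y, (X (k + 1) y - X k y) ^ 2 ∂P01 ≤
      (τ (k + 1) - τ k) * Kin Q (Ioc (τ k) (τ (k + 1))) := by
    intro k hk
    rcases k with _ | k
    · rw [hXs, hX0, hτ0]
      exact wass0 hQ hE hstart (hg 0 hk) (by rw [← hτ0]; exact hτlt 0)
    · rw [hXs, hXs]
      exact wass hQ hE (hg k (by omega)) (hg (k + 1) hk) (hτlt _)
  have hTK : T - h < τ (K + 1) ∧ τ (K + 1) < T := by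
    rw [hτs, ← hKh]; push_cast
    constructor <;> linarith
  have hgK : Good Q (τ (K + 1)) := hg K (by omega)
  have main := discrete_main (P := P01) Zf_measurable Zf_bdd Zf_spread (fun k => T - τ k) x0 (K + 1)
    X (fun k _ => by linarith [hτlt k]) (by linarith [hTK.2]) hX0
  simp only [hτ0] at main
  have hS : 0 < T - a := by
    have := hτm (Nat.zero_le (K + 1))
    rw [hτ0] at this; linarith [hTK.2]
  have h1 := W_const x0 hS
  rw [hX0] at main
  have h2 := W_upper (X (K + 1)) (S := T - τ (K + 1)) (by linarith [hTK.2])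
  -- bound of the final term
  have h3 : (9 / 2) / (T - τ (K + 1)) * ∫ y, (X (K + 1) y - Zf y) ^ 2 ∂P01 ≤
      (9 / 2) * Kin Q (Ioo (τ (K + 1)) T) := by
    have h4 := wassT hQ hE hgK
    rw [hXs]
    have hpos : 0 < T - τ (K + 1) := by linarith [hTK.2]
    rw [div_mul_eq_mul_div, div_le_iff₀ hpos]
    have := mul_le_mul_of_nonneg_left h4 (show (0 : ℝ) ≤ 9 / 2 by norm_num)
    linarith
  have h5 : 5 * (T - τ (K + 1)) * ((X (K + 1)).range.card : ℝ) ≤
      5 * h * (X (K + 1)).range.card := by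
    apply mul_le_mul_of_nonneg_right _ (Nat.cast_nonneg _)
    linarith [hTK.1]
  -- bound of the sum
  have h6 : ∑ k ∈ Finset.range (K + 1), ((T - τ k - (T - τ (k + 1))) * (X (k + 1)).range.card +
      (1 / (T - τ k - (T - τ (k + 1)))) * ∫ y, (X (k + 1) y - X k y) ^ 2 ∂P01) ≤
      (∑ k ∈ Finset.range (K + 1), h * ((X (k + 1)).range.card : ℝ)) +
        ∑ k ∈ Finset.range (K + 1), Kin Q (Ioc (τ k) (τ (k + 1))) := by
    rw [← Finset.sum_add_distrib]
    apply Finset.sum_le_sum
    intro k hk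
    have hpos : 0 < τ (k + 1) - τ k := by linarith [hτlt k]
    have h7 : T - τ k - (T - τ (k + 1)) = τ (k + 1) - τ k := by ring
    rw [h7]
    apply add_le_add
    · exact mul_le_mul_of_nonneg_right (hτle k) (Nat.cast_nonneg _)
    · rw [one_div, inv_mul_le_iff₀ hpos]
      exact hstartτ k (Finset.mem_range.1 hk)
  rw [Kin_sum hQ τ hτm, hτ0] at h6
  have h8 : Kin Q (Ioc a (τ (K + 1))) + Kin Q (Ioo (τ (K + 1)) T) = Kin Q (Ioo a T) := by
    rw [← Kin_union hQ measurableSet_Ioo]
    · congr 1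
      apply Ioc_union_Ioo_eq_Ioo
      · rw [← hτ0]; exact hτm (Nat.zero_le _)
      · exact hTK.2
    · rw [Set.disjoint_left]
      intro r hr hr'
      exact absurd hr.2 (not_le.2 hr'.1)
  have h9 : Kin Q (Ioo (τ (K + 1)) T) ≤ Kin Q (Ioo (T - h) T) :=
    Kin_mono hQ (Ioo_subset_Ioo_left hTK.1.le)
  have h10 : ∑ k ∈ Finset.range (K + 1), h * ((X (k + 1)).range.card : ℝ) =
      ∑ k ∈ Finset.range (K + 1), h * ((qS (Q.slice (a + u + k * h))).range.card : ℝ) := by
    apply Finset.sum_congr rfl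
    intro k _
    rw [hXs, hτs]
  rw [h10] at h6
  have h11 : ((X (K + 1)).range.card : ℝ) = (qS (Q.slice (a + u + K * h))).range.card := by
    rw [hXs, hτs]
  rw [h11] at h5 h2
  linarith

end Pool.Agent.Lib.MP_c57125_an
end

section
set_option autoImplicit false

open MeasureTheory ProbabilityTheory Set Filter Topology
open scoped ENNReal BoundedContinuousFunction

namespace Pool.Agent.Lib.MP_c57125_an

theorem sum_lintegral_le (f : ℝ → ℝ≥0∞) (a h : ℝ) (hh : 0 ≤ h) (n : ℕ) :
    ∑ k ∈ Finset.range n, ∫⁻ t in Ioo (a + k * h) (a + k * h + h), f t ≤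
      ∫⁻ t in Ioo a (a + n * h), f t := by
  induction n with
  | zero => simp
  | succ n ih =>
    rw [Finset.sum_range_succ]
    refine (add_le_add_left ih _).trans ?_
    rw [← lintegral_union measurableSet_Ioo]
    · apply lintegral_mono_set
      have hn : (0 : ℝ) ≤ n := Nat.cast_nonneg n
      have : 0 ≤ n * h := by positivity
      push_cast
      apply union_subset
      · apply Ioo_subset_Ioo_right; nlinarith
      · intro r hr
        exact ⟨by linarith [hr.1], by linarith [hr.2]⟩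
    · rw [Set.disjoint_left]
      intro r hr hr'
      exact absurd hr.2 (not_lt.2 hr'.1.le)

theorem grid {T : ℝ} {Q : Pair T} (hE : Q.energy < ⊤) {a : ℝ} (ha : 0 ≤ a) {K : ℕ} {h : ℝ}
    (hh : 0 < h) (hKh : a + (K + 1 : ℕ) * h = T) :
    ∃ u, 0 < u ∧ u < h ∧ (∀ k < K + 1, Good Q (a + u + k * h)) ∧
      ENNReal.ofReal h * (∑ k ∈ Finset.range (K + 1), numSupp (Q.slice (a + u + k * h)) +
        5 * numSupp (Q.slice (a + u + K * h))) ≤
      (∫⁻ t in Ioo a T, numSupp (Q.slice t)) + 5 * ∫⁻ t in Ioo (T - h) T, numSupp (Q.slice t) := by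
  set N : ℝ → ℝ≥0∞ := fun t => numSupp (Q.slice t) with hN
  have hNm : Measurable N := measurable_numSupp Q.slice
  set Φ : ℝ → ℝ≥0∞ := fun u => ∑ k ∈ Finset.range (K + 1), N (a + u + k * h) +
    5 * N (a + u + K * h) with hΦ
  have hΦm : Measurable Φ := by
    apply Measurable.add
    · apply Finset.measurable_sum
      intro k _
      exact hNm.comp (by fun_prop)
    · exact (hNm.comp (by fun_prop)).const_mul _
  set μ : Measure ℝ := volume.restrict (Ioo 0 h) with hμ
  have hμu : μ univ = ENNReal.ofReal h := by rw [hμ]; simp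
  have hμ0 : μ ≠ 0 := by
    intro h0
    rw [h0] at hμu
    have : ENNReal.ofReal h = 0 := by rw [← hμu]; rfl
    rw [ENNReal.ofReal_eq_zero] at this
    linarith
  have hshift : ∀ c : ℝ, ∫⁻ u in Ioo 0 h, N (c + u) = ∫⁻ t in Ioo c (c + h), N t := by
    intro c
    have h1 := (measurePreserving_add_left (volume : Measure ℝ) c).setLIntegral_comp_preimage
      (measurableSet_Ioo (a := c) (b := c + h)) hNm
    have h2 : (fun x => c + x) ⁻¹' Ioo c (c + h) = Ioo 0 h := by
      ext r; simp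
    rw [h2] at h1
    exact h1
  have hint : ∫⁻ u, Φ u ∂μ ≤ (∫⁻ t in Ioo a T, N t) + 5 * ∫⁻ t in Ioo (T - h) T, N t := by
    have hk : ∀ k : ℕ, Measurable fun u => N (a + u + k * h) := fun k => hNm.comp (by fun_prop)
    have hsplit : ∫⁻ u, Φ u ∂μ =
        (∑ k ∈ Finset.range (K + 1), (∫⁻ u in Ioo 0 h, N (a + u + k * h))) +
        5 * ∫⁻ u in Ioo 0 h, N (a + u + K * h) := by
      rw [hΦ, hμ]
      simp only
      rw [lintegral_add_left (Finset.measurable_sum _ fun k _ => hk k),
        lintegral_finsetSum _ (fun k _ => hk k), lintegral_const_mul _ (hk K)]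
    rw [hsplit]
    have h3 : ∀ k : ℕ, ∫⁻ u in Ioo 0 h, N (a + u + k * h) =
        ∫⁻ t in Ioo (a + k * h) (a + k * h + h), N t := by
      intro k
      rw [← hshift]
      congr 1; ext u; congr 1; ring
    simp_rw [h3]
    have h4 : a + (K : ℝ) * h = T - h := by rw [← hKh]; push_cast; ring
    have h5 := sum_lintegral_le N a h hh.le (K + 1)
    rw [hKh] at h5
    rw [h4]
    have h6 : T - h + h = T := by ring
    rw [h6]
    exact add_le_add_left h5 _
  have hnull : μ {u | ¬ (u ∈ Ioo 0 h ∧ ∀ k < K + 1, Good Q (a + u + k * h))} = 0 := by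
    rw [← ae_iff]
    have h1 : ∀ᵐ u ∂μ, u ∈ Ioo 0 h := ae_restrict_mem measurableSet_Ioo
    have h2 : ∀ k : ℕ, k < K + 1 → ∀ᵐ u ∂μ, Good Q (a + u + k * h) := by
      intro k hk
      have h3 := (ae_restrict_iff' measurableSet_Ioo).1 (good_ae hE)
      have h4 := (measurePreserving_add_left (volume : Measure ℝ)
        (a + k * h)).quasiMeasurePreserving.ae h3
      rw [hμ, ae_restrict_iff' measurableSet_Ioo]
      filter_upwards [h4] with u hu huI
      have h5 : a + k * h + u = a + u + k * h := by ring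
      rw [h5] at hu
      apply hu
      have hk0 : (0 : ℝ) ≤ k * h := by positivity
      have hk1 : ((k : ℝ) + 1) * h ≤ ((K : ℝ) + 1) * h := by
        apply mul_le_mul_of_nonneg_right _ hh.le
        have : (k + 1 : ℕ) ≤ K + 1 := hk
        exact_mod_cast this
      push_cast at hKh
      constructor
      · linarith [huI.1]
      · linarith [huI.2]
    have h3 : ∀ᵐ u ∂μ, ∀ k < K + 1, Good Q (a + u + k * h) := by
      rw [ae_all_iff]
      intro k
      by_cases hk : k < K + 1
      · filter_upwards [h2 k hk] with u hu _ using hu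
      · exact Eventually.of_forall fun u hk' => absurd hk' hk
    filter_upwards [h1, h3] with u a1 a2 using ⟨a1, a2⟩
  obtain ⟨u, hu, hle⟩ := exists_notMem_null_le_laverage hμ0 hΦm.aemeasurable hnull
  simp only [mem_ofPred_eq, not_not] at hu
  refine ⟨u, hu.1.1, hu.1.2, hu.2, ?_⟩
  rw [laverage_eq, hμu] at hle
  have hh0 : ENNReal.ofReal h ≠ 0 := by
    intro h0; rw [ENNReal.ofReal_eq_zero] at h0; linarith
  have h7 : ENNReal.ofReal h * Φ u ≤ ∫⁻ u, Φ u ∂μ := by
    refine (mul_le_mul_right hle _).trans ?_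
    rw [ENNReal.mul_div_cancel hh0 ENNReal.ofReal_ne_top]
  exact h7.trans hint

theorem kin_tendsto {T : ℝ} {Q : Pair T} (hQ : Q.Fin) {h : ℕ → ℝ} (hh : Tendsto h atTop (𝓝 0)) :
    Tendsto (fun n => Kin Q (Ioo (T - h n) T)) atTop (𝓝 0) := by
  have hm : ∀ A : Set ℝ, MeasurableSet A → MeasurableSet {p : ℝ × ℝ | p.1 ∈ A} :=
    fun A hA => measurable_fst hA
  have h1 : ∀ n, Kin Q (Ioo (T - h n) T) =
      ∫ p, {p : ℝ × ℝ | p.1 ∈ Ioo (T - h n) T}.indicator (fun p => Q.v p ^ 2) p ∂Q.meas := by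
    intro n
    unfold Kin
    rw [integral_indicator (hm _ measurableSet_Ioo)]
  simp_rw [h1]
  have h2 : (0 : ℝ) = ∫ p : ℝ × ℝ, (0 : ℝ) ∂Q.meas := by simp
  rw [h2]
  apply tendsto_integral_of_dominated_convergence (fun p => Q.v p ^ 2)
  · intro n
    exact ((Q.measurable_v.pow_const 2).indicator (hm _ measurableSet_Ioo)).aestronglyMeasurable
  · exact hQ.sq_integrable
  · intro n
    refine Eventually.of_forall fun p => ?_
    rw [Real.norm_eq_abs]
    by_cases hp : p ∈ {p : ℝ × ℝ | p.1 ∈ Ioo (T - h n) T}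
    · rw [indicator_of_mem hp, abs_of_nonneg (sq_nonneg _)]
    · rw [indicator_of_notMem hp, abs_zero]; exact sq_nonneg _
  · refine Eventually.of_forall fun p => ?_
    apply tendsto_const_nhds.congr'
    by_cases hp : p.1 < T
    · have h3 := hh.eventually (gt_mem_nhds (sub_pos.2 hp))
      filter_upwards [h3] with n hn
      rw [indicator_of_notMem]
      intro h4
      have h5 : T - h n < p.1 := h4.1
      linarith
    · refine Eventually.of_forall fun n => ?_
      simp only
      rw [indicator_of_notMem]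
      intro h4; exact hp h4.2

theorem convert_bound {h : ℝ} (hh : 0 ≤ h) {K : ℕ} (c : ℕ → ℝ) (hc : ∀ k, 0 ≤ c k)
    (N : ℕ → ℝ≥0∞) (hcN : ∀ k, k < K + 1 → ENNReal.ofReal (c k) ≤ N k) {A B : ℝ} (hA : 0 ≤ A)
    (hB : 0 ≤ B) {R : ℝ≥0∞}
    (hle : ENNReal.ofReal h * (∑ k ∈ Finset.range (K + 1), N k + 5 * N K) ≤ R) :
    ENNReal.ofReal (∑ k ∈ Finset.range (K + 1), h * c k + 5 * h * c K + A + (7 / 2) * B) ≤
      R + (ENNReal.ofReal A + ENNReal.ofReal ((7 / 2) * B)) := by
  have h1 : 0 ≤ ∑ k ∈ Finset.range (K + 1), h * c k :=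
    Finset.sum_nonneg fun k _ => mul_nonneg hh (hc k)
  have h2 : 0 ≤ 5 * h * c K := mul_nonneg (by positivity) (hc K)
  have h3 : 0 ≤ (7 / 2) * B := by positivity
  rw [ENNReal.ofReal_add (by linarith) h3, ENNReal.ofReal_add (by linarith) hA, add_assoc]
  refine add_le_add ?_ le_rfl
  refine le_trans ?_ hle
  rw [mul_add, ENNReal.ofReal_add h1 h2]
  apply add_le_add
  · rw [Finset.mul_sum, ENNReal.ofReal_sum_of_nonneg (fun k _ => mul_nonneg hh (hc k))]
    apply Finset.sum_le_sum
    intro k hk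
    rw [ENNReal.ofReal_mul hh]
    exact mul_le_mul_right (hcN k (Finset.mem_range.1 hk)) _
  · rw [mul_assoc, ENNReal.ofReal_mul (by norm_num), ENNReal.ofReal_mul hh]
    have : ENNReal.ofReal 5 = 5 := by norm_num
    rw [this, mul_left_comm]
    exact mul_le_mul_right (mul_le_mul_right (hcN K (by omega)) _) _

theorem lower_from {T : ℝ} {Q : Pair T} (hQ : Q.Fin) (hE : Q.energy < ⊤) {a x0 : ℝ}
    (ha : 0 ≤ a) (haT : a < T) (hstart : Start Q a x0) :
    ENNReal.ofReal (e (T - a)) ≤
      (∫⁻ t in Ioo a T, numSupp (Q.slice t)) + ENNReal.ofReal (Kin Q (Ioo a T)) := by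
  set h : ℕ → ℝ := fun K => (T - a) / ((K : ℝ) + 1) with hh
  have hh0 : ∀ K, 0 < h K := fun K => by
    have : 0 < T - a := by linarith
    rw [hh]; positivity
  have hlim : Tendsto h atTop (𝓝 0) := by
    have := tendsto_inv_nat.const_mul (T - a)
    simp only [mul_zero, mul_one_div] at this
    exact this
  have key : ∀ K : ℕ, ENNReal.ofReal (e (T - a)) ≤
      ((∫⁻ t in Ioo a T, numSupp (Q.slice t)) +
        5 * ∫⁻ t in Ioo (T - h K) T, numSupp (Q.slice t)) +
      (ENNReal.ofReal (Kin Q (Ioo a T)) + ENNReal.ofReal ((7 / 2) * Kin Q (Ioo (T - h K) T))) := by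
    intro K
    have hKh : a + ((K + 1 : ℕ) : ℝ) * h K = T := by
      rw [hh]; push_cast; field_simp; ring
    obtain ⟨u, hu0, huh, hg, hle⟩ := grid hE ha (hh0 K) hKh
    have h1 := chain hQ hE hstart hu0 huh hKh hg
    refine (ENNReal.ofReal_le_ofReal h1).trans ?_
    have hcard : ∀ k : ℕ, k < K + 1 → ENNReal.ofReal
        ((qS (Q.slice (a + u + k * h K))).range.card : ℝ) ≤
        numSupp (Q.slice (a + u + k * h K)) := by
      intro k hk
      have := mass_one hQ hE (hg k hk)
      rw [ENNReal.ofReal_natCast]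
      exact qS_card (supp_finite (hg k hk))
    exact convert_bound (hh0 K).le (fun k => ((qS (Q.slice (a + u + k * h K))).range.card : ℝ))
      (fun k => Nat.cast_nonneg _) (fun k => numSupp (Q.slice (a + u + k * h K))) hcard
      (Kin_nonneg _ _) (Kin_nonneg _ _) hle
  -- pass to the limit
  have hlim1 : Tendsto (fun K => ∫⁻ t in Ioo (T - h K) T, numSupp (Q.slice t)) atTop (𝓝 0) := by
    have h2 : (∫⁻ t, (Ioo 0 T).indicator (fun t => numSupp (Q.slice t)) t) ≠ ⊤ := by
      rw [lintegral_indicator measurableSet_Ioo]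
      have : (∫⁻ t in Ioo 0 T, numSupp (Q.slice t)) ≤ Q.energy := by
        unfold Pair.energy; exact le_add_right le_rfl
      exact (this.trans_lt hE).ne
    have h3 : Tendsto ((volume : Measure ℝ) ∘ fun K => Ioo (T - h K) T) atTop (𝓝 0) := by
      have : ((volume : Measure ℝ) ∘ fun K => Ioo (T - h K) T) = fun K => ENNReal.ofReal (h K) := by
        ext K; simp
      rw [this]
      have h4 : Tendsto (fun K => ENNReal.ofReal (h K)) atTop (𝓝 (ENNReal.ofReal 0)) :=
        (ENNReal.continuous_ofReal.tendsto 0).comp hlim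
      rwa [ENNReal.ofReal_zero] at h4
    have h4 := tendsto_setLIntegral_zero h2 h3
    apply h4.congr'
    have h5 : ∀ᶠ K in atTop, h K < T := hlim.eventually (gt_mem_nhds (ha.trans_lt haT))
    filter_upwards [h5] with K hK
    apply setLIntegral_congr_fun measurableSet_Ioo
    intro t ht
    have h6 : t ∈ Ioo 0 T := ⟨by linarith [ht.1], ht.2⟩
    exact indicator_of_mem h6 _
  have hlim2 : Tendsto (fun K => ENNReal.ofReal ((7 / 2) * Kin Q (Ioo (T - h K) T))) atTop (𝓝 0) := by
    have h5 : Tendsto (fun K => (7 / 2) * Kin Q (Ioo (T - h K) T)) atTop (𝓝 0) := by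
      simpa using (kin_tendsto hQ hlim).const_mul (7 / 2)
    have h4 : Tendsto (fun K => ENNReal.ofReal ((7 / 2) * Kin Q (Ioo (T - h K) T))) atTop
        (𝓝 (ENNReal.ofReal 0)) := (ENNReal.continuous_ofReal.tendsto 0).comp h5
    rwa [ENNReal.ofReal_zero] at h4
  have hlim3 : Tendsto (fun K => ((∫⁻ t in Ioo a T, numSupp (Q.slice t)) +
        5 * ∫⁻ t in Ioo (T - h K) T, numSupp (Q.slice t)) +
      (ENNReal.ofReal (Kin Q (Ioo a T)) + ENNReal.ofReal ((7 / 2) * Kin Q (Ioo (T - h K) T))))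
      atTop (𝓝 (((∫⁻ t in Ioo a T, numSupp (Q.slice t)) + 5 * 0) +
        (ENNReal.ofReal (Kin Q (Ioo a T)) + 0))) := by
    apply Tendsto.add
    · exact tendsto_const_nhds.add (ENNReal.Tendsto.const_mul hlim1 (Or.inr (by norm_num)))
    · exact tendsto_const_nhds.add hlim2
  have := ge_of_tendsto' hlim3 key
  simpa using this

theorem kin_le {T : ℝ} {Q : Pair T} (hQ : Q.Fin) (A : Set ℝ) :
    ENNReal.ofReal (Kin Q A) ≤ ∫⁻ p, ENNReal.ofReal (Q.v p ^ 2) ∂Q.meas := by
  unfold Kin
  rw [ofReal_integral_eq_lintegral_ofReal hQ.sq_integrable.integrableOn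
    (Eventually.of_forall fun p => sq_nonneg _)]
  exact setLIntegral_le_lintegral _ _

theorem fin_of_energy {T : ℝ} {Q : Pair T} (hE : Q.energy < ⊤) : Q.Fin :=
  lt_of_le_of_lt (by unfold Pair.energy; exact le_add_left le_rfl) hE

/-- **Lower bound** for the energy of every admissible pair. -/
theorem energy_lower {T : ℝ} (hT : 0 < T) (Q : Pair T) : ENNReal.ofReal (e T) ≤ Q.energy := by
  by_cases hE : Q.energy < ⊤
  · have hQ := fin_of_energy hE
    have h1 := lower_from hQ hE le_rfl hT (x0 := 0) (Or.inl ⟨rfl, rfl⟩)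
    rw [sub_zero] at h1
    refine h1.trans ?_
    unfold Pair.energy
    exact add_le_add le_rfl (kin_le hQ _)
  · rw [not_lt, top_le_iff] at hE
    rw [hE]; exact le_top

/-- lower bound for pairs which are a single atom during an initial time interval -/
theorem energy_lower_strict {T : ℝ} (Q : Pair T) (hE : Q.energy < ⊤) {δ : ℝ} (hδ : 0 < δ)
    (hδT : δ ≤ T) (hdir : ∀ᵐ t ∂(volume.restrict (Ioo 0 δ)),
      ∃ (c : ℝ≥0∞) (x : ℝ), Q.slice t = c • Measure.dirac x) :
    ∃ a, 0 < a ∧ a < T ∧ ENNReal.ofReal (e (T - a) + a) ≤ Q.energy := by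
  have hQ := fin_of_energy hE
  have hT : 0 < T := by linarith
  have h1 : ∀ᵐ t ∂(volume.restrict (Ioo 0 δ)), Good Q t := by
    rw [ae_restrict_iff' measurableSet_Ioo]
    filter_upwards [(ae_restrict_iff' measurableSet_Ioo).1 (good_ae hE)] with t ht htδ
    exact ht ⟨htδ.1, htδ.2.trans_le hδT⟩
  have h2 : ∀ᵐ t ∂(volume.restrict (Ioo 0 δ)), t ∈ Ioo 0 δ := ae_restrict_mem measurableSet_Ioo
  have hne : (ae (volume.restrict (Ioo 0 δ))).NeBot := by
    rw [ae_neBot]
    intro h0
    have : (volume.restrict (Ioo 0 δ)) univ = 0 := by rw [h0]; rfl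
    simp at this
    linarith
  obtain ⟨a, haG, haI, c, x, hcx⟩ := (h1.and (h2.and hdir)).exists
  have hp := mass_one hQ hE haG
  have hc : c = 1 := by
    have := hp.measure_univ
    rw [hcx] at this
    simpa using this
  rw [hc, one_smul] at hcx
  have haT : a < T := haG.1.2
  refine ⟨a, haI.1, haT, ?_⟩
  have h3 := lower_from hQ hE haI.1.le haT (Or.inr ⟨haG, hcx⟩)
  -- the first part
  have h4 : ENNReal.ofReal a ≤ ∫⁻ t in Ioc 0 a, numSupp (Q.slice t) := by
    have h5 : ∀ᵐ t ∂(volume.restrict (Ioc 0 a)), (1 : ℝ≥0∞) ≤ numSupp (Q.slice t) := by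
      rw [ae_restrict_iff' measurableSet_Ioc]
      filter_upwards [(ae_restrict_iff' measurableSet_Ioo).1 (good_ae hE)] with t ht hta
      have htG := ht ⟨hta.1, hta.2.trans_lt haT⟩
      have hp' := mass_one hQ hE htG
      have h6 : (Q.slice t).support.Nonempty :=
        Measure.nonempty_support (IsProbabilityMeasure.ne_zero _)
      unfold numSupp
      have h7 : (1 : ℕ∞) ≤ (Q.slice t).support.encard := one_le_encard_iff_nonempty.2 h6
      simpa using ENat.toENNReal_le.2 h7
    have h6 := lintegral_mono_ae h5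
    simpa using h6
  have h5 : (∫⁻ t in Ioo 0 T, numSupp (Q.slice t)) =
      (∫⁻ t in Ioc 0 a, numSupp (Q.slice t)) + ∫⁻ t in Ioo a T, numSupp (Q.slice t) := by
    rw [← lintegral_union measurableSet_Ioo]
    · rw [Ioc_union_Ioo_eq_Ioo haI.1.le haT]
    · rw [Set.disjoint_left]
      intro r hr hr'
      exact absurd hr.2 (not_le.2 hr'.1)
  unfold Pair.energy
  rw [h5, add_comm (e (T - a)), ENNReal.ofReal_add haI.1.le (e_pos (by linarith)).le, add_assoc]
  exact add_le_add h4 (h3.trans (add_le_add le_rfl (kin_le hQ _)))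

end Pool.Agent.Lib.MP_c57125_an
end
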